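import Mathlib

/-!
Definitions used in the statements about the preferential attachment graph process
on a fixed vertex set.
-/

namespace Pool.Agent.Work.MP_e39611_pr

open scoped Classical

/-- The `(j+1)`-st largest value of a finite family (and `0` if the family has at most `j`
members): the largest `y` such that more than `j` members are at least `y`. -/
noncomputable def nthLargest {K : Type} (x : K → ℝ) (j : ℕ) : ℝ :=
  sSup {y : ℝ | j < {k : K | y ≤ x k}.ncard}

/-- The sequence `(L_1, L_2, ...) / n^(2/3)` of ordered component sizes, indexed from `0`. -/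
noncomputable def scaled {n : ℕ} (G : SimpleGraph (Fin n)) (j : ℕ) : ℝ :=
  nthLargest (fun C : G.ConnectedComponent => (C.supp.ncard : ℝ)) j / (n : ℝ) ^ (2 / 3 : ℝ)

/-- The weight `(d_v + α)(d_w + α)` of a pair of distinct non-adjacent vertices, `0` otherwise. -/
noncomputable def wt {n : ℕ} (α : ℝ) (G : SimpleGraph (Fin n)) (v w : Fin n) : ℝ :=
  if v ≠ w ∧ ¬ G.Adj v w then
    (((G.neighborSet v).ncard : ℝ) + α) * (((G.neighborSet w).ncard : ℝ) + α)
  else 0

/-- Transition probability of the process from `G` to `G'`. -/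
noncomputable def step {n : ℕ} (α : ℝ) (G G' : SimpleGraph (Fin n)) : ℝ :=
  (∑ v, ∑ w, if G' = G ⊔ SimpleGraph.edge v w then wt α G v w else 0) / ∑ v, ∑ w, wt α G v w

/-- The law of the process after `m` steps, started from the empty graph. -/
noncomputable def paLaw (α : ℝ) (n m : ℕ) : SimpleGraph (Fin n) → ℝ :=
  (fun (μ : SimpleGraph (Fin n) → ℝ) (G' : SimpleGraph (Fin n)) => ∑ G, μ G * step α G G')^[m]
    (fun G => if G = ⊥ then 1 else 0)

/-- Expectation of `f` of the rescaled component sizes after `m` steps of the process. -/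
noncomputable def paExp (α : ℝ) (n m : ℕ) (f : (ℕ → ℝ) → ℝ) : ℝ :=
  ∑ G : SimpleGraph (Fin n), paLaw α n m G * f (scaled G)

/-- Expectation of `f` of the rescaled component sizes of a uniform graph with `m` edges. -/
noncomputable def erExp (n m : ℕ) (f : (ℕ → ℝ) → ℝ) : ℝ :=
  (∑ G : SimpleGraph (Fin n), if G.edgeSet.ncard = m then f (scaled G) else 0) /
    ({G : SimpleGraph (Fin n) | G.edgeSet.ncard = m}.ncard : ℝ)

end Pool.Agent.Work.MP_e39611_pr
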