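import Mathlib
import Pool.Agent.Work.MP_e39611_pr.Defs

-- merged part: Pool.Agent.Work.MP_e39611_pr.Core
section
-- merged part: Pool.Agent.Work.MP_e39611_pr.Prob
section
/-!
Simple random variables and the product of uniform distributions.
-/

namespace Pool.Agent.Work.MP_e39611_pr

open MeasureTheory ProbabilityTheory Set
open scoped Classical

section Sm
variable {Ω : Type} [MeasurableSpace Ω] {α β γ : Type}

/-- finite range and measurable fibres -/
structure Sm (X : Ω → α) : Prop where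
  fib : ∀ a, MeasurableSet {U | X U = a}
  fin : (Set.range X).Finite

lemma Sm.mset {X : Ω → α} (h : Sm X) (p : α → Prop) : MeasurableSet {U | p (X U)} := by
  have : {U | p (X U)} = ⋃ a ∈ (Set.range X ∩ {a | p a}), {U | X U = a} := by
    ext U
    simp only [mem_ofPred_eq, mem_iUnion, mem_inter_iff, mem_range, exists_prop]
    exact ⟨fun hp => ⟨X U, ⟨⟨U, rfl⟩, hp⟩, rfl⟩, fun ⟨a, ⟨_, ha⟩, e⟩ => e ▸ ha⟩
  rw [this]
  exact (h.fin.inter_of_left _).measurableSet_biUnion fun a _ => h.fib a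

lemma Sm.comp {X : Ω → α} (h : Sm X) (g : α → β) : Sm (fun U => g (X U)) :=
  ⟨fun b => h.mset (fun a => g a = b), by
    have : (Set.range fun U => g (X U)) = g '' Set.range X := by
      rw [← Set.range_comp]; rfl
    rw [this]; exact h.fin.image g⟩

lemma Sm.const (a : α) : Sm (fun _ : Ω => a) :=
  ⟨fun b => by by_cases h : a = b <;> simp [h], (Set.finite_singleton a).subset (by
    rintro _ ⟨U, rfl⟩; rfl)⟩

lemma Sm.bind {X : Ω → α} (h : Sm X) {Y : α → Ω → β} (hY : ∀ a, Sm (Y a)) :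
    Sm (fun U => Y (X U) U) := by
  constructor
  · intro b
    have : {U | Y (X U) U = b} = ⋃ a ∈ Set.range X, ({U | X U = a} ∩ {U | Y a U = b}) := by
      ext U
      simp only [mem_ofPred_eq, mem_iUnion, mem_inter_iff, mem_range, exists_prop]
      exact ⟨fun hp => ⟨X U, ⟨U, rfl⟩, rfl, hp⟩, fun ⟨a, _, e, ha⟩ => e ▸ ha⟩
    rw [this]
    exact h.fin.measurableSet_biUnion fun a _ => (h.fib a).inter ((hY a).fib b)
  · refine (h.fin.biUnion (fun a _ => (hY a).fin)).subset ?_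
    rintro _ ⟨U, rfl⟩
    simp only [mem_iUnion, mem_range, exists_prop]
    exact ⟨X U, ⟨U, rfl⟩, U, rfl⟩

lemma Sm.comp₂ {X : Ω → α} {Y : Ω → β} (h : Sm X) (hY : Sm Y) (g : α → β → γ) :
    Sm (fun U => g (X U) (Y U)) :=
  h.bind (Y := fun a U => g a (Y U)) fun a => hY.comp (g a)

lemma Sm.pi {κ : Type} [Finite κ] {X : κ → Ω → α} (h : ∀ k, Sm (X k)) :
    Sm (fun U k => X k U) := by
  constructor
  · intro f
    have : {U | (fun k => X k U) = f} = ⋂ k, {U | X k U = f k} := by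
      ext U; simp [funext_iff]
    rw [this]; exact MeasurableSet.iInter fun k => (h k).fib _
  · refine (Set.Finite.pi' (fun k => (h k).fin)).subset ?_
    rintro _ ⟨U, rfl⟩ k
    exact ⟨U, rfl⟩

lemma Sm.prop {p : Ω → Prop} (h : MeasurableSet {U | p U}) : Sm p := by
  refine ⟨fun a => ?_, Set.toFinite _⟩
  by_cases ha : a
  · have : {U | p U = a} = {U | p U} := by ext U; simp [ha]
    rwa [this]
  · have : {U | p U = a} = {U | p U}ᶜ := by ext U; simp [ha]
    rw [this]; exact h.compl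

lemma Sm.mset' {p : Ω → Prop} (h : Sm p) : MeasurableSet {U | p U} := h.mset id

lemma Sm.and {p q : Ω → Prop} (h : Sm p) (h' : Sm q) : Sm (fun U => p U ∧ q U) := h.comp₂ h' And
lemma Sm.or {p q : Ω → Prop} (h : Sm p) (h' : Sm q) : Sm (fun U => p U ∨ q U) := h.comp₂ h' Or
lemma Sm.not {p : Ω → Prop} (h : Sm p) : Sm (fun U => ¬ p U) := h.comp Not
lemma Sm.all {κ : Type} [Finite κ] {p : κ → Ω → Prop} (h : ∀ k, Sm (p k)) :
    Sm (fun U => ∀ k, p k U) := (Sm.pi h).comp (fun f => ∀ k, f k)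
lemma Sm.ex {κ : Type} [Finite κ] {p : κ → Ω → Prop} (h : ∀ k, Sm (p k)) :
    Sm (fun U => ∃ k, p k U) := (Sm.pi h).comp (fun f => ∃ k, f k)

lemma Sm.sum {κ M : Type} [AddCommMonoid M] (s : Finset κ) {X : κ → Ω → M}
    (h : ∀ k ∈ s, Sm (X k)) : Sm (fun U => ∑ k ∈ s, X k U) := by
  induction s using Finset.induction_on with
  | empty => simpa using Sm.const 0
  | insert a s ha ih =>
    simp only [Finset.sum_insert ha]
    exact (h a (by simp)).comp₂ (ih fun k hk => h k (by simp [hk])) (· + ·)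

lemma Sm.prod {κ M : Type} [CommMonoid M] (s : Finset κ) {X : κ → Ω → M}
    (h : ∀ k ∈ s, Sm (X k)) : Sm (fun U => ∏ k ∈ s, X k U) := by
  induction s using Finset.induction_on with
  | empty => simpa using Sm.const 1
  | insert a s ha ih =>
    simp only [Finset.prod_insert ha]
    exact (h a (by simp)).comp₂ (ih fun k hk => h k (by simp [hk])) (· * ·)

lemma Sm.allFin {κ : Type} (s : Finset κ) {p : κ → Ω → Prop} (h : ∀ k ∈ s, Sm (p k)) :
    Sm (fun U => ∀ k ∈ s, p k U) := by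
  have := Sm.all (κ := s) (p := fun k U => p k U) (fun k => h k k.2)
  simpa using this

lemma Sm.measurable [MeasurableSpace α] {X : Ω → α} (h : Sm X) : Measurable X :=
  fun s _ => h.mset (· ∈ s)

lemma Sm.integrable {E : Type} [NormedAddCommGroup E] {X : Ω → E} (h : Sm X)
    (P : Measure Ω) [IsFiniteMeasure P] : Integrable X P := by
  let f : SimpleFunc Ω E := ⟨X, fun a => h.fib a, h.fin⟩
  exact f.integrable_of_isFiniteMeasure

lemma Sm.ite {p : Ω → Prop} {X Y : Ω → α} (h : Sm p) (hX : Sm X) (hY : Sm Y)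
    [∀ U, Decidable (p U)] : Sm (fun U => if p U then X U else Y U) := by
  have := h.bind (Y := fun a U => if a then X U else Y U) (fun a => by
    by_cases ha : a <;> simp [ha, hX, hY])
  have e : (fun U => if p U then X U else Y U) =
      fun U => @_root_.ite _ (p U) (Classical.propDecidable _) (X U) (Y U) := by
    funext U; by_cases hp : p U <;> simp [hp]
  rw [e]; exact this

end Sm

/-- indicator of a proposition -/
noncomputable def ind (p : Prop) : ℝ := if p then 1 else 0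

lemma ind_pos {p : Prop} (h : p) : ind p = 1 := if_pos h
lemma ind_neg {p : Prop} (h : ¬ p) : ind p = 0 := if_neg h
lemma ind_nonneg (p : Prop) : 0 ≤ ind p := by unfold ind; split_ifs <;> norm_num
lemma ind_le_one (p : Prop) : ind p ≤ 1 := by unfold ind; split_ifs <;> norm_num
lemma ind_congr {p q : Prop} (h : p ↔ q) : ind p = ind q := by rw [propext h]

section Pr
variable {Ω : Type} [MeasurableSpace Ω] (P : Measure Ω) [IsProbabilityMeasure P]

/-- probability of an event -/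
noncomputable def Pr (p : Ω → Prop) : ℝ := P.real {U | p U}

omit [IsProbabilityMeasure P] in
lemma Pr_nonneg (p : Ω → Prop) : 0 ≤ Pr P p := measureReal_nonneg

lemma Pr_le_one (p : Ω → Prop) : Pr P p ≤ 1 := measureReal_le_one

lemma Pr_mono {p q : Ω → Prop} (h : ∀ U, p U → q U) : Pr P p ≤ Pr P q :=
  measureReal_mono (fun U hU => h U hU)

omit [IsProbabilityMeasure P] in
lemma Pr_congr {p q : Ω → Prop} (h : ∀ U, p U ↔ q U) : Pr P p = Pr P q := by
  have : p = q := funext fun U => propext (h U)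
  rw [this]

omit [IsProbabilityMeasure P] in
lemma Pr_or_le (p q : Ω → Prop) : Pr P (fun U => p U ∨ q U) ≤ Pr P p + Pr P q :=
  measureReal_union_le _ _

lemma Pr_true : Pr P (fun _ => True) = 1 := by simp [Pr]

omit [IsProbabilityMeasure P] in
lemma Pr_false : Pr P (fun _ => False) = 0 := by simp [Pr]

omit [IsProbabilityMeasure P] in
lemma Pr_exists_le {κ : Type} (s : Finset κ) (p : κ → Ω → Prop) :
    Pr P (fun U => ∃ k ∈ s, p k U) ≤ ∑ k ∈ s, Pr P (p k) := by
  induction s using Finset.induction_on with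
  | empty => simp [Pr]
  | insert a s ha ih =>
    rw [Finset.sum_insert ha]
    calc _ = Pr P (fun U => p a U ∨ ∃ k ∈ s, p k U) := Pr_congr P (by simp)
      _ ≤ _ := Pr_or_le P _ _
      _ ≤ _ := by gcongr

omit [IsProbabilityMeasure P] in
lemma Pr_eq_integral {p : Ω → Prop} (h : Sm p) [∀ U, Decidable (p U)] :
    Pr P p = ∫ U, (if p U then (1 : ℝ) else 0) ∂P := by
  rw [Pr, ← integral_indicator_one h.mset']
  congr 1; ext U; simp [Set.indicator]

omit [IsProbabilityMeasure P] in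
lemma integral_ind {p : Ω → Prop} (h : Sm p) : ∫ U, ind (p U) ∂P = Pr P p :=
  (Pr_eq_integral P h).symm

lemma Pr_not {p : Ω → Prop} (h : Sm p) : Pr P (fun U => ¬ p U) = 1 - Pr P p := by
  have := measureReal_compl (μ := P) h.mset'
  rw [probReal_univ] at this
  exact this

lemma integral_partition {α E : Type} [NormedAddCommGroup E] [NormedSpace ℝ E]
    {X : Ω → α} (hX : Sm X) (s : Finset α) (hs : ∀ U, X U ∈ s) {f : Ω → E} (hf : Sm f) :
    ∫ U, f U ∂P = ∑ a ∈ s, ∫ U, (if X U = a then f U else 0) ∂P := by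
  rw [← integral_finsetSum]
  · congr 1; ext U; simp [hs U]
  · intro a _
    exact ((hX.comp (· = a)).ite hf (Sm.const 0)).integrable P

lemma Pr_partition {α : Type} {X : Ω → α} (hX : Sm X) (s : Finset α) (hs : ∀ U, X U ∈ s)
    {p : Ω → Prop} (hp : Sm p) : Pr P p = ∑ a ∈ s, Pr P (fun U => X U = a ∧ p U) := by
  rw [Pr_eq_integral P hp, integral_partition P hX s hs (hp.ite (Sm.const 1) (Sm.const 0))]
  refine Finset.sum_congr rfl fun a _ => ?_
  rw [Pr_eq_integral P ((hX.comp (· = a)).and hp)]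
  congr 1; ext U; by_cases h1 : X U = a <;> simp [h1]

lemma integral_comp_eq_sum {α : Type} {X : Ω → α} (hX : Sm X) (s : Finset α) (hs : ∀ U, X U ∈ s)
    (g : α → ℝ) : ∫ U, g (X U) ∂P = ∑ a ∈ s, Pr P (fun U => X U = a) * g a := by
  rw [integral_partition P hX s hs (hX.comp g)]
  refine Finset.sum_congr rfl fun a _ => ?_
  rw [Pr_eq_integral P (hX.comp (· = a)), ← integral_mul_const]
  congr 1; ext U; by_cases h1 : X U = a <;> simp [h1]

lemma Pr_markov {f : Ω → ℝ} (hf : Sm f) (h0 : ∀ U, 0 ≤ f U) {c : ℝ} (hc : 0 < c)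
    {p : Ω → Prop} (hp : ∀ U, p U → c ≤ f U) : Pr P p ≤ (∫ U, f U ∂P) / c := by
  have h1 : Pr P p ≤ Pr P (fun U => c ≤ f U) := Pr_mono P hp
  have := mul_meas_ge_le_integral_of_nonneg (μ := P) (f := f) (Filter.Eventually.of_forall h0)
    (hf.integrable P) c
  rw [le_div_iff₀ hc]
  calc Pr P p * c ≤ Pr P (fun U => c ≤ f U) * c := by gcongr
    _ = c * P.real {x | c ≤ f x} := by rw [mul_comm]; rfl
    _ ≤ _ := this

lemma integral_close {f g : Ω → ℝ} (hf : Sm f) (hg : Sm g) {B ε : ℝ} (hε : 0 ≤ ε)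
    (hfB : ∀ U, |f U| ≤ B) (hgB : ∀ U, |g U| ≤ B) {p : Ω → Prop}
    (h : ∀ U, ¬ p U → |f U - g U| ≤ ε) :
    |∫ U, f U ∂P - ∫ U, g U ∂P| ≤ ε + 2 * B * Pr P p := by
  have hq : Sm (fun U => ε < |f U - g U|) := hf.comp₂ hg (fun a b => ε < |a - b|)
  have hB : 0 ≤ B := by
    have : Nonempty Ω := by
      by_contra hne
      rw [not_nonempty_iff] at hne
      have := measure_univ (μ := P)
      rw [Set.univ_eq_empty_iff.2 hne] at this
      simp at this
    obtain ⟨U⟩ := this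
    exact (abs_nonneg _).trans (hfB U)
  have h1 : Pr P (fun U => ε < |f U - g U|) ≤ Pr P p := by
    refine Pr_mono P fun U hU => ?_
    by_contra hn
    exact absurd (h U hn) (not_le.2 hU)
  rw [← integral_sub (hf.integrable P) (hg.integrable P)]
  calc _ ≤ ∫ U, |f U - g U| ∂P := abs_integral_le_integral_abs
    _ ≤ ∫ U, (ε + 2 * B * (if ε < |f U - g U| then (1 : ℝ) else 0)) ∂P := by
        refine integral_mono ((hf.comp₂ hg (fun a b => |a - b|)).integrable P)
          (((hq.ite (Sm.const 1) (Sm.const 0)).comp (fun x => ε + 2 * B * x)).integrable P)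
          fun U => ?_
        have := abs_sub (f U) (g U)
        have := hfB U
        have := hgB U
        dsimp only
        split_ifs with hh
        · linarith
        · linarith [not_lt.1 hh]
    _ = ε + 2 * B * Pr P (fun U => ε < |f U - g U|) := by
        rw [integral_add (integrable_const _)
          (((hq.ite (Sm.const 1) (Sm.const 0)).comp (fun x => 2 * B * x)).integrable P),
          integral_const_mul, Pr_eq_integral P hq]
        simp
    _ ≤ _ := by gcongr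

end Pr

/-- uniform distribution on `[0,1)` -/
noncomputable def unif : Measure ℝ := volume.restrict (Ico 0 1)

instance : IsProbabilityMeasure unif := ⟨by simp [unif]⟩

lemma unif_Iio {x : ℝ} (h0 : 0 ≤ x) (h1 : x ≤ 1) : unif.real (Iio x) = x := by
  have : Iio x ∩ Ico 0 1 = Ico 0 x := by
    ext y; simp only [mem_inter_iff, mem_Iio, mem_Ico]
    exact ⟨fun h => ⟨h.2.1, h.1⟩, fun h => ⟨h.2, h.1, h.2.trans_le h1⟩⟩
  rw [unif, measureReal_restrict_apply measurableSet_Iio, this]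
  simp [h0]

lemma unif_Ico {x y : ℝ} (h0 : 0 ≤ x) (hxy : x ≤ y) (h1 : y ≤ 1) : unif.real (Ico x y) = y - x := by
  have : Ico x y ∩ Ico 0 1 = Ico x y := by
    ext z; simp only [mem_inter_iff, mem_Ico]
    exact ⟨fun h => h.1, fun h => ⟨h, h0.trans h.1, h.2.trans_le h1⟩⟩
  rw [unif, measureReal_restrict_apply measurableSet_Ico, this]
  simp [hxy]

lemma unif_Ici {x : ℝ} (h0 : 0 ≤ x) (h1 : x ≤ 1) : unif.real (Ici x) = 1 - x := by
  have := measureReal_compl (μ := unif) (measurableSet_Iio (a := x))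
  rw [compl_Iio, unif_Iio h0 h1] at this
  simpa using this

section Prod
variable {ι : Type} [Fintype ι]

/-- product of uniform distributions -/
noncomputable def PP (ι : Type) [Fintype ι] : Measure (ι → ℝ) := Measure.pi fun _ => unif

instance : IsProbabilityMeasure (PP ι) := by unfold PP; infer_instance

omit [Fintype ι] in
lemma Sm.coord (i : ι) {S : Set ℝ} (hS : MeasurableSet S) : Sm (fun U : ι → ℝ => U i ∈ S) :=
  Sm.prop (measurable_pi_apply i hS)

omit [Fintype ι] in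
lemma Sm.lt (i : ι) (c : ℝ) : Sm (fun U : ι → ℝ => U i < c) := Sm.coord i measurableSet_Iio

lemma iIndep_coord : iIndepFun (fun (i : ι) (U : ι → ℝ) => U i) (PP ι) :=
  iIndepFun_pi (X := fun _ => id) (fun _ => aemeasurable_id)

lemma map_coord (i : ι) : (PP ι).map (fun U => U i) = unif :=
  (measurePreserving_eval (fun _ : ι => unif) i).map_eq

lemma integral_indep {𝕜 : Type} [RCLike 𝕜] (s : Set ι) {f g : (ι → ℝ) → 𝕜} (hf : Sm f)
    (hg : Sm g) (df : ∀ U U', (∀ i ∈ s, U i = U' i) → f U = f U')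
    (dg : ∀ U U', (∀ i, i ∉ s → U i = U' i) → g U = g U') :
    ∫ U, f U * g U ∂(PP ι) = (∫ U, f U ∂(PP ι)) * ∫ U, g U ∂(PP ι) := by
  let S : Finset ι := Finset.univ.filter (· ∈ s)
  let T : Finset ι := Finset.univ.filter (· ∉ s)
  have hST : Disjoint S T := Finset.disjoint_filter_filter_not _ _ _
  have h := (iIndep_coord (ι := ι)).indepFun_finset S T hST (fun i => measurable_pi_apply i)
  let e1 : (S → ℝ) → (ι → ℝ) := fun x i => if h : i ∈ S then x ⟨i, h⟩ else 0
  let e2 : (T → ℝ) → (ι → ℝ) := fun x i => if h : i ∈ T then x ⟨i, h⟩ else 0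
  have m1 : Measurable e1 := measurable_pi_lambda _ fun i => by
    by_cases h : i ∈ S
    · simp only [e1, h, dif_pos]; exact measurable_pi_apply _
    · simp only [e1, h, dif_neg, not_false_eq_true]; exact measurable_const
  have m2 : Measurable e2 := measurable_pi_lambda _ fun i => by
    by_cases h : i ∈ T
    · simp only [e2, h, dif_pos]; exact measurable_pi_apply _
    · simp only [e2, h, dif_neg, not_false_eq_true]; exact measurable_const
  have h2 := h.comp (hf.measurable.comp m1) (hg.measurable.comp m2)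
  have a1 : ((f ∘ e1) ∘ fun (a : ι → ℝ) (i : S) => a i) = f := by
    ext U; refine df _ _ fun i hi => ?_
    have : i ∈ S := by simp [S, hi]
    simp [e1, this]
  have a2 : ((g ∘ e2) ∘ fun (a : ι → ℝ) (i : T) => a i) = g := by
    ext U; refine dg _ _ fun i hi => ?_
    have : i ∈ T := by simp [T, hi]
    simp [e2, this]
  rw [a1, a2] at h2
  exact h2.integral_fun_mul_eq_mul_integral hf.measurable.aestronglyMeasurable
    hg.measurable.aestronglyMeasurable

lemma Pr_indep (s : Set ι) {p q : (ι → ℝ) → Prop} (hp : Sm p) (hq : Sm q)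
    (dp : ∀ U U', (∀ i ∈ s, U i = U' i) → (p U ↔ p U'))
    (dq : ∀ U U', (∀ i, i ∉ s → U i = U' i) → (q U ↔ q U')) :
    Pr (PP ι) (fun U => p U ∧ q U) = Pr (PP ι) p * Pr (PP ι) q := by
  rw [Pr_eq_integral _ hp, Pr_eq_integral _ hq, Pr_eq_integral _ (hp.and hq),
    ← integral_indep s (hp.ite (Sm.const 1) (Sm.const 0)) (hq.ite (Sm.const 1) (Sm.const 0))]
  · congr 1; ext U; by_cases h1 : p U <;> by_cases h2 : q U <;> simp [h1, h2]
  · intro U U' h; simp [dp U U' h]
  · intro U U' h; simp [dq U U' h]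

lemma integral_prod_coord {𝕜 : Type} [RCLike 𝕜] {κ : Type} (s : Finset κ) (e : κ → ι)
    (he : Set.InjOn e s) (g : κ → ℝ → 𝕜) (hg : ∀ k ∈ s, Measurable (g k)) :
    ∫ U, ∏ k ∈ s, g k (U (e k)) ∂(PP ι) = ∏ k ∈ s, ∫ u, g k u ∂unif := by
  have inj : Function.Injective (fun k : s => e k) := fun a b h =>
    Subtype.ext (he a.2 b.2 h)
  have h := ((iIndep_coord (ι := ι)).precomp inj).integral_fun_prod_comp
    (f := fun (k : s) => g k) (fun k => (measurable_pi_apply _).aemeasurable)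
    (fun k => (hg k k.2).aestronglyMeasurable)
  rw [← Finset.prod_coe_sort s (fun k => ∫ u, g k u ∂unif)]
  simp_rw [← fun U : ι → ℝ => Finset.prod_coe_sort s (fun k => g k (U (e k)))]
  rw [h]
  refine Finset.prod_congr rfl fun k _ => ?_
  rw [← map_coord (e k), integral_map (measurable_pi_apply _).aemeasurable
    (hg k k.2).aestronglyMeasurable]

lemma Pr_forall_coord {κ : Type} (s : Finset κ) (e : κ → ι) (he : Set.InjOn e s)
    (S : κ → Set ℝ) (hS : ∀ k, MeasurableSet (S k)) :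
    Pr (PP ι) (fun U => ∀ k ∈ s, U (e k) ∈ S k) = ∏ k ∈ s, unif.real (S k) := by
  rw [Pr_eq_integral _ (Sm.allFin s fun k _ => Sm.coord (e k) (hS k))]
  have := integral_prod_coord (𝕜 := ℝ) s e he (fun k => (S k).indicator 1)
    (fun k _ => measurable_one.indicator (hS k))
  simp only [integral_indicator_one (hS _)] at this
  rw [← this]
  congr 1; ext U
  simp only [Set.indicator, Pi.one_apply, Finset.prod_ite_zero, Finset.prod_const_one]

/-- conditional second moment -/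
lemma cond_second_moment {κ : Type} (s : Finset κ) (e : κ → ι) (he : Set.InjOn e s)
    (B J : κ → Set ℝ) (hB : ∀ k, MeasurableSet (B k)) (hJ : ∀ k, MeasurableSet (J k))
    (hJB : ∀ k, J k ⊆ B k) (c π : κ → ℝ) (hπ : ∀ k ∈ s, unif.real (J k) = π k * unif.real (B k)) :
    ∫ U, (if ∀ k ∈ s, U (e k) ∈ B k then (1 : ℝ) else 0) *
        (∑ k ∈ s, c k * ((if U (e k) ∈ J k then (1 : ℝ) else 0) - π k)) ^ 2 ∂(PP ι) =
      (∏ k ∈ s, unif.real (B k)) * ∑ k ∈ s, c k ^ 2 * (π k * (1 - π k)) := by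
  let b : κ → ℝ → ℝ := fun k => (B k).indicator 1
  let f : κ → ℝ → ℝ := fun k u => c k * ((J k).indicator 1 u - π k)
  have mb : ∀ k, Measurable (b k) := fun k => measurable_one.indicator (hB k)
  have mf : ∀ k, Measurable (f k) := fun k =>
    ((measurable_one.indicator (hJ k)).sub_const _).const_mul _
  have ib : ∀ k, Integrable (b k) unif := fun k => (integrable_const 1).indicator (hB k)
  have iJ : ∀ k, Integrable ((J k).indicator (1 : ℝ → ℝ)) unif := fun k =>
    (integrable_const 1).indicator (hJ k)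
  have e0 : ∀ k, ∫ u, b k u ∂unif = unif.real (B k) := fun k => integral_indicator_one (hB k)
  have e1 : ∀ k ∈ s, ∫ u, b k u * f k u ∂unif = 0 := by
    intro k hk
    have : ∀ u, b k u * f k u = c k * (J k).indicator 1 u - c k * π k * b k u := by
      intro u
      by_cases h1 : u ∈ J k
      · simp [b, f, h1, hJB k h1]; ring
      · by_cases h2 : u ∈ B k <;> simp [b, f, h1, h2]
    simp_rw [this]
    rw [integral_sub ((iJ k).const_mul _) ((ib k).const_mul _), integral_const_mul,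
      integral_const_mul, integral_indicator_one (hJ k), e0, hπ k hk]
    ring
  have e2 : ∀ k ∈ s, ∫ u, b k u * f k u * f k u ∂unif =
      unif.real (B k) * (c k ^ 2 * (π k * (1 - π k))) := by
    intro k hk
    have : ∀ u, b k u * f k u * f k u =
        c k ^ 2 * (1 - 2 * π k) * (J k).indicator 1 u + c k ^ 2 * π k ^ 2 * b k u := by
      intro u
      by_cases h1 : u ∈ J k
      · simp [b, f, h1, hJB k h1]; ring
      · by_cases h2 : u ∈ B k <;> simp [b, f, h1, h2]; ring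
    simp_rw [this]
    rw [integral_add ((iJ k).const_mul _) ((ib k).const_mul _), integral_const_mul,
      integral_const_mul, integral_indicator_one (hJ k), e0, hπ k hk]
    ring
  let g : κ → κ → κ → ℝ → ℝ := fun i j k u =>
    b k u * (if k = i then f k u else 1) * (if k = j then f k u else 1)
  have mg : ∀ i j k, Measurable (g i j k) := fun i j k => by
    refine ((mb k).mul ?_).mul ?_
    · by_cases h : k = i <;> simp [h, mf]
    · by_cases h : k = j <;> simp [h, mf]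
  have key : ∀ U : ι → ℝ, (if ∀ k ∈ s, U (e k) ∈ B k then (1 : ℝ) else 0) *
        (∑ k ∈ s, c k * ((if U (e k) ∈ J k then (1 : ℝ) else 0) - π k)) ^ 2 =
      ∑ i ∈ s, ∑ j ∈ s, ∏ k ∈ s, g i j k (U (e k)) := by
    intro U
    rw [sq, Finset.sum_mul_sum, Finset.mul_sum]
    refine Finset.sum_congr rfl fun i hi => ?_
    rw [Finset.mul_sum]
    refine Finset.sum_congr rfl fun j hj => ?_
    simp only [g, Finset.prod_mul_distrib, Finset.prod_ite_eq', hi, hj, if_true]
    simp only [b, f, Set.indicator, Pi.one_apply, Finset.prod_ite_zero, Finset.prod_const_one]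
    ring
  have smg : ∀ i j, Sm (fun U : ι → ℝ => ∏ k ∈ s, g i j k (U (e k))) := fun i j =>
    Sm.prod s fun k _ => by
      have := (Sm.coord (e k) (hB k)).comp₂ (Sm.coord (e k) (hJ k)) (fun p q : Prop =>
        (if p then (1 : ℝ) else 0) *
          (if k = i then c k * ((if q then (1 : ℝ) else 0) - π k) else 1) *
          (if k = j then c k * ((if q then (1 : ℝ) else 0) - π k) else 1))
      simpa [g, b, f, Set.indicator] using this
  simp_rw [key]
  rw [integral_finsetSum _ fun i _ => (Sm.sum s fun j _ => smg i j).integrable _,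
    Finset.mul_sum]
  refine Finset.sum_congr rfl fun i hi => ?_
  rw [integral_finsetSum _ fun j _ => (smg i j).integrable _, Finset.sum_eq_single i]
  · rw [integral_prod_coord s e he _ (fun k _ => mg i i k), ← Finset.mul_prod_erase s _ hi,
      ← Finset.mul_prod_erase s _ hi]
    have : ∏ k ∈ s.erase i, ∫ u, g i i k u ∂unif = ∏ k ∈ s.erase i, unif.real (B k) := by
      refine Finset.prod_congr rfl fun k hk => ?_
      simp [g, (Finset.mem_erase.1 hk).1, e0]
    rw [this]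
    simp only [g, if_true, e2 i hi]
    ring
  · intro j _ hji
    rw [integral_prod_coord s e he _ (fun k _ => mg i j k)]
    refine Finset.prod_eq_zero hi ?_
    simp [g, hji.symm, e1 i hi]
  · intro h; exact absurd hi h

/-- conditional Chebyshev inequality -/
lemma cond_cheb {κ : Type} (s : Finset κ) (e : κ → ι) (he : Set.InjOn e s)
    (B J : κ → Set ℝ) (hB : ∀ k, MeasurableSet (B k)) (hJ : ∀ k, MeasurableSet (J k))
    (hJB : ∀ k, J k ⊆ B k) (c π : κ → ℝ) (hπ : ∀ k ∈ s, unif.real (J k) = π k * unif.real (B k))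
    {η : ℝ} (hη : 0 < η) :
    Pr (PP ι) (fun U => (∀ k ∈ s, U (e k) ∈ B k) ∧
        η ≤ |∑ k ∈ s, c k * (ind (U (e k) ∈ J k) - π k)|) ≤
      (∏ k ∈ s, unif.real (B k)) * ((∑ k ∈ s, c k ^ 2 * π k) / η ^ 2) := by
  unfold ind
  have h1 : Sm (fun U : ι → ℝ => ∀ k ∈ s, U (e k) ∈ B k) :=
    Sm.allFin s fun k _ => Sm.coord (e k) (hB k)
  have h2 : Sm (fun U : ι → ℝ =>
      ∑ k ∈ s, c k * ((if U (e k) ∈ J k then (1 : ℝ) else 0) - π k)) :=
    Sm.sum s fun k _ => ((Sm.coord (e k) (hJ k)).ite (Sm.const 1) (Sm.const 0)).comp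
      (fun x => c k * (x - π k))
  refine (Pr_markov (PP ι) ((h1.ite (Sm.const (1 : ℝ)) (Sm.const 0)).comp₂ h2
    (fun a b => a * b ^ 2)) (fun U => by positivity) (c := η ^ 2) (by positivity) ?_).trans ?_
  · rintro U ⟨hU, hU'⟩
    rw [if_pos hU, one_mul, ← sq_abs (∑ k ∈ s, _)]
    gcongr
  · rw [cond_second_moment s e he B J hB hJ hJB c π hπ, mul_div_assoc]
    gcongr with k hk
    linarith only [sq_nonneg (π k), sq_nonneg (π k)]

lemma cheb {κ : Type} (s : Finset κ) (e : κ → ι) (he : Set.InjOn e s)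
    (J : κ → Set ℝ) (hJ : ∀ k, MeasurableSet (J k)) (c π : κ → ℝ)
    (hπ : ∀ k ∈ s, unif.real (J k) = π k) {η : ℝ} (hη : 0 < η) :
    Pr (PP ι) (fun U => η ≤ |∑ k ∈ s, c k * (ind (U (e k) ∈ J k) - π k)|) ≤
      (∑ k ∈ s, c k ^ 2 * π k) / η ^ 2 := by
  have := cond_cheb s e he (fun _ => univ) J (fun _ => MeasurableSet.univ) hJ
    (fun _ => subset_univ _) c π (fun k hk => by simp [hπ k hk]) hη
  simpa using this

end Prod

end Pool.Agent.Work.MP_e39611_pr
end

-- merged part: Pool.Agent.Work.MP_e39611_pr.Lfp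
section
/-!
Least fixed points of random monotone maps; the law of a chain of least fixed points is
determined by the boundary probabilities.
-/

namespace Pool.Agent.Work.MP_e39611_pr

open MeasureTheory Set
open scoped Classical

set_option linter.unusedSectionVars false

variable {V : Type} [Fintype V] [DecidableEq V]

/-- least fixed point of `S ↦ W ∩ Φ S` -/
noncomputable def lf (Φ : Finset V → Finset V) (W : Finset V) : Finset V :=
  W.filter (fun v => ∀ S : Finset V, W ∩ Φ S ⊆ S → v ∈ S)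

lemma lf_subset (Φ : Finset V → Finset V) (W : Finset V) : lf Φ W ⊆ W := Finset.filter_subset _ _

lemma lf_le {Φ : Finset V → Finset V} {W S : Finset V} (h : W ∩ Φ S ⊆ S) : lf Φ W ⊆ S :=
  fun _ hv => (Finset.mem_filter.1 hv).2 S h

lemma lf_fix {Φ : Finset V → Finset V} (hΦ : Monotone Φ) (W : Finset V) :
    W ∩ Φ (lf Φ W) = lf Φ W := by
  have h1 : W ∩ Φ (lf Φ W) ⊆ lf Φ W := fun v hv =>
    Finset.mem_filter.2 ⟨(Finset.mem_inter.1 hv).1, fun S hS => hS (Finset.mem_inter.2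
      ⟨(Finset.mem_inter.1 hv).1, hΦ (lf_le hS) (Finset.mem_inter.1 hv).2⟩)⟩
  exact Finset.Subset.antisymm h1 (lf_le (Finset.inter_subset_inter (Finset.Subset.refl _) (hΦ h1)))

lemma lf_mono {Φ Ψ : Finset V → Finset V} (hΨ : Monotone Ψ) (h : ∀ S, Φ S ⊆ Ψ S) {T W : Finset V}
    (hTW : T ⊆ W) : lf Φ T ⊆ lf Ψ W := by
  refine lf_le ?_
  conv_rhs => rw [← lf_fix hΨ W]
  exact Finset.inter_subset_inter hTW (h _)

lemma lf_restrict {Φ : Finset V → Finset V} (hΦ : Monotone Φ) {T W : Finset V} (hTW : T ⊆ W)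
    (h : lf Φ W ⊆ T) : lf Φ T = lf Φ W := by
  have h1 : lf Φ T ⊆ lf Φ W := lf_mono hΦ (fun _ => Finset.Subset.refl _) hTW
  refine Finset.Subset.antisymm h1 (lf_le fun v hv => ?_)
  rw [← lf_fix hΦ T]
  have h2 : v ∈ lf Φ W := by
    rw [← lf_fix hΦ W]
    exact Finset.mem_inter.2 ⟨(Finset.mem_inter.1 hv).1, hΦ h1 (Finset.mem_inter.1 hv).2⟩
  exact Finset.mem_inter.2 ⟨h h2, (Finset.mem_inter.1 hv).2⟩

lemma lf_eq_iff {Φ : Finset V → Finset V} (hΦ : Monotone Φ) {T W : Finset V} (hTW : T ⊆ W) :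
    lf Φ W = T ↔ lf Φ T = T ∧ ∀ v ∈ W \ T, v ∉ Φ T := by
  constructor
  · intro h
    refine ⟨by rw [lf_restrict hΦ hTW h.le, h], fun v hv hv' => ?_⟩
    have := lf_fix hΦ W
    rw [h] at this
    have h2 : v ∈ W ∩ Φ T := Finset.mem_inter.2 ⟨(Finset.mem_sdiff.1 hv).1, hv'⟩
    rw [this] at h2
    exact (Finset.mem_sdiff.1 hv).2 h2
  · rintro ⟨h1, h2⟩
    have h3 : lf Φ W ⊆ T := lf_le fun v hv => by
      by_contra hc
      exact h2 v (Finset.mem_sdiff.2 ⟨(Finset.mem_inter.1 hv).1, hc⟩) (Finset.mem_inter.1 hv).2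
    rw [← lf_restrict hΦ hTW h3, h1]

lemma lf_congr {Φ Ψ : Finset V → Finset V} (hΦ : Monotone Φ) (hΨ : Monotone Ψ) {T : Finset V}
    (h : ∀ S ⊆ T, T ∩ Φ S = T ∩ Ψ S) : lf Φ T = lf Ψ T := by
  refine Finset.Subset.antisymm (lf_le ?_) (lf_le ?_)
  · rw [h _ (lf_subset _ _), lf_fix hΨ]
  · rw [← h _ (lf_subset _ _), lf_fix hΦ]

variable {Ω : Type} [MeasurableSpace Ω] (P : Measure Ω) [IsProbabilityMeasure P]

/-- a random family of monotone maps with prescribed boundary probabilities -/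
structure ChainModel (Φ : ℕ → Ω → Finset V → Finset V) (h : ℕ → Finset V → Finset V → ℝ) :
    Prop where
  mono : ∀ j U, Monotone (Φ j U)
  lev : ∀ i j U S, i ≤ j → Φ i U S ⊆ Φ j U S
  sm : ∀ j S, Sm (fun U => Φ j U S)
  fac : ∀ (J : ℕ) (S : ℕ → Finset V) (T W : Finset V), T ⊆ W →
    Pr P (fun U => (∀ j < J + 1, lf (Φ j U) T = S j) ∧ ∀ v ∈ W \ T, v ∉ Φ J U T) =
      Pr P (fun U => ∀ j < J + 1, lf (Φ j U) T = S j) * h J T W

variable {P}

omit [IsProbabilityMeasure P] in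
lemma ChainModel.sm_lf {Φ : ℕ → Ω → Finset V → Finset V} {h : ℕ → Finset V → Finset V → ℝ}
    (M : ChainModel P Φ h) (j : ℕ) (W : Finset V) : Sm (fun U => lf (Φ j U) W) :=
  (Sm.pi (M.sm j)).comp (fun φ => lf φ W)

omit [IsProbabilityMeasure P] in
lemma ChainModel.sm_ev {Φ : ℕ → Ω → Finset V → Finset V} {h : ℕ → Finset V → Finset V → ℝ}
    (M : ChainModel P Φ h) (J : ℕ) (W : Finset V) (S : ℕ → Finset V) :
    Sm (fun U => ∀ j < J, lf (Φ j U) W = S j) := by
  have := Sm.allFin (Finset.range J) (p := fun j U => lf (Φ j U) W = S j)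
    (fun j _ => (M.sm_lf j W).comp (· = S j))
  simpa using this

omit [IsProbabilityMeasure P] in
lemma ChainModel.step {Φ : ℕ → Ω → Finset V → Finset V} {h : ℕ → Finset V → Finset V → ℝ}
    (M : ChainModel P Φ h) (J : ℕ) (S : ℕ → Finset V) {T W : Finset V} (hTW : T ⊆ W) :
    Pr P (fun U => lf (Φ J U) W = T ∧ ∀ j < J, lf (Φ j U) W = S j) =
      Pr P (fun U => ∀ j < J + 1, lf (Φ j U) T = Function.update S J T j) * h J T W := by
  rw [← M.fac J _ T W hTW]
  refine Pr_congr P fun U => ?_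
  have key : lf (Φ J U) W = T → ∀ j < J, lf (Φ j U) T = lf (Φ j U) W := fun e j hj =>
    lf_restrict (M.mono j U) hTW (e ▸ lf_mono (M.mono J U) (fun S => M.lev j J U S hj.le)
      (Finset.Subset.refl _))
  constructor
  · rintro ⟨e, h2⟩
    have := (lf_eq_iff (M.mono J U) hTW).1 e
    refine ⟨fun j hj => ?_, this.2⟩
    rcases (Nat.lt_succ_iff.1 hj).eq_or_lt with rfl | hj
    · simp [this.1]
    · rw [Function.update_of_ne hj.ne, key e j hj, h2 j hj]
  · rintro ⟨h1, h2⟩
    have e : lf (Φ J U) W = T := (lf_eq_iff (M.mono J U) hTW).2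
      ⟨by simpa using h1 J (Nat.lt_succ_self J), h2⟩
    refine ⟨e, fun j hj => ?_⟩
    rw [← key e j hj, h1 j (by omega), Function.update_of_ne hj.ne]

theorem chain_law {Φ Ψ : ℕ → Ω → Finset V → Finset V} {h : ℕ → Finset V → Finset V → ℝ}
    (M : ChainModel P Φ h) (M' : ChainModel P Ψ h) (J : ℕ) :
    ∀ (W : Finset V) (S : ℕ → Finset V),
      Pr P (fun U => ∀ j < J, lf (Φ j U) W = S j) =
        Pr P (fun U => ∀ j < J, lf (Ψ j U) W = S j) := by
  induction J with
  | zero => intro W S; simp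
  | succ J ih =>
    intro W
    induction W using Finset.strongInduction with
    | H W ihW =>
    intro S
    have split : ∀ {Φ : ℕ → Ω → Finset V → Finset V},
        Pr P (fun U => ∀ j < J + 1, lf (Φ j U) W = S j) =
        Pr P (fun U => lf (Φ J U) W = S J ∧ ∀ j < J, lf (Φ j U) W = S j) := by
      intro Φ
      refine Pr_congr P fun U => ⟨fun h => ⟨h J (by omega), fun j hj => h j (by omega)⟩,
        fun h j hj => ?_⟩
      rcases (Nat.lt_succ_iff.1 hj).eq_or_lt with rfl | hj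
      · exact h.1
      · exact h.2 j hj
    rw [split, split]
    have hlt : ∀ T, T ⊂ W → Pr P (fun U => lf (Φ J U) W = T ∧ ∀ j < J, lf (Φ j U) W = S j) =
        Pr P (fun U => lf (Ψ J U) W = T ∧ ∀ j < J, lf (Ψ j U) W = S j) := by
      intro T hT
      rw [M.step J S hT.subset, M'.step J S hT.subset, ihW T hT]
    by_cases h1 : S J ⊆ W
    · rcases h1.eq_or_ssubset with e | e
      · have a := Pr_partition P (M.sm_lf J W) W.powerset
          (fun U => Finset.mem_powerset.2 (lf_subset _ _)) (M.sm_ev J W S)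
        have b := Pr_partition P (M'.sm_lf J W) W.powerset
          (fun U => Finset.mem_powerset.2 (lf_subset _ _)) (M'.sm_ev J W S)
        rw [← Finset.add_sum_erase _ _ (Finset.mem_powerset_self W)] at a b
        have c : ∑ T ∈ W.powerset.erase W,
            Pr P (fun U => lf (Φ J U) W = T ∧ ∀ j < J, lf (Φ j U) W = S j) =
            ∑ T ∈ W.powerset.erase W,
            Pr P (fun U => lf (Ψ J U) W = T ∧ ∀ j < J, lf (Ψ j U) W = S j) :=
          Finset.sum_congr rfl fun T hT => hlt T (Finset.ssubset_iff_subset_ne.2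
            ⟨Finset.mem_powerset.1 (Finset.mem_erase.1 hT).2, (Finset.mem_erase.1 hT).1⟩)
        rw [e]
        linarith only [a, b, c, ih, ih W S]
      · exact hlt _ e
    · have z : ∀ {Φ : ℕ → Ω → Finset V → Finset V},
          Pr P (fun U => lf (Φ J U) W = S J ∧ ∀ j < J, lf (Φ j U) W = S j) = 0 := by
        intro Φ
        rw [← Pr_false P]
        exact Pr_congr P fun U => ⟨fun h => h1 (h.1 ▸ lf_subset _ _), False.elim⟩
      rw [z, z]

theorem chain_fiber {Φ Ψ : ℕ → Ω → Finset V → Finset V} {h : ℕ → Finset V → Finset V → ℝ}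
    (M : ChainModel P Φ h) (M' : ChainModel P Ψ h) (J : ℕ) (S : Fin J → Finset V) :
    Pr P (fun U => (fun j : Fin J => lf (Φ j U) Finset.univ) = S) =
      Pr P (fun U => (fun j : Fin J => lf (Ψ j U) Finset.univ) = S) := by
  have := chain_law M M' J Finset.univ (fun j => if h : j < J then S ⟨j, h⟩ else ∅)
  have aux : ∀ {Φ : ℕ → Ω → Finset V → Finset V},
      Pr P (fun U => (fun j : Fin J => lf (Φ j U) Finset.univ) = S) =
      Pr P (fun U => ∀ j < J, lf (Φ j U) Finset.univ =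
        (fun j => if h : j < J then S ⟨j, h⟩ else ∅) j) := by
    intro Φ
    refine Pr_congr P fun U => ⟨fun e j hj => ?_, fun e => funext fun j => ?_⟩
    · simp only [hj, dif_pos]; exact congrFun e ⟨j, hj⟩
    · simpa using e j j.2
  rw [aux, aux, this]

theorem chain_integral {Φ Ψ : ℕ → Ω → Finset V → Finset V} {h : ℕ → Finset V → Finset V → ℝ}
    (M : ChainModel P Φ h) (M' : ChainModel P Ψ h) (J : ℕ) (H : (Fin J → Finset V) → ℝ) :
    ∫ U, H (fun j : Fin J => lf (Φ j U) Finset.univ) ∂P =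
      ∫ U, H (fun j : Fin J => lf (Ψ j U) Finset.univ) ∂P := by
  rw [integral_comp_eq_sum P (Sm.pi fun j : Fin J => M.sm_lf j Finset.univ) Finset.univ
      (fun _ => Finset.mem_univ _) H,
    integral_comp_eq_sum P (Sm.pi fun j : Fin J => M'.sm_lf j Finset.univ) Finset.univ
      (fun _ => Finset.mem_univ _) H]
  exact Finset.sum_congr rfl fun S _ => by rw [chain_fiber M M']

theorem chain_Pr {Φ Ψ : ℕ → Ω → Finset V → Finset V} {h : ℕ → Finset V → Finset V → ℝ}
    (M : ChainModel P Φ h) (M' : ChainModel P Ψ h) (J : ℕ) (H : (Fin J → Finset V) → Prop) :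
    Pr P (fun U => H (fun j : Fin J => lf (Φ j U) Finset.univ)) =
      Pr P (fun U => H (fun j : Fin J => lf (Ψ j U) Finset.univ)) := by
  rw [Pr_eq_integral P ((Sm.pi fun j : Fin J => M.sm_lf j Finset.univ).comp H),
    Pr_eq_integral P ((Sm.pi fun j : Fin J => M'.sm_lf j Finset.univ).comp H)]
  exact chain_integral M M' J (fun S => if H S then 1 else 0)

end Pool.Agent.Work.MP_e39611_pr
end

-- merged part: Pool.Agent.Work.MP_e39611_pr.Model
section
/-!
The rank one random graph with seeds, the clock model, and the identity in law between them.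
-/

namespace Pool.Agent.Work.MP_e39611_pr

open MeasureTheory Set Real
open scoped Classical

set_option linter.unusedSectionVars false

variable {V : Type} [Fintype V] [DecidableEq V]

/-- index set of the uniform variables -/
abbrev Ix (V : Type) := Sym2 V ⊕ V

/-- edge intensity -/
noncomputable def xe (w : V → ℝ) (t : ℝ) : Sym2 V → ℝ :=
  Sym2.lift ⟨fun u v => w u * w v / t ^ 3, fun u v => by ring⟩

@[simp] lemma xe_mk (w : V → ℝ) (t : ℝ) (u v : V) : xe w t s(u, v) = w u * w v / t ^ 3 := rfl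

lemma xe_nonneg {w : V → ℝ} (hw : ∀ v, 0 ≤ w v) {t : ℝ} (ht : 0 < t) (e : Sym2 V) :
    0 ≤ xe w t e := by
  induction e using Sym2.ind with
  | h u v => have := hw u; have := hw v; rw [xe_mk]; positivity

/-- the random graph -/
noncomputable def gr (w : V → ℝ) (t : ℝ) (U : Ix V → ℝ) : SimpleGraph V :=
  SimpleGraph.fromEdgeSet {e | U (Sum.inl e) < 1 - exp (-xe w t e)}

lemma gr_adj (w : V → ℝ) (t : ℝ) (U : Ix V → ℝ) (u v : V) :
    (gr w t U).Adj u v ↔ U (Sum.inl s(u, v)) < 1 - exp (-(w u * w v / t ^ 3)) ∧ u ≠ v := by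
  simp [gr]

lemma sm_gr (w : V → ℝ) (t : ℝ) : Sm (gr w t) :=
  (Sm.pi fun e : Sym2 V => Sm.lt (Sum.inl e : Ix V) (1 - exp (-xe w t e))).comp
    (fun f => SimpleGraph.fromEdgeSet {e | f e})

lemma gr_congr (w : V → ℝ) (t : ℝ) {U U' : Ix V → ℝ}
    (h : ∀ e, U (Sum.inl e) = U' (Sum.inl e)) : gr w t U = gr w t U' := by
  simp [gr, h]

/-- arrival probability -/
noncomputable def gam (w : V → ℝ) (t a s : ℝ) (v : V) : ℝ := 1 - exp (-(a / t ^ 2 + w v * s / t))

/-- vertices arrived by time `s` -/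
noncomputable def arr (w : V → ℝ) (t a s : ℝ) (U : Ix V → ℝ) : Finset V :=
  Finset.univ.filter (fun v => U (Sum.inr v) < gam w t a s v)

/-- rescaled weight -/
noncomputable def ym (w : V → ℝ) (t : ℝ) (S : Finset V) : ℝ := (∑ v ∈ S, w v) / t ^ 2

/-- rescaled size -/
noncomputable def cm (t : ℝ) (S : Finset V) : ℝ := (S.card : ℝ) / t ^ 2

/-- seeds of level `a` -/
def seed (t a : ℝ) (U : Ix V → ℝ) (v : V) : Prop := U (Sum.inr v) < 1 - exp (-(a / t ^ 2))

/-- one step of the exploration in the graph -/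
noncomputable def PhiG (w : V → ℝ) (t a : ℝ) (U : Ix V → ℝ) (S : Finset V) : Finset V :=
  Finset.univ.filter (fun v => seed t a U v ∨ ∃ u ∈ S, (gr w t U).Adj u v)

/-- one step of the exploration with clocks -/
noncomputable def PhiC (w : V → ℝ) (t a : ℝ) (U : Ix V → ℝ) (S : Finset V) : Finset V :=
  arr w t a (ym w t S) U

/-- boundary probability -/
noncomputable def bd (w : V → ℝ) (t a : ℝ) (T W : Finset V) : ℝ :=
  ∏ v ∈ W \ T, exp (-(a / t ^ 2 + w v * ym w t T / t))

lemma sm_filter {Ω : Type} [MeasurableSpace Ω] {p : V → Ω → Prop} (h : ∀ v, Sm (p v))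
    [∀ U, DecidablePred fun v => p v U] :
    Sm (fun U => Finset.univ.filter (fun v => p v U)) := by
  have := (Sm.pi h).comp (fun f : V → Prop => Finset.univ.filter f)
  have e : (fun U => Finset.univ.filter (fun v => p v U)) =
      fun U => @Finset.filter V (fun v => p v U) (fun _ => Classical.propDecidable _)
        Finset.univ := by
    funext U; ext v; simp
  rw [e]; exact this

lemma sm_arr (w : V → ℝ) (t a s : ℝ) : Sm (arr w t a s) := sm_filter fun _ => Sm.lt _ _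

lemma sm_seed (t a : ℝ) (v : V) : Sm (fun U : Ix V → ℝ => seed t a U v) := Sm.lt _ _

lemma one_sub_exp_nonneg {x : ℝ} (hx : 0 ≤ x) : 0 ≤ 1 - exp (-x) := by
  have := exp_le_one_iff.2 (neg_nonpos.2 hx); linarith

lemma one_sub_exp_le_one (x : ℝ) : 1 - exp (-x) ≤ 1 := by linarith [exp_pos (-x)]

lemma one_sub_exp_mono {x y : ℝ} (h : x ≤ y) : 1 - exp (-x) ≤ 1 - exp (-y) := by
  have := exp_le_exp.2 (neg_le_neg h); linarith

lemma gam_mono {w : V → ℝ} (hw : ∀ v, 0 ≤ w v) {t : ℝ} (ht : 0 < t) {a a' s s' : ℝ}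
    (ha : a ≤ a') (hs : s ≤ s') (v : V) : gam w t a s v ≤ gam w t a' s' v := by
  refine one_sub_exp_mono ?_
  have := hw v
  gcongr

lemma gam_nonneg {w : V → ℝ} (hw : ∀ v, 0 ≤ w v) {t : ℝ} (ht : 0 < t) {a s : ℝ}
    (ha : 0 ≤ a) (hs : 0 ≤ s) (v : V) : 0 ≤ gam w t a s v :=
  one_sub_exp_nonneg (by have := hw v; positivity)

lemma gam_le_one (w : V → ℝ) (t a s : ℝ) (v : V) : gam w t a s v ≤ 1 := one_sub_exp_le_one _

lemma arr_mono {w : V → ℝ} (hw : ∀ v, 0 ≤ w v) {t : ℝ} (ht : 0 < t) {a a' s s' : ℝ}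
    (ha : a ≤ a') (hs : s ≤ s') (U : Ix V → ℝ) : arr w t a s U ⊆ arr w t a' s' U := fun v hv => by
  simp only [arr, Finset.mem_filter, Finset.mem_univ, true_and] at hv ⊢
  exact hv.trans_le (gam_mono hw ht ha hs v)

lemma ym_mono {w : V → ℝ} (hw : ∀ v, 0 ≤ w v) (t : ℝ) {S S' : Finset V} (h : S ⊆ S') :
    ym w t S ≤ ym w t S' := by
  unfold ym
  gcongr
  exact fun v _ _ => hw v

lemma ym_nonneg {w : V → ℝ} (hw : ∀ v, 0 ≤ w v) (t : ℝ) (S : Finset V) : 0 ≤ ym w t S :=
  div_nonneg (Finset.sum_nonneg fun v _ => hw v) (sq_nonneg t)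

lemma cm_mono (t : ℝ) {S S' : Finset V} (h : S ⊆ S') : cm t S ≤ cm t S' := by
  unfold cm
  gcongr

lemma cm_nonneg (t : ℝ) (S : Finset V) : 0 ≤ cm t S := by unfold cm; positivity

lemma seed_mono {t a a' : ℝ} (ha : a ≤ a') {U : Ix V → ℝ} {v : V} (h : seed t a U v) :
    seed t a' U v := lt_of_lt_of_le h (one_sub_exp_mono (by gcongr))

lemma PhiG_mono (w : V → ℝ) (t a : ℝ) (U : Ix V → ℝ) : Monotone (PhiG w t a U) := by
  intro S S' h v hv
  simp only [PhiG, Finset.mem_filter, Finset.mem_univ, true_and] at hv ⊢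
  exact hv.imp id fun ⟨u, hu, e⟩ => ⟨u, h hu, e⟩

lemma PhiC_mono {w : V → ℝ} (hw : ∀ v, 0 ≤ w v) {t : ℝ} (ht : 0 < t) (a : ℝ) (U : Ix V → ℝ) :
    Monotone (PhiC w t a U) := fun _ _ h => arr_mono hw ht le_rfl (ym_mono hw t h) U

/-- coordinates inside `T` -/
def inside (T : Finset V) : Set (Ix V) :=
  {i | Sum.elim (fun e : Sym2 V => ∀ v ∈ e, v ∈ T) (fun v => v ∈ T) i}

lemma chainG {w : V → ℝ} (hw : ∀ v, 0 ≤ w v) {t : ℝ} (ht : 0 < t) {a : ℕ → ℝ} (ha : Monotone a)
    (ha0 : ∀ j, 0 ≤ a j) :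
    ChainModel (PP (Ix V)) (fun j => PhiG w t (a j)) (fun j => bd w t (a j)) := by
  have sm : ∀ j S, Sm (fun U => PhiG w t (a j) U S) := fun j S =>
    sm_filter fun v => (sm_seed t (a j) v).or ((sm_gr w t).comp (fun G => ∃ u ∈ S, G.Adj u v))
  refine ⟨fun j U => PhiG_mono w t _ U, fun i j U S hij v hv => ?_, sm, fun J S T W hTW => ?_⟩
  · simp only [PhiG, Finset.mem_filter, Finset.mem_univ, true_and] at hv ⊢
    exact hv.imp (seed_mono (ha hij)) id
  have sm1 : Sm (fun U => ∀ j < J + 1, lf (PhiG w t (a j) U) T = S j) := by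
    have := Sm.allFin (Finset.range (J + 1)) (p := fun j U => lf (PhiG w t (a j) U) T = S j)
      (fun j _ => (Sm.pi (sm j)).comp (fun φ => lf φ T = S j))
    simpa using this
  rw [Pr_indep (inside T) sm1 ((sm J T).comp (fun X => ∀ v ∈ W \ T, v ∉ X))]
  · congr 1
    have := Pr_forall_coord ((W \ T).disjSum (T ×ˢ (W \ T)))
      (Sum.elim Sum.inr (fun p : V × V => (Sum.inl s(p.1, p.2) : Ix V))) ?_
      (Sum.elim (fun _ => Ici (1 - exp (-(a J / t ^ 2))))
        (fun p => Ici (1 - exp (-(w p.1 * w p.2 / t ^ 3)))))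
      (by rintro (v | p) <;> exact measurableSet_Ici)
    · rw [Finset.prod_disjSum] at this
      simp only [Sum.elim_inl, Sum.elim_inr] at this
      have e1 : unif.real (Ici (1 - exp (-(a J / t ^ 2)))) = exp (-(a J / t ^ 2)) := by
        rw [unif_Ici (one_sub_exp_nonneg (by have := ha0 J; positivity)) (one_sub_exp_le_one _)]
        ring
      have e2 : ∀ p : V × V, unif.real (Ici (1 - exp (-(w p.1 * w p.2 / t ^ 3)))) =
          exp (-(w p.1 * w p.2 / t ^ 3)) := fun p => by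
        rw [unif_Ici (one_sub_exp_nonneg (by have := hw p.1; have := hw p.2; positivity))
          (one_sub_exp_le_one _)]
        ring
      simp only [e1, e2] at this
      rw [Finset.prod_product_right, ← Finset.prod_mul_distrib] at this
      have e3 : bd w t (a J) T W = ∏ v ∈ W \ T,
          exp (-(a J / t ^ 2)) * ∏ u ∈ T, exp (-(w u * w v / t ^ 3)) := by
        refine Finset.prod_congr rfl fun v _ => ?_
        rw [← exp_sum, ← exp_add, ym, Finset.sum_neg_distrib, ← Finset.sum_div, ← Finset.sum_mul]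
        congr 1; field_simp; ring
      rw [e3, ← this]
      refine Pr_congr _ fun U => ?_
      simp only [PhiG, seed, gr_adj, Finset.mem_filter, Finset.mem_univ, true_and, Sum.forall,
        Finset.inl_mem_disjSum, Finset.inr_mem_disjSum, Sum.elim_inl, Sum.elim_inr, mem_Ici,
        Prod.forall, Finset.mem_product, not_or, not_lt, not_exists, not_and]
      constructor
      · intro h
        refine ⟨fun v hv => (h v hv).1, fun u v huv => ?_⟩
        by_contra hc
        exact (h v huv.2).2 u huv.1 (not_le.1 hc) (fun e => (Finset.mem_sdiff.1 huv.2).2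
          (e ▸ huv.1))
      · intro h v hv
        exact ⟨h.1 v hv, fun u hu hc => absurd (h.2 u v ⟨hu, hv⟩) (not_le.2 hc)⟩
    · rintro (v | p) h1 (v' | p') h2 e
      · simpa using e
      · simp at e
      · simp at e
      · simp only [Finset.mem_coe, Finset.inr_mem_disjSum, Finset.mem_product,
          Finset.mem_sdiff] at h1 h2
        simp only [Sum.elim_inr, Sum.inl.injEq, Sym2.eq_iff] at e
        rcases e with e | e
        · rw [Prod.ext e.1 e.2]
        · exact absurd (e.1 ▸ h1.1) h2.2.2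
  · intro U U' h
    refine forall₂_congr fun j _ => ?_
    rw [lf_congr (PhiG_mono w t _ U) (PhiG_mono w t _ U')]
    intro S hS
    ext v
    simp only [PhiG, seed, gr_adj, Finset.mem_inter, Finset.mem_filter, Finset.mem_univ, true_and]
    refine and_congr_right fun hv => ?_
    rw [h (Sum.inr v) hv]
    refine or_congr_right (exists_congr fun u => and_congr_right fun hu => ?_)
    rw [h (Sum.inl s(u, v))]
    intro x hx
    rcases Sym2.mem_iff.1 hx with rfl | rfl
    · exact hS hu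
    · exact hv
  · intro U U' h
    refine forall₂_congr fun v hv => not_congr ?_
    have hv' := (Finset.mem_sdiff.1 hv).2
    simp only [PhiG, seed, gr_adj, Finset.mem_filter, Finset.mem_univ, true_and]
    rw [h (Sum.inr v) hv']
    refine or_congr_right (exists_congr fun u => and_congr_right fun hu => ?_)
    rw [h (Sum.inl s(u, v))]
    intro hc
    exact hv' (hc v (by simp))

lemma lfC_dep {w : V → ℝ} (hw : ∀ v, 0 ≤ w v) {t : ℝ} (ht : 0 < t) (a : ℝ) (T : Finset V)
    {U U' : Ix V → ℝ} (h : ∀ i ∈ inside T, U i = U' i) :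
    lf (PhiC w t a U) T = lf (PhiC w t a U') T := by
  refine lf_congr (PhiC_mono hw ht _ U) (PhiC_mono hw ht _ U') fun S _ => ?_
  ext v
  simp only [PhiC, arr, Finset.mem_inter, Finset.mem_filter, Finset.mem_univ, true_and]
  refine and_congr_right fun hv => ?_
  rw [h (Sum.inr v) hv]

lemma unif_Ici_gam {w : V → ℝ} (hw : ∀ v, 0 ≤ w v) {t : ℝ} (ht : 0 < t) {a s : ℝ}
    (ha : 0 ≤ a) (hs : 0 ≤ s) (v : V) :
    unif.real (Ici (gam w t a s v)) = exp (-(a / t ^ 2 + w v * s / t)) := by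
  rw [unif_Ici (gam_nonneg hw ht ha hs v) (gam_le_one _ _ _ _ _), gam]; ring

lemma chainC {w : V → ℝ} (hw : ∀ v, 0 ≤ w v) {t : ℝ} (ht : 0 < t) {a : ℕ → ℝ} (ha : Monotone a)
    (ha0 : ∀ j, 0 ≤ a j) :
    ChainModel (PP (Ix V)) (fun j => PhiC w t (a j)) (fun j => bd w t (a j)) := by
  have sm : ∀ j S, Sm (fun U => PhiC w t (a j) U S) := fun j S => sm_arr _ _ _ _
  refine ⟨fun j U => PhiC_mono hw ht _ U, fun i j U S hij => arr_mono hw ht (ha hij) le_rfl U,
    sm, fun J S T W hTW => ?_⟩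
  have sm1 : Sm (fun U => ∀ j < J + 1, lf (PhiC w t (a j) U) T = S j) := by
    have := Sm.allFin (Finset.range (J + 1)) (p := fun j U => lf (PhiC w t (a j) U) T = S j)
      (fun j _ => (Sm.pi (sm j)).comp (fun φ => lf φ T = S j))
    simpa using this
  rw [Pr_indep (inside T) sm1 ((sm J T).comp (fun X => ∀ v ∈ W \ T, v ∉ X))]
  · congr 1
    have := Pr_forall_coord (W \ T) (Sum.inr : V → Ix V) Sum.inr_injective.injOn
      (fun v => Ici (gam w t (a J) (ym w t T) v)) (fun _ => measurableSet_Ici)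
    simp only [unif_Ici_gam hw ht (ha0 J) (ym_nonneg hw t T)] at this
    rw [bd, ← this]
    refine Pr_congr _ fun U => ?_
    simp [PhiC, arr]
  · intro U U' h
    refine forall₂_congr fun j _ => ?_
    rw [lfC_dep hw ht _ T h]
  · intro U U' h
    refine forall₂_congr fun v hv => not_congr ?_
    have hv' := (Finset.mem_sdiff.1 hv).2
    simp only [PhiC, arr, Finset.mem_filter, Finset.mem_univ, true_and]
    rw [h (Sum.inr v) hv']

/-- vertices in components containing a seed -/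
noncomputable def hitSet (G : SimpleGraph V) (t a : ℝ) (U : Ix V → ℝ) : Finset V :=
  Finset.univ.filter (fun v => ∃ u, seed t a U u ∧ G.Reachable u v)

lemma lfG_eq (w : V → ℝ) (t a : ℝ) (U : Ix V → ℝ) :
    lf (PhiG w t a U) Finset.univ = hitSet (gr w t U) t a U := by
  refine Finset.Subset.antisymm (lf_le fun v hv => ?_) fun v hv => ?_
  · simp only [PhiG, hitSet, Finset.mem_inter, Finset.mem_filter, Finset.mem_univ,
      true_and] at hv ⊢
    rcases hv with h | ⟨u, ⟨u', h1, h2⟩, h3⟩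
    · exact ⟨v, h, SimpleGraph.Reachable.refl v⟩
    · exact ⟨u', h1, h2.trans h3.reachable⟩
  · simp only [hitSet, Finset.mem_filter, Finset.mem_univ, true_and] at hv
    obtain ⟨u, h1, h2⟩ := hv
    have fx := lf_fix (PhiG_mono w t a U) Finset.univ
    rw [SimpleGraph.reachable_iff_reflTransGen] at h2
    induction h2 with
    | refl => rw [← fx]; simp [PhiG, h1]
    | tail _ h3 ih =>
      rw [← fx]
      simp only [PhiG, Finset.mem_inter, Finset.mem_filter, Finset.mem_univ, true_and]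
      exact Or.inr ⟨_, ih, h3⟩

/-- the explored set of the clock model -/
noncomputable def EC (w : V → ℝ) (t a : ℝ) (U : Ix V → ℝ) : Finset V :=
  lf (PhiC w t a U) Finset.univ

lemma sm_EC (w : V → ℝ) (t a : ℝ) : Sm (EC w t a) :=
  (Sm.pi fun S => sm_arr w t a (ym w t S)).comp (fun φ => lf φ Finset.univ)

lemma sm_hitSet (G : SimpleGraph V) (t a : ℝ) : Sm (hitSet G t a) :=
  sm_filter fun _ => Sm.ex fun u => (sm_seed t a u).and (Sm.const _)

lemma law_integral {w : V → ℝ} (hw : ∀ v, 0 ≤ w v) {t : ℝ} (ht : 0 < t) {a : ℕ → ℝ}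
    (ha : Monotone a) (ha0 : ∀ j, 0 ≤ a j) (J : ℕ) (H : (Fin J → Finset V) → ℝ) :
    ∫ U, H (fun j : Fin J => hitSet (gr w t U) t (a j) U) ∂(PP (Ix V)) =
      ∫ U, H (fun j : Fin J => EC w t (a j) U) ∂(PP (Ix V)) := by
  have := chain_integral (chainG hw ht ha ha0) (chainC hw ht ha ha0) J H
  simpa only [lfG_eq, EC] using this

lemma law_Pr {w : V → ℝ} (hw : ∀ v, 0 ≤ w v) {t : ℝ} (ht : 0 < t) {a a' : ℝ} (h0 : 0 ≤ a')
    (h : a' ≤ a) (H : Finset V → Finset V → Prop) :
    Pr (PP (Ix V)) (fun U => H (hitSet (gr w t U) t a' U) (hitSet (gr w t U) t a U)) =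
      Pr (PP (Ix V)) (fun U => H (EC w t a' U) (EC w t a U)) := by
  have hm : Monotone (fun j : ℕ => if j = 0 then a' else a) := by
    intro i j hij
    by_cases hi : i = 0 <;> by_cases hj : j = 0 <;> simp [hi, hj, h]
    omega
  have h1 : ∀ j : ℕ, 0 ≤ if j = 0 then a' else a := fun j => by
    split_ifs <;> linarith only [h0, h]
  have := chain_Pr (chainG hw ht hm h1) (chainC hw ht hm h1) 2 (fun S => H (S 0) (S 1))
  simpa [lfG_eq, EC] using this

/-- conditioning on the graph -/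
lemma Pr_graph (w : V → ℝ) (t : ℝ) {p : SimpleGraph V → (Ix V → ℝ) → Prop} (hp : ∀ G, Sm (p G))
    (dp : ∀ G U U', (∀ v, U (Sum.inr v) = U' (Sum.inr v)) → (p G U ↔ p G U')) :
    Pr (PP (Ix V)) (fun U => p (gr w t U) U) =
      ∑ G, Pr (PP (Ix V)) (fun U => gr w t U = G) * Pr (PP (Ix V)) (p G) := by
  rw [Pr_partition _ (sm_gr w t) Finset.univ (fun _ => Finset.mem_univ _) ((sm_gr w t).bind hp)]
  refine Finset.sum_congr rfl fun G _ => ?_
  rw [← Pr_indep (Set.range Sum.inl) ((sm_gr w t).comp (· = G)) (hp G)]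
  · exact Pr_congr _ fun U => and_congr_right fun h => by rw [h]
  · intro U U' h
    rw [gr_congr w t (fun e => h _ ⟨e, rfl⟩)]
  · intro U U' h
    exact dp G U U' fun v => h _ (by simp)

lemma Pr_graph_le (w : V → ℝ) (t : ℝ) {p : SimpleGraph V → (Ix V → ℝ) → Prop}
    (hp : ∀ G, Sm (p G))
    (dp : ∀ G U U', (∀ v, U (Sum.inr v) = U' (Sum.inr v)) → (p G U ↔ p G U'))
    (good : SimpleGraph V → Prop) {ε : ℝ} (hε : 0 ≤ ε)
    (h : ∀ G, good G → Pr (PP (Ix V)) (p G) ≤ ε) :
    Pr (PP (Ix V)) (fun U => p (gr w t U) U) ≤ ε + Pr (PP (Ix V)) (fun U => ¬ good (gr w t U)) := by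
  have h2 := Pr_graph w t (p := fun G _ => ¬ good G) (fun G => Sm.const _) (fun _ _ _ _ => Iff.rfl)
  have h3 := Pr_graph w t (p := fun G _ => True) (fun G => Sm.const _) (fun _ _ _ _ => Iff.rfl)
  rw [Pr_true] at h3
  rw [Pr_graph w t hp dp, h2, ← mul_one ε, h3, Finset.mul_sum, ← Finset.sum_add_distrib]
  refine Finset.sum_le_sum fun G _ => ?_
  have := Pr_nonneg (PP (Ix V)) (fun U => gr w t U = G)
  by_cases hG : good G
  · have := h G hG
    simp only [hG, not_true, Pr_false]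
    nlinarith
  · have := Pr_le_one (PP (Ix V)) (p G)
    simp only [hG, not_false_iff, Pr_true]
    nlinarith

lemma Pr_graph_ge (w : V → ℝ) (t : ℝ) {p : SimpleGraph V → (Ix V → ℝ) → Prop}
    (hp : ∀ G, Sm (p G))
    (dp : ∀ G U U', (∀ v, U (Sum.inr v) = U' (Sum.inr v)) → (p G U ↔ p G U'))
    (bad : SimpleGraph V → Prop) (h : ∀ G, bad G → 1 / 2 ≤ Pr (PP (Ix V)) (p G)) :
    Pr (PP (Ix V)) (fun U => bad (gr w t U)) ≤ 2 * Pr (PP (Ix V)) (fun U => p (gr w t U) U) := by
  have h2 := Pr_graph w t (p := fun G _ => bad G) (fun G => Sm.const _) (fun _ _ _ _ => Iff.rfl)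
  rw [Pr_graph w t hp dp, h2, Finset.mul_sum]
  refine Finset.sum_le_sum fun G _ => ?_
  have := Pr_nonneg (PP (Ix V)) (fun U => gr w t U = G)
  by_cases hG : bad G
  · have := h G hG
    simp only [hG, Pr_true]
    nlinarith
  · have := Pr_nonneg (PP (Ix V)) (p G)
    simp only [hG, Pr_false]
    nlinarith

end Pool.Agent.Work.MP_e39611_pr
end

-- merged part: Pool.Agent.Work.MP_e39611_pr.Clock
section
/-!
Non-asymptotic estimates for the clock model.
-/

namespace Pool.Agent.Work.MP_e39611_pr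

open MeasureTheory Set Real
open scoped Classical

set_option linter.unusedSectionVars false

variable {V : Type} [Fintype V] [DecidableEq V]

/-- empirical moments -/
noncomputable def mom (w : V → ℝ) (t : ℝ) (k : ℕ) : ℝ := (∑ v, w v ^ k) / t ^ 3

/-- the walk -/
noncomputable def Zc (w : V → ℝ) (t a s : ℝ) (U : Ix V → ℝ) : ℝ := t * (ym w t (arr w t a s U) - s)

/-- its mean -/
noncomputable def EZ (w : V → ℝ) (t a s : ℝ) : ℝ := ∑ v, w v / t * gam w t a s v - t * s

/-- the hitting time -/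
noncomputable def TC (w : V → ℝ) (t a : ℝ) (U : Ix V → ℝ) : ℝ := ym w t (EC w t a U)

lemma mom_nonneg {w : V → ℝ} (hw : ∀ v, 0 ≤ w v) {t : ℝ} (ht : 0 < t) (k : ℕ) : 0 ≤ mom w t k :=
  div_nonneg (Finset.sum_nonneg fun v _ => pow_nonneg (hw v) k) (by positivity)

lemma sm_Zc (w : V → ℝ) (t a s : ℝ) : Sm (Zc w t a s) :=
  (sm_arr w t a s).comp (fun S => t * (ym w t S - s))

lemma sm_TC (w : V → ℝ) (t a : ℝ) : Sm (TC w t a) := (sm_EC w t a).comp (ym w t)

lemma TC_le {w : V → ℝ} (hw : ∀ v, 0 ≤ w v) {t : ℝ} (ht : 0 < t) {a s : ℝ} {U : Ix V → ℝ}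
    (h : Zc w t a s U ≤ 0) : TC w t a U ≤ s := by
  have h1 : ym w t (arr w t a s U) ≤ s := by
    by_contra hc
    have := mul_pos ht (sub_pos.2 (not_le.1 hc))
    exact absurd h (not_le.2 this)
  have h2 : EC w t a U ⊆ arr w t a s U :=
    lf_le (Finset.inter_subset_right.trans (arr_mono hw ht le_rfl h1 U))
  exact (ym_mono hw t h2).trans h1

lemma arr_TC {w : V → ℝ} (hw : ∀ v, 0 ≤ w v) {t : ℝ} (ht : 0 < t) (a : ℝ) (U : Ix V → ℝ) :
    arr w t a (TC w t a U) U = EC w t a U := by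
  have := lf_fix (PhiC_mono hw ht a U) Finset.univ
  rw [Finset.univ_inter] at this
  exact this

lemma EC_mono {w : V → ℝ} (hw : ∀ v, 0 ≤ w v) {t : ℝ} (ht : 0 < t) {a a' : ℝ} (h : a ≤ a')
    (U : Ix V → ℝ) : EC w t a U ⊆ EC w t a' U :=
  lf_mono (PhiC_mono hw ht a' U) (fun _ => arr_mono hw ht h le_rfl U) (Finset.Subset.refl _)

lemma t_ym_arr (w : V → ℝ) {t : ℝ} (ht : 0 < t) (a s : ℝ) (U : Ix V → ℝ) :
    t * ym w t (arr w t a s U) =
      ∑ v, w v / t * ind (U (Sum.inr v) ∈ Iio (gam w t a s v)) := by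
  rw [ym, arr, Finset.sum_filter, Finset.sum_div, Finset.mul_sum]
  refine Finset.sum_congr rfl fun v _ => ?_
  by_cases h : U (Sum.inr v) < gam w t a s v
  · simp only [h, ind, mem_Iio, if_true]; field_simp
  · simp [h, ind]

lemma cm_arr (w : V → ℝ) (t a s : ℝ) (U : Ix V → ℝ) :
    cm t (arr w t a s U) =
      ∑ v, 1 / t ^ 2 * ind (U (Sum.inr v) ∈ Iio (gam w t a s v)) := by
  rw [cm, arr, Finset.card_filter, Nat.cast_sum, Finset.sum_div]
  refine Finset.sum_congr rfl fun v _ => ?_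
  by_cases h : U (Sum.inr v) < gam w t a s v <;> simp [h, ind]

lemma one_sub_exp_le (x : ℝ) : 1 - exp (-x) ≤ x := by linarith [add_one_le_exp (-x)]

lemma one_sub_exp_ge {x : ℝ} (hx : 0 ≤ x) : x - x ^ 2 ≤ 1 - exp (-x) := by
  have h1 := add_one_le_exp x
  have h2 : exp (-x) * exp x = 1 := by rw [← exp_add]; simp
  have h3 := exp_pos (-x)
  have h4 : exp (-x) * (x + 1) ≤ 1 := by linarith only [h2, h1, h3, mul_nonneg_of_nonpos_of_nonpos (Mathlib.Tactic.Linarith.sub_nonpos_of_le h1) (le_of_lt (Mathlib.Tactic.Linarith.sub_neg_of_lt h3))]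
  have h5 : (x + 1) * (1 - x + x ^ 2) = 1 + x ^ 3 := by ring
  have h6 : exp (-x) * (x + 1) ≤ (1 - x + x ^ 2) * (x + 1) := by linarith only [h4, hx, pow_nonneg hx 3]
  have := le_of_mul_le_mul_right h6 (by linarith)
  linarith

lemma one_sub_exp_third {x : ℝ} (hx : 0 ≤ x) : |1 - exp (-x) - (x - x ^ 2 / 2)| ≤ x ^ 3 := by
  by_cases h : x ≤ 1
  · have := Real.exp_bound (x := -x) (by rw [abs_neg, abs_of_nonneg hx]; exact h) (n := 3)
      (by norm_num)
    simp only [Finset.sum_range_succ, Finset.range_zero, Finset.sum_empty, Nat.factorial,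
      abs_neg, abs_of_nonneg hx] at this
    norm_num at this
    rw [abs_le] at this ⊢
    have := pow_nonneg hx 3
    constructor <;> nlinarith
  · have h1 := not_le.1 h
    have h2 := one_sub_exp_nonneg hx
    have h3 := one_sub_exp_le x
    have h4 := one_sub_exp_le_one x
    have h5 : x ≤ x ^ 2 := by nlinarith
    have h6 : x ^ 2 ≤ x ^ 3 := by linarith only [h, mul_nonneg_of_nonpos_of_nonpos (Mathlib.Tactic.Linarith.sub_nonpos_of_le (sq_nonneg x)) (le_of_lt (Mathlib.Tactic.Linarith.sub_neg_of_lt (lt_of_not_ge h)))]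
    rw [abs_le]; constructor <;> linarith only [h, h2, h5, h6, h3]

lemma gam_le {w : V → ℝ} (t a s : ℝ) (v : V) : gam w t a s v ≤ a / t ^ 2 + w v * s / t :=
  one_sub_exp_le _

lemma cheb_Z {w : V → ℝ} (hw : ∀ v, 0 ≤ w v) {t : ℝ} (ht : 0 < t) {a s η : ℝ} (ha : 0 ≤ a)
    (hs : 0 ≤ s) (hη : 0 < η) :
    Pr (PP (Ix V)) (fun U => η ≤ |Zc w t a s U - EZ w t a s|) ≤
      (a * mom w t 2 / t + mom w t 3 * s) / η ^ 2 := by
  have := cheb Finset.univ (Sum.inr : V → Ix V) Sum.inr_injective.injOn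
    (fun v => Iio (gam w t a s v)) (fun _ => measurableSet_Iio) (fun v => w v / t)
    (gam w t a s) (fun v _ => unif_Iio (gam_nonneg hw ht ha hs v) (gam_le_one _ _ _ _ _)) hη
  refine le_trans (le_of_eq (Pr_congr _ fun U => ?_)) (this.trans ?_)
  · rw [Zc, EZ, mul_sub, t_ym_arr w ht]
    simp only [mul_sub, Finset.sum_sub_distrib, sub_sub_sub_cancel_right]
  · gcongr
    rw [mom, mom, ← mul_div_assoc, Finset.mul_sum, Finset.sum_div, Finset.sum_div,
      Finset.sum_div, Finset.sum_mul, ← Finset.sum_add_distrib]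
    refine Finset.sum_le_sum fun v _ => ?_
    refine (mul_le_mul_of_nonneg_left (gam_le t a s v) (sq_nonneg _)).trans (le_of_eq ?_)
    field_simp

lemma EZ_zero {w : V → ℝ} (hw : ∀ v, 0 ≤ w v) {t : ℝ} (ht : 0 < t) {s : ℝ} (hs : 0 ≤ s) :
    |EZ w t 0 s - (t * (mom w t 2 - 1) * s - mom w t 3 * s ^ 2 / 2)| ≤ mom w t 4 / t * s ^ 3 := by
  have e : EZ w t 0 s - (t * (mom w t 2 - 1) * s - mom w t 3 * s ^ 2 / 2) =
      ∑ v, w v / t * (1 - exp (-(w v * s / t)) - (w v * s / t - (w v * s / t) ^ 2 / 2)) := by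
    have : ∀ v, w v / t * (1 - exp (-(w v * s / t)) - (w v * s / t - (w v * s / t) ^ 2 / 2)) =
        w v / t * gam w t 0 s v - w v ^ 2 * (s / t ^ 2) + w v ^ 3 * (s ^ 2 / (2 * t ^ 3)) := by
      intro v; simp only [gam, zero_div, zero_add]; field_simp; ring
    simp only [this, Finset.sum_add_distrib, Finset.sum_sub_distrib, ← Finset.sum_mul, EZ, mom]
    field_simp; ring
  rw [e, mom, Finset.sum_div, Finset.sum_div, Finset.sum_mul]
  refine (Finset.abs_sum_le_sum_abs _ _).trans (Finset.sum_le_sum fun v _ => ?_)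
  have h0 := hw v
  rw [abs_mul, abs_of_nonneg (by positivity : 0 ≤ w v / t)]
  refine (mul_le_mul_of_nonneg_left (one_sub_exp_third (by positivity)) (by positivity)).trans
    (le_of_eq ?_)
  field_simp

lemma gam_sub {w : V → ℝ} (hw : ∀ v, 0 ≤ w v) {t : ℝ} (ht : 0 < t) {a s : ℝ} (ha : 0 ≤ a)
    (hs : 0 ≤ s) (v : V) : gam w t a s v - gam w t 0 s v ≤ a / t ^ 2 ∧
      a / t ^ 2 - (gam w t a s v - gam w t 0 s v) ≤ a / t ^ 2 * (w v * s / t) + (a / t ^ 2) ^ 2 := by
  have h0 := hw v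
  set x := w v * s / t
  set y := a / t ^ 2
  have hx : 0 ≤ x := by positivity
  have hy : 0 ≤ y := by positivity
  have e : gam w t a s v - gam w t 0 s v = exp (-x) * (1 - exp (-y)) := by
    simp only [gam, zero_div, zero_add]
    rw [neg_add, exp_add]; ring
  rw [e]
  have a1 := one_sub_exp_le y
  have a2 := one_sub_exp_ge hy
  have a3 := one_sub_exp_le x
  have a4 := one_sub_exp_nonneg hx
  have a5 := one_sub_exp_nonneg hy
  have a6 := exp_pos (-x)
  constructor <;> linarith only [hy, a4, a1, a6, a2, a3, mul_nonneg_of_nonpos_of_nonpos (Mathlib.Tactic.Linarith.sub_nonpos_of_le hy) (Mathlib.Tactic.Linarith.sub_nonpos_of_le a4), mul_nonneg_of_nonpos_of_nonpos (Mathlib.Tactic.Linarith.sub_nonpos_of_le a1) (le_of_lt (Mathlib.Tactic.Linarith.sub_neg_of_lt a6)), mul_nonneg_of_nonpos_of_nonpos (Mathlib.Tactic.Linarith.sub_nonpos_of_le hy) (Mathlib.Tactic.Linarith.sub_nonpos_of_le a3), mul_nonneg_of_nonpos_of_nonpos (Mathlib.Tactic.Linarith.sub_nonpos_of_le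 a1) (Mathlib.Tactic.Linarith.sub_nonpos_of_le a4)]

lemma EZ_level {w : V → ℝ} (hw : ∀ v, 0 ≤ w v) {t : ℝ} (ht : 0 < t) {a s : ℝ} (ha : 0 ≤ a)
    (hs : 0 ≤ s) : |EZ w t a s - EZ w t 0 s - a * mom w t 1| ≤
      a * s * mom w t 2 / t + a ^ 2 * mom w t 1 / t ^ 2 := by
  have e : EZ w t a s - EZ w t 0 s - a * mom w t 1 =
      ∑ v, w v / t * ((gam w t a s v - gam w t 0 s v) - a / t ^ 2) := by
    have : ∀ v, w v / t * ((gam w t a s v - gam w t 0 s v) - a / t ^ 2) =
        w v / t * gam w t a s v - w v / t * gam w t 0 s v - w v ^ 1 * (a / t ^ 3) := by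
      intro v; field_simp
    simp only [this, Finset.sum_sub_distrib, ← Finset.sum_mul, EZ, mom]
    field_simp; ring
  have e2 : a * s * mom w t 2 / t + a ^ 2 * mom w t 1 / t ^ 2 =
      ∑ v, w v / t * (a / t ^ 2 * (w v * s / t) + (a / t ^ 2) ^ 2) := by
    have : ∀ v, w v / t * (a / t ^ 2 * (w v * s / t) + (a / t ^ 2) ^ 2) =
        w v ^ 2 * (a * s / t ^ 4) + w v ^ 1 * (a ^ 2 / t ^ 5) := by
      intro v; field_simp
    simp only [this, Finset.sum_add_distrib, ← Finset.sum_mul, mom]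
    field_simp
  rw [e, e2]
  refine (Finset.abs_sum_le_sum_abs _ _).trans (Finset.sum_le_sum fun v _ => ?_)
  have h0 := hw v
  rw [abs_mul, abs_of_nonneg (by positivity : 0 ≤ w v / t)]
  refine mul_le_mul_of_nonneg_left ?_ (by positivity)
  have := gam_sub hw ht ha hs v
  rw [abs_sub_comm, abs_of_nonneg (by linarith only [this])]
  exact this.2

lemma cheb_level {w : V → ℝ} (hw : ∀ v, 0 ≤ w v) {t : ℝ} (ht : 0 < t) {a s η : ℝ} (ha : 0 ≤ a)
    (hs : 0 ≤ s) (hη : 0 < η) :
    Pr (PP (Ix V)) (fun U => η ≤ |Zc w t a s U - Zc w t 0 s U - (EZ w t a s - EZ w t 0 s)|) ≤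
      (a * mom w t 2 / t) / η ^ 2 := by
  have hm : ∀ v, gam w t 0 s v ≤ gam w t a s v := gam_mono hw ht ha le_rfl
  have := cheb Finset.univ (Sum.inr : V → Ix V) Sum.inr_injective.injOn
    (fun v => Ico (gam w t 0 s v) (gam w t a s v)) (fun _ => measurableSet_Ico) (fun v => w v / t)
    (fun v => gam w t a s v - gam w t 0 s v)
    (fun v _ => unif_Ico (gam_nonneg hw ht le_rfl hs v) (hm v) (gam_le_one _ _ _ _ _)) hη
  refine le_trans (le_of_eq (Pr_congr _ fun U => ?_)) (this.trans ?_)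
  · have e : Zc w t a s U - Zc w t 0 s U - (EZ w t a s - EZ w t 0 s) = ∑ v, w v / t *
        (ind (U (Sum.inr v) ∈ Ico (gam w t 0 s v) (gam w t a s v)) -
          (gam w t a s v - gam w t 0 s v)) := by
      rw [Zc, Zc, EZ, EZ, mul_sub, mul_sub, t_ym_arr w ht, t_ym_arr w ht]
      have : ∀ v, w v / t *
          (ind (U (Sum.inr v) ∈ Ico (gam w t 0 s v) (gam w t a s v)) -
          (gam w t a s v - gam w t 0 s v)) =
          w v / t * ind (U (Sum.inr v) ∈ Iio (gam w t a s v)) -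
          w v / t * ind (U (Sum.inr v) ∈ Iio (gam w t 0 s v)) -
          w v / t * gam w t a s v + w v / t * gam w t 0 s v := by
        intro v
        have := hm v
        by_cases h1 : U (Sum.inr v) < gam w t 0 s v
        · simp [ind, h1, h1.trans_le this, not_le.2 h1]; ring
        · by_cases h2 : U (Sum.inr v) < gam w t a s v <;> simp [ind, h1, h2, not_lt.1 h1] <;> ring
      simp only [this, Finset.sum_add_distrib, Finset.sum_sub_distrib]
      ring
    rw [e]
  · gcongr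
    rw [mom, ← mul_div_assoc, Finset.mul_sum, Finset.sum_div, Finset.sum_div]
    refine Finset.sum_le_sum fun v _ => ?_
    refine (mul_le_mul_of_nonneg_left (gam_sub hw ht ha hs v).1 (sq_nonneg _)).trans (le_of_eq ?_)
    field_simp

lemma cheb_count {w : V → ℝ} (hw : ∀ v, 0 ≤ w v) {t : ℝ} (ht : 0 < t)
    (hn : (Fintype.card V : ℝ) = t ^ 3) {a s η : ℝ} (ha : 0 ≤ a) (hs : 0 ≤ s) (hη : 0 < η) :
    Pr (PP (Ix V)) (fun U => η + (a / t + mom w t 2 * s ^ 2 / t) ≤
      |cm t (arr w t a s U) - mom w t 1 * s|) ≤ ((a / t + mom w t 1 * s) / t ^ 2) / η ^ 2 := by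
  have := cheb Finset.univ (Sum.inr : V → Ix V) Sum.inr_injective.injOn
    (fun v => Iio (gam w t a s v)) (fun _ => measurableSet_Iio) (fun _ => 1 / t ^ 2)
    (gam w t a s) (fun v _ => unif_Iio (gam_nonneg hw ht ha hs v) (gam_le_one _ _ _ _ _)) hη
  have up : ∑ v, 1 / t ^ 2 * gam w t a s v ≤ a / t + mom w t 1 * s := by
    refine (Finset.sum_le_sum fun v _ => mul_le_mul_of_nonneg_left (gam_le t a s v)
      (by positivity)).trans (le_of_eq ?_)
    have : ∀ v, 1 / t ^ 2 * (a / t ^ 2 + w v * s / t) = a / t ^ 4 + w v ^ 1 * (s / t ^ 3) := by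
      intro v; field_simp
    simp only [this, Finset.sum_add_distrib, ← Finset.sum_mul, mom, Finset.sum_const,
      Finset.card_univ, nsmul_eq_mul, hn]
    field_simp
  have lo : mom w t 1 * s - mom w t 2 * s ^ 2 / t ≤ ∑ v, 1 / t ^ 2 * gam w t a s v := by
    have h1 : ∀ v, w v * s / t - (w v * s / t) ^ 2 ≤ gam w t a s v := fun v => by
      have := hw v
      refine (one_sub_exp_ge (by positivity)).trans (one_sub_exp_mono ?_)
      have : 0 ≤ a / t ^ 2 := by positivity
      linarith only [this]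
    refine le_trans (le_of_eq ?_) (Finset.sum_le_sum fun v _ =>
      mul_le_mul_of_nonneg_left (h1 v) (by positivity))
    have : ∀ v, 1 / t ^ 2 * (w v * s / t - (w v * s / t) ^ 2) =
        w v ^ 1 * (s / t ^ 3) - w v ^ 2 * (s ^ 2 / t ^ 4) := by
      intro v; field_simp
    simp only [this, Finset.sum_sub_distrib, ← Finset.sum_mul, mom]
    field_simp
  refine le_trans (Pr_mono _ fun U hU => ?_) (this.trans ?_)
  · rw [cm_arr] at hU
    simp only [mul_sub, Finset.sum_sub_distrib]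
    have p1 : 0 ≤ a / t := by positivity
    have p2 : 0 ≤ mom w t 2 * s ^ 2 / t := by have := mom_nonneg hw ht 2; positivity
    rw [le_abs] at hU ⊢
    rcases hU with hU | hU
    · left; linarith only [up, p2, hU]
    · right; linarith only [lo, p1, hU]
  · gcongr
    rw [le_div_iff₀ (by positivity), Finset.sum_mul]
    refine le_trans (le_of_eq (Finset.sum_congr rfl fun v _ => ?_)) up
    field_simp

lemma strong_markov {w : V → ℝ} (hw : ∀ v, 0 ≤ w v) {t : ℝ} (ht : 0 < t) {a h η : ℝ} (ha : 0 ≤ a)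
    (hη : 0 < η) (g : ℝ → ℝ) (hg : ∀ τ, 0 ≤ τ → τ ≤ g τ ∧ g τ ≤ τ + h) :
    Pr (PP (Ix V)) (fun U => η + |t * (mom w t 2 - 1)| * h ≤ Zc w t a (g (TC w t a U)) U) ≤
      mom w t 3 * h / η ^ 2 := by
  have sm : Sm (fun U => η + |t * (mom w t 2 - 1)| * h ≤ Zc w t a (g (TC w t a U)) U) :=
    (sm_TC w t a).bind (Y := fun τ U => η + |t * (mom w t 2 - 1)| * h ≤ Zc w t a (g τ) U)
      fun τ => (sm_Zc w t a (g τ)).comp (fun z => η + |t * (mom w t 2 - 1)| * h ≤ z)
  have tot := Pr_partition (PP (Ix V)) (sm_EC w t a) Finset.univ (fun _ => Finset.mem_univ _)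
    (Sm.const True)
  rw [Pr_true] at tot
  have tot' : mom w t 3 * h / η ^ 2 = ∑ S, Pr (PP (Ix V)) (fun U => EC w t a U = S ∧ True) *
      (mom w t 3 * h / η ^ 2) := by rw [← Finset.sum_mul, ← tot, one_mul]
  rw [Pr_partition _ (sm_EC w t a) Finset.univ (fun _ => Finset.mem_univ _) sm, tot']
  clear tot tot'
  refine Finset.sum_le_sum fun S _ => ?_
  set τ := ym w t S with hτ
  have τ0 : 0 ≤ τ := ym_nonneg hw t S
  obtain ⟨g1, g2⟩ := hg τ τ0
  have h0 : 0 ≤ h := by linarith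
  have smL : Sm (fun U => lf (PhiC w t a U) S = S) :=
    (Sm.pi fun S' => sm_arr w t a (ym w t S')).comp (fun φ => lf φ S = S)
  have hm : ∀ v, gam w t a τ v ≤ gam w t a (g τ) v := gam_mono hw ht le_rfl g1
  let pp : V → ℝ := fun v => 1 - exp (-(w v * (g τ - τ) / t))
  have evq : ∀ U, EC w t a U = S ↔ lf (PhiC w t a U) S = S ∧
      ∀ v ∈ Finset.univ \ S, U (Sum.inr v) ∈ Ici (gam w t a τ v) := fun U => by
    rw [EC, lf_eq_iff (PhiC_mono hw ht a U) (Finset.subset_univ S)]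
    simp [PhiC, arr, hτ]
  have smB : Sm (fun U : Ix V → ℝ =>
      ∀ v ∈ Finset.univ \ S, U (Sum.inr v) ∈ Ici (gam w t a τ v)) :=
    Sm.allFin _ fun v _ => Sm.coord _ measurableSet_Ici
  have smX : Sm (fun U : Ix V → ℝ => ∑ v ∈ Finset.univ \ S, w v / t *
      (ind (U (Sum.inr v) ∈ Ico (gam w t a τ v) (gam w t a (g τ) v)) - pp v)) :=
    Sm.sum _ fun v _ => (Sm.coord _ measurableSet_Ico).comp (fun x => w v / t * (ind x - pp v))
  have out : ∀ U U' : Ix V → ℝ, (∀ i, i ∉ inside S → U i = U' i) →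
      ∀ v ∈ Finset.univ \ S, U (Sum.inr v) = U' (Sum.inr v) := fun U U' hU v hv =>
    hU _ (Finset.mem_sdiff.1 hv).2
  have p1 : Pr (PP (Ix V)) (fun U => EC w t a U = S ∧ True) =
      Pr (PP (Ix V)) (fun U => lf (PhiC w t a U) S = S) *
        ∏ v ∈ Finset.univ \ S, unif.real (Ici (gam w t a τ v)) := by
    rw [← Pr_forall_coord _ (Sum.inr : V → Ix V) Sum.inr_injective.injOn _
      (fun _ => measurableSet_Ici), ← Pr_indep (inside S) smL smB]
    · exact Pr_congr _ fun U => by rw [and_true, evq]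
    · intro U U' hU; rw [lfC_dep hw ht a S hU]
    · intro U U' hU
      exact forall₂_congr fun v hv => by rw [out U U' hU v hv]
  have p2 := cond_cheb (Finset.univ \ S) (Sum.inr : V → Ix V) Sum.inr_injective.injOn
    (fun v => Ici (gam w t a τ v)) (fun v => Ico (gam w t a τ v) (gam w t a (g τ) v))
    (fun _ => measurableSet_Ici) (fun _ => measurableSet_Ico) (fun _ => Ico_subset_Ici_self)
    (fun v => w v / t) pp (fun v _ => by
      rw [unif_Ico (gam_nonneg hw ht ha τ0 v) (hm v) (gam_le_one _ _ _ _ _),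
        unif_Ici_gam hw ht ha τ0]
      simp only [gam, pp]
      rw [sub_mul, ← exp_add, one_mul, show -(w v * (g τ - τ) / t) + -(a / t ^ 2 + w v * τ / t) =
        -(a / t ^ 2 + w v * g τ / t) by ring]
      ring) hη
  have pple : ∀ v, pp v ≤ w v * (g τ - τ) / t := fun v => one_sub_exp_le _
  have b1 : ∑ v ∈ Finset.univ \ S, w v / t * pp v ≤ t * mom w t 2 * (g τ - τ) := by
    have : t * mom w t 2 * (g τ - τ) = ∑ v, w v / t * (w v * (g τ - τ) / t) := by
      rw [mom, Finset.sum_div, Finset.mul_sum, Finset.sum_mul]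
      exact Finset.sum_congr rfl fun v _ => by field_simp
    rw [this]
    refine le_trans (Finset.sum_le_sum fun v _ => mul_le_mul_of_nonneg_left (pple v)
      (div_nonneg (hw v) ht.le)) (Finset.sum_le_sum_of_subset_of_nonneg Finset.sdiff_subset
        fun v _ _ => ?_)
    have := hw v
    have : 0 ≤ g τ - τ := by linarith only [g1]
    positivity
  have b2 : ∑ v ∈ Finset.univ \ S, (w v / t) ^ 2 * pp v ≤ mom w t 3 * h := by
    have : mom w t 3 * h = ∑ v, (w v / t) ^ 2 * (w v * h / t) := by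
      rw [mom, Finset.sum_div, Finset.sum_mul]
      exact Finset.sum_congr rfl fun v _ => by field_simp
    rw [this]
    refine le_trans (Finset.sum_le_sum fun v _ => mul_le_mul_of_nonneg_left ((pple v).trans ?_)
      (sq_nonneg _)) (Finset.sum_le_sum_of_subset_of_nonneg Finset.sdiff_subset
        fun v _ _ => ?_)
    · have := hw v
      gcongr; linarith only [g2]
    · have := hw v
      positivity
  calc _ ≤ Pr (PP (Ix V)) (fun U => lf (PhiC w t a U) S = S ∧
        ((∀ v ∈ Finset.univ \ S, U (Sum.inr v) ∈ Ici (gam w t a τ v)) ∧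
        η ≤ |∑ v ∈ Finset.univ \ S, w v / t * (ind (U (Sum.inr v) ∈
          Ico (gam w t a τ v) (gam w t a (g τ) v)) - pp v)|)) := by
        refine Pr_mono _ fun U ⟨hU1, hU2⟩ => ?_
        have hU3 := (evq U).1 hU1
        refine ⟨hU3.1, hU3.2, le_trans ?_ (le_abs_self _)⟩
        have eT : TC w t a U = τ := by rw [TC, hU1]
        have eA : arr w t a τ U = S := by rw [← eT, arr_TC hw ht, hU1]
        rw [eT, Zc, mul_sub t (ym w t _), t_ym_arr w ht,
          ← Finset.sum_sdiff (Finset.subset_univ S)] at hU2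
        have c1 : ∑ v ∈ S, w v / t *
            ind (U (Sum.inr v) ∈ Iio (gam w t a (g τ) v)) = t * τ := by
          rw [show t * τ = ∑ v ∈ S, t * (w v / t ^ 2) by
            rw [hτ, ym, Finset.sum_div, Finset.mul_sum]]
          refine Finset.sum_congr rfl fun v hv => ?_
          rw [← eA] at hv
          have : U (Sum.inr v) < gam w t a τ v := by simpa [arr] using hv
          rw [ind_pos (show U (Sum.inr v) ∈ Iio _ from this.trans_le (hm v))]
          field_simp
        have c2 : ∑ v ∈ Finset.univ \ S, w v / t *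
            ind (U (Sum.inr v) ∈ Iio (gam w t a (g τ) v)) =
            ∑ v ∈ Finset.univ \ S, w v / t * ind (U (Sum.inr v) ∈
              Ico (gam w t a τ v) (gam w t a (g τ) v)) := by
          refine Finset.sum_congr rfl fun v hv => ?_
          have : gam w t a τ v ≤ U (Sum.inr v) := hU3.2 v hv
          simp [this]
        rw [c1, c2] at hU2
        simp only [mul_sub, Finset.sum_sub_distrib]
        have c3 : t * (mom w t 2 - 1) * (g τ - τ) ≤ |t * (mom w t 2 - 1)| * h :=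
          mul_le_mul (le_abs_self _) (by linarith only [g2]) (by linarith only [g1]) (abs_nonneg _)
        linarith only [b1, hU2, c3]
    _ = _ := by
        refine Pr_indep (inside S) smL (smB.and (smX.comp (fun x => η ≤ |x|))) ?_ ?_
        · intro U U' hU; rw [lfC_dep hw ht a S hU]
        · intro U U' hU
          refine and_congr (forall₂_congr fun v hv => by rw [out U U' hU v hv]) ?_
          rw [Finset.sum_congr rfl fun v hv => by rw [out U U' hU v hv]]
    _ ≤ _ := by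
        rw [p1, mul_assoc]
        refine mul_le_mul_of_nonneg_left (p2.trans ?_) (Pr_nonneg _ _)
        refine mul_le_mul_of_nonneg_left ?_ (Finset.prod_nonneg fun _ _ => measureReal_nonneg)
        gcongr

end Pool.Agent.Work.MP_e39611_pr
end

-- merged part: Pool.Agent.Work.MP_e39611_pr.CLT
section
/-!
Finite dimensional central limit theorem for the walk of the clock model.
-/

namespace Pool.Agent.Work.MP_e39611_pr

open MeasureTheory Set Real Filter Topology
open scoped Classical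

set_option linter.unusedSectionVars false

lemma cexp_third (x : ℝ) :
    ‖Complex.exp (x * Complex.I) - (1 + x * Complex.I - x ^ 2 / 2)‖ ≤ 4 * |x| ^ 3 := by
  by_cases h : |x| ≤ 1
  · have hn : ‖(x : ℂ) * Complex.I‖ = |x| := by simp
    have := Complex.exp_bound (x := x * Complex.I) (by rw [hn]; exact h) (n := 3) (by norm_num)
    rw [hn] at this
    have e : ∑ m ∈ Finset.range 3, ((x : ℂ) * Complex.I) ^ m / (m.factorial : ℂ) =
        1 + x * Complex.I - x ^ 2 / 2 := by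
      simp only [Finset.sum_range_succ, Finset.range_zero, Finset.sum_empty, Nat.factorial,
        mul_pow, Complex.I_sq]
      norm_num; ring
    rw [e] at this
    refine this.trans ?_
    have := pow_nonneg (abs_nonneg x) 3
    norm_num [Nat.factorial]
    linarith only [this]
  · have h1 := not_le.1 h
    have a1 : ‖Complex.exp (x * Complex.I)‖ = 1 := Complex.norm_exp_ofReal_mul_I x
    have a2 : ‖(1 : ℂ) + x * Complex.I - x ^ 2 / 2‖ ≤ 1 + |x| + |x| ^ 2 / 2 := by
      refine (norm_sub_le _ _).trans (add_le_add ((norm_add_le _ _).trans ?_) ?_) <;> simp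
    refine (norm_sub_le _ _).trans ?_
    have h5 : |x| ≤ |x| ^ 2 := by linarith only [h, mul_pos_of_neg_of_neg (Mathlib.Tactic.Linarith.sub_neg_of_lt (lt_of_not_ge h)) (Mathlib.Tactic.Linarith.sub_neg_of_lt (lt_of_not_ge h))]
    have h6 : |x| ^ 2 ≤ |x| ^ 3 := by linarith only [h, mul_nonneg_of_nonpos_of_nonpos (Mathlib.Tactic.Linarith.sub_nonpos_of_le (sq_nonneg |x|)) (le_of_lt (Mathlib.Tactic.Linarith.sub_neg_of_lt (lt_of_not_ge h)))]
    linarith only [h, a1, a2, h5, h6]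

lemma norm_prod_sub_le {κ : Type} (s : Finset κ) (a b : κ → ℂ) (ha : ∀ k ∈ s, ‖a k‖ ≤ 1)
    (hb : ∀ k ∈ s, ‖b k‖ ≤ 1) : ‖∏ k ∈ s, a k - ∏ k ∈ s, b k‖ ≤ ∑ k ∈ s, ‖a k - b k‖ := by
  induction s using Finset.induction_on with
  | empty => simp
  | insert i s hi ih =>
    rw [Finset.prod_insert hi, Finset.prod_insert hi, Finset.sum_insert hi]
    have h1 := ih (fun k hk => ha k (by simp [hk])) (fun k hk => hb k (by simp [hk]))
    have h2 : ‖∏ k ∈ s, a k‖ ≤ 1 := by
      rw [norm_prod]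
      exact Finset.prod_le_one (fun _ _ => norm_nonneg _) (fun k hk => ha k (by simp [hk]))
    have h3 := hb i (by simp)
    have e : a i * ∏ k ∈ s, a k - b i * ∏ k ∈ s, b k =
        (a i - b i) * ∏ k ∈ s, a k + b i * (∏ k ∈ s, a k - ∏ k ∈ s, b k) := by ring
    rw [e]
    refine (norm_add_le _ _).trans (add_le_add ?_ ?_)
    · rw [norm_mul]; exact mul_le_of_le_one_right (norm_nonneg _) h2
    · rw [norm_mul]; exact (mul_le_of_le_one_left (norm_nonneg _) h3).trans h1

lemma char_one {X : ℝ → ℝ} (hX : Sm X) (h0 : ∫ u, X u ∂unif = 0) :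
    ‖∫ u, Complex.exp (X u * Complex.I) ∂unif - (exp (-((∫ u, X u ^ 2 ∂unif) / 2)) : ℝ)‖ ≤
      4 * ∫ u, |X u| ^ 3 ∂unif + (∫ u, X u ^ 2 ∂unif) ^ 2 := by
  set σ := ∫ u, X u ^ 2 ∂unif with hσ
  have σ0 : 0 ≤ σ := integral_nonneg fun u => sq_nonneg _
  have i1 : Integrable (fun u => Complex.exp (X u * Complex.I)) unif :=
    (hX.comp (fun x : ℝ => Complex.exp (x * Complex.I))).integrable _
  have i2 : Integrable (fun u => (X u : ℂ) * Complex.I) unif :=
    (hX.comp (fun x : ℝ => (x : ℂ) * Complex.I)).integrable _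
  have i3 : Integrable (fun u => (X u : ℂ) ^ 2 / 2) unif :=
    (hX.comp (fun x : ℝ => (x : ℂ) ^ 2 / 2)).integrable _
  have e : ∫ u, (1 + (X u : ℂ) * Complex.I - (X u : ℂ) ^ 2 / 2) ∂unif = ((1 - σ / 2 : ℝ) : ℂ) := by
    rw [integral_sub ((integrable_const _).fun_add i2) i3, integral_add (integrable_const _) i2,
      integral_mul_const, integral_div, integral_complex_ofReal, h0]
    have : ∫ u, (X u : ℂ) ^ 2 ∂unif = (σ : ℂ) := by
      rw [hσ, ← integral_complex_ofReal]; simp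
    rw [this]; simp
  have a1 : ‖∫ u, Complex.exp (X u * Complex.I) ∂unif - ((1 - σ / 2 : ℝ) : ℂ)‖ ≤
      4 * ∫ u, |X u| ^ 3 ∂unif := by
    rw [← e, ← integral_sub i1 (((integrable_const _).fun_add i2).sub' i3), ← integral_const_mul]
    exact norm_integral_le_of_norm_le ((hX.comp (fun x : ℝ => 4 * |x| ^ 3)).integrable _)
      (Eventually.of_forall fun u => cexp_third _)
  have a2 : ‖((1 - σ / 2 : ℝ) : ℂ) - (exp (-(σ / 2)) : ℝ)‖ ≤ σ ^ 2 := by
    rw [← Complex.ofReal_sub, Complex.norm_real, Real.norm_eq_abs, abs_le]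
    have b1 := one_sub_exp_le (σ / 2)
    have b2 := one_sub_exp_ge (x := σ / 2) (by positivity)
    constructor <;> linarith only [b2, b1, sq_nonneg ((1 : ℝ) * σ)]
  exact (norm_sub_le_norm_sub_add_norm_sub _ _ _).trans (add_le_add a1 a2)

lemma char_sum {ι κ : Type} [Fintype ι] (s : Finset κ) (e : κ → ι) (he : Set.InjOn e s)
    {X : κ → ℝ → ℝ} (hX : ∀ k, Sm (X k)) (h0 : ∀ k, ∫ u, X k u ∂unif = 0) :
    ‖∫ U, Complex.exp ((∑ k ∈ s, X k (U (e k)) : ℝ) * Complex.I) ∂(PP ι) -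
        (exp (-((∑ k ∈ s, ∫ u, X k u ^ 2 ∂unif) / 2)) : ℝ)‖ ≤
      ∑ k ∈ s, (4 * ∫ u, |X k u| ^ 3 ∂unif + (∫ u, X k u ^ 2 ∂unif) ^ 2) := by
  have h1 := integral_prod_coord (𝕜 := ℂ) s e he (fun k u => Complex.exp (X k u * Complex.I))
    (fun k _ => ((hX k).comp (fun x : ℝ => Complex.exp (x * Complex.I))).measurable)
  have h2 : ∀ U : ι → ℝ, Complex.exp ((∑ k ∈ s, X k (U (e k)) : ℝ) * Complex.I) =
      ∏ k ∈ s, Complex.exp (X k (U (e k)) * Complex.I) := fun U => by
    rw [← Complex.exp_sum, Complex.ofReal_sum, Finset.sum_mul]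
  have h3 : ((exp (-((∑ k ∈ s, ∫ u, X k u ^ 2 ∂unif) / 2)) : ℝ) : ℂ) =
      ∏ k ∈ s, ((exp (-((∫ u, X k u ^ 2 ∂unif) / 2)) : ℝ) : ℂ) := by
    rw [← Complex.ofReal_prod, ← exp_sum, Finset.sum_neg_distrib, Finset.sum_div]
  simp_rw [h2]
  rw [h1, h3]
  refine (norm_prod_sub_le s _ _ (fun k _ => ?_) (fun k _ => ?_)).trans
    (Finset.sum_le_sum fun k _ => char_one (hX k) (h0 k))
  · refine (norm_integral_le_of_norm_le_const (C := 1) (Eventually.of_forall fun u => ?_)).trans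
      (by simp)
    exact (Complex.norm_exp_ofReal_mul_I _).le
  · rw [Complex.norm_real, Real.norm_eq_abs, abs_of_pos (exp_pos _), exp_le_one_iff, neg_nonpos]
    exact div_nonneg (integral_nonneg fun u => sq_nonneg _) (by norm_num)

lemma conv_of_charFun {E : Type} [NormedAddCommGroup E] [InnerProductSpace ℝ E]
    [FiniteDimensional ℝ E] [MeasurableSpace E] [BorelSpace E] (μ : ℕ → ProbabilityMeasure E)
    {φ : E → ℂ} (hφ : ContinuousAt φ 0)
    (h : ∀ θ, Tendsto (fun k => charFun (μ k : Measure E) θ) atTop (𝓝 (φ θ))) :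
    ∃ μ0 : ProbabilityMeasure E, Tendsto μ atTop (𝓝 μ0) := by
  have ht : IsTightMeasureSet (Set.range fun k => (μ k : Measure E)) :=
    isTightMeasureSet_of_tendsto_charFun hφ h
  have hc : IsCompact (closure (Set.range μ)) :=
    isCompact_closure_of_isTightMeasureSet (by
      refine ht.subset ?_
      rintro _ ⟨ν, ⟨k, rfl⟩, rfl⟩
      exact ⟨k, rfl⟩)
  obtain ⟨μ0, -, hμ : Tendsto _ _ _⟩ := hc.ultrafilter_le_nhds ((hyperfilter ℕ).map μ)
    (.trans (by simp) (monotone_principal subset_closure))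
  refine ⟨μ0, ProbabilityMeasure.tendsto_of_tendsto_charFun fun θ => ?_⟩
  have a1 : Tendsto (fun k => charFun (μ k : Measure E) θ) (hyperfilter ℕ)
      (𝓝 (charFun (μ0 : Measure E) θ)) := by
    rw [ProbabilityMeasure.tendsto_iff_forall_integral_rclike_tendsto ℂ] at hμ
    simp_rw [charFun_eq_integral_innerProbChar]
    exact hμ _
  have a2 := (h θ).mono_left (Nat.hyperfilter_le_atTop)
  rw [tendsto_nhds_unique a1 a2]
  exact h θ

/-- a weighted vertex set -/
structure Mdl where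
  n : ℕ
  w : Fin n → ℝ
  t : ℝ

/-- admissible sequences of models -/
structure Adm (M : ℕ → Mdl) (m1 lam m3 : ℝ) : Prop where
  pos : ∀ k v, 0 ≤ (M k).w v
  tpos : ∀ k, 0 < (M k).t
  card : ∀ k, (Fintype.card (Fin (M k).n) : ℝ) = (M k).t ^ 3
  tinf : Tendsto (fun k => (M k).t) atTop atTop
  h1 : Tendsto (fun k => mom (M k).w (M k).t 1) atTop (𝓝 m1)
  h2 : Tendsto (fun k => (M k).t * (mom (M k).w (M k).t 2 - 1)) atTop (𝓝 lam)
  h3 : Tendsto (fun k => mom (M k).w (M k).t 3) atTop (𝓝 m3)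
  h4 : Tendsto (fun k => mom (M k).w (M k).t 4 / (M k).t) atTop (𝓝 0)

variable {M : ℕ → Mdl} {m1 lam m3 : ℝ}

lemma Adm.inv (A : Adm M m1 lam m3) : Tendsto (fun k => ((M k).t)⁻¹) atTop (𝓝 0) :=
  A.tinf.inv_tendsto_atTop

lemma Adm.h2' (A : Adm M m1 lam m3) : Tendsto (fun k => mom (M k).w (M k).t 2) atTop (𝓝 1) := by
  have := (A.h2.mul A.inv).add_const 1
  rw [mul_zero, zero_add] at this
  refine this.congr fun k => ?_
  have := A.tpos k
  field_simp; ring

lemma tendsto_of_abs_le {f g b : ℕ → ℝ} {y : ℝ} (hg : Tendsto g atTop (𝓝 y))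
    (hb : Tendsto b atTop (𝓝 0)) (h : ∀ k, |f k - g k| ≤ b k) : Tendsto f atTop (𝓝 y) := by
  have h1 : Tendsto (fun k => f k - g k) atTop (𝓝 0) :=
    squeeze_zero_norm (fun k => h k) hb
  simpa using h1.add hg

lemma Adm.EZ_zero (A : Adm M m1 lam m3) {s : ℝ} (hs : 0 ≤ s) :
    Tendsto (fun k => EZ (M k).w (M k).t 0 s) atTop (𝓝 (lam * s - m3 * s ^ 2 / 2)) := by
  refine tendsto_of_abs_le ((A.h2.mul_const s).sub ((A.h3.mul_const (s ^ 2)).div_const 2)) ?_
    (fun k => MP_e39611_pr.EZ_zero (A.pos k) (A.tpos k) hs)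
  simpa using A.h4.mul_const (s ^ 3)

lemma Adm.EZ_level (A : Adm M m1 lam m3) {a s : ℝ} (ha : 0 ≤ a) (hs : 0 ≤ s) :
    Tendsto (fun k => EZ (M k).w (M k).t a s - EZ (M k).w (M k).t 0 s) atTop (𝓝 (a * m1)) := by
  refine tendsto_of_abs_le (A.h1.const_mul a) ?_
    (fun k => MP_e39611_pr.EZ_level (A.pos k) (A.tpos k) ha hs)
  have := ((A.h2'.const_mul (a * s)).mul A.inv).add ((A.h1.const_mul (a ^ 2)).mul (A.inv.pow 2))
  simpa [div_eq_mul_inv] using this

lemma integral_ind_Iio {x : ℝ} (h0 : 0 ≤ x) (h1 : x ≤ 1) : ∫ u, ind (u < x) ∂unif = x := by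
  rw [integral_ind unif (Sm.prop measurableSet_Iio)]; exact unif_Iio h0 h1

lemma sm_ind_lt (x : ℝ) : Sm (fun u : ℝ => ind (u < x)) := (Sm.prop measurableSet_Iio).comp ind

section one
variable {V : Type} [Fintype V] [DecidableEq V] {N : ℕ}

/-- centred contribution of one vertex -/
noncomputable def Xv (w : V → ℝ) (t : ℝ) (g θ : Fin N → ℝ) (v : V) (u : ℝ) : ℝ :=
  ∑ i, θ i * (w v / t) * (ind (u < gam w t 0 (g i) v) - gam w t 0 (g i) v)

lemma sm_Xv (w : V → ℝ) (t : ℝ) (g θ : Fin N → ℝ) (v : V) : Sm (Xv w t g θ v) :=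
  Sm.sum _ fun i _ => (sm_ind_lt _).comp (fun x => θ i * (w v / t) * (x - gam w t 0 (g i) v))

lemma Xv_mean {w : V → ℝ} (hw : ∀ v, 0 ≤ w v) {t : ℝ} (ht : 0 < t) {g : Fin N → ℝ}
    (hg : ∀ i, 0 ≤ g i) (θ : Fin N → ℝ) (v : V) : ∫ u, Xv w t g θ v u ∂unif = 0 := by
  unfold Xv
  rw [integral_finsetSum _ fun i _ => ((sm_ind_lt _).comp
    (fun x => θ i * (w v / t) * (x - gam w t 0 (g i) v))).integrable _]
  refine Finset.sum_eq_zero fun i _ => ?_
  rw [integral_const_mul, integral_sub ((sm_ind_lt _).integrable _) (integrable_const _),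
    integral_ind_Iio (gam_nonneg hw ht le_rfl (hg i) v) (gam_le_one _ _ _ _ _)]
  simp

lemma Xv_var {w : V → ℝ} (hw : ∀ v, 0 ≤ w v) {t : ℝ} (ht : 0 < t) {g : Fin N → ℝ}
    (hg : ∀ i, 0 ≤ g i) (θ : Fin N → ℝ) (v : V) : ∫ u, Xv w t g θ v u ^ 2 ∂unif =
      ∑ i, ∑ j, θ i * θ j * ((w v / t) ^ 2 * (gam w t 0 (min (g i) (g j)) v -
        gam w t 0 (g i) v * gam w t 0 (g j) v)) := by
  have sm : ∀ i, Sm (fun u : ℝ => θ i * (w v / t) *
      (ind (u < gam w t 0 (g i) v) - gam w t 0 (g i) v)) := fun i =>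
    (sm_ind_lt _).comp (fun x => θ i * (w v / t) * (x - gam w t 0 (g i) v))
  unfold Xv
  simp_rw [sq (∑ _, _), Finset.sum_mul_sum]
  rw [integral_finsetSum _ fun i _ =>
    (Sm.sum _ fun j _ => (sm i).comp₂ (sm j) (· * ·)).integrable _]
  refine Finset.sum_congr rfl fun i _ => ?_
  rw [integral_finsetSum _ fun j _ => ((sm i).comp₂ (sm j) (· * ·)).integrable _]
  refine Finset.sum_congr rfl fun j _ => ?_
  have key : ∀ u : ℝ, ind (u < gam w t 0 (g i) v) * ind (u < gam w t 0 (g j) v) =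
      ind (u < gam w t 0 (min (g i) (g j)) v) := by
    intro u
    rcases le_total (g i) (g j) with h | h
    · rw [min_eq_left h]
      by_cases h1 : u < gam w t 0 (g i) v
      · rw [ind_pos h1, ind_pos (h1.trans_le (gam_mono hw ht le_rfl h v)), one_mul]
      · rw [ind_neg h1, zero_mul]
    · rw [min_eq_right h]
      by_cases h1 : u < gam w t 0 (g j) v
      · rw [ind_pos h1, ind_pos (h1.trans_le (gam_mono hw ht le_rfl h v)), one_mul]
      · rw [ind_neg h1, mul_zero]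
  have e : ∀ u : ℝ, θ i * (w v / t) * (ind (u < gam w t 0 (g i) v) - gam w t 0 (g i) v) *
      (θ j * (w v / t) * (ind (u < gam w t 0 (g j) v) - gam w t 0 (g j) v)) =
      θ i * θ j * (w v / t) ^ 2 * ((ind (u < gam w t 0 (min (g i) (g j)) v) -
        gam w t 0 (g j) v * ind (u < gam w t 0 (g i) v)) -
        (gam w t 0 (g i) v * ind (u < gam w t 0 (g j) v) -
          gam w t 0 (g i) v * gam w t 0 (g j) v)) := fun u => by
    rw [← key]; ring
  simp_rw [e]
  have i0 : ∀ x, Integrable (fun u : ℝ => ind (u < x)) unif := fun x => (sm_ind_lt x).integrable _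
  rw [integral_const_mul, integral_sub ((i0 _).sub' ((i0 _).const_mul _))
    (((i0 _).const_mul _).sub' (integrable_const _)), integral_sub (i0 _) ((i0 _).const_mul _),
    integral_sub ((i0 _).const_mul _) (integrable_const _), integral_const_mul, integral_const_mul,
    integral_ind_Iio (gam_nonneg hw ht le_rfl (hg i) v) (gam_le_one _ _ _ _ _),
    integral_ind_Iio (gam_nonneg hw ht le_rfl (hg j) v) (gam_le_one _ _ _ _ _),
    integral_ind_Iio (gam_nonneg hw ht le_rfl (le_min (hg i) (hg j)) v) (gam_le_one _ _ _ _ _)]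
  simp only [integral_const, probReal_univ, smul_eq_mul, one_mul]
  ring

lemma Xv_abs {w : V → ℝ} (hw : ∀ v, 0 ≤ w v) {t : ℝ} (ht : 0 < t) (g : Fin N → ℝ)
    (θ : Fin N → ℝ) (v : V) (u : ℝ) {c : ℝ}
    (hc : ∀ i, |ind (u < gam w t 0 (g i) v) - gam w t 0 (g i) v| ≤ c) :
    |Xv w t g θ v u| ≤ (∑ i, |θ i|) * (w v / t) * c := by
  have := hw v
  rw [Finset.sum_mul, Finset.sum_mul]
  refine (Finset.abs_sum_le_sum_abs _ _).trans (Finset.sum_le_sum fun i _ => ?_)
  rw [abs_mul, abs_mul, abs_of_nonneg (by positivity : 0 ≤ w v / t)]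
  gcongr
  exact hc i

lemma Xv_err {w : V → ℝ} (hw : ∀ v, 0 ≤ w v) {t : ℝ} (ht : 0 < t) {g : Fin N → ℝ}
    (hg : ∀ i, 0 ≤ g i) {T : ℝ} (hT0 : 0 ≤ T) (hT : ∀ i, g i ≤ T) (θ : Fin N → ℝ) (v : V) :
    4 * ∫ u, |Xv w t g θ v u| ^ 3 ∂unif + (∫ u, Xv w t g θ v u ^ 2 ∂unif) ^ 2 ≤
      (8 * (∑ i, |θ i|) ^ 3 * T + (∑ i, |θ i|) ^ 4) * (w v ^ 4 / t ^ 4) := by
  set Θ := ∑ i, |θ i|
  have Θ0 : 0 ≤ Θ := Finset.sum_nonneg fun i _ => abs_nonneg _
  have w0 := hw v
  have g0 := fun i => gam_nonneg hw ht le_rfl (hg i) v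
  have g1 := fun i => gam_le_one w t 0 (g i) v
  have gT := fun i => gam_mono hw ht (le_refl 0) (hT i) v
  have T0 := gam_nonneg hw ht le_rfl hT0 v
  have T1 := gam_le_one w t 0 T v
  have b1 : ∀ u, |Xv w t g θ v u| ≤ Θ * (w v / t) * 1 := fun u =>
    Xv_abs hw ht g θ v u fun i => by
      have := ind_nonneg (u < gam w t 0 (g i) v)
      have := ind_le_one (u < gam w t 0 (g i) v)
      have := g0 i
      have := g1 i
      rw [abs_le]; constructor <;> linarith
  have b2 : ∀ u, |Xv w t g θ v u| ^ 3 ≤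
      (Θ * (w v / t)) ^ 3 * (ind (u < gam w t 0 T v) + gam w t 0 T v) := fun u => by
    by_cases hu : u < gam w t 0 T v
    · rw [ind_pos hu]
      have := pow_le_pow_left₀ (abs_nonneg _) (b1 u) 3
      have h2 : 0 ≤ (Θ * (w v / t)) ^ 3 * gam w t 0 T v := by positivity
      rw [mul_one] at this
      linarith only [this, h2]
    · rw [ind_neg hu, zero_add]
      have h1 := Xv_abs hw ht g θ v u (c := gam w t 0 T v) fun i => by
        rw [ind_neg (fun h => hu (h.trans_le (gT i))), zero_sub, abs_neg, abs_of_nonneg (g0 i)]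
        exact gT i
      refine (pow_le_pow_left₀ (abs_nonneg _) h1 3).trans ?_
      rw [mul_pow _ (gam w t 0 T v)]
      exact mul_le_mul_of_nonneg_left (pow_le_of_le_one T0 T1 (by norm_num)) (by positivity)
  have c1 : ∫ u, |Xv w t g θ v u| ^ 3 ∂unif ≤ (Θ * (w v / t)) ^ 3 * (2 * (w v * T / t)) := by
    refine (integral_mono (((sm_Xv w t g θ v).comp (fun x => |x| ^ 3)).integrable _)
      (((sm_ind_lt _).comp (fun x => (Θ * (w v / t)) ^ 3 * (x + gam w t 0 T v))).integrable _)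
      b2).trans ?_
    rw [integral_const_mul, integral_add ((sm_ind_lt _).integrable _) (integrable_const _),
      integral_ind_Iio T0 T1]
    simp only [integral_const, probReal_univ, smul_eq_mul, one_mul]
    have := gam_le (w := w) t 0 T v
    rw [zero_div, zero_add] at this
    gcongr; linarith only [this]
  have c2 : ∫ u, Xv w t g θ v u ^ 2 ∂unif ≤ (Θ * (w v / t)) ^ 2 := by
    refine (integral_mono (((sm_Xv w t g θ v).comp (fun x => x ^ 2)).integrable _)
      (integrable_const ((Θ * (w v / t)) ^ 2)) fun u => ?_).trans (by simp)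
    have := pow_le_pow_left₀ (abs_nonneg _) (b1 u) 2
    rwa [mul_one, sq_abs] at this
  have c3 := pow_le_pow_left₀ (integral_nonneg fun u => sq_nonneg _) c2 2
  refine (add_le_add (mul_le_mul_of_nonneg_left c1 (by norm_num)) c3).trans (le_of_eq ?_)
  field_simp; ring

lemma cov_err {w : V → ℝ} (hw : ∀ v, 0 ≤ w v) {t : ℝ} (ht : 0 < t) {a b : ℝ} (ha : 0 ≤ a)
    (hb : 0 ≤ b) : |∑ v, (w v / t) ^ 2 * (gam w t 0 (min a b) v - gam w t 0 a v * gam w t 0 b v) -
      mom w t 3 * min a b| ≤ mom w t 4 / t * (min a b ^ 2 + a * b) := by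
  have e : mom w t 3 * min a b = ∑ v, (w v / t) ^ 2 * (w v * min a b / t) := by
    rw [mom, Finset.sum_div, Finset.sum_mul]
    exact Finset.sum_congr rfl fun v _ => by field_simp
  rw [e, ← Finset.sum_sub_distrib, mom, Finset.sum_div, Finset.sum_div, Finset.sum_mul]
  refine (Finset.abs_sum_le_sum_abs _ _).trans (Finset.sum_le_sum fun v _ => ?_)
  have w0 := hw v
  have m0 := le_min ha hb
  rw [← mul_sub, abs_mul, abs_of_nonneg (sq_nonneg _)]
  have a1 := gam_le (w := w) t 0 a v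
  have a2 := gam_le (w := w) t 0 b v
  have a3 := gam_le (w := w) t 0 (min a b) v
  have a4 : w v * min a b / t - (w v * min a b / t) ^ 2 ≤ gam w t 0 (min a b) v := by
    have := one_sub_exp_ge (x := w v * min a b / t) (by positivity)
    simpa [gam] using this
  rw [zero_div, zero_add] at a1 a2 a3
  have a5 := gam_nonneg hw ht le_rfl ha v
  have a6 := gam_nonneg hw ht le_rfl hb v
  have a7 := mul_le_mul a1 a2 a6 (by positivity)
  have a8 : |gam w t 0 (min a b) v - gam w t 0 a v * gam w t 0 b v - w v * min a b / t| ≤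
      (w v * min a b / t) ^ 2 + w v * a / t * (w v * b / t) := by
    have := mul_nonneg a5 a6
    have := sq_nonneg (w v * min a b / t)
    rw [abs_le]; constructor <;> linarith
  refine (mul_le_mul_of_nonneg_left a8 (sq_nonneg _)).trans (le_of_eq ?_)
  field_simp

lemma sum_theta_Z (w : V → ℝ) {t : ℝ} (ht : 0 < t) (g θ : Fin N → ℝ) (U : Ix V → ℝ) :
    ∑ i, θ i * Zc w t 0 (g i) U =
      ∑ i, θ i * EZ w t 0 (g i) + ∑ v, Xv w t g θ v (U (Sum.inr v)) := by
  unfold Xv
  rw [Finset.sum_comm, ← Finset.sum_add_distrib]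
  refine Finset.sum_congr rfl fun i _ => ?_
  rw [Zc, EZ, mul_sub t, t_ym_arr w ht]
  simp only [mul_sub, Finset.sum_sub_distrib, Finset.mul_sum, mem_Iio, mul_assoc]
  ring

end one

theorem Adm.clt (A : Adm M m1 lam m3) {N : ℕ} {g : Fin N → ℝ} (hg : ∀ i, 0 ≤ g i)
    {F : (Fin N → ℝ) → ℝ} (hF : Continuous F) {B : ℝ} (hB : ∀ z, |F z| ≤ B) :
    ∃ y, Tendsto (fun k => ∫ U, F (fun i => Zc (M k).w (M k).t 0 (g i) U) ∂(PP (Ix (Fin (M k).n))))
      atTop (𝓝 y) := by
  let Z : ∀ k, (Ix (Fin (M k).n) → ℝ) → EuclideanSpace ℝ (Fin N) := fun k U =>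
    WithLp.toLp 2 (fun i => Zc (M k).w (M k).t 0 (g i) U)
  have smZ : ∀ k, Sm (Z k) := fun k => (Sm.pi fun i => sm_Zc _ _ _ _).comp (WithLp.toLp 2)
  let μ : ℕ → ProbabilityMeasure (EuclideanSpace ℝ (Fin N)) := fun k =>
    ⟨(PP _).map (Z k), Measure.isProbabilityMeasure_map (smZ k).measurable.aemeasurable⟩
  let φ : EuclideanSpace ℝ (Fin N) → ℂ := fun θ =>
    Complex.exp ((∑ i, θ i * (lam * g i - m3 * g i ^ 2 / 2) : ℝ) * Complex.I) *
      (exp (-((∑ i, ∑ j, θ i * θ j * (m3 * min (g i) (g j))) / 2)) : ℝ)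
  have hφ : Continuous φ := by fun_prop
  obtain ⟨T, hT⟩ := Finite.exists_le g
  have h : ∀ θ, Tendsto (fun k => charFun (μ k : Measure _) θ) atTop (𝓝 (φ θ)) := by
    intro θ
    have e : ∀ k, charFun (μ k : Measure _) θ =
        Complex.exp ((∑ i, θ i * EZ (M k).w (M k).t 0 (g i) : ℝ) * Complex.I) *
        ∫ U, Complex.exp ((∑ v, Xv (M k).w (M k).t g θ v (U (Sum.inr v)) : ℝ) * Complex.I)
          ∂(PP (Ix (Fin (M k).n))) := by
      intro k
      rw [charFun_apply, ← integral_const_mul]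
      change ∫ x, _ ∂((PP _).map (Z k)) = _
      rw [integral_map (smZ k).measurable.aemeasurable (by fun_prop)]
      refine integral_congr_ae (Eventually.of_forall fun U => ?_)
      have : inner ℝ (Z k U) θ = ∑ i, θ i * Zc (M k).w (M k).t 0 (g i) U := by
        simp [Z, PiLp.inner_apply]
      simp only [this]
      rw [sum_theta_Z _ (A.tpos k), ← Complex.exp_add, Complex.ofReal_add, add_mul]
    simp_rw [e]
    refine Tendsto.mul ?_ ?_
    · refine (Complex.continuous_exp.tendsto _).comp (Tendsto.mul_const _ ?_)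
      exact (Complex.continuous_ofReal.tendsto _).comp
        (tendsto_finsetSum _ fun i _ => (A.EZ_zero (hg i)).const_mul _)
    · have a1 : Tendsto (fun k => ∑ v, ∫ u, Xv (M k).w (M k).t g θ v u ^ 2 ∂unif) atTop
          (𝓝 (∑ i, ∑ j, θ i * θ j * (m3 * min (g i) (g j)))) := by
        have : ∀ k, ∑ v, ∫ u, Xv (M k).w (M k).t g θ v u ^ 2 ∂unif = ∑ i, ∑ j, θ i * θ j *
            ∑ v, ((M k).w v / (M k).t) ^ 2 * (gam (M k).w (M k).t 0 (min (g i) (g j)) v -
              gam (M k).w (M k).t 0 (g i) v * gam (M k).w (M k).t 0 (g j) v) := by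
          intro k
          simp only [Xv_var (A.pos k) (A.tpos k) hg, Finset.mul_sum]
          rw [Finset.sum_comm]
          exact Finset.sum_congr rfl fun i _ => Finset.sum_comm
        simp_rw [this]
        refine tendsto_finsetSum _ fun i _ => tendsto_finsetSum _ fun j _ =>
          Tendsto.const_mul _ (tendsto_of_abs_le (A.h3.mul_const _) ?_
            (fun k => cov_err (A.pos k) (A.tpos k) (hg i) (hg j)))
        simpa using A.h4.mul_const (min (g i) (g j) ^ 2 + g i * g j)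
      have a2 : Tendsto (fun k => ((exp (-((∑ v, ∫ u, Xv (M k).w (M k).t g θ v u ^ 2 ∂unif) / 2))
          : ℝ) : ℂ)) atTop
          (𝓝 ((exp (-((∑ i, ∑ j, θ i * θ j * (m3 * min (g i) (g j))) / 2)) : ℝ) : ℂ)) :=
        (Complex.continuous_ofReal.tendsto _).comp
          ((continuous_exp.tendsto _).comp (a1.div_const 2).neg)
      have a3 := squeeze_zero_norm (fun k => (char_sum Finset.univ (Sum.inr : _ → Ix _)
        Sum.inr_injective.injOn (sm_Xv (M k).w (M k).t g θ)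
        (Xv_mean (A.pos k) (A.tpos k) hg θ)).trans (Finset.sum_le_sum fun v _ =>
          Xv_err (A.pos k) (A.tpos k) hg (le_max_left 0 T) (fun i => (hT i).trans
            (le_max_right 0 T)) θ v)) (by
          have := A.h4.const_mul (8 * (∑ i, |θ i|) ^ 3 * max 0 T + (∑ i, |θ i|) ^ 4)
          rw [mul_zero] at this
          refine this.congr fun k => ?_
          rw [← Finset.mul_sum, ← Finset.sum_div, mom, div_div]
          rfl)
      simpa using a3.add a2
  obtain ⟨μ0, hμ⟩ := conv_of_charFun μ hφ.continuousAt h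
  let Fb : BoundedContinuousFunction (EuclideanSpace ℝ (Fin N)) ℝ :=
    BoundedContinuousFunction.ofNormedAddCommGroup (fun z => F z.ofLp) (by fun_prop) B
      (fun z => hB _)
  refine ⟨_, ((ProbabilityMeasure.tendsto_iff_forall_integral_tendsto.1 hμ) Fb).congr fun k => ?_⟩
  change ∫ x, _ ∂((PP _).map (Z k)) = _
  rw [integral_map (smZ k).measurable.aemeasurable Fb.continuous.aestronglyMeasurable]
  rfl

end Pool.Agent.Work.MP_e39611_pr
end

-- merged part: Pool.Agent.Work.MP_e39611_pr.Top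
section
/-!
Order statistics of finite families.
-/

namespace Pool.Agent.Work.MP_e39611_pr

open Set
open scoped Classical

variable {K K' : Type} [Fintype K] [Fintype K']

/-- number of members at least `y` -/
noncomputable def cnt (x : K → ℝ) (y : ℝ) : ℕ := (Finset.univ.filter (fun k => y ≤ x k)).card

lemma cnt_eq (x : K → ℝ) (y : ℝ) : {k : K | y ≤ x k}.ncard = cnt x y := by
  rw [cnt, ← Set.ncard_coe_finset]; congr 1; ext; simp

lemma cnt_le_card (x : K → ℝ) (y : ℝ) : cnt x y ≤ Fintype.card K := Finset.card_le_univ _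

lemma cnt_anti (x : K → ℝ) {y z : ℝ} (h : y ≤ z) : cnt x z ≤ cnt x y :=
  Finset.card_le_card fun k hk => by
    simp only [Finset.mem_filter, Finset.mem_univ, true_and] at hk ⊢; exact h.trans hk

lemma nth_eq (x : K → ℝ) (j : ℕ) : nthLargest x j = sSup {y | j < cnt x y} := by
  simp only [nthLargest, cnt_eq]

lemma nth_of_card_le (x : K → ℝ) {j : ℕ} (h : Fintype.card K ≤ j) : nthLargest x j = 0 := by
  have : {y | j < cnt x y} = ∅ := by
    ext y; simp only [mem_ofPred_eq, mem_empty_iff_false, iff_false, not_lt]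
    exact (cnt_le_card x y).trans h
  rw [nth_eq, this, Real.sSup_empty]

lemma le_nth_iff (x : K → ℝ) {j : ℕ} (h : j < Fintype.card K) (y : ℝ) :
    y ≤ nthLargest x j ↔ j < cnt x y := by
  have hne : Nonempty K := Fintype.card_pos_iff.1 (by omega)
  obtain ⟨k0, hk0⟩ := Finite.exists_min x
  obtain ⟨k1, hk1⟩ := Finite.exists_max x
  have hS : x k0 ∈ {y | j < cnt x y} := by
    have : Finset.univ.filter (fun k => x k0 ≤ x k) = Finset.univ := by
      ext k; simp [hk0 k]
    simp only [mem_ofPred_eq, cnt, this]; exact h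
  have hb : BddAbove {y | j < cnt x y} := by
    refine ⟨x k1, fun y hy => ?_⟩
    have : 0 < cnt x y := lt_of_le_of_lt (Nat.zero_le _) hy
    obtain ⟨k, hk⟩ := Finset.card_pos.1 this
    exact (Finset.mem_filter.1 hk).2.trans (hk1 k)
  rw [nth_eq]
  refine ⟨fun hy => ?_, fun hy => le_csSup hb hy⟩
  refine lt_of_lt_of_le ?_ (cnt_anti x hy)
  set z := sSup {y | j < cnt x y} with hz
  by_cases hB : (Finset.univ.filter (fun k => x k < z)).Nonempty
  · obtain ⟨k2, hk2, hmax⟩ := Finset.exists_max_image _ x hB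
    have hlt : x k2 < z := (Finset.mem_filter.1 hk2).2
    obtain ⟨u, hu, hu'⟩ := exists_lt_of_lt_csSup ⟨_, hS⟩ hlt
    refine lt_of_lt_of_le hu (Finset.card_le_card fun k hk => ?_)
    simp only [Finset.mem_filter, Finset.mem_univ, true_and] at hk ⊢
    by_contra hc
    have := hmax k (by simpa using hc)
    linarith only [hu', hk, this]
  · have : Finset.univ.filter (fun k => z ≤ x k) = Finset.univ := by
      ext k
      simp only [Finset.mem_filter, Finset.mem_univ, true_and, iff_true]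
      by_contra hc
      exact hB ⟨k, by simpa using hc⟩
    simp only [cnt, this]; exact h

lemma nth_nonneg {x : K → ℝ} (hx : ∀ k, 0 ≤ x k) (j : ℕ) : 0 ≤ nthLargest x j := by
  by_cases h : j < Fintype.card K
  · rw [le_nth_iff x h]
    have : Finset.univ.filter (fun k => 0 ≤ x k) = Finset.univ := by ext k; simp [hx k]
    simp only [cnt, this]; exact h
  · rw [nth_of_card_le x (not_lt.1 h)]

lemma le_nth_iff_pos (x : K → ℝ) (j : ℕ) {y : ℝ} (hy : 0 < y) :
    y ≤ nthLargest x j ↔ j < cnt x y := by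
  by_cases h : j < Fintype.card K
  · exact le_nth_iff x h y
  · rw [nth_of_card_le x (not_lt.1 h)]
    have := cnt_le_card x y
    constructor
    · intro h'; linarith only [hy, h']
    · intro h'; omega

lemma nth_le_add {x : K → ℝ} {x' : K' → ℝ} (hx' : ∀ k, 0 ≤ x' k) {D : ℝ} (hD : 0 ≤ D)
    (h : ∀ y, D < y → cnt x y ≤ cnt x' (y - D)) (j : ℕ) :
    nthLargest x j ≤ nthLargest x' j + D := by
  by_contra hc
  rw [not_le] at hc
  have h0 := nth_nonneg hx' j
  have h1 : D < nthLargest x j := by linarith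
  have h2 := (le_nth_iff_pos x j (hD.trans_lt h1)).1 le_rfl
  have h3 := (le_nth_iff_pos x' j (sub_pos.2 h1)).2 (h2.trans_le (h _ h1))
  linarith

lemma nth_lip {x x' : K → ℝ} {D : ℝ} (hD : 0 ≤ D) (h : ∀ k, |x k - x' k| ≤ D) (j : ℕ) :
    |nthLargest x j - nthLargest x' j| ≤ D := by
  by_cases hj : j < Fintype.card K
  · have aux : ∀ {x x' : K → ℝ}, (∀ k, |x k - x' k| ≤ D) →
        nthLargest x j - D ≤ nthLargest x' j := by
      intro x x' h
      rw [le_nth_iff x' hj]
      refine lt_of_lt_of_le ((le_nth_iff x hj _).1 le_rfl) (Finset.card_le_card fun k hk => ?_)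
      simp only [Finset.mem_filter, Finset.mem_univ, true_and] at hk ⊢
      have := (abs_le.1 (h k)).2
      linarith only [hk, this]
    have h1 := aux h
    have h2 := aux (x := x') (x' := x) (fun k => by rw [abs_sub_comm]; exact h k)
    rw [abs_le]; constructor <;> linarith only [h2, h1]
  · simp [nth_of_card_le _ (not_lt.1 hj), hD]

lemma continuous_nth (j : ℕ) : Continuous (fun x : K → ℝ => nthLargest x j) := by
  refine (LipschitzWith.of_dist_le_mul (K := 1) fun x y => ?_).continuous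
  rw [NNReal.coe_one, one_mul, Real.dist_eq]
  exact nth_lip dist_nonneg (fun k => by rw [← Real.dist_eq]; exact dist_le_pi_dist x y k) j

lemma nth_div {x : K → ℝ} {c : ℝ} (hc : 0 < c) (j : ℕ) :
    nthLargest (fun k => x k / c) j = nthLargest x j / c := by
  by_cases hj : j < Fintype.card K
  · refine eq_of_forall_le_iff fun y => ?_
    rw [le_nth_iff _ hj, le_div_iff₀ hc, le_nth_iff _ hj]
    simp only [cnt, le_div_iff₀ hc]
  · simp [nth_of_card_le _ (not_lt.1 hj)]

lemma nth_le_of_forall {x : K → ℝ} {M : ℝ} (hM : 0 ≤ M) (h : ∀ k, x k ≤ M) (j : ℕ) :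
    nthLargest x j ≤ M := by
  by_contra hc
  rw [not_le] at hc
  have h2 := (le_nth_iff_pos x j (hM.trans_lt hc)).1 le_rfl
  obtain ⟨k, hk⟩ := Finset.card_pos.1 (lt_of_le_of_lt (Nat.zero_le _) h2)
  have := (Finset.mem_filter.1 hk).2
  linarith only [hc, this, h, h k]

lemma nth_le_nth_zero {x : K → ℝ} (hx : ∀ k, 0 ≤ x k) (j : ℕ) :
    nthLargest x j ≤ nthLargest x 0 := by
  rcases (nth_nonneg hx j).eq_or_lt with h | h
  · rw [← h]; exact nth_nonneg hx 0
  · have h2 := (le_nth_iff_pos x j h).1 le_rfl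
    exact (le_nth_iff_pos x 0 h).2 (lt_of_le_of_lt (Nat.zero_le _) h2)

lemma sum_le_sum_nth {x : K → ℝ} (hx : ∀ k, 0 ≤ x k) (j : ℕ) :
    ∀ A : Finset K, A.card ≤ j → ∑ k ∈ A, x k ≤ ∑ i ∈ Finset.range j, nthLargest x i := by
  induction j with
  | zero => intro A hA; simp [Finset.card_eq_zero.1 (Nat.le_zero.1 hA)]
  | succ j ih =>
    intro A hA
    rw [Finset.sum_range_succ]
    by_cases h : A.card ≤ j
    · linarith only [ih, h, hx, ih A h, nth_nonneg hx j]
    · have hne : A.Nonempty := Finset.card_pos.1 (by omega)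
      obtain ⟨k, hk, hmin⟩ := Finset.exists_min_image A x hne
      rw [← Finset.add_sum_erase A x hk, add_comm]
      have h1 := ih (A.erase k) (by rw [Finset.card_erase_of_mem hk]; omega)
      have h2 : x k ≤ nthLargest x j := by
        rcases (hx k).eq_or_lt with h0 | h0
        · rw [← h0]; exact nth_nonneg hx j
        · rw [le_nth_iff_pos x j h0]
          refine lt_of_lt_of_le (not_le.1 h) (Finset.card_le_card fun k' hk' => ?_)
          simp [hmin k' hk']
      linarith only [h1, h2]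

lemma exists_sum_nth_le {x : K → ℝ} (hx : ∀ k, 0 ≤ x k) (j : ℕ) :
    ∃ A : Finset K, A.card ≤ j ∧ ∑ i ∈ Finset.range j, nthLargest x i ≤ ∑ k ∈ A, x k := by
  induction j with
  | zero => exact ⟨∅, by simp⟩
  | succ j ih =>
    obtain ⟨A, hA, h⟩ := ih
    rw [Finset.sum_range_succ]
    rcases (nth_nonneg hx j).eq_or_lt with h0 | h0
    · exact ⟨A, by omega, by linarith only [h, h0]⟩
    · have h2 := (le_nth_iff_pos x j h0).1 le_rfl
      obtain ⟨k, hk, hkA⟩ := Finset.exists_mem_notMem_of_card_lt_card (hA.trans_lt h2)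
      refine ⟨insert k A, by rw [Finset.card_insert_of_notMem hkA]; omega, ?_⟩
      rw [Finset.sum_insert hkA]
      have := (Finset.mem_filter.1 hk).2
      linarith only [h, this]

lemma sum_nth_mono {x : K → ℝ} {x' : K' → ℝ} (hx : ∀ k, 0 ≤ x k) (φ : K → K')
    (h : ∀ k', ∑ k ∈ Finset.univ.filter (fun k => φ k = k'), x k ≤ x' k') (j : ℕ) :
    ∑ i ∈ Finset.range j, nthLargest x i ≤ ∑ i ∈ Finset.range j, nthLargest x' i := by
  have hx' : ∀ k', 0 ≤ x' k' := fun k' => (Finset.sum_nonneg fun k _ => hx k).trans (h k')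
  obtain ⟨A, hA, h1⟩ := exists_sum_nth_le hx j
  refine h1.trans (le_trans ?_ (sum_le_sum_nth hx' j (A.image φ)
    (Finset.card_image_le.trans hA)))
  rw [← Finset.sum_fiberwise_of_maps_to (s := A) (t := A.image φ) (g := φ)
    (fun k hk => Finset.mem_image_of_mem φ hk)]
  refine Finset.sum_le_sum fun k' _ => le_trans ?_ (h k')
  refine Finset.sum_le_sum_of_subset_of_nonneg (fun k hk => ?_) (fun k _ _ => hx k)
  simp only [Finset.mem_filter, Finset.mem_univ, true_and] at hk ⊢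
  exact hk.2

/-- blocks approximate the order statistics -/
lemma nth_blocks {x : K → ℝ} (hx : ∀ k, 0 ≤ x k) (R : K' → Finset K)
    (hdis : ∀ i i' k, k ∈ R i → k ∈ R i' → i = i') {D : ℝ} (hD : 0 < D)
    (hhit : ∀ k, D < x k → ∃ i, k ∈ R i)
    (hdef : ∀ i, ∑ k ∈ R i, ∑ k' ∈ (R i).erase k, x k * x k' ≤ D ^ 2) (j : ℕ) :
    |nthLargest x j - nthLargest (fun i => ∑ k ∈ R i, x k) j| ≤ D := by
  have hb : ∀ i, 0 ≤ ∑ k ∈ R i, x k := fun i => Finset.sum_nonneg fun k _ => hx k
  have h1 : nthLargest x j ≤ nthLargest (fun i => ∑ k ∈ R i, x k) j + D := by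
    refine nth_le_add hb hD.le (fun y hy => ?_) j
    have : ∀ k, ∃ i : Option K', D < x k → ∃ i', i = some i' ∧ k ∈ R i' := by
      intro k
      by_cases hk : D < x k
      · obtain ⟨i, hi⟩ := hhit k hk
        exact ⟨some i, fun _ => ⟨i, rfl, hi⟩⟩
      · exact ⟨none, fun h => absurd h hk⟩
    choose r hr using this
    rw [cnt, cnt, ← Finset.card_map (s := Finset.univ.filter (fun i => y - D ≤ ∑ k ∈ R i, x k))
      Function.Embedding.some]
    refine Finset.card_le_card_of_injOn r (fun k hk => ?_) (fun k hk k' hk' e => ?_)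
    · have hk1 : y ≤ x k := by simpa using hk
      obtain ⟨i, e, hi⟩ := hr k (hy.trans_le hk1)
      have := Finset.single_le_sum (f := x) (fun k _ => hx k) hi
      simp only [Finset.coe_map, Function.Embedding.some_apply, Finset.coe_filter,
        Finset.mem_univ, true_and, mem_image, mem_ofPred_eq]
      exact ⟨i, by linarith, e.symm⟩
    · have hk1 : y ≤ x k := by simpa using hk
      have hk2 : y ≤ x k' := by simpa using hk'
      obtain ⟨i, e1, hi⟩ := hr k (hy.trans_le hk1)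
      obtain ⟨i', e2, hi'⟩ := hr k' (hy.trans_le hk2)
      have : i = i' := by rw [e1, e2] at e; simpa using e
      subst this
      by_contra hne
      have a1 : x k * x k' ≤ ∑ k' ∈ (R i).erase k, x k * x k' :=
        Finset.single_le_sum (f := fun k' => x k * x k') (fun k' _ => mul_nonneg (hx _) (hx _))
          (Finset.mem_erase.2 ⟨fun h => hne h.symm, hi'⟩)
      have a2 := Finset.single_le_sum (f := fun k => ∑ k' ∈ (R i).erase k, x k * x k')
        (fun k _ => Finset.sum_nonneg fun k' _ => mul_nonneg (hx _) (hx _)) hi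
      have a3 := hdef i
      linarith only [a1, a2, a3, hD, hy, hk1, hk2, mul_pos_of_neg_of_neg (Mathlib.Tactic.Linarith.sub_neg_of_lt hD) (Mathlib.Tactic.Linarith.sub_neg_of_lt hy), mul_nonneg_of_nonpos_of_nonpos (le_of_lt (Mathlib.Tactic.Linarith.sub_neg_of_lt hD)) (Mathlib.Tactic.Linarith.sub_nonpos_of_le hk1), mul_nonneg_of_nonpos_of_nonpos (le_of_lt (Mathlib.Tactic.Linarith.sub_neg_of_lt hD)) (Mathlib.Tactic.Linarith.sub_nonpos_of_le hk2), mul_pos_of_neg_of_neg (Mathlib.Tactic.Linarith.sub_neg_of_lt hy) (Mathlib.Tactic.Linarith.sub_neg_of_lt hy), mul_nonneg_of_nonpos_of_nonpos (le_of_lt (Mathlib.Tactic.Linarith.sub_neg_of_lt hy)) (Mathlib.Tactic.Linarith.sub_nonpos_of_le hk1), mul_nonneg_of_nonpos_of_nonpos (le_of_lt (Mathlib.Tactic.Linarith.sub_neg_of_lt hy)) (Mathlib.Tactic.Linarith.sub_nonpos_of_le hk2), mul_nonneg_of_nonpos_of_nonpos (Mathlib.Tactic.Linarith.sub_nonpos_of_le hk1) (Mathlib.Tactic.Linarith.sub_nonpos_of_le hk2)]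
  have h2 : nthLargest (fun i => ∑ k ∈ R i, x k) j ≤ nthLargest x j + D := by
    refine nth_le_add hx hD.le (fun y hy => ?_) j
    have : ∀ i, ∃ k : Option K, y ≤ ∑ k ∈ R i, x k → ∃ k', k = some k' ∧ k' ∈ R i ∧
        y - D ≤ x k' := by
      intro i
      by_cases hi : y ≤ ∑ k ∈ R i, x k
      · have hne : (R i).Nonempty := by
          rw [Finset.nonempty_iff_ne_empty]; intro h; rw [h] at hi; simp at hi; linarith
        obtain ⟨k, hk, hmax⟩ := Finset.exists_max_image _ x hne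
        refine ⟨some k, fun _ => ⟨k, rfl, hk, ?_⟩⟩
        set b := ∑ k ∈ R i, x k with hbdef
        have a1 : ∑ k' ∈ R i, x k' * (b - x k) ≤ ∑ k ∈ R i, ∑ k' ∈ (R i).erase k, x k * x k' := by
          refine Finset.sum_le_sum fun k' hk' => ?_
          rw [← Finset.mul_sum, Finset.sum_erase_eq_sub hk']
          exact mul_le_mul_of_nonneg_left (by linarith [hmax k' hk']) (hx _)
        rw [← Finset.sum_mul] at a1
        have a2 : x k ≤ b := Finset.single_le_sum (f := x) (fun k _ => hx k) hk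
        have a3 := hdef i
        have a4 : (b - x k) ^ 2 ≤ D ^ 2 := by (refine le_of_not_gt fun h_nl => ?_; linarith only [h_nl, hx, hD, hy, hi, a1, a2, a3, hx k, mul_nonneg_of_nonpos_of_nonpos (Mathlib.Tactic.Linarith.sub_nonpos_of_le (sq_nonneg D)) (Mathlib.Tactic.Linarith.sub_nonpos_of_le (hx k)), mul_pos_of_neg_of_neg (Mathlib.Tactic.Linarith.sub_neg_of_lt hD) (Mathlib.Tactic.Linarith.sub_neg_of_lt h_nl), mul_pos_of_neg_of_neg (Mathlib.Tactic.Linarith.sub_neg_of_lt hy) (Mathlib.Tactic.Linarith.sub_neg_of_lt h_nl), mul_nonneg_of_nonpos_of_nonpos (Mathlib.Tactic.Linarith.sub_nonpos_of_le hi) (le_of_lt (Mathlib.Tactic.Linarith.sub_neg_of_lt h_nl)), mul_nonneg_of_nonpos_of_nonpos (Mathlib.Tactic.Linarith.sub_nonpos_of_le a1) (Mathlib.Tactic.Linarith.sub_nonpos_of_le a2), mul_nonneg_of_nonpos_of_nonpos (Mathlib.Tactic.Linarith.sub_nonpos_of_le a2) (Mathlib.Tactic.Linarith.sub_nonpos_of_le a3)])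
        have := abs_le_of_sq_le_sq' a4 hD.le
        linarith [this.2]
      · exact ⟨none, fun h => absurd h hi⟩
    choose r hr using this
    rw [cnt, cnt, ← Finset.card_map (s := Finset.univ.filter (fun k => y - D ≤ x k))
      Function.Embedding.some]
    refine Finset.card_le_card_of_injOn r (fun i hi => ?_) (fun i hi i' hi' e => ?_)
    · obtain ⟨k, e, -, hk⟩ := hr i (by simpa using hi)
      simp only [Finset.coe_map, Function.Embedding.some_apply, Finset.coe_filter,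
        Finset.mem_univ, true_and, mem_image, mem_ofPred_eq]
      exact ⟨k, hk, e.symm⟩
    · obtain ⟨k, e1, hk, -⟩ := hr i (by simpa using hi)
      obtain ⟨k', e2, hk', -⟩ := hr i' (by simpa using hi')
      have : k = k' := by rw [e1, e2] at e; simpa using e
      subst this
      exact hdis _ _ _ hk hk'
  rw [abs_le]; constructor <;> linarith

end Pool.Agent.Work.MP_e39611_pr
end

-- merged part: Pool.Agent.Work.MP_e39611_pr.Seeds
section
/-!
Estimates for random seeds in a fixed graph.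
-/

namespace Pool.Agent.Work.MP_e39611_pr

open MeasureTheory Set Real
open scoped Classical

set_option linter.unusedSectionVars false

variable {V : Type} [Fintype V] [DecidableEq V]

/-- vertices of a component -/
noncomputable def fib (G : SimpleGraph V) (k : G.ConnectedComponent) : Finset V :=
  Finset.univ.filter (fun v => G.connectedComponentMk v = k)

/-- rescaled component size -/
noncomputable def cs (G : SimpleGraph V) (t : ℝ) (k : G.ConnectedComponent) : ℝ :=
  (k.supp.ncard : ℝ) / t ^ 2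

/-- sum of squares of rescaled component sizes -/
noncomputable def S2 (G : SimpleGraph V) (t : ℝ) : ℝ := ∑ k, cs G t k ^ 2

lemma fib_card (G : SimpleGraph V) (k : G.ConnectedComponent) : (fib G k).card = k.supp.ncard := by
  rw [← Set.ncard_coe_finset]; congr 1; ext v; simp [fib]

lemma cs_nonneg (G : SimpleGraph V) (t : ℝ) (k : G.ConnectedComponent) : 0 ≤ cs G t k := by
  unfold cs; positivity

lemma S2_nonneg (G : SimpleGraph V) (t : ℝ) : 0 ≤ S2 G t := Finset.sum_nonneg fun _ _ => sq_nonneg _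

/-- the component contains no seed -/
def unhit (G : SimpleGraph V) (t a : ℝ) (k : G.ConnectedComponent) (U : Ix V → ℝ) : Prop :=
  ∀ v ∈ fib G k, ¬ seed t a U v

/-- indicator of `unhit` -/
noncomputable def Jk (G : SimpleGraph V) (t a : ℝ) (k : G.ConnectedComponent) (U : Ix V → ℝ) : ℝ :=
  if unhit G t a k U then 1 else 0

lemma sm_unhit (G : SimpleGraph V) (t a : ℝ) (k : G.ConnectedComponent) : Sm (unhit G t a k) :=
  Sm.allFin _ fun v _ => (sm_seed t a v).not

lemma sm_Jk (G : SimpleGraph V) (t a : ℝ) (k : G.ConnectedComponent) : Sm (Jk G t a k) :=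
  (sm_unhit G t a k).ite (Sm.const 1) (Sm.const 0)

lemma unhit_anti {G : SimpleGraph V} {t a b : ℝ} (h : a ≤ b) {k : G.ConnectedComponent}
    {U : Ix V → ℝ} (hb : unhit G t b k U) : unhit G t a k U :=
  fun v hv hs => hb v hv (seed_mono h hs)

lemma mem_hitSet (G : SimpleGraph V) (t a : ℝ) (U : Ix V → ℝ) (v : V) :
    v ∈ hitSet G t a U ↔ ¬ unhit G t a (G.connectedComponentMk v) U := by
  simp only [hitSet, unhit, fib, Finset.mem_filter, Finset.mem_univ, true_and, not_forall,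
    not_not, SimpleGraph.ConnectedComponent.eq]
  exact ⟨fun ⟨u, h1, h2⟩ => ⟨u, h2, h1⟩, fun ⟨u, h1, h2⟩ => ⟨u, h2, h1⟩⟩

lemma cm_hitSet (G : SimpleGraph V) (t a : ℝ) (U : Ix V → ℝ) :
    cm t (hitSet G t a U) = ∑ k, cs G t k * (1 - Jk G t a k U) := by
  rw [cm, Finset.card_eq_sum_card_fiberwise (f := G.connectedComponentMk) (t := Finset.univ)
    (fun _ _ => Finset.mem_univ _), Nat.cast_sum, Finset.sum_div]
  refine Finset.sum_congr rfl fun k _ => ?_
  by_cases h : unhit G t a k U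
  · have : (hitSet G t a U).filter (fun v => G.connectedComponentMk v = k) = ∅ := by
      ext v
      simp only [Finset.mem_filter, mem_hitSet, Finset.notMem_empty, iff_false, not_and]
      rintro h1 rfl; exact h1 h
    simp [this, Jk, h]
  · have : (hitSet G t a U).filter (fun v => G.connectedComponentMk v = k) = fib G k := by
      ext v
      simp only [Finset.mem_filter, mem_hitSet, fib, Finset.mem_univ, true_and]
      exact ⟨fun h => h.2, fun e => ⟨e ▸ h, e⟩⟩
    simp [this, Jk, h, cs, fib_card]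

lemma hitSet_dep (G : SimpleGraph V) (t a : ℝ) {U U' : Ix V → ℝ}
    (h : ∀ v, U (Sum.inr v) = U' (Sum.inr v)) : hitSet G t a U = hitSet G t a U' := by
  simp [hitSet, seed, h]

lemma E_Jk (G : SimpleGraph V) {t a : ℝ} (ht : 0 < t) (ha : 0 ≤ a) (k : G.ConnectedComponent) :
    ∫ U, Jk G t a k U ∂(PP (Ix V)) = exp (-(a * cs G t k)) := by
  have h := Pr_forall_coord (fib G k) (Sum.inr : V → Ix V) Sum.inr_injective.injOn
    (fun _ => Ici (1 - exp (-(a / t ^ 2)))) (fun _ => measurableSet_Ici)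
  rw [unif_Ici (one_sub_exp_nonneg (by positivity)) (one_sub_exp_le_one _), Finset.prod_const,
    fib_card, sub_sub_cancel, ← exp_nat_mul] at h
  have e : Pr (PP (Ix V)) (unhit G t a k) = exp (-(a * cs G t k)) := by
    rw [show -(a * cs G t k) = (k.supp.ncard : ℝ) * -(a / t ^ 2) by unfold cs; ring, ← h]
    exact Pr_congr _ fun U => by simp [unhit, seed]
  rw [← e, Pr_eq_integral _ (sm_unhit G t a k)]; rfl

lemma E_JJ (G : SimpleGraph V) {t a b : ℝ} (ht : 0 < t) (ha : 0 ≤ a) (hb : 0 ≤ b)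
    {k k' : G.ConnectedComponent} (h : k ≠ k') :
    ∫ U, Jk G t a k U * Jk G t b k' U ∂(PP (Ix V)) =
      exp (-(a * cs G t k)) * exp (-(b * cs G t k')) := by
  rw [integral_indep (Sum.inr '' (fib G k : Set V)) (sm_Jk G t a k) (sm_Jk G t b k'),
    E_Jk G ht ha, E_Jk G ht hb]
  · intro U U' hU
    have : unhit G t a k U ↔ unhit G t a k U' := forall₂_congr fun v hv => by
      rw [seed, seed, hU _ ⟨v, hv, rfl⟩]
    simp [Jk, this]
  · intro U U' hU
    have : unhit G t b k' U ↔ unhit G t b k' U' := forall₂_congr fun v hv => by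
      rw [seed, seed, hU]
      rintro ⟨v', hv', e⟩
      obtain rfl := Sum.inr_injective e
      simp only [fib, Finset.coe_filter, Finset.mem_univ, true_and, mem_ofPred_eq,
        Finset.mem_filter] at hv hv'
      exact h (hv'.symm.trans hv)
    simp [Jk, this]

lemma exp_sub_exp_le {x y : ℝ} (hx : 0 ≤ x) (h : x ≤ y) : exp (-x) - exp (-y) ≤ y - x := by
  have h1 : exp (-y) = exp (-x) * exp (-(y - x)) := by rw [← exp_add]; ring_nf
  have h2 := add_one_le_exp (-(y - x))
  have h3 := exp_le_one_iff.2 (neg_nonpos.2 hx)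
  have h4 := exp_pos (-x)
  rw [h1]; linarith only [h, h3, h2, h4, mul_nonneg_of_nonpos_of_nonpos (Mathlib.Tactic.Linarith.sub_nonpos_of_le h) (Mathlib.Tactic.Linarith.sub_nonpos_of_le h3), mul_nonneg_of_nonpos_of_nonpos (Mathlib.Tactic.Linarith.sub_nonpos_of_le h2) (le_of_lt (Mathlib.Tactic.Linarith.sub_neg_of_lt h4))]

lemma Jk_anti {G : SimpleGraph V} {t a b : ℝ} (h : a ≤ b) (k : G.ConnectedComponent)
    (U : Ix V → ℝ) : Jk G t b k U ≤ Jk G t a k U := by
  unfold Jk
  by_cases hb : unhit G t b k U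
  · simp [hb, unhit_anti h hb]
  · rw [if_neg hb]; split_ifs <;> norm_num

lemma seeds_level (G : SimpleGraph V) {t a a' ε : ℝ} (ht : 0 < t) (h0 : 0 ≤ a') (h : a' ≤ a)
    (hε : 0 < ε) :
    Pr (PP (Ix V)) (fun U => ε ≤ cm t (hitSet G t a U) - cm t (hitSet G t a' U)) ≤
      (a - a') * S2 G t / ε := by
  have e : ∀ U, cm t (hitSet G t a U) - cm t (hitSet G t a' U) =
      ∑ k, cs G t k * (Jk G t a' k U - Jk G t a k U) := fun U => by
    rw [cm_hitSet, cm_hitSet, ← Finset.sum_sub_distrib]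
    exact Finset.sum_congr rfl fun k _ => by ring
  have sm : ∀ k, Sm (fun U => cs G t k * (Jk G t a' k U - Jk G t a k U)) := fun k =>
    (sm_Jk G t a' k).comp₂ (sm_Jk G t a k) (fun x y => cs G t k * (x - y))
  refine (Pr_markov _ (Sm.sum Finset.univ fun k _ => sm k) (fun U => Finset.sum_nonneg fun k _ =>
    mul_nonneg (cs_nonneg G t k) (sub_nonneg.2 (Jk_anti h k U))) hε
    (fun U hU => by rwa [e] at hU)).trans ?_
  gcongr
  rw [integral_finsetSum _ fun k _ => (sm k).integrable _, S2, Finset.mul_sum]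
  refine Finset.sum_le_sum fun k _ => ?_
  rw [integral_const_mul, integral_sub ((sm_Jk G t a' k).integrable _)
    ((sm_Jk G t a k).integrable _), E_Jk G ht h0, E_Jk G ht (h0.trans h)]
  have hc := cs_nonneg G t k
  have := exp_sub_exp_le (x := a' * cs G t k) (y := a * cs G t k) (by positivity) (by gcongr)
  linarith only [hc, this, mul_nonneg_of_nonpos_of_nonpos (Mathlib.Tactic.Linarith.sub_nonpos_of_le hc) (Mathlib.Tactic.Linarith.sub_nonpos_of_le this)]

lemma exists_switch (p : ℕ → Prop) (J : ℕ) (h0 : p 0) (hJ : ¬ p J) :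
    ∃ i < J, p i ∧ ¬ p (i + 1) := by
  induction J with
  | zero => exact absurd h0 hJ
  | succ J ih =>
    by_cases h : p J
    · exact ⟨J, by omega, h, hJ⟩
    · obtain ⟨i, hi, h'⟩ := ih h
      exact ⟨i, by omega, h'⟩

lemma seeds_blocks (G : SimpleGraph V) {t δ D : ℝ} (ht : 0 < t) (hδ : 0 ≤ δ) (hD : 0 < D)
    (J : ℕ) :
    Pr (PP (Ix V)) (fun U => ¬ ∀ j, |nthLargest (cs G t) j - nthLargest (fun i : Fin J =>
        cm t (hitSet G t (((i : ℕ) + 1 : ℕ) * δ) U) - cm t (hitSet G t ((i : ℕ) * δ) U)) j| ≤ D) ≤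
      exp (-(J * δ * D)) * S2 G t / D ^ 2 + J * δ ^ 2 * S2 G t ^ 2 / D ^ 2 := by
  let I : ℕ → G.ConnectedComponent → (Ix V → ℝ) → ℝ := fun i k U =>
    Jk G t (i * δ) k U - Jk G t ((i + 1 : ℕ) * δ) k U
  have lev : ∀ {i j : ℕ}, i ≤ j → (i : ℝ) * δ ≤ j * δ := fun h => by gcongr
  have I0 : ∀ i k U, 0 ≤ I i k U := fun i k U => sub_nonneg.2 (Jk_anti (lev (by omega)) k U)
  have smI : ∀ i k, Sm (I i k) := fun i k => (sm_Jk G t _ k).comp₂ (sm_Jk G t _ k) (· - ·)
  let f1 : (Ix V → ℝ) → ℝ := fun U => ∑ k, (if D < cs G t k then (1 : ℝ) else 0) *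
    (1 - Jk G t 0 k U + Jk G t (J * δ) k U)
  let f2 : (Ix V → ℝ) → ℝ := fun U => ∑ i ∈ Finset.range J, ∑ k, ∑ k' ∈ Finset.univ.erase k,
    cs G t k * cs G t k' * (I i k U * I i k' U)
  have s1 : ∀ k, Sm (fun U => (if D < cs G t k then (1 : ℝ) else 0) *
      (1 - Jk G t 0 k U + Jk G t (J * δ) k U)) := fun k =>
    (sm_Jk G t _ k).comp₂ (sm_Jk G t _ k)
      (fun x y => (if D < cs G t k then (1 : ℝ) else 0) * (1 - x + y))
  have s2 : ∀ i k k', Sm (fun U => cs G t k * cs G t k' * (I i k U * I i k' U)) := fun i k k' =>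
    (smI i k).comp₂ (smI i k') (fun x y => cs G t k * cs G t k' * (x * y))
  have p1 : ∀ k U, 0 ≤ (if D < cs G t k then (1 : ℝ) else 0) *
      (1 - Jk G t 0 k U + Jk G t (J * δ) k U) := fun k U => by
    unfold Jk; split_ifs <;> norm_num
  have p2 : ∀ i k k' U, 0 ≤ cs G t k * cs G t k' * (I i k U * I i k' U) := fun i k k' U =>
    mul_nonneg (mul_nonneg (cs_nonneg _ _ _) (cs_nonneg _ _ _)) (mul_nonneg (I0 _ _ _) (I0 _ _ _))
  have b1 : Pr (PP (Ix V)) (fun U => 1 ≤ f1 U) ≤ exp (-(J * δ * D)) * S2 G t / D ^ 2 := by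
    refine (Pr_markov _ (Sm.sum Finset.univ fun k _ => s1 k)
      (fun U => Finset.sum_nonneg fun k _ => p1 k U) one_pos (fun U hU => hU)).trans ?_
    rw [div_one, integral_finsetSum _ fun k _ => (s1 k).integrable _, S2, Finset.mul_sum,
      Finset.sum_div]
    refine Finset.sum_le_sum fun k _ => ?_
    rw [integral_const_mul, integral_add ((integrable_const _).sub' ((sm_Jk G t _ k).integrable _))
      ((sm_Jk G t _ k).integrable _), integral_sub (integrable_const _)
      ((sm_Jk G t _ k).integrable _), E_Jk G ht le_rfl, E_Jk G ht (by positivity)]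
    split_ifs with h
    · simp only [integral_const, probReal_univ, smul_eq_mul, mul_one, zero_mul, neg_zero,
        exp_zero, sub_self, zero_add, one_mul]
      rw [le_div_iff₀ (by positivity)]
      gcongr
    · rw [zero_mul]; positivity
  have b2 : Pr (PP (Ix V)) (fun U => D ^ 2 ≤ f2 U) ≤ J * δ ^ 2 * S2 G t ^ 2 / D ^ 2 := by
    refine (Pr_markov _ (Sm.sum _ fun i _ => Sm.sum _ fun k _ => Sm.sum _ fun k' _ => s2 i k k')
      (fun U => Finset.sum_nonneg fun i _ => Finset.sum_nonneg fun k _ =>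
        Finset.sum_nonneg fun k' _ => p2 i k k' U) (by positivity) (fun U hU => hU)).trans ?_
    gcongr
    rw [integral_finsetSum _ fun i _ =>
      (Sm.sum _ fun k _ => Sm.sum _ fun k' _ => s2 i k k').integrable _]
    have : ∀ i ∈ Finset.range J, ∫ U, ∑ k, ∑ k' ∈ Finset.univ.erase k,
        cs G t k * cs G t k' * (I i k U * I i k' U) ∂(PP (Ix V)) ≤ δ ^ 2 * S2 G t ^ 2 := by
      intro i _
      rw [integral_finsetSum _ fun k _ => (Sm.sum _ fun k' _ => s2 i k k').integrable _, sq (S2 G t),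
        S2, Finset.sum_mul_sum, Finset.mul_sum]
      refine Finset.sum_le_sum fun k _ => ?_
      rw [integral_finsetSum _ fun k' _ => (s2 i k k').integrable _, Finset.mul_sum]
      refine le_trans (Finset.sum_le_sum fun k' hk' => ?_)
        (Finset.sum_le_sum_of_subset_of_nonneg (Finset.erase_subset k _)
          (fun _ _ _ => by positivity))
      have hne : k ≠ k' := (Finset.mem_erase.1 hk').1.symm
      have ii : ∀ a b, Integrable (fun U => Jk G t a k U * Jk G t b k' U) (PP (Ix V)) :=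
        fun a b => ((sm_Jk G t a k).comp₂ (sm_Jk G t b k') (· * ·)).integrable _
      have e : ∀ U, I i k U * I i k' U =
          (Jk G t (i * δ) k U * Jk G t (i * δ) k' U -
            Jk G t (i * δ) k U * Jk G t ((i + 1 : ℕ) * δ) k' U) -
          (Jk G t ((i + 1 : ℕ) * δ) k U * Jk G t (i * δ) k' U -
            Jk G t ((i + 1 : ℕ) * δ) k U * Jk G t ((i + 1 : ℕ) * δ) k' U) := fun U => by
        simp only [I]; ring
      simp_rw [e]
      rw [integral_const_mul, integral_sub ((ii _ _).sub' (ii _ _)) ((ii _ _).sub' (ii _ _)),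
        integral_sub (ii _ _) (ii _ _), integral_sub (ii _ _) (ii _ _),
        E_JJ G ht (by positivity) (by positivity) hne, E_JJ G ht (by positivity) (by positivity) hne,
        E_JJ G ht (by positivity) (by positivity) hne, E_JJ G ht (by positivity) (by positivity) hne]
      have aux : ∀ c : ℝ, 0 ≤ c → 0 ≤ exp (-(i * δ * c)) - exp (-((i + 1 : ℕ) * δ * c)) ∧
          exp (-(i * δ * c)) - exp (-((i + 1 : ℕ) * δ * c)) ≤ δ * c := fun c hc => by
        have h1 : (i : ℝ) * δ * c ≤ (i + 1 : ℕ) * δ * c := by gcongr; omega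
        refine ⟨sub_nonneg.2 (exp_le_exp.2 (neg_le_neg h1)),
          (exp_sub_exp_le (by positivity) h1).trans (le_of_eq ?_)⟩
        push_cast; ring
      have c1 := cs_nonneg G t k
      have c2 := cs_nonneg G t k'
      have a1 := aux _ c1
      have a2 := aux _ c2
      have a3 := mul_le_mul a1.2 a2.2 a2.1 (by positivity)
      have a4 := mul_le_mul_of_nonneg_left a3 (mul_nonneg c1 c2)
      linarith only [a4]
    refine (Finset.sum_le_sum this).trans (le_of_eq ?_)
    simp [mul_assoc]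
  refine le_trans (Pr_mono _ fun U hU => ?_) ((Pr_or_le _ _ _).trans (add_le_add b1 b2))
  by_contra hc
  rw [not_or, not_le, not_le] at hc
  apply hU
  let R : Fin J → Finset G.ConnectedComponent := fun i => Finset.univ.filter
    (fun k => unhit G t ((i : ℕ) * δ) k U ∧ ¬ unhit G t (((i : ℕ) + 1 : ℕ) * δ) k U)
  have hI : ∀ (i : Fin J) k, I i k U = if k ∈ R i then 1 else 0 := by
    intro i k
    simp only [I, R, Jk, Finset.mem_filter, Finset.mem_univ, true_and]
    by_cases h1 : unhit G t (((i : ℕ) + 1 : ℕ) * δ) k U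
    · have := unhit_anti (lev (Nat.le_succ i)) h1
      rw [if_pos h1, if_pos this, if_neg (fun h => h.2 h1)]; ring
    · rw [if_neg h1]
      by_cases h2 : unhit G t ((i : ℕ) * δ) k U
      · rw [if_pos h2, if_pos ⟨h2, h1⟩]; ring
      · rw [if_neg h2, if_neg (fun h => h2 h.1)]; ring
  have e : (fun i : Fin J => cm t (hitSet G t (((i : ℕ) + 1 : ℕ) * δ) U) -
      cm t (hitSet G t ((i : ℕ) * δ) U)) = fun i => ∑ k ∈ R i, cs G t k := by
    funext i
    rw [cm_hitSet, cm_hitSet, ← Finset.sum_sub_distrib]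
    have : ∀ k, cs G t k * (1 - Jk G t (((i : ℕ) + 1 : ℕ) * δ) k U) -
        cs G t k * (1 - Jk G t ((i : ℕ) * δ) k U) = if k ∈ R i then cs G t k else 0 := by
      intro k
      have := hI i k
      simp only [I] at this
      split_ifs at this ⊢ <;> linear_combination cs G t k * this
    rw [Finset.sum_congr rfl fun k _ => this k]
    simp
  rw [e]
  refine nth_blocks (cs_nonneg G t) R (fun i i' k h h' => ?_) hD (fun k hk => ?_) (fun i => ?_)
  · simp only [R, Finset.mem_filter, Finset.mem_univ, true_and] at h h'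
    by_contra hne
    rcases lt_or_gt_of_ne hne with hlt | hlt
    · exact h.2 (unhit_anti (lev hlt) h'.1)
    · exact h'.2 (unhit_anti (lev hlt) h.1)
  · have a := (Finset.single_le_sum (fun k _ => p1 k U) (Finset.mem_univ k)).trans_lt hc.1
    rw [if_pos hk, one_mul] at a
    have a0 : unhit G t 0 k U := by
      by_contra hh; unfold Jk at a; rw [if_neg hh] at a; split_ifs at a <;> linarith only [a]
    have aJ : ¬ unhit G t (J * δ) k U := by
      intro hh; unfold Jk at a; rw [if_pos hh, if_pos a0] at a; linarith only [a]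
    obtain ⟨i, hi, h1, h2⟩ := exists_switch (fun i : ℕ => unhit G t (i * δ) k U) J
      (by simpa using a0) aJ
    exact ⟨⟨i, hi⟩, by simpa [R] using ⟨h1, by simpa using h2⟩⟩
  · refine le_trans ?_ ((Finset.single_le_sum (f := fun i => ∑ k, ∑ k' ∈ Finset.univ.erase k,
      cs G t k * cs G t k' * (I i k U * I i k' U)) (fun i _ => Finset.sum_nonneg fun k _ =>
        Finset.sum_nonneg fun k' _ => p2 i k k' U) (Finset.mem_range.2 i.2)).trans hc.2.le)
    refine le_trans (Finset.sum_le_sum fun k hk => ?_)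
      (Finset.sum_le_sum_of_subset_of_nonneg (Finset.subset_univ (R i))
        (fun k _ _ => Finset.sum_nonneg fun k' _ => p2 i k k' U))
    refine le_trans (Finset.sum_le_sum fun k' hk' => le_of_eq ?_)
      (Finset.sum_le_sum_of_subset_of_nonneg
        (Finset.erase_subset_erase k (Finset.subset_univ (R i))) (fun k' _ _ => p2 i k k' U))
    rw [hI, hI, if_pos hk, if_pos (Finset.mem_of_mem_erase hk')]; ring

lemma seeds_tight (G : SimpleGraph V) {t K : ℝ} (ht : 0 < t) (hK : 1 ≤ K)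
    (h : 16 * K ^ 2 < S2 G t) :
    1 / 2 ≤ Pr (PP (Ix V)) (fun U => K < cm t (hitSet G t 1 U)) := by
  have J01 : ∀ k U, 0 ≤ 1 - Jk G t 1 k U := fun k U => by unfold Jk; split_ifs <;> norm_num
  by_cases h1 : ∃ k, K < cs G t k
  · obtain ⟨k, hk⟩ := h1
    have a : Pr (PP (Ix V)) (fun U => ¬ unhit G t 1 k U) = 1 - exp (-(1 * cs G t k)) := by
      rw [Pr_not _ (sm_unhit G t 1 k), ← E_Jk G ht zero_le_one, Pr_eq_integral _ (sm_unhit G t 1 k)]
      rfl
    refine le_trans ?_ (Pr_mono _ (p := fun U => ¬ unhit G t 1 k U) fun U hU => ?_)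
    · rw [a, one_mul]
      have h2 := add_one_le_exp (cs G t k)
      have h3 : exp (-cs G t k) * exp (cs G t k) = 1 := by rw [← exp_add]; simp
      have h4 := exp_pos (-cs G t k)
      linarith only [h3, hK, h4, hk, h2, mul_nonneg_of_nonpos_of_nonpos (Mathlib.Tactic.Linarith.sub_nonpos_of_le hK) (le_of_lt (Mathlib.Tactic.Linarith.sub_neg_of_lt h4)), mul_pos_of_neg_of_neg (Mathlib.Tactic.Linarith.sub_neg_of_lt hk) (Mathlib.Tactic.Linarith.sub_neg_of_lt h4), mul_nonneg_of_nonpos_of_nonpos (Mathlib.Tactic.Linarith.sub_nonpos_of_le h2) (le_of_lt (Mathlib.Tactic.Linarith.sub_neg_of_lt h4))]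
    · rw [cm_hitSet]
      refine hk.trans_le (le_trans (le_of_eq ?_) (Finset.single_le_sum
        (f := fun k => cs G t k * (1 - Jk G t 1 k U))
        (fun k _ => mul_nonneg (cs_nonneg _ _ _) (J01 k U)) (Finset.mem_univ k)))
      simp [Jk, hU]
  · push Not at h1
    set p : G.ConnectedComponent → ℝ := fun k => exp (-(1 * cs G t k)) with hp
    set μ := ∑ k, cs G t k * (1 - p k) with hμ
    have hp1 : ∀ k, p k ≤ 1 := fun k => exp_le_one_iff.2 (by linarith [cs_nonneg G t k])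
    have hp0 : ∀ k, 0 < p k := fun k => exp_pos _
    have m1 : S2 G t ≤ 2 * K * μ := by
      rw [S2, hμ, Finset.mul_sum]
      refine Finset.sum_le_sum fun k _ => ?_
      have c0 := cs_nonneg G t k
      have c1 := h1 k
      have h2 := add_one_le_exp (cs G t k)
      have h3 : p k * exp (cs G t k) = 1 := by rw [hp, ← exp_add]; simp
      have h4 : p k * (cs G t k + 1) ≤ 1 := by (refine le_of_not_gt fun h_nl => ?_; linarith only [h_nl, h2, h3, c0, hp0 k, Mathlib.Tactic.Linarith.mul_zero_eq (Mathlib.Tactic.Linarith.sub_nonpos_of_le c0) (sub_eq_zero_of_eq h3), mul_nonneg_of_nonpos_of_nonpos (Mathlib.Tactic.Linarith.sub_nonpos_of_le c0) (le_of_lt (Mathlib.Tactic.Linarith.sub_neg_of_lt h_nl)), mul_nonneg_of_nonpos_of_nonpos (Mathlib.Tactic.Linarith.sub_nonpos_of_le h2) (le_of_lt (Mathlib.Tactic.Linarith.sub_neg_of_lt h_nl))])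
      have h5 : cs G t k ≤ 2 * K * (1 - p k) := by (refine le_of_not_gt fun h_nl => ?_; linarith only [h_nl, h4, hK, c0, c1, hp1 k, mul_nonneg_of_nonpos_of_nonpos (Mathlib.Tactic.Linarith.sub_nonpos_of_le hK) (Mathlib.Tactic.Linarith.sub_nonpos_of_le c0), mul_nonneg_of_nonpos_of_nonpos (Mathlib.Tactic.Linarith.sub_nonpos_of_le hK) (Mathlib.Tactic.Linarith.sub_nonpos_of_le h4), mul_nonneg_of_nonpos_of_nonpos (Mathlib.Tactic.Linarith.sub_nonpos_of_le c0) (Mathlib.Tactic.Linarith.sub_nonpos_of_le c1), mul_nonneg_of_nonpos_of_nonpos (Mathlib.Tactic.Linarith.sub_nonpos_of_le c0) (le_of_lt (Mathlib.Tactic.Linarith.sub_neg_of_lt h_nl))])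
      linarith only [c0, h5, mul_nonneg_of_nonpos_of_nonpos (Mathlib.Tactic.Linarith.sub_nonpos_of_le c0) (Mathlib.Tactic.Linarith.sub_nonpos_of_le h5)]
    have m2 : 8 * K < μ := by (refine lt_of_not_ge fun h_nl => ?_; linarith only [h_nl, h, m1, hK, mul_nonneg_of_nonpos_of_nonpos (Mathlib.Tactic.Linarith.sub_nonpos_of_le (sq_nonneg K)) (Mathlib.Tactic.Linarith.sub_nonpos_of_le h_nl), mul_nonneg_of_nonpos_of_nonpos (Mathlib.Tactic.Linarith.sub_nonpos_of_le hK) (le_of_lt (Mathlib.Tactic.Linarith.sub_neg_of_lt h)), mul_nonneg_of_nonpos_of_nonpos (Mathlib.Tactic.Linarith.sub_nonpos_of_le hK) (Mathlib.Tactic.Linarith.sub_nonpos_of_le m1)])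
    have sm : ∀ k, Sm (fun U => cs G t k * (Jk G t 1 k U - p k)) := fun k =>
      (sm_Jk G t 1 k).comp (fun x => cs G t k * (x - p k))
    have var : ∫ U, (∑ k, cs G t k * (Jk G t 1 k U - p k)) ^ 2 ∂(PP (Ix V)) ≤ K * μ := by
      simp_rw [sq, Finset.sum_mul_sum]
      rw [integral_finsetSum _ fun k _ =>
        (Sm.sum _ fun k' _ => (sm k).comp₂ (sm k') (· * ·)).integrable _, hμ, Finset.mul_sum]
      refine Finset.sum_le_sum fun k _ => ?_
      rw [integral_finsetSum _ fun k' _ => ((sm k).comp₂ (sm k') (· * ·)).integrable _,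
        Finset.sum_eq_single k]
      · have e : ∀ U, cs G t k * (Jk G t 1 k U - p k) * (cs G t k * (Jk G t 1 k U - p k)) =
            cs G t k ^ 2 * (1 - 2 * p k) * Jk G t 1 k U + cs G t k ^ 2 * p k ^ 2 := fun U => by
          unfold Jk; split_ifs <;> ring
        simp_rw [e]
        rw [integral_add (((sm_Jk G t 1 k).integrable _).const_mul _) (integrable_const _),
          integral_const_mul, E_Jk G ht zero_le_one]
        simp only [integral_const, probReal_univ, smul_eq_mul, one_mul]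
        have c0 := cs_nonneg G t k
        have c1 := h1 k
        have e2 : exp (-cs G t k) = p k := by simp [hp]
        rw [e2]
        have a1 : 0 ≤ cs G t k * (1 - p k) := mul_nonneg c0 (by linarith [hp1 k])
        have a2 : cs G t k * p k ≤ K := by linarith only [c1, a1, hp1 k, hp0 k]
        linarith only [c1, a1, mul_nonneg_of_nonpos_of_nonpos (Mathlib.Tactic.Linarith.sub_nonpos_of_le c1) (Mathlib.Tactic.Linarith.sub_nonpos_of_le a1), mul_nonneg_of_nonpos_of_nonpos (Mathlib.Tactic.Linarith.sub_nonpos_of_le a1) (Mathlib.Tactic.Linarith.sub_nonpos_of_le a1)]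
      · intro k' _ hne
        have e : ∀ U, cs G t k * (Jk G t 1 k U - p k) * (cs G t k' * (Jk G t 1 k' U - p k')) =
            cs G t k * cs G t k' * ((Jk G t 1 k U * Jk G t 1 k' U - p k' * Jk G t 1 k U) -
              (p k * Jk G t 1 k' U - p k * p k')) := fun U => by ring
        simp_rw [e]
        have i1 := ((sm_Jk G t 1 k).comp₂ (sm_Jk G t 1 k') (· * ·)).integrable (PP (Ix V))
        have i2 := ((sm_Jk G t 1 k).integrable (PP (Ix V))).const_mul (p k')
        have i3 := ((sm_Jk G t 1 k').integrable (PP (Ix V))).const_mul (p k)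
        rw [integral_const_mul, integral_sub (i1.sub' i2) (i3.sub' (integrable_const _)),
          integral_sub i1 i2, integral_sub i3 (integrable_const _), integral_const_mul,
          integral_const_mul, E_JJ G ht zero_le_one zero_le_one hne.symm, E_Jk G ht zero_le_one,
          E_Jk G ht zero_le_one]
        simp only [integral_const, probReal_univ, smul_eq_mul, hp]
        ring
      · simp
    have smc : Sm (fun U => K < cm t (hitSet G t 1 U)) :=
      (sm_hitSet G t 1).comp (fun S => K < cm t S)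
    have b := Pr_markov (PP (Ix V)) ((Sm.sum Finset.univ fun k _ => sm k).comp (· ^ 2))
      (fun U => sq_nonneg _) (c := (μ / 2) ^ 2) (by have : 0 < μ := by linarith
                                                    positivity)
      (p := fun U => ¬ K < cm t (hitSet G t 1 U)) (fun U hU => by
        have e : ∑ k, cs G t k * (Jk G t 1 k U - p k) = μ - cm t (hitSet G t 1 U) := by
          rw [cm_hitSet, hμ, ← Finset.sum_sub_distrib]
          exact Finset.sum_congr rfl fun k _ => by ring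
        rw [e]
        have := not_lt.1 hU
        exact pow_le_pow_left₀ (by linarith only [hK, m2]) (by linarith only [hK, m2, hU]) 2)
    rw [Pr_not _ smc] at b
    have c : (∫ U, (∑ k, cs G t k * (Jk G t 1 k U - p k)) ^ 2 ∂(PP (Ix V))) / (μ / 2) ^ 2 ≤
        1 / 2 := by
      rw [div_le_iff₀ (by have : 0 < μ := by linarith only [hK, m2]
                          positivity)]
      (refine le_of_not_gt fun h_nl => ?_; linarith only [h_nl, h, m1, var, mul_nonneg_of_nonpos_of_nonpos (Mathlib.Tactic.Linarith.sub_nonpos_of_le (sq_nonneg K)) (le_of_lt (Mathlib.Tactic.Linarith.sub_neg_of_lt h)), mul_nonneg_of_nonpos_of_nonpos (Mathlib.Tactic.Linarith.sub_nonpos_of_le (sq_nonneg K)) (Mathlib.Tactic.Linarith.sub_nonpos_of_le m1), mul_nonneg_of_nonpos_of_nonpos (Mathlib.Tactic.Linarith.sub_nonpos_of_le (sq_nonneg K)) (Mathlib.Tactic.Linarith.sub_nonpos_of_le var), mul_nonneg_of_nonpos_of_nonpos (Mathlib.Tactic.Linarith.sub_nonpos_of_le (sq_nonneg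 K)) (le_of_lt (Mathlib.Tactic.Linarith.sub_neg_of_lt h_nl)), mul_pos_of_neg_of_neg (Mathlib.Tactic.Linarith.sub_neg_of_lt h) (Mathlib.Tactic.Linarith.sub_neg_of_lt h), mul_nonneg_of_nonpos_of_nonpos (le_of_lt (Mathlib.Tactic.Linarith.sub_neg_of_lt h)) (Mathlib.Tactic.Linarith.sub_nonpos_of_le m1), mul_nonneg_of_nonpos_of_nonpos (Mathlib.Tactic.Linarith.sub_nonpos_of_le m1) (Mathlib.Tactic.Linarith.sub_nonpos_of_le m1)])
    linarith only [b, c]

end Pool.Agent.Work.MP_e39611_pr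
end

-- merged part: Pool.Agent.Work.MP_e39611_pr.Asym
section
/-!
Asymptotic estimates along admissible sequences, and the deterministic sandwich.
-/

namespace Pool.Agent.Work.MP_e39611_pr

open MeasureTheory Set Real Filter Topology
open scoped Classical

set_option linter.unusedSectionVars false

variable {M : ℕ → Mdl} {m1 lam m3 : ℝ}

lemma ev_le_of_tendsto {f : ℕ → ℝ} {y z : ℝ} (h : Tendsto f atTop (𝓝 y)) (hz : y < z) :
    ∀ᶠ k in atTop, f k ≤ z := (h.eventually (gt_mem_nhds hz)).mono fun _ h => h.le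

lemma ev_abs_le {f : ℕ → ℝ} {y η : ℝ} (h : Tendsto f atTop (𝓝 y)) (hη : 0 < η) :
    ∀ᶠ k in atTop, |f k - y| ≤ η :=
  ((Metric.tendsto_nhds.1 h) η hη).mono fun k h => by rw [Real.dist_eq] at h; exact h.le

lemma Adm.tightTC (A : Adm M m1 lam m3) (h3 : 0 < m3) {a ε : ℝ} (ha : 0 ≤ a) (hε : 0 < ε) :
    ∃ s, 0 ≤ s ∧ ∀ᶠ k in atTop,
      Pr (PP (Ix (Fin (M k).n))) (fun U => s < TC (M k).w (M k).t a U) ≤ ε := by
  obtain ⟨s, s1, s2, s3⟩ : ∃ s : ℝ, 1 ≤ s ∧ (m3 + 2) / ε ≤ s ∧
      2 * (|lam| + |a * m1| + 3) / m3 ≤ s :=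
    ⟨max 1 (max _ _), le_max_left _ _, (le_max_left _ _).trans (le_max_right _ _),
      (le_max_right _ _).trans (le_max_right _ _)⟩
  have s0 : 0 ≤ s := by linarith only [s1]
  refine ⟨s, s0, ?_⟩
  have e1 := ev_abs_le (A.EZ_zero s0) one_pos
  have e2 := ev_abs_le (A.EZ_level ha s0) one_pos
  have e3 := ev_le_of_tendsto A.h3 (lt_add_one m3)
  have e4 : ∀ᶠ k in atTop, a * mom (M k).w (M k).t 2 / (M k).t ≤ 1 :=
    ev_le_of_tendsto (by simpa [div_eq_mul_inv] using (A.h2'.const_mul a).mul A.inv) one_pos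
  filter_upwards [e1, e2, e3, e4] with k e1 e2 e3 e4
  rw [div_le_iff₀ hε] at s2
  rw [div_le_iff₀ h3] at s3
  have gap : EZ (M k).w (M k).t a s ≤ -s := by
    have := (abs_le.1 e1).2
    have := (abs_le.1 e2).2
    have := le_abs_self lam
    have := le_abs_self (a * m1)
    have := abs_nonneg (a * m1)
    nlinarith
  refine le_trans (Pr_mono _ fun U hU => ?_)
    ((cheb_Z (A.pos k) (A.tpos k) ha s0 (η := s) (by linarith)).trans ?_)
  · have : 0 < Zc (M k).w (M k).t a s U := by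
      by_contra hc
      exact absurd (TC_le (A.pos k) (A.tpos k) (not_lt.1 hc)) (not_le.2 hU)
    exact le_trans (by linarith) (le_abs_self _)
  · rw [div_le_iff₀ (by positivity)]
    linarith only [s1, s2, e3, e4, mul_nonneg_of_nonpos_of_nonpos (Mathlib.Tactic.Linarith.sub_nonpos_of_le s1) (Mathlib.Tactic.Linarith.sub_nonpos_of_le s2), mul_nonneg_of_nonpos_of_nonpos (Mathlib.Tactic.Linarith.sub_nonpos_of_le s1) (Mathlib.Tactic.Linarith.sub_nonpos_of_le e3)]

lemma Adm.count (A : Adm M m1 lam m3) {a s η ε : ℝ} (ha : 0 ≤ a) (hs : 0 ≤ s) (hη : 0 < η)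
    (hε : 0 < ε) : ∀ᶠ k in atTop, Pr (PP (Ix (Fin (M k).n)))
      (fun U => η ≤ |cm (M k).t (arr (M k).w (M k).t a s U) - m1 * s|) ≤ ε := by
  have e1 := ev_abs_le (A.h1.mul_const s) (η := η / 3) (by positivity)
  have e2 : ∀ᶠ k in atTop, a / (M k).t + mom (M k).w (M k).t 2 * s ^ 2 / (M k).t ≤ η / 3 :=
    ev_le_of_tendsto (y := 0) (by
      simpa [div_eq_mul_inv] using (A.inv.const_mul a).add ((A.h2'.mul_const (s ^ 2)).mul A.inv))
      (by positivity)
  have e3 : ∀ᶠ k in atTop,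
      ((a / (M k).t + mom (M k).w (M k).t 1 * s) / (M k).t ^ 2) / (η / 3) ^ 2 ≤ ε :=
    ev_le_of_tendsto (y := 0) (by
      simpa [div_eq_mul_inv] using (((A.inv.const_mul a).add (A.h1.mul_const s)).mul
        (A.inv.pow 2)).div_const ((η / 3) ^ 2)) hε
  filter_upwards [e1, e2, e3] with k e1 e2 e3
  refine le_trans (Pr_mono _ fun U hU => ?_)
    ((cheb_count (A.pos k) (A.tpos k) (A.card k) ha hs (η := η / 3) (by positivity)).trans e3)
  have := abs_sub_le (cm (M k).t (arr (M k).w (M k).t a s U)) (mom (M k).w (M k).t 1 * s) (m1 * s)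
  linarith only [e1, e2, hU, this]

lemma Adm.level (A : Adm M m1 lam m3) {a s η ε : ℝ} (ha : 0 ≤ a) (hs : 0 ≤ s) (hη : 0 < η)
    (hε : 0 < ε) : ∀ᶠ k in atTop, Pr (PP (Ix (Fin (M k).n)))
      (fun U => η ≤ |Zc (M k).w (M k).t a s U - Zc (M k).w (M k).t 0 s U - a * m1|) ≤ ε := by
  have e1 := ev_abs_le (A.EZ_level ha hs) (η := η / 2) (by positivity)
  have e3 : ∀ᶠ k in atTop, (a * mom (M k).w (M k).t 2 / (M k).t) / (η / 2) ^ 2 ≤ ε :=
    ev_le_of_tendsto (y := 0) (by
      simpa [div_eq_mul_inv] using (((A.h2'.const_mul a).mul A.inv)).div_const ((η / 2) ^ 2)) hε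
  filter_upwards [e1, e3] with k e1 e3
  refine le_trans (Pr_mono _ fun U hU => ?_)
    ((cheb_level (A.pos k) (A.tpos k) ha hs (η := η / 2) (by positivity)).trans e3)
  have := abs_sub_le (Zc (M k).w (M k).t a s U - Zc (M k).w (M k).t 0 s U)
    (EZ (M k).w (M k).t a s - EZ (M k).w (M k).t 0 s) (a * m1)
  linarith only [e1, hU, this]

lemma Adm.tightS2 (A : Adm M m1 lam m3) (h3 : 0 < m3) {ε : ℝ} (hε : 0 < ε) :
    ∃ K, 0 < K ∧ ∀ᶠ k in atTop, Pr (PP (Ix (Fin (M k).n)))
      (fun U => ¬ S2 (gr (M k).w (M k).t U) (M k).t ≤ K) ≤ ε := by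
  obtain ⟨s, s0, hs⟩ := A.tightTC h3 zero_le_one (ε := ε / 4) (by positivity)
  have K1 : 1 ≤ max 1 (m1 * s + 1) := le_max_left _ _
  refine ⟨16 * (max 1 (m1 * s + 1)) ^ 2, by positivity, ?_⟩
  filter_upwards [hs, A.count zero_le_one s0 one_pos (ε := ε / 4) (by positivity)] with k e1 e2
  have a1 := Pr_graph_ge (M k).w (M k).t
    (p := fun G U => max 1 (m1 * s + 1) < cm (M k).t (hitSet G (M k).t 1 U))
    (fun G => (sm_hitSet G _ 1).comp (fun S => max 1 (m1 * s + 1) < cm (M k).t S))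
    (fun G U U' h => by rw [hitSet_dep G _ _ h])
    (fun G => ¬ S2 G (M k).t ≤ 16 * (max 1 (m1 * s + 1)) ^ 2)
    (fun G hG => seeds_tight G (A.tpos k) K1 (not_le.1 hG))
  have a2 := law_Pr (A.pos k) (A.tpos k) zero_le_one le_rfl
    (fun _ S => max 1 (m1 * s + 1) < cm (M k).t S)
  rw [a2] at a1
  have a3 : Pr (PP (Ix (Fin (M k).n)))
      (fun U => max 1 (m1 * s + 1) < cm (M k).t (EC (M k).w (M k).t 1 U)) ≤ ε / 4 + ε / 4 := by
    refine le_trans (Pr_mono _ fun U hU => ?_) ((Pr_or_le _ _ _).trans (add_le_add e1 e2))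
    by_cases h : s < TC (M k).w (M k).t 1 U
    · exact Or.inl h
    · right
      rw [← arr_TC (A.pos k) (A.tpos k)] at hU
      have := cm_mono (M k).t (arr_mono (A.pos k) (A.tpos k) (le_refl 1) (not_lt.1 h) U)
      have := le_max_right 1 (m1 * s + 1)
      exact le_trans (by linarith) (le_abs_self _)
  linarith only [a1, a3]

lemma Adm.levelCont (A : Adm M m1 lam m3) (h3 : 0 < m3) {ε D : ℝ} (hε : 0 < ε) (hD : 0 < D) :
    ∃ ρ, 0 < ρ ∧ ∀ᶠ k in atTop, ∀ a, 0 ≤ a → Pr (PP (Ix (Fin (M k).n))) (fun U =>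
      D ≤ cm (M k).t (EC (M k).w (M k).t (a + ρ) U) - cm (M k).t (EC (M k).w (M k).t a U)) ≤ ε := by
  obtain ⟨K, K0, hK⟩ := A.tightS2 h3 (ε := ε / 2) (by positivity)
  refine ⟨ε / 2 * D / K, by positivity, ?_⟩
  filter_upwards [hK] with k e a ha
  have ρ0 : 0 ≤ ε / 2 * D / K := by positivity
  rw [← law_Pr (A.pos k) (A.tpos k) ha (le_add_of_nonneg_right ρ0)
    (fun S' S => D ≤ cm (M k).t S - cm (M k).t S')]
  have := Pr_graph_le (M k).w (M k).t (p := fun G U => D ≤
      cm (M k).t (hitSet G (M k).t (a + ε / 2 * D / K) U) - cm (M k).t (hitSet G (M k).t a U))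
    (fun G => (sm_hitSet G _ _).comp₂ (sm_hitSet G _ _)
      (fun S S' => D ≤ cm (M k).t S - cm (M k).t S'))
    (fun G U U' h => by rw [hitSet_dep G _ _ h, hitSet_dep G _ a h])
    (fun G => S2 G (M k).t ≤ K) (ε := ε / 2) (by positivity) (fun G hG => by
      refine (seeds_level G (A.tpos k) ha (le_add_of_nonneg_right ρ0) hD).trans ?_
      rw [add_sub_cancel_left, div_le_iff₀ hD]
      refine (mul_le_mul_of_nonneg_left hG ρ0).trans (le_of_eq ?_)
      field_simp)
  linarith only [e, this]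

lemma Adm.markov (A : Adm M m1 lam m3) {η h : ℝ} (hη : 0 < η) (hh : 0 < h)
    (hl : (|lam| + 1) * h ≤ η / 2) : ∀ᶠ k in atTop, ∀ a, 0 ≤ a → Pr (PP (Ix (Fin (M k).n)))
      (fun U => η ≤ Zc (M k).w (M k).t a ((⌈TC (M k).w (M k).t a U / h⌉₊ : ℕ) * h) U) ≤
        (m3 + 1) * h / (η / 2) ^ 2 := by
  filter_upwards [ev_abs_le A.h2 one_pos, ev_le_of_tendsto A.h3 (lt_add_one m3)] with k e1 e2 a ha
  have := strong_markov (A.pos k) (A.tpos k) ha (h := h) (η := η / 2) (by positivity)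
    (fun τ => (⌈τ / h⌉₊ : ℕ) * h) (fun τ hτ => by
      have a1 := Nat.le_ceil (τ / h)
      have a2 := Nat.ceil_lt_add_one (a := τ / h) (by positivity)
      rw [div_le_iff₀ hh] at a1
      refine ⟨a1, ?_⟩
      have : τ + h = (τ / h + 1) * h := by field_simp
      rw [this]; gcongr)
  refine le_trans (Pr_mono _ fun U hU => le_trans ?_ hU) (this.trans (by gcongr))
  have a1 : |(M k).t * (mom (M k).w (M k).t 2 - 1)| ≤ |lam| + 1 := by
    have := abs_sub_abs_le_abs_sub ((M k).t * (mom (M k).w (M k).t 2 - 1)) lam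
    linarith only [e1, this]
  linarith only [hl, hh, a1, mul_nonneg_of_nonpos_of_nonpos (le_of_lt (Mathlib.Tactic.Linarith.sub_neg_of_lt hh)) (Mathlib.Tactic.Linarith.sub_nonpos_of_le a1)]

/-- continuous cut-off -/
noncomputable def chi (lo η x : ℝ) : ℝ := max 0 (min 1 ((x - lo) / η))

/-- soft hitting time on a grid -/
noncomputable def psi {N : ℕ} (h lo η : ℝ) (z : Fin N → ℝ) : ℝ :=
  h * ∑ i : Fin N, ∏ i' ∈ Finset.Iic i, chi lo η (z i')

lemma continuous_psi {N : ℕ} (h lo η : ℝ) : Continuous (psi (N := N) h lo η) := by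
  unfold psi chi; fun_prop

lemma chi_nonneg (lo η x : ℝ) : 0 ≤ chi lo η x := le_max_left _ _
lemma chi_le_one (lo η x : ℝ) : chi lo η x ≤ 1 := max_le zero_le_one (min_le_left _ _)

lemma psi_le {N : ℕ} {h lo η : ℝ} (hh : 0 < h) (hη : 0 < η) (z : Fin N → ℝ) (i0 : Fin N)
    (hz : z i0 ≤ lo) : psi h lo η z ≤ (i0 : ℕ) * h := by
  rw [psi, mul_comm]
  gcongr
  have : ∀ i : Fin N, ∏ i' ∈ Finset.Iic i, chi lo η (z i') ≤ if i < i0 then 1 else 0 := by
    intro i
    split_ifs with hi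
    · exact Finset.prod_le_one (fun _ _ => chi_nonneg _ _ _) (fun _ _ => chi_le_one _ _ _)
    · refine le_of_eq (Finset.prod_eq_zero (Finset.mem_Iic.2 (not_lt.1 hi)) ?_)
      exact max_eq_left ((min_le_right _ _).trans
        (div_nonpos_of_nonpos_of_nonneg (by linarith) hη.le))
  refine (Finset.sum_le_sum fun i _ => this i).trans (le_of_eq ?_)
  rw [Finset.sum_boole]
  congr 1
  rw [← Fin.card_Iio i0]; congr 1; ext; simp

lemma le_psi {N : ℕ} {h lo η : ℝ} (hh : 0 < h) (hη : 0 < η) (z : Fin N → ℝ) (i0 : Fin N)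
    (hz : ∀ i < i0, lo + η ≤ z i) : (i0 : ℕ) * h ≤ psi h lo η z := by
  rw [psi, mul_comm]
  gcongr
  have : ∀ i : Fin N, (if i < i0 then 1 else 0) ≤ ∏ i' ∈ Finset.Iic i, chi lo η (z i') := by
    intro i
    split_ifs with hi
    · refine le_of_eq (Finset.prod_eq_one fun i' hi' => ?_).symm
      have := hz i' ((Finset.mem_Iic.1 hi').trans_lt hi)
      rw [chi, min_eq_left (by rw [le_div_iff₀ hη]; linarith)]
      simp
    · exact Finset.prod_nonneg fun _ _ => chi_nonneg _ _ _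
  refine le_trans (le_of_eq ?_) (Finset.sum_le_sum fun i _ => this i)
  rw [Finset.sum_boole]
  congr 1
  rw [← Fin.card_Iio i0]; congr 1; ext; simp

lemma sandwich {V : Type} [Fintype V] [DecidableEq V] {w : V → ℝ} (hw : ∀ v, 0 ≤ w v) {t : ℝ}
    (ht : 0 < t) {m a ρ η h D : ℝ} (hm : 0 < m) (hρ : 0 ≤ ρ) (hη : 0 < η) (hh : 0 < h)
    (hρη : 4 * η ≤ ρ * m) {N : ℕ} {U : Ix V → ℝ}
    (h1 : TC w t (a + ρ) U + h ≤ N * h)
    (h2 : ∀ i ∈ Finset.range N, |Zc w t a (i * h) U - Zc w t 0 (i * h) U - a * m| < η)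
    (h3 : ∀ i ∈ Finset.range N,
      |Zc w t (a + ρ) (i * h) U - Zc w t 0 (i * h) U - (a + ρ) * m| < η)
    (h4 : ∀ i ∈ Finset.range N, |cm t (arr w t a (i * h) U) - m * (i * h)| < η)
    (h5 : ∀ i ∈ Finset.range N, |cm t (arr w t (a + ρ) (i * h) U) - m * (i * h)| < η)
    (h6 : Zc w t (a + ρ) ((⌈TC w t (a + ρ) U / h⌉₊ : ℕ) * h) U < η)
    (h7 : cm t (EC w t (a + ρ) U) - cm t (EC w t a U) < D) :
    |m * psi h (-(a + ρ) * m + 2 * η) η (fun i : Fin N => Zc w t 0 ((i : ℕ) * h) U) -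
      cm t (EC w t a U)| ≤ D + η + m * h := by
  have sub := EC_mono hw ht (le_add_of_nonneg_right hρ : a ≤ a + ρ) U
  have Tle : TC w t a U ≤ TC w t (a + ρ) U := ym_mono hw t sub
  have cle := cm_mono t sub
  have idx : ∀ τ, 0 ≤ τ → τ + h ≤ N * h → ⌈τ / h⌉₊ < N := fun τ h0 hτ => by
    have a2 := Nat.ceil_lt_add_one (a := τ / h) (by positivity)
    have : τ / h + 1 ≤ N := by
      rw [div_add_one hh.ne', div_le_iff₀ hh]; exact hτ
    exact_mod_cast a2.trans_le this
  have T0 : ∀ b, 0 ≤ TC w t b U := fun b => ym_nonneg hw t _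
  set i1 := ⌈TC w t (a + ρ) U / h⌉₊ with hi1
  set i0 := ⌈TC w t a U / h⌉₊ with hi0
  have l1 : i1 < N := idx _ (T0 _) h1
  have l0 : i0 < N := idx _ (T0 _) (by linarith only [h1, Tle])
  have up := psi_le hh hη (lo := -(a + ρ) * m + 2 * η)
    (fun i : Fin N => Zc w t 0 ((i : ℕ) * h) U) ⟨i1, l1⟩ (by
      have := (abs_lt.1 (h3 i1 (Finset.mem_range.2 l1))).1
      dsimp only; linarith only [h6, this])
  have lo := le_psi hh hη (lo := -(a + ρ) * m + 2 * η)
    (fun i : Fin N => Zc w t 0 ((i : ℕ) * h) U) ⟨i0, l0⟩ (fun i hi => by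
      have b1 : ((i : ℕ) : ℝ) < TC w t a U / h := Nat.lt_ceil.1 hi
      rw [lt_div_iff₀ hh] at b1
      have b2 : 0 < Zc w t a ((i : ℕ) * h) U := by
        by_contra hc
        exact absurd (TC_le hw ht (not_lt.1 hc)) (not_le.2 b1)
      have := (abs_lt.1 (h2 i (Finset.mem_range.2 i.2))).2
      linarith only [hρη, b2, this])
  dsimp only at up lo
  have c0 : cm t (EC w t a U) ≤ m * (i0 * h) + η := by
    have b1 := Nat.le_ceil (TC w t a U / h)
    rw [div_le_iff₀ hh] at b1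
    have b2 := cm_mono t (arr_mono hw ht (le_refl a) b1 U)
    rw [arr_TC hw ht] at b2
    have := (abs_lt.1 (h4 i0 (Finset.mem_range.2 l0))).2
    linarith only [b2, this]
  have c1 : m * (i1 * h) ≤ cm t (EC w t (a + ρ) U) + η + m * h := by
    rcases Nat.eq_zero_or_pos i1 with e | e
    · rw [e]
      have := cm_nonneg t (EC w t (a + ρ) U)
      have := mul_pos hm hh
      simp only [Nat.cast_zero, zero_mul, mul_zero]
      linarith
    · obtain ⟨i, hi⟩ : ∃ i, i1 = i + 1 := ⟨i1 - 1, by omega⟩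
      have b1 : (i : ℝ) < TC w t (a + ρ) U / h := Nat.lt_ceil.1 (by omega)
      rw [lt_div_iff₀ hh] at b1
      have b2 := cm_mono t (arr_mono hw ht (le_refl (a + ρ)) b1.le U)
      rw [arr_TC hw ht] at b2
      have := (abs_lt.1 (h5 i (Finset.mem_range.2 (by omega)))).1
      rw [hi]; push_cast
      linarith only [b2, this]
  have d1 := mul_le_mul_of_nonneg_left up hm.le
  have d2 := mul_le_mul_of_nonneg_left lo hm.le
  have := mul_pos hm hh
  rw [abs_le]; constructor <;> linarith only [h7, cle, c0, d2, this, c1, d1]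

end Pool.Agent.Work.MP_e39611_pr
end

-- merged part: Pool.Agent.Work.MP_e39611_pr.Core
section
/-!
Convergence of the rescaled component sizes of rank one random graphs in the critical window.
-/

namespace Pool.Agent.Work.MP_e39611_pr

open MeasureTheory Set Real Filter Topology
open scoped Classical

set_option linter.unusedSectionVars false

variable {M : ℕ → Mdl} {m1 lam m3 : ℝ}

/-- ordered rescaled component sizes -/
noncomputable def vecL {V : Type} (G : SimpleGraph V) (t : ℝ) (j : ℕ) : ℝ :=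
  nthLargest (fun k : G.ConnectedComponent => (k.supp.ncard : ℝ) / t ^ 2) j

/-- uniform continuity for the supremum distance -/
def UC (f : (ℕ → ℝ) → ℝ) : Prop :=
  ∀ ε, 0 < ε → ∃ D, 0 < D ∧ ∀ x y, (∀ j, |x j - y j| ≤ D) → |f x - f y| ≤ ε

/-- expectation in the rank one model -/
noncomputable def Fw (X : Mdl) (f : (ℕ → ℝ) → ℝ) : ℝ :=
  ∫ U, f (vecL (gr X.w X.t U) X.t) ∂(PP (Ix (Fin X.n)))

lemma exists_tendsto_of_approx {F : ℕ → ℝ}
    (h : ∀ ε, 0 < ε → ∃ y, ∀ᶠ k in atTop, |F k - y| ≤ ε) : ∃ y, Tendsto F atTop (𝓝 y) := by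
  refine cauchySeq_tendsto_of_complete (Metric.cauchySeq_iff.2 fun ε hε => ?_)
  obtain ⟨y, hy⟩ := h (ε / 3) (by positivity)
  obtain ⟨N, hN⟩ := eventually_atTop.1 hy
  refine ⟨N, fun a ha b hb => ?_⟩
  have h1 := abs_le.1 (hN a ha)
  have h2 := abs_le.1 (hN b hb)
  rw [Real.dist_eq, abs_lt]; constructor <;> linarith only [hε, h1, h2]

lemma Adm.graph_step (A : Adm M m1 lam m3) (h3 : 0 < m3) {ε D : ℝ} (hε : 0 < ε) (hD : 0 < D) :
    ∃ (J : ℕ) (δ : ℝ), 0 ≤ δ ∧ ∀ᶠ k in atTop, Pr (PP (Ix (Fin (M k).n))) (fun U =>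
      ¬ ∀ j, |vecL (gr (M k).w (M k).t U) (M k).t j - nthLargest (fun i : Fin J =>
        cm (M k).t (hitSet (gr (M k).w (M k).t U) (M k).t (((i : ℕ) + 1 : ℕ) * δ) U) -
        cm (M k).t (hitSet (gr (M k).w (M k).t U) (M k).t ((i : ℕ) * δ) U)) j| ≤ D) ≤ ε := by
  obtain ⟨K, K0, hK⟩ := A.tightS2 h3 (ε := ε / 3) (by positivity)
  set a := 3 * K / (ε * D ^ 3) with ha
  have a0 : 0 < a := by positivity
  obtain ⟨J, hJ⟩ := exists_nat_gt (3 * a ^ 2 * K ^ 2 / (ε * D ^ 2))
  have J0 : (0 : ℝ) < J := lt_trans (by positivity) hJ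
  refine ⟨J, a / J, by positivity, ?_⟩
  filter_upwards [hK] with k e
  have := Pr_graph_le (M k).w (M k).t (p := fun G U =>
      ¬ ∀ j, |vecL G (M k).t j - nthLargest (fun i : Fin J =>
        cm (M k).t (hitSet G (M k).t (((i : ℕ) + 1 : ℕ) * (a / J)) U) -
        cm (M k).t (hitSet G (M k).t ((i : ℕ) * (a / J)) U)) j| ≤ D)
    (fun G => (Sm.pi fun i : Fin J => (sm_hitSet G (M k).t (((i : ℕ) + 1 : ℕ) * (a / J))).comp₂
      (sm_hitSet G (M k).t ((i : ℕ) * (a / J))) (fun S S' => cm (M k).t S - cm (M k).t S')).comp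
      (fun b => ¬ ∀ j, |vecL G (M k).t j - nthLargest b j| ≤ D))
    (fun G U U' h => by simp only [hitSet_dep G _ _ h])
    (fun G => S2 G (M k).t ≤ K) (ε := ε / 3 + ε / 3) (by positivity) (fun G hG => by
      refine (seeds_blocks G (A.tpos k) (δ := a / J) (by positivity) hD J).trans
        (add_le_add ?_ ?_)
      · have e1 : (J : ℝ) * (a / J) * D = a * D := by field_simp
        have e2 : exp (-(a * D)) * (a * D) ≤ 1 := by
          have h1 := add_one_le_exp (a * D)
          have h2 : exp (-(a * D)) * exp (a * D) = 1 := by rw [← exp_add]; simp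
          have h4 := exp_pos (-(a * D))
          linarith only [h2, h4, h1, mul_nonneg_of_nonpos_of_nonpos (Mathlib.Tactic.Linarith.sub_nonpos_of_le h1) (le_of_lt (Mathlib.Tactic.Linarith.sub_neg_of_lt h4))]
        rw [e1, div_le_iff₀ (by positivity)]
        have e3 : K = ε / 3 * D ^ 2 * (a * D) := by rw [ha]; field_simp
        calc _ ≤ exp (-(a * D)) * K := by gcongr
          _ = ε / 3 * D ^ 2 * (exp (-(a * D)) * (a * D)) := by rw [e3]; ring
          _ ≤ ε / 3 * D ^ 2 * 1 := by gcongr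
          _ = _ := by ring
      · have := S2_nonneg G (M k).t
        rw [div_lt_iff₀ (by positivity)] at hJ
        rw [div_le_iff₀ (by positivity)]
        calc _ ≤ J * (a / J) ^ 2 * K ^ 2 := by gcongr
          _ = a ^ 2 * K ^ 2 / J := by field_simp
          _ ≤ _ := by rw [div_le_iff₀ J0]; linarith only [hJ])
  linarith only [e, this]

lemma Adm.clock_step (A : Adm M m1 lam m3) (h1 : 0 < m1) (h3 : 0 < m3) {ε D δ : ℝ} (hε : 0 < ε)
    (hD : 0 < D) (hδ : 0 ≤ δ) (J : ℕ) :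
    ∃ (N : ℕ) (h : ℝ) (ψ : ℕ → (Fin N → ℝ) → ℝ), 0 ≤ h ∧ (∀ j, Continuous (ψ j)) ∧
      ∀ᶠ k in atTop, Pr (PP (Ix (Fin (M k).n))) (fun U => ¬ ∀ j ∈ Finset.range (J + 1),
        |ψ j (fun i : Fin N => Zc (M k).w (M k).t 0 ((i : ℕ) * h) U) -
          cm (M k).t (EC (M k).w (M k).t (j * δ) U)| ≤ D) ≤ ε := by
  set e1 := ε / 8 / (J + 1) with he1
  have e1p : 0 < e1 := by positivity
  obtain ⟨ρ, ρ0, hρ⟩ := A.levelCont h3 e1p (D := D / 3) (by positivity)
  obtain ⟨T, T0, hT⟩ := A.tightTC h3 (a := J * δ + ρ) (by positivity) (ε := ε / 4) (by positivity)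
  set η := min (ρ * m1 / 4) (D / 3) with hη
  have η0 : 0 < η := lt_min (by positivity) (by positivity)
  have η1 : η ≤ ρ * m1 / 4 := min_le_left _ _
  have η2 : η ≤ D / 3 := min_le_right _ _
  set h := min (η / 2 / (|lam| + 1)) (min (e1 * (η / 2) ^ 2 / (m3 + 1)) (D / 3 / m1)) with hh
  have h0 : 0 < h := lt_min (by positivity) (lt_min (by positivity) (by positivity))
  have c1 : (|lam| + 1) * h ≤ η / 2 := by
    have : h ≤ η / 2 / (|lam| + 1) := min_le_left _ _
    rwa [le_div_iff₀ (by positivity), mul_comm] at this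
  have c2 : (m3 + 1) * h / (η / 2) ^ 2 ≤ e1 := by
    have : h ≤ e1 * (η / 2) ^ 2 / (m3 + 1) := (min_le_right _ _).trans (min_le_left _ _)
    rw [le_div_iff₀ (by positivity)] at this
    rw [div_le_iff₀ (by positivity)]; linarith only [this]
  have c3 : m1 * h ≤ D / 3 := by
    have : h ≤ D / 3 / m1 := (min_le_right _ _).trans (min_le_right _ _)
    rwa [le_div_iff₀ h1, mul_comm] at this
  obtain ⟨N, hN⟩ := exists_nat_gt ((T + h) / h)
  have N0 : (0 : ℝ) < N := lt_trans (by positivity) hN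
  rw [div_lt_iff₀ h0] at hN
  set e2 := e1 / 2 / N with he2
  have e2p : 0 < e2 := by positivity
  refine ⟨N, h, fun j z => m1 * psi h (-(j * δ + ρ) * m1 + 2 * η) η z, h0.le,
    fun j => (continuous_psi _ _ _).const_mul _, ?_⟩
  have ev : ∀ᶠ k in atTop, ∀ j ∈ Finset.range (J + 1), ∀ i ∈ Finset.range N,
      Pr (PP (Ix (Fin (M k).n))) (fun U =>
        (η ≤ |Zc (M k).w (M k).t (j * δ) (i * h) U - Zc (M k).w (M k).t 0 (i * h) U -
          j * δ * m1| ∨
        η ≤ |Zc (M k).w (M k).t (j * δ + ρ) (i * h) U - Zc (M k).w (M k).t 0 (i * h) U -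
          (j * δ + ρ) * m1|) ∨
        (η ≤ |cm (M k).t (arr (M k).w (M k).t (j * δ) (i * h) U) - m1 * (i * h)| ∨
        η ≤ |cm (M k).t (arr (M k).w (M k).t (j * δ + ρ) (i * h) U) - m1 * (i * h)|)) ≤
        4 * e2 := by
    rw [eventually_all_finset]; intro j _
    rw [eventually_all_finset]; intro i _
    filter_upwards [A.level (a := j * δ) (s := i * h) (by positivity) (by positivity) η0 e2p,
      A.level (a := j * δ + ρ) (s := i * h) (by positivity) (by positivity) η0 e2p,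
      A.count (a := j * δ) (s := i * h) (by positivity) (by positivity) η0 e2p,
      A.count (a := j * δ + ρ) (s := i * h) (by positivity) (by positivity) η0 e2p]
      with k a1 a2 a3 a4
    refine (Pr_or_le _ _ _).trans ((add_le_add ((Pr_or_le _ _ _).trans (add_le_add a1 a2))
      ((Pr_or_le _ _ _).trans (add_le_add a3 a4))).trans (by linarith only []))
  filter_upwards [ev, hρ, hT, A.markov η0 h0 c1] with k b1 b2 b3 b4
  have b5 : ∀ j ∈ Finset.range (J + 1), Pr (PP (Ix (Fin (M k).n))) (fun U =>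
      (D / 3 ≤ cm (M k).t (EC (M k).w (M k).t (j * δ + ρ) U) -
        cm (M k).t (EC (M k).w (M k).t (j * δ) U) ∨
      η ≤ Zc (M k).w (M k).t (j * δ + ρ)
        ((⌈TC (M k).w (M k).t (j * δ + ρ) U / h⌉₊ : ℕ) * h) U) ∨ ∃ i ∈ Finset.range N,
        (η ≤ |Zc (M k).w (M k).t (j * δ) (i * h) U - Zc (M k).w (M k).t 0 (i * h) U -
          j * δ * m1| ∨
        η ≤ |Zc (M k).w (M k).t (j * δ + ρ) (i * h) U - Zc (M k).w (M k).t 0 (i * h) U -
          (j * δ + ρ) * m1|) ∨
        (η ≤ |cm (M k).t (arr (M k).w (M k).t (j * δ) (i * h) U) - m1 * (i * h)| ∨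
        η ≤ |cm (M k).t (arr (M k).w (M k).t (j * δ + ρ) (i * h) U) - m1 * (i * h)|)) ≤
      4 * e1 := by
    intro j hj
    refine (Pr_or_le _ _ _).trans ((add_le_add ((Pr_or_le _ _ _).trans
      (add_le_add (b2 _ (by positivity)) ((b4 _ (by positivity)).trans c2)))
      ((Pr_exists_le _ _ _).trans (Finset.sum_le_sum (b1 j hj)))).trans (le_of_eq ?_))
    simp only [Finset.sum_const, Finset.card_range, nsmul_eq_mul, he2]
    field_simp; ring
  have b6 := (Pr_or_le _ _ _).trans (add_le_add b3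
    ((Pr_exists_le _ _ _).trans (Finset.sum_le_sum b5)))
  refine le_trans (Pr_mono _ fun U hU => ?_) (b6.trans ?_)
  · by_contra hc
    push Not at hc
    apply hU
    intro j hj
    obtain ⟨⟨d1, d2⟩, d3⟩ := hc.2 j hj
    have d4 : TC (M k).w (M k).t (j * δ + ρ) U ≤ TC (M k).w (M k).t (J * δ + ρ) U := by
      refine ym_mono (A.pos k) _ (EC_mono (A.pos k) (A.tpos k) ?_ U)
      have : j ≤ J := Nat.lt_succ_iff.1 (Finset.mem_range.1 hj)
      gcongr
    have := sandwich (A.pos k) (A.tpos k) h1 ρ0.le η0 h0 (by linarith only [η1]) (N := N) (U := U)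
      (a := j * δ) (by linarith only [hN, hc, d4, hc.1]) (fun i hi => (d3 i hi).1.1) (fun i hi => (d3 i hi).1.2)
      (fun i hi => (d3 i hi).2.1) (fun i hi => (d3 i hi).2.2) d2 d1
    linarith only [η2, c3, this]
  · simp only [Finset.sum_const, Finset.card_range, nsmul_eq_mul, he1]
    push_cast
    have : ((J : ℝ) + 1) * (4 * (ε / 8 / (J + 1))) = ε / 2 := by field_simp; ring
    linarith only [hε, this]

theorem Adm.conv (A : Adm M m1 lam m3) (h1 : 0 < m1) (h3 : 0 < m3) {f : (ℕ → ℝ) → ℝ}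
    (hf : Continuous f) (hu : UC f) {B : ℝ} (hB : ∀ x, |f x| ≤ B) :
    ∃ y, Tendsto (fun k => Fw (M k) f) atTop (𝓝 y) := by
  refine exists_tendsto_of_approx fun ε hε => ?_
  have B0 : 0 ≤ B := (abs_nonneg _).trans (hB 0)
  set e := ε / 5 / (B + 1) with he
  have e0 : 0 < e := by positivity
  obtain ⟨D, D0, hD⟩ := hu e e0
  obtain ⟨J, δ, δ0, ev1⟩ := A.graph_step h3 e0 D0
  obtain ⟨N, h, ψ, h0, hψ, ev2⟩ := A.clock_step h1 h3 e0 (D := D / 2) (by positivity) δ0 J
  let g : (Fin N → ℝ) → ℝ := fun z =>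
    f (fun j => nthLargest (fun i : Fin J => ψ ((i : ℕ) + 1) z - ψ i z) j)
  have hg : Continuous g := hf.comp (continuous_pi fun j => (continuous_nth j).comp
    (continuous_pi fun i => (hψ _).sub (hψ _)))
  obtain ⟨y, hy⟩ := A.clt (g := fun i : Fin N => (i : ℕ) * h) (fun i => by positivity) hg
    (B := B) (fun z => hB _)
  refine ⟨y, ?_⟩
  filter_upwards [ev1, ev2, ev_abs_le hy e0] with k a1 a2 a3
  let H : (Fin (J + 1) → Finset (Fin (M k).n)) → ℝ := fun S =>
    f (fun j => nthLargest (fun i : Fin J =>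
      cm (M k).t (S i.succ) - cm (M k).t (S i.castSucc)) j)
  have b0 := law_integral (A.pos k) (A.tpos k) (a := fun j => (j : ℝ) * δ)
    (fun i j hij => by dsimp only; gcongr) (fun j => by positivity) (J + 1) H
  have s1 : Sm (fun U => H (fun j : Fin (J + 1) =>
      hitSet (gr (M k).w (M k).t U) (M k).t ((j : ℕ) * δ) U)) :=
    (Sm.pi fun j : Fin (J + 1) => (sm_gr (M k).w (M k).t).bind
      (Y := fun G U => hitSet G (M k).t ((j : ℕ) * δ) U) fun G => sm_hitSet G _ _).comp H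
  have s2 : Sm (fun U => H (fun j : Fin (J + 1) => EC (M k).w (M k).t ((j : ℕ) * δ) U)) :=
    (Sm.pi fun j : Fin (J + 1) => sm_EC (M k).w (M k).t ((j : ℕ) * δ)).comp H
  have b1 := integral_close (PP (Ix (Fin (M k).n)))
    ((sm_gr (M k).w (M k).t).comp (fun G => f (vecL G (M k).t))) s1 e0.le (fun U => hB _)
    (fun U => hB _) (fun U hU => hD _ _ (not_not.1 hU))
  have b2 := integral_close (PP (Ix (Fin (M k).n))) s2
    ((Sm.pi fun i : Fin N => sm_Zc (M k).w (M k).t 0 ((i : ℕ) * h)).comp g) e0.le (fun U => hB _)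
    (fun U => hB _) (p := fun U => ¬ ∀ j ∈ Finset.range (J + 1),
        |ψ j (fun i : Fin N => Zc (M k).w (M k).t 0 ((i : ℕ) * h) U) -
          cm (M k).t (EC (M k).w (M k).t (j * δ) U)| ≤ D / 2) (fun U hU => by
      refine hD _ _ fun j => nth_lip D0.le (fun i => ?_) j
      have c1 := abs_le.1 (not_not.1 hU ((i : ℕ) + 1) (Finset.mem_range.2 (by omega)))
      have c2 := abs_le.1 (not_not.1 hU (i : ℕ) (Finset.mem_range.2 (by omega)))
      simp only [Fin.val_succ, Fin.val_castSucc]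
      rw [abs_le]; constructor <;> linarith only [c1, c2])
  rw [b0] at b1
  have c1 : 2 * B * _ ≤ 2 * B * e := mul_le_mul_of_nonneg_left a1 (by positivity)
  have c2 : 2 * B * _ ≤ 2 * B * e := mul_le_mul_of_nonneg_left a2 (by positivity)
  have c3 : ε = 5 * e * (B + 1) := by rw [he]; field_simp
  have d1 := abs_le.1 (b1.trans (add_le_add le_rfl c1))
  have d2 := abs_le.1 (b2.trans (add_le_add le_rfl c2))
  have d3 := abs_le.1 a3
  have d4 := mul_nonneg B0 e0.le
  rw [Fw, abs_le]; constructor <;> linarith only [e0, c3, d1, d2, d3, d4]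

lemma Adm.tight (A : Adm M m1 lam m3) (h3 : 0 < m3) {ε : ℝ} (hε : 0 < ε) :
    ∃ K, ∀ᶠ k in atTop, Pr (PP (Ix (Fin (M k).n)))
      (fun U => K < vecL (gr (M k).w (M k).t U) (M k).t 0) ≤ ε := by
  obtain ⟨K, K0, hK⟩ := A.tightS2 h3 hε
  refine ⟨K + 1, hK.mono fun k hk => le_trans (Pr_mono _ fun U hU hc => ?_) hk⟩
  refine absurd hU (not_lt.2 (nth_le_of_forall (by positivity) (fun C => ?_) 0))
  have := (Finset.single_le_sum (f := fun C => cs (gr (M k).w (M k).t U) (M k).t C ^ 2)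
    (fun _ _ => sq_nonneg _) (Finset.mem_univ C)).trans hc
  change cs _ _ C ≤ _
  (refine le_of_not_gt fun h_nl => ?_; linarith only [h_nl, K0, this, mul_pos_of_neg_of_neg (Mathlib.Tactic.Linarith.sub_neg_of_lt K0) (Mathlib.Tactic.Linarith.sub_neg_of_lt K0), mul_pos_of_neg_of_neg (Mathlib.Tactic.Linarith.sub_neg_of_lt K0) (Mathlib.Tactic.Linarith.sub_neg_of_lt h_nl), mul_pos_of_neg_of_neg (Mathlib.Tactic.Linarith.sub_neg_of_lt h_nl) (Mathlib.Tactic.Linarith.sub_neg_of_lt h_nl)])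

lemma tendsto_interlace {α : Type} {a b : ℕ → α} {l : Filter α} (ha : Tendsto a atTop l)
    (hb : Tendsto b atTop l) : Tendsto (fun k => if Even k then a (k / 2) else b (k / 2)) atTop l :=
  have h : Tendsto (fun k : ℕ => k / 2) atTop atTop := Nat.tendsto_div_const_atTop two_ne_zero
  (ha.comp h).if' (hb.comp h)

lemma Adm.interlace {M' : ℕ → Mdl} (A : Adm M m1 lam m3) (A' : Adm M' m1 lam m3) :
    Adm (fun k => if Even k then M (k / 2) else M' (k / 2)) m1 lam m3 := by
  have key : ∀ {α : Type} (φ : Mdl → α) {l : Filter α}, Tendsto (fun k => φ (M k)) atTop l →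
      Tendsto (fun k => φ (M' k)) atTop l →
      Tendsto (fun k => φ (if Even k then M (k / 2) else M' (k / 2))) atTop l := by
    intro α φ l h h'
    refine (tendsto_interlace h h').congr fun k => ?_
    split_ifs <;> rfl
  have key2 : ∀ (p : Mdl → Prop), (∀ k, p (M k)) → (∀ k, p (M' k)) →
      ∀ k, p (if Even k then M (k / 2) else M' (k / 2)) := by
    intro p h h' k
    split_ifs
    · exact h _
    · exact h' _
  exact ⟨key2 (fun X => ∀ v, 0 ≤ X.w v) A.pos A'.pos, key2 (fun X => 0 < X.t) A.tpos A'.tpos,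
    key2 (fun X => (Fintype.card (Fin X.n) : ℝ) = X.t ^ 3) A.card A'.card,
    key (fun X => X.t) A.tinf A'.tinf, key (fun X => mom X.w X.t 1) A.h1 A'.h1,
    key (fun X => X.t * (mom X.w X.t 2 - 1)) A.h2 A'.h2, key (fun X => mom X.w X.t 3) A.h3 A'.h3,
    key (fun X => mom X.w X.t 4 / X.t) A.h4 A'.h4⟩

theorem exists_limit {m1 lam m3 : ℝ} (h1 : 0 < m1) (h3 : 0 < m3) {f : (ℕ → ℝ) → ℝ}
    (hf : Continuous f) (hu : UC f) {B : ℝ} (hB : ∀ x, |f x| ≤ B) :
    ∃ y, ∀ M, Adm M m1 lam m3 → Tendsto (fun k => Fw (M k) f) atTop (𝓝 y) := by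
  by_cases h : ∃ M0, Adm M0 m1 lam m3
  · obtain ⟨M0, A0⟩ := h
    obtain ⟨y, hy⟩ := A0.conv h1 h3 hf hu hB
    refine ⟨y, fun M A => ?_⟩
    obtain ⟨y', hy'⟩ := A.conv h1 h3 hf hu hB
    obtain ⟨z, hz⟩ := (A0.interlace A).conv h1 h3 hf hu hB
    have t1 : Tendsto (fun k : ℕ => 2 * k) atTop atTop :=
      tendsto_id.const_mul_atTop' (by norm_num)
    have t2 : Tendsto (fun k : ℕ => 2 * k + 1) atTop atTop := tendsto_add_atTop_nat 1 |>.comp t1
    have e1 : y = z := tendsto_nhds_unique hy ((hz.comp t1).congr fun k => by simp)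
    have e2 : y' = z := tendsto_nhds_unique hy' ((hz.comp t2).congr fun k => by
      have : (2 * k + 1) / 2 = k := by omega
      simp [this])
    rw [e1, ← e2]; exact hy'
  · exact ⟨0, fun M A => absurd ⟨M, A⟩ h⟩

end Pool.Agent.Work.MP_e39611_pr
end
end

-- merged part: Pool.Agent.Work.MP_e39611_pr.Weak
section
-- merged part: Pool.Agent.Work.MP_e39611_pr.Tilt
section
/-!
The tilted graph weights and their comparison with the rank one model.
-/

namespace Pool.Agent.Work.MP_e39611_pr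

open MeasureTheory Set Real Filter Topology
open scoped Classical

set_option linter.unusedSectionVars false

variable {V : Type} [Fintype V] [DecidableEq V]

/-- edges as a finite set -/
noncomputable def eF (G : SimpleGraph V) : Finset (Sym2 V) := Finset.univ.filter (· ∈ G.edgeSet)

@[simp] lemma mem_eF (G : SimpleGraph V) (e : Sym2 V) : e ∈ eF G ↔ e ∈ G.edgeSet := by simp [eF]

lemma card_eF (G : SimpleGraph V) : (eF G).card = G.edgeSet.ncard := by
  rw [← Set.ncard_coe_finset]; congr 1; ext; simp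

lemma prod_adj {R : Type} [CommMonoid R] (G : SimpleGraph V) (φ : V → V → R) :
    ∏ u, ∏ v, (if G.Adj u v then φ u v else 1) =
      ∏ e ∈ eF G, Sym2.lift ⟨fun u v => φ u v * φ v u, fun _ _ => mul_comm _ _⟩ e := by
  rw [← Finset.prod_product', ← Finset.prod_filter, ← Finset.prod_fiberwise_of_maps_to
    (t := eF G) (g := fun p : V × V => s(p.1, p.2)) (fun p hp => by simpa using hp)]
  refine Finset.prod_congr rfl fun e he => ?_
  induction e using Sym2.ind with
  | h a b =>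
    have hab : G.Adj a b := by simpa using he
    have : ((Finset.univ ×ˢ Finset.univ).filter (fun p : V × V => G.Adj p.1 p.2)).filter
        (fun p => s(p.1, p.2) = s(a, b)) = {(a, b), (b, a)} := by
      ext ⟨x, y⟩
      simp only [Finset.mem_filter, Finset.mem_product, Finset.mem_univ, true_and, Sym2.eq_iff,
        Finset.mem_insert, Finset.mem_singleton, Prod.mk.injEq]
      constructor
      · exact fun h => h.2
      · rintro (⟨rfl, rfl⟩ | ⟨rfl, rfl⟩)
        · exact ⟨hab, Or.inl ⟨rfl, rfl⟩⟩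
        · exact ⟨hab.symm, Or.inr ⟨rfl, rfl⟩⟩
    rw [this, Finset.prod_pair (by simp [hab.ne])]
    rfl

lemma sum_adj (G : SimpleGraph V) (φ : Sym2 V → ℝ) :
    ∑ u, ∑ v, (if G.Adj u v then φ s(u, v) else 0) = 2 * ∑ e ∈ eF G, φ e := by
  have := prod_adj (R := Multiplicative ℝ) G (fun u v => Multiplicative.ofAdd (φ s(u, v)))
  have h2 := congrArg Multiplicative.toAdd this
  simp only [toAdd_prod, apply_ite Multiplicative.toAdd, toAdd_ofAdd, toAdd_one] at h2
  rw [h2, Finset.mul_sum]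
  refine Finset.sum_congr rfl fun e _ => ?_
  induction e using Sym2.ind with
  | h a b => simp [Sym2.eq_swap (a := b), two_mul]

lemma sum_top (φ : Sym2 V → ℝ) :
    2 * ∑ e ∈ eF (⊤ : SimpleGraph V), φ e = ∑ u, ∑ v, φ s(u, v) - ∑ u, φ s(u, u) := by
  rw [← sum_adj, ← Finset.sum_sub_distrib]
  refine Finset.sum_congr rfl fun u _ => ?_
  rw [← Finset.sum_erase_eq_sub (Finset.mem_univ u), ← Finset.add_sum_erase _ _ (Finset.mem_univ u),
    if_neg (by simp), zero_add]
  exact Finset.sum_congr rfl fun v hv => if_pos (by simpa [eq_comm] using hv)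

lemma sum_xe_pow (w : V → ℝ) (t : ℝ) (k : ℕ) :
    2 * ∑ e ∈ eF (⊤ : SimpleGraph V), xe w t e ^ k =
      ((∑ v, w v ^ k) ^ 2 - ∑ v, w v ^ (2 * k)) / (t ^ 3) ^ k := by
  rw [sum_top, sub_div, sq, Finset.sum_mul_sum, Finset.sum_div, Finset.sum_div]
  congr 1
  · refine Finset.sum_congr rfl fun u _ => ?_
    rw [Finset.sum_div]
    exact Finset.sum_congr rfl fun v _ => by rw [xe_mk, div_pow, mul_pow]
  · exact Finset.sum_congr rfl fun v _ => by rw [xe_mk, div_pow, mul_pow, two_mul, pow_add]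

lemma eF_subset (G : SimpleGraph V) : eF G ⊆ eF ⊤ := fun e he => by
  simp only [mem_eF] at he ⊢; exact SimpleGraph.edgeSet_mono le_top he

lemma eF_gr (w : V → ℝ) (t : ℝ) (U : Ix V → ℝ) :
    eF (gr w t U) = (eF ⊤).filter (fun e => U (Sum.inl e) < 1 - exp (-xe w t e)) := by
  ext e; simp [gr, and_comm]

/-- tilted weight of a graph -/
noncomputable def lamw (w : V → ℝ) (t : ℝ) (G : SimpleGraph V) : ℝ :=
  exp (-((∑ v, w v) ^ 2 / (2 * t ^ 3))) * ∏ e ∈ eF G, xe w t e

/-- ratio function -/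
noncomputable def rr (x : ℝ) : ℝ := if x = 0 then 1 else x * exp (-x) / (1 - exp (-x))

/-- density of the tilted weight -/
noncomputable def Dw (w : V → ℝ) (t : ℝ) (G : SimpleGraph V) : ℝ :=
  exp (-(mom w t 2 / 2)) * ∏ e ∈ eF G, rr (xe w t e)

lemma rr_mul {x : ℝ} (hx : 0 ≤ x) : (1 - exp (-x)) * rr x = x * exp (-x) := by
  unfold rr
  split_ifs with h
  · simp [h]
  · have : exp (-x) < 1 := by
      rw [← exp_zero]; exact exp_lt_exp.2 (neg_lt_zero.2 (lt_of_le_of_ne hx (Ne.symm h)))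
    have : 1 - exp (-x) ≠ 0 := by linarith
    field_simp

lemma rr_bounds {x : ℝ} (hx : 0 ≤ x) : 0 ≤ rr x ∧ rr x ≤ 1 ∧ 1 - rr x ≤ x := by
  rcases hx.eq_or_lt with rfl | h
  · simp [rr]
  have h1 : exp (-x) < 1 := by rw [← exp_zero]; exact exp_lt_exp.2 (neg_lt_zero.2 h)
  have h2 := rr_mul hx
  have h3 := exp_pos (-x)
  have h4 := add_one_le_exp x
  have h5 : exp (-x) * exp x = 1 := by rw [← exp_add]; simp
  have h6 := one_sub_exp_le x
  have p : 0 < 1 - exp (-x) := by linarith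
  refine ⟨?_, ?_, ?_⟩
  · by_contra hc
    have := mul_pos p (neg_pos.2 (not_le.1 hc))
    linarith only [h2, this, hx, h3, mul_nonneg_of_nonpos_of_nonpos (Mathlib.Tactic.Linarith.sub_nonpos_of_le hx) (le_of_lt (Mathlib.Tactic.Linarith.sub_neg_of_lt h3))]
  · refine le_of_mul_le_mul_left ?_ p
    linarith only [h2, h5, h3, h4, mul_nonneg_of_nonpos_of_nonpos (le_of_lt (Mathlib.Tactic.Linarith.sub_neg_of_lt h3)) (Mathlib.Tactic.Linarith.sub_nonpos_of_le h4)]
  · refine le_of_mul_le_mul_left ?_ p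
    linarith only [h2, h6]

lemma rr_mean {x : ℝ} (hx : 0 ≤ x) : |(1 - rr x) * (1 - exp (-x)) - x ^ 2 / 2| ≤ 2 * x ^ 3 := by
  have h1 := rr_mul hx
  have h2 := abs_le.1 (one_sub_exp_third hx)
  have h3 := mul_le_mul_of_nonneg_left (one_sub_exp_le x) hx
  have h4 := mul_le_mul_of_nonneg_left (one_sub_exp_ge hx) hx
  rw [abs_le]; constructor <;> linarith only [h1, h2, h4, h3]

lemma Pr_gr {w : V → ℝ} (hw : ∀ v, 0 ≤ w v) {t : ℝ} (ht : 0 < t) (G : SimpleGraph V) :
    Pr (PP (Ix V)) (fun U => gr w t U = G) =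
      ∏ e ∈ eF ⊤, if e ∈ eF G then 1 - exp (-xe w t e) else exp (-xe w t e) := by
  have := Pr_forall_coord (eF (⊤ : SimpleGraph V)) (Sum.inl : Sym2 V → Ix V)
    Sum.inl_injective.injOn
    (fun e => if e ∈ eF G then Iio (1 - exp (-xe w t e)) else Ici (1 - exp (-xe w t e)))
    (fun e => by split_ifs; exacts [measurableSet_Iio, measurableSet_Ici])
  rw [show (∏ e ∈ eF ⊤, if e ∈ eF G then 1 - exp (-xe w t e) else exp (-xe w t e)) =
    ∏ e ∈ eF (⊤ : SimpleGraph V), unif.real (if e ∈ eF G then Iio (1 - exp (-xe w t e)) else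
      Ici (1 - exp (-xe w t e))) from Finset.prod_congr rfl fun e _ => by
    have a := one_sub_exp_nonneg (xe_nonneg hw ht e)
    have b := one_sub_exp_le_one (xe w t e)
    split_ifs
    · rw [unif_Iio a b]
    · rw [unif_Ici a b]; ring, ← this]
  refine Pr_congr _ fun U => ?_
  have : gr w t U = G ↔ eF (gr w t U) = eF G := by
    refine ⟨fun h => by rw [h], fun h => SimpleGraph.edgeSet_injective ?_⟩
    ext e; rw [← mem_eF, h, mem_eF]
  rw [this, eF_gr]
  constructor
  · intro h e he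
    split_ifs with h1
    · rw [← h] at h1; exact (Finset.mem_filter.1 h1).2
    · rw [← h] at h1
      exact not_lt.1 fun hc => h1 (Finset.mem_filter.2 ⟨he, hc⟩)
  · intro h
    ext e
    rw [Finset.mem_filter]
    constructor
    · rintro ⟨h1, h2⟩
      by_contra hc
      have := h e h1
      rw [if_neg hc] at this
      exact absurd h2 (not_lt.2 this)
    · intro h1
      have := h e (eF_subset G h1)
      rw [if_pos h1] at this
      exact ⟨eF_subset G h1, this⟩

lemma lamw_eq {w : V → ℝ} (hw : ∀ v, 0 ≤ w v) {t : ℝ} (ht : 0 < t) (G : SimpleGraph V) :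
    lamw w t G = Pr (PP (Ix V)) (fun U => gr w t U = G) * Dw w t G := by
  have h1 := sum_xe_pow w t 1
  simp only [pow_one, mul_one] at h1
  have h2 : ∏ e ∈ eF G, rr (xe w t e) =
      ∏ e ∈ eF (⊤ : SimpleGraph V), if e ∈ eF G then rr (xe w t e) else 1 := by
    rw [← Finset.prod_filter]; congr 1; ext e
    simp only [Finset.mem_filter]
    exact ⟨fun h => ⟨eF_subset G h, h⟩, fun h => h.2⟩
  have h3 : ∏ e ∈ eF G, xe w t e =
      ∏ e ∈ eF (⊤ : SimpleGraph V), if e ∈ eF G then xe w t e else 1 := by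
    rw [← Finset.prod_filter]; congr 1; ext e
    simp only [Finset.mem_filter]
    exact ⟨fun h => ⟨eF_subset G h, h⟩, fun h => h.2⟩
  have h4 : -((∑ v, w v) ^ 2 / (2 * t ^ 3)) =
      -(mom w t 2 / 2) + ∑ e ∈ eF (⊤ : SimpleGraph V), -xe w t e := by
    rw [Finset.sum_neg_distrib, mom]
    have : ∑ e ∈ eF (⊤ : SimpleGraph V), xe w t e = ((∑ v, w v) ^ 2 - ∑ v, w v ^ 2) / t ^ 3 / 2 := by
      linarith only [h1]
    rw [this]; field_simp; ring
  rw [Pr_gr hw ht, lamw, Dw, h2, h3, h4, exp_add, exp_sum, mul_left_comm, mul_assoc,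
    ← Finset.prod_mul_distrib, ← Finset.prod_mul_distrib]
  congr 1
  refine Finset.prod_congr rfl fun e _ => ?_
  split_ifs
  · rw [rr_mul (xe_nonneg hw ht e)]; ring
  · rfl

lemma Dw_bounds {w : V → ℝ} (hw : ∀ v, 0 ≤ w v) {t : ℝ} (ht : 0 < t) (G : SimpleGraph V) :
    0 ≤ Dw w t G ∧ Dw w t G ≤ 1 := by
  have a := Finset.prod_nonneg (s := eF G) fun e _ => (rr_bounds (xe_nonneg hw ht e)).1
  have b := Finset.prod_le_one (s := eF G) (fun e _ => (rr_bounds (xe_nonneg hw ht e)).1)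
    fun e _ => (rr_bounds (xe_nonneg hw ht e)).2.1
  have c : exp (-(mom w t 2 / 2)) ≤ 1 := exp_le_one_iff.2 (by linarith only [hw, ht, mom_nonneg hw ht 2])
  exact ⟨mul_nonneg (exp_pos _).le a, mul_le_one₀ c a b⟩

lemma sum_lamw {w : V → ℝ} (hw : ∀ v, 0 ≤ w v) {t : ℝ} (ht : 0 < t) (φ : SimpleGraph V → ℝ) :
    ∑ G, lamw w t G * φ G = ∫ U, Dw w t (gr w t U) * φ (gr w t U) ∂(PP (Ix V)) := by
  rw [integral_comp_eq_sum _ (sm_gr w t) Finset.univ (fun _ => Finset.mem_univ _)
    (fun G => Dw w t G * φ G)]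
  exact Finset.sum_congr rfl fun G _ => by rw [lamw_eq hw ht, mul_assoc]

lemma lamw_nonneg {w : V → ℝ} (hw : ∀ v, 0 ≤ w v) {t : ℝ} (ht : 0 < t) (G : SimpleGraph V) :
    0 ≤ lamw w t G := mul_nonneg (exp_pos _).le (Finset.prod_nonneg fun e _ => xe_nonneg hw ht e)

lemma sum_lamw_ind_le {w : V → ℝ} (hw : ∀ v, 0 ≤ w v) {t : ℝ} (ht : 0 < t)
    (p : SimpleGraph V → Prop) :
    ∑ G, lamw w t G * ind (p G) ≤ Pr (PP (Ix V)) (fun U => p (gr w t U)) := by
  rw [sum_lamw hw ht, ← integral_ind _ ((sm_gr w t).comp p)]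
  refine integral_mono (((sm_gr w t).comp (fun G => Dw w t G * ind (p G))).integrable _)
    (((sm_gr w t).comp (fun G => ind (p G))).integrable _) fun U => ?_
  exact mul_le_of_le_one_left (ind_nonneg _) (Dw_bounds hw ht _).2

lemma sum_lamw_le_one {w : V → ℝ} (hw : ∀ v, 0 ≤ w v) {t : ℝ} (ht : 0 < t) :
    ∑ G, lamw w t G ≤ 1 := by
  have := (sum_lamw_ind_le hw ht (fun _ => True)).trans (Pr_le_one _ _)
  simpa [ind] using this

lemma sum_eF_gr (w : V → ℝ) (t : ℝ) (U : Ix V → ℝ) (c : Sym2 V → ℝ) :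
    ∑ e ∈ eF (gr w t U), c e =
      ∑ e ∈ eF ⊤, c e * ind (U (Sum.inl e) ∈ Iio (1 - exp (-xe w t e))) := by
  rw [eF_gr, Finset.sum_filter]
  refine Finset.sum_congr rfl fun e _ => ?_
  split_ifs with h
  · rw [ind_pos (show _ ∈ Iio _ from h), mul_one]
  · rw [ind_neg (show ¬ _ ∈ Iio _ from h), mul_zero]

lemma cheb_edges {w : V → ℝ} (hw : ∀ v, 0 ≤ w v) {t : ℝ} (ht : 0 < t) (c : Sym2 V → ℝ) {η : ℝ}
    (hη : 0 < η) : Pr (PP (Ix V)) (fun U => η ≤ |∑ e ∈ eF (gr w t U), c e -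
      ∑ e ∈ eF ⊤, c e * (1 - exp (-xe w t e))|) ≤ (∑ e ∈ eF ⊤, c e ^ 2 * xe w t e) / η ^ 2 := by
  have := cheb (eF (⊤ : SimpleGraph V)) (Sum.inl : Sym2 V → Ix V) Sum.inl_injective.injOn
    (fun e => Iio (1 - exp (-xe w t e))) (fun _ => measurableSet_Iio) c
    (fun e => 1 - exp (-xe w t e))
    (fun e _ => unif_Iio (one_sub_exp_nonneg (xe_nonneg hw ht e)) (one_sub_exp_le_one _)) hη
  refine le_trans (le_of_eq (Pr_congr _ fun U => ?_)) (this.trans ?_)
  · rw [sum_eF_gr, ← Finset.sum_sub_distrib]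
    simp only [← mul_sub]
  · gcongr
    exact one_sub_exp_le _

lemma edges_conc {w : V → ℝ} (hw : ∀ v, 0 ≤ w v) {t : ℝ} (ht : 0 < t) {κ : ℝ} (hκ : 0 < κ) :
    ∑ G, lamw w t G * ind (κ + (mom w t 2 + mom w t 2 ^ 2) ≤
      |(G.edgeSet.ncard : ℝ) - t ^ 3 * mom w t 1 ^ 2 / 2|) ≤ t ^ 3 * mom w t 1 ^ 2 / κ ^ 2 := by
  have h1 := sum_xe_pow w t 1
  have h2 := sum_xe_pow w t 2
  have e1 : 2 * ∑ e ∈ eF (⊤ : SimpleGraph V), xe w t e = t ^ 3 * mom w t 1 ^ 2 - mom w t 2 := by
    simp only [pow_one, mul_one] at h1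
    rw [h1, mom, mom]; simp only [pow_one]; field_simp
  have e2 : 2 * ∑ e ∈ eF (⊤ : SimpleGraph V), xe w t e ^ 2 ≤ mom w t 2 ^ 2 := by
    rw [h2, mom, div_pow]
    gcongr
    exact sub_le_self _ (Finset.sum_nonneg fun v _ => pow_nonneg (hw v) _)
  have m2 := mom_nonneg hw ht 2
  refine (sum_lamw_ind_le hw ht _).trans (le_trans (Pr_mono _ fun U hU => ?_)
    ((cheb_edges hw ht (fun _ => 1) hκ).trans ?_))
  · simp only [Finset.sum_const, nsmul_eq_mul, mul_one, one_mul, card_eF]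
    have a1 : ∑ e ∈ eF (⊤ : SimpleGraph V), (1 - exp (-xe w t e)) ≤ ∑ e ∈ eF ⊤, xe w t e :=
      Finset.sum_le_sum fun e _ => one_sub_exp_le _
    have a2 : ∑ e ∈ eF (⊤ : SimpleGraph V), (xe w t e - xe w t e ^ 2) ≤
        ∑ e ∈ eF ⊤, (1 - exp (-xe w t e)) :=
      Finset.sum_le_sum fun e _ => one_sub_exp_ge (xe_nonneg hw ht e)
    rw [Finset.sum_sub_distrib] at a2
    have := sq_nonneg (mom w t 2)
    rw [le_abs] at hU ⊢
    rcases hU with hU | hU
    · left; linarith only [e1, e2, m2, a1, a2, hU]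
    · right; linarith only [e1, e2, m2, a1, a2, hU]
  · simp only [one_pow, one_mul]
    gcongr
    have := Finset.sum_nonneg (s := eF (⊤ : SimpleGraph V)) fun e _ => xe_nonneg hw ht e
    linarith only [e1, m2, this]

lemma abs_exp_sub_le {x y : ℝ} (hx : 0 ≤ x) (hy : 0 ≤ y) : |exp (-x) - exp (-y)| ≤ |x - y| := by
  rcases le_total x y with h | h
  · rw [abs_of_nonneg (sub_nonneg.2 (exp_le_exp.2 (neg_le_neg h))), abs_sub_comm,
      abs_of_nonneg (sub_nonneg.2 h)]
    exact exp_sub_exp_le hx h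
  · rw [abs_sub_comm, abs_of_nonneg (sub_nonneg.2 (exp_le_exp.2 (neg_le_neg h))),
      abs_of_nonneg (sub_nonneg.2 h)]
    exact exp_sub_exp_le hy h

lemma prod_sub_exp {κ : Type} (s : Finset κ) (a : κ → ℝ) (h0 : ∀ k, 0 ≤ a k) (h1 : ∀ k, a k ≤ 1) :
    |∏ k ∈ s, (1 - a k) - exp (-∑ k ∈ s, a k)| ≤ ∑ k ∈ s, a k ^ 2 := by
  have := norm_prod_sub_le s (fun k => ((1 - a k : ℝ) : ℂ)) (fun k => (exp (-a k) : ℝ))
    (fun k _ => by
      rw [Complex.norm_real, Real.norm_eq_abs, abs_le]; constructor <;> linarith only [h1, h0, h0 k, h1 k])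
    (fun k _ => by
      rw [Complex.norm_real, Real.norm_eq_abs, abs_of_pos (exp_pos _), exp_le_one_iff]
      linarith [h0 k])
  rw [← Complex.ofReal_prod, ← Complex.ofReal_prod, ← Complex.ofReal_sub, Complex.norm_real,
    Real.norm_eq_abs, ← exp_sum, Finset.sum_neg_distrib] at this
  refine this.trans (Finset.sum_le_sum fun k _ => ?_)
  rw [← Complex.ofReal_sub, Complex.norm_real, Real.norm_eq_abs, abs_le]
  have := one_sub_exp_le (a k)
  have := one_sub_exp_ge (h0 k)
  have := sq_nonneg (a k)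
  constructor <;> linarith

lemma Dw_conc {w : V → ℝ} (hw : ∀ v, 0 ≤ w v) {t : ℝ} (ht : 0 < t) {η : ℝ} (hη : 0 < η) :
    Pr (PP (Ix V)) (fun U => ¬ |Dw w t (gr w t U) - exp (-(3 / 4))| ≤
      2 * η + |mom w t 2 - 1| + |mom w t 2 ^ 2 - mom w t 4 / t ^ 3 - 1| +
        2 * (mom w t 3 ^ 2 / t ^ 3)) ≤ 2 * (mom w t 3 ^ 2 / t ^ 3) / η ^ 2 := by
  have x0 := xe_nonneg hw ht
  have rb := fun e => rr_bounds (x0 e)
  have e2 : 2 * ∑ e ∈ eF (⊤ : SimpleGraph V), xe w t e ^ 2 =
      mom w t 2 ^ 2 - mom w t 4 / t ^ 3 := by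
    rw [sum_xe_pow w t 2, mom, mom]; field_simp
  have e3 : 2 * ∑ e ∈ eF (⊤ : SimpleGraph V), xe w t e ^ 3 ≤ mom w t 3 ^ 2 / t ^ 3 := by
    rw [sum_xe_pow w t 3, mom, div_pow, div_div, ← pow_succ]
    gcongr
    exact sub_le_self _ (Finset.sum_nonneg fun v _ => pow_nonneg (hw v) _)
  have p3 : 0 ≤ ∑ e ∈ eF (⊤ : SimpleGraph V), xe w t e ^ 3 :=
    Finset.sum_nonneg fun e _ => pow_nonneg (x0 e) _
  have b1 := cheb_edges hw ht (fun e => 1 - rr (xe w t e)) hη
  have b2 := cheb_edges hw ht (fun e => (1 - rr (xe w t e)) ^ 2) hη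
  have c1 : ∑ e ∈ eF (⊤ : SimpleGraph V), (1 - rr (xe w t e)) ^ 2 * xe w t e ≤
      ∑ e ∈ eF ⊤, xe w t e ^ 3 := Finset.sum_le_sum fun e _ => by
    rw [pow_succ (xe w t e) 2]
    exact mul_le_mul_of_nonneg_right (pow_le_pow_left₀ (by linarith only [rb, (rb e).2.1]) (rb e).2.2 2)
      (x0 e)
  have c2 : ∑ e ∈ eF (⊤ : SimpleGraph V), ((1 - rr (xe w t e)) ^ 2) ^ 2 * xe w t e ≤
      ∑ e ∈ eF ⊤, (1 - rr (xe w t e)) ^ 2 * xe w t e := Finset.sum_le_sum fun e _ => by
    refine mul_le_mul_of_nonneg_right (pow_le_of_le_one (sq_nonneg _) ?_ two_ne_zero) (x0 e)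
    exact pow_le_one₀ (by linarith only [rb, (rb e).2.1]) (by linarith only [rb, (rb e).1])
  have c3 : ∑ e ∈ eF (⊤ : SimpleGraph V), (1 - rr (xe w t e)) ^ 2 * (1 - exp (-xe w t e)) ≤
      ∑ e ∈ eF ⊤, (1 - rr (xe w t e)) ^ 2 * xe w t e := Finset.sum_le_sum fun e _ =>
    mul_le_mul_of_nonneg_left (one_sub_exp_le _) (sq_nonneg _)
  have c4 : |∑ e ∈ eF (⊤ : SimpleGraph V), (1 - rr (xe w t e)) * (1 - exp (-xe w t e)) -
      (∑ e ∈ eF ⊤, xe w t e ^ 2) / 2| ≤ 2 * ∑ e ∈ eF ⊤, xe w t e ^ 3 := by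
    rw [Finset.sum_div, ← Finset.sum_sub_distrib, Finset.mul_sum]
    exact (Finset.abs_sum_le_sum_abs _ _).trans (Finset.sum_le_sum fun e _ => rr_mean (x0 e))
  refine le_trans (Pr_mono _ fun U hU => ?_) ((Pr_or_le _ _ _).trans ((add_le_add b1 b2).trans ?_))
  · by_contra hc
    rw [not_or, not_le, not_le] at hc
    apply hU
    set Y := ∑ e ∈ eF (gr w t U), (1 - rr (xe w t e)) with hY
    have Y0 : 0 ≤ Y := Finset.sum_nonneg fun e _ => by linarith only [rb, (rb e).2.1]
    have d1 := prod_sub_exp (eF (gr w t U)) (fun e => 1 - rr (xe w t e))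
      (fun e => by linarith only [rb, (rb e).2.1]) (fun e => by linarith only [rb, (rb e).1])
    simp only [sub_sub_cancel] at d1
    rw [← hY] at d1
    have d2 := abs_exp_sub_le Y0 (y := 1 / 4) (by norm_num)
    have d3 := abs_exp_sub_le (x := mom w t 2 / 2) (y := 1 / 2)
      (by linarith only [hw, ht, mom_nonneg hw ht 2]) (by norm_num)
    set Q := ∏ e ∈ eF (gr w t U), rr (xe w t e)
    have Q0 : 0 ≤ Q := Finset.prod_nonneg fun e _ => (rb e).1
    have Q1 : Q ≤ 1 := Finset.prod_le_one (fun e _ => (rb e).1) fun e _ => (rb e).2.1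
    have d4 : Dw w t (gr w t U) - exp (-(3 / 4)) = (exp (-(mom w t 2 / 2)) - exp (-(1 / 2))) * Q +
        exp (-(1 / 2)) * (Q - exp (-(1 / 4))) := by
      rw [show (-(3 / 4) : ℝ) = -(1 / 2) + -(1 / 4) by norm_num, exp_add, Dw]; ring
    have d5 : |Dw w t (gr w t U) - exp (-(3 / 4))| ≤ |exp (-(mom w t 2 / 2)) - exp (-(1 / 2))| +
        |Q - exp (-(1 / 4))| := by
      rw [d4]
      refine (abs_add_le _ _).trans (add_le_add ?_ ?_)
      · rw [abs_mul, abs_of_nonneg Q0]; exact mul_le_of_le_one_right (abs_nonneg _) Q1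
      · rw [abs_mul, abs_of_pos (exp_pos _)]
        exact mul_le_of_le_one_left (abs_nonneg _) (exp_le_one_iff.2 (by norm_num))
    have d6 := abs_sub_le Q (exp (-Y)) (exp (-(1 / 4)))
    have d7 : |mom w t 2 / 2 - 1 / 2| ≤ |mom w t 2 - 1| := by
      rw [← sub_div, abs_div, abs_two]; linarith only [abs_nonneg (mom w t 2 - 1)]
    have d8 : |Y - 1 / 4| ≤ η + 2 * ∑ e ∈ eF ⊤, xe w t e ^ 3 +
        |mom w t 2 ^ 2 - mom w t 4 / t ^ 3 - 1| := by
      have f1 := abs_lt.1 hc.1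
      have f2 := abs_le.1 c4
      have f3 := le_abs_self (mom w t 2 ^ 2 - mom w t 4 / t ^ 3 - 1)
      have f4 := neg_abs_le (mom w t 2 ^ 2 - mom w t 4 / t ^ 3 - 1)
      have f5 := abs_nonneg (mom w t 2 ^ 2 - mom w t 4 / t ^ 3 - 1)
      rw [abs_le]; constructor <;> linarith only [e2, f1, f2, f3, f4]
    have d9 := (abs_lt.1 hc.2).2
    linarith only [e3, p3, c1, c3, hU, d2, d3, d1, d5, d6, d7, d8, d9]
  · rw [← add_div]
    gcongr
    linarith only [e3, p3, c1, c2]

variable {M : ℕ → Mdl} {m1 lam m3 : ℝ}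

lemma Adm.tilt (A : Adm M m1 lam m3) (φ : ∀ k, SimpleGraph (Fin (M k).n) → ℝ) {B : ℝ}
    (hB : ∀ k G, |φ k G| ≤ B) :
    Tendsto (fun k => ∑ G, lamw (M k).w (M k).t G * φ k G -
      exp (-(3 / 4)) * ∫ U, φ k (gr (M k).w (M k).t U) ∂(PP (Ix (Fin (M k).n)))) atTop (𝓝 0) := by
  have B0 : 0 ≤ B := (abs_nonneg _).trans (hB 0 ⊥)
  have t3 : Tendsto (fun k => mom (M k).w (M k).t 3 ^ 2 / (M k).t ^ 3) atTop (𝓝 0) := by
    simpa [div_eq_mul_inv] using (A.h3.pow 2).mul (A.inv.pow 3)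
  have t4 : Tendsto (fun k => mom (M k).w (M k).t 4 / (M k).t ^ 3) atTop (𝓝 0) := by
    have := A.h4.mul (A.inv.pow 2)
    rw [zero_mul] at this
    refine this.congr fun k => ?_
    have := A.tpos k
    field_simp
  rw [Metric.tendsto_nhds]
  intro ε hε
  set η := ε / 6 / (B + 1) with hη
  have η0 : 0 < η := by positivity
  have a1 : Tendsto (fun k => 2 * η + |mom (M k).w (M k).t 2 - 1| +
      |mom (M k).w (M k).t 2 ^ 2 - mom (M k).w (M k).t 4 / (M k).t ^ 3 - 1| +
        2 * (mom (M k).w (M k).t 3 ^ 2 / (M k).t ^ 3)) atTop (𝓝 (2 * η)) := by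
    have := (((A.h2'.sub_const 1).abs.const_add (2 * η)).add
      (((A.h2'.pow 2).sub t4).sub_const 1).abs).add (t3.const_mul 2)
    simpa using this
  have a2 : Tendsto (fun k => 2 * (mom (M k).w (M k).t 3 ^ 2 / (M k).t ^ 3) / η ^ 2) atTop
      (𝓝 0) := by simpa using (t3.const_mul 2).div_const (η ^ 2)
  filter_upwards [ev_le_of_tendsto a1 (z := 3 * η) (by linarith), ev_le_of_tendsto a2 η0]
    with k e1 e2
  rw [Real.dist_eq, sub_zero, sum_lamw (A.pos k) (A.tpos k), ← integral_const_mul]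
  have := integral_close (PP (Ix (Fin (M k).n)))
    ((sm_gr (M k).w (M k).t).comp (fun G => Dw (M k).w (M k).t G * φ k G))
    ((sm_gr (M k).w (M k).t).comp (fun G => exp (-(3 / 4)) * φ k G)) (ε := 3 * η * B) (B := B)
    (by positivity) (fun U => by
      have := Dw_bounds (A.pos k) (A.tpos k) (gr (M k).w (M k).t U)
      rw [abs_mul, abs_of_nonneg this.1]
      exact (mul_le_of_le_one_left (abs_nonneg _) this.2).trans (hB _ _))
    (fun U => by
      rw [abs_mul, abs_of_pos (exp_pos _)]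
      exact (mul_le_of_le_one_left (abs_nonneg _) (exp_le_one_iff.2 (by norm_num))).trans (hB _ _))
    (p := fun U => ¬ |Dw (M k).w (M k).t (gr (M k).w (M k).t U) - exp (-(3 / 4))| ≤
      2 * η + |mom (M k).w (M k).t 2 - 1| +
        |mom (M k).w (M k).t 2 ^ 2 - mom (M k).w (M k).t 4 / (M k).t ^ 3 - 1| +
        2 * (mom (M k).w (M k).t 3 ^ 2 / (M k).t ^ 3))
    (fun U hU => by
      rw [← sub_mul, abs_mul]
      exact mul_le_mul (le_trans (not_not.1 hU) e1) (hB _ _) (abs_nonneg _) (by positivity))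
  have c := mul_le_mul_of_nonneg_left ((Dw_conc (A.pos k) (A.tpos k) η0).trans e2)
    (by positivity : 0 ≤ 2 * B)
  have c3 : ε = 6 * η * (B + 1) := by rw [hη]; field_simp
  have := mul_nonneg η0.le B0
  nlinarith

end Pool.Agent.Work.MP_e39611_pr
end

-- merged part: Pool.Agent.Work.MP_e39611_pr.Rise
section
/-!
Rising factorials, degrees and the graph weight `a(G)`.
-/

namespace Pool.Agent.Work.MP_e39611_pr

open Set Real
open scoped Classical

set_option linter.unusedSectionVars false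

/-- rising factorial -/
noncomputable def rf (y : ℝ) (N : ℕ) : ℝ := ∏ i ∈ Finset.range N, (y + i)

@[simp] lemma rf_zero (y : ℝ) : rf y 0 = 1 := by simp [rf]

lemma rf_succ (y : ℝ) (N : ℕ) : rf y (N + 1) = rf y N * (y + N) := Finset.prod_range_succ _ _

lemma rf_add (y : ℝ) (a b : ℕ) : rf y (a + b) = rf y a * rf (y + a) b := by
  rw [rf, Finset.prod_range_add]
  congr 1
  exact Finset.prod_congr rfl fun i _ => by push_cast; ring

lemma rf_pos {y : ℝ} (hy : 0 < y) (N : ℕ) : 0 < rf y N :=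
  Finset.prod_pos fun i _ => by positivity

lemma rf_mono {x y : ℝ} (hx : 0 ≤ x) (h : x ≤ y) (N : ℕ) : rf x N ≤ rf y N :=
  Finset.prod_le_prod (fun i _ => by positivity) fun i _ => by linarith

lemma rf_le {y : ℝ} (hy : 0 ≤ y) {N K : ℕ} (h : N ≤ K) : rf y N ≤ (y + K) ^ N := by
  refine (Finset.prod_le_prod (fun i _ => by positivity) fun i hi => ?_).trans
    (le_of_eq (by rw [Finset.prod_const, Finset.card_range]))
  have : (i : ℝ) ≤ K := by exact_mod_cast ((Finset.mem_range.1 hi).le.trans h)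
  linarith only [this]

lemma le_rf {y : ℝ} (hy : 0 ≤ y) (N : ℕ) : y ^ N ≤ rf y N := by
  refine le_trans (le_of_eq (by rw [Finset.prod_const, Finset.card_range]))
    (Finset.prod_le_prod (s := Finset.range N) (f := fun _ => y) (fun i _ => hy) fun i _ => ?_)
  have : (0 : ℝ) ≤ i := Nat.cast_nonneg i
  linarith

lemma rf_two (y : ℝ) : rf y 2 = y * (y + 1) := by simp [rf, Finset.prod_range_succ]

variable {V : Type} [Fintype V] [DecidableEq V]

/-- degree -/
noncomputable def dg (G : SimpleGraph V) (v : V) : ℕ := (G.neighborSet v).ncard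

/-- product of rising factorials -/
noncomputable def Aw (α : ℝ) (k : V → ℕ) : ℝ := ∏ v, rf α (k v)

lemma Aw_pos {α : ℝ} (hα : 0 < α) (k : V → ℕ) : 0 < Aw α k := Finset.prod_pos fun _ _ => rf_pos hα _

lemma dg_eq (G : SimpleGraph V) (u : V) :
    dg G u = (Finset.univ.filter (fun v => G.Adj u v)).card := by
  rw [dg, ← Set.ncard_coe_finset]; congr 1; ext; simp

lemma prod_deg {R : Type} [CommMonoid R] (G : SimpleGraph V) (u : V) (c : R) :
    ∏ v, (if G.Adj u v then c else 1) = c ^ dg G u := by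
  rw [← Finset.prod_filter, Finset.prod_const, dg_eq]

lemma sum_deg (G : SimpleGraph V) (u : V) (c : ℝ) :
    ∑ v, (if G.Adj u v then c else 0) = dg G u * c := by
  rw [← Finset.sum_filter, Finset.sum_const, dg_eq, nsmul_eq_mul]

lemma sum_dg (G : SimpleGraph V) : ∑ u, dg G u = 2 * G.edgeSet.ncard := by
  have := sum_adj G (fun _ => 1)
  simp only [sum_deg, mul_one, Finset.sum_const, nsmul_eq_mul, card_eF] at this
  exact_mod_cast this

lemma prod_xe (w : V → ℝ) (t : ℝ) (G : SimpleGraph V) :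
    ∏ e ∈ eF G, xe w t e = (∏ v, w v ^ dg G v) / (t ^ 3) ^ G.edgeSet.ncard := by
  have := prod_adj G (fun u _ => w u)
  simp only [prod_deg] at this
  rw [this, ← card_eF, ← Finset.prod_const, ← Finset.prod_div_distrib]
  refine Finset.prod_congr rfl fun e _ => ?_
  induction e using Sym2.ind with
  | h a b => simp

end Pool.Agent.Work.MP_e39611_pr
end

-- merged part: Pool.Agent.Work.MP_e39611_pr.Edge
section
/-!
Adding one edge: double counting, and monotonicity in the number of edges.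
-/

namespace Pool.Agent.Work.MP_e39611_pr

open Set Real SimpleGraph
open scoped Classical

set_option linter.unusedSectionVars false

variable {V : Type} [Fintype V] [DecidableEq V]

lemma ite_ind (p : Prop) [Decidable p] (x : ℝ) : (if p then x else 0) = ind p * x := by
  split_ifs with h
  · rw [ind_pos h, one_mul]
  · rw [ind_neg h, zero_mul]

lemma ind_and (p q : Prop) : ind (p ∧ q) = ind p * ind q := by
  by_cases h : p <;> by_cases h' : q <;> simp [ind, h, h']

lemma sum_ind_eq {κ : Type} [Fintype κ] (a : κ) (φ : κ → ℝ) : ∑ x, ind (x = a) * φ x = φ a := by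
  rw [Finset.sum_eq_single a (fun b _ hb => by rw [ind_neg hb, zero_mul]) (by simp), ind_pos rfl,
    one_mul]

lemma ind_mul_congr {p : Prop} {x y : ℝ} (h : p → x = y) : ind p * x = ind p * y := by
  by_cases hp : p
  · rw [h hp]
  · rw [ind_neg hp, zero_mul, zero_mul]

lemma ind_mul_le {p : Prop} {x y : ℝ} (h : p → x ≤ y) : ind p * x ≤ ind p * y := by
  by_cases hp : p
  · exact mul_le_mul_of_nonneg_left (h hp) (ind_nonneg _)
  · rw [ind_neg hp, zero_mul, zero_mul]

/-- distinct and non-adjacent -/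
def NA (G : SimpleGraph V) (u v : V) : Prop := u ≠ v ∧ ¬ G.Adj u v

lemma ind_NA (G : SimpleGraph V) (u v : V) : ind (NA G u v) = 1 - ind (v = u) - ind (G.Adj u v) := by
  by_cases h : v = u
  · subst h; simp [ind, NA]
  · by_cases h' : G.Adj u v <;> simp [ind, NA, h, h', Ne.symm h]

lemma sum_adj_sup {G : SimpleGraph V} {u v : V} (h : NA G u v) (φ : V → V → ℝ) :
    ∑ x, ∑ y, ind ((G ⊔ edge u v).Adj x y) * φ x y =
      ∑ x, ∑ y, ind (G.Adj x y) * φ x y + φ u v + φ v u := by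
  have e : ∀ x y, ind ((G ⊔ edge u v).Adj x y) =
      ind (G.Adj x y) + ind (x = u) * ind (y = v) + ind (x = v) * ind (y = u) := by
    intro x y
    have h1 := h.1
    have h2 := h.2
    have h3 : ¬ G.Adj v u := fun a => h2 a.symm
    simp only [ind, sup_adj, edge_adj]
    by_cases a : x = u ∧ y = v
    · obtain ⟨rfl, rfl⟩ := a; simp [h1, h2]
    · by_cases b : x = v ∧ y = u
      · obtain ⟨rfl, rfl⟩ := b; simp [h1, h3, h1.symm]
      · simp only [a, b, or_self, false_and, or_false]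
        rw [not_and_or] at a b
        rcases a with a | a <;> rcases b with b | b <;> simp [a, b]
  simp only [e, add_mul, Finset.sum_add_distrib, mul_assoc, ← Finset.mul_sum, sum_ind_eq]

lemma sum_ind_adj (G : SimpleGraph V) (u : V) : ∑ v, ind (G.Adj u v) = dg G u := by
  have := sum_deg G u 1
  simpa only [ite_ind, mul_one] using this

lemma sum_ind_adj₂ (G : SimpleGraph V) : ∑ u, ∑ v, ind (G.Adj u v) = 2 * G.edgeSet.ncard := by
  simp only [sum_ind_adj]; exact_mod_cast sum_dg G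

lemma sum_ind_NA (G : SimpleGraph V) : ∑ u, ∑ v, ind (NA G u v) =
    Fintype.card V * (Fintype.card V - 1) - 2 * G.edgeSet.ncard := by
  have : ∀ u : V, ∑ v, ind (v = u) = 1 := fun u => by simpa using sum_ind_eq u (fun _ => 1)
  simp only [ind_NA, Finset.sum_sub_distrib, sum_ind_adj₂, this, Finset.sum_const, nsmul_eq_mul,
    Finset.card_univ]
  ring

/-- degree increment of an ordered pair -/
def ee (p : V × V) : V → ℕ := Pi.single p.1 1 + Pi.single p.2 1

lemma dg_sup {G : SimpleGraph V} {u v : V} (h : NA G u v) :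
    dg (G ⊔ edge u v) = dg G + ee (u, v) := by
  ext z
  have := sum_adj_sup h (fun x _ => ind (x = z))
  simp only [← Finset.sum_mul, sum_ind_adj, mul_comm ((dg _ _ : ℕ) : ℝ), sum_ind_eq] at this
  have e : ∀ x : V, ((Pi.single x 1 : V → ℕ) z : ℝ) = ind (x = z) := fun x => by
    by_cases hx : x = z
    · subst hx; simp [ind]
    · simp [ind, hx, Ne.symm hx]
  apply Nat.cast_injective (R := ℝ)
  simp only [ee, Pi.add_apply, Nat.cast_add, e, this, add_assoc]

lemma card_sup {G : SimpleGraph V} {u v : V} (h : NA G u v) :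
    (G ⊔ edge u v).edgeSet.ncard = G.edgeSet.ncard + 1 := by
  have := sum_adj_sup h (fun _ _ => 1)
  simp only [mul_one, sum_ind_adj₂] at this
  apply Nat.cast_injective (R := ℝ)
  push_cast; linarith only [this]

lemma double_count (F : SimpleGraph V → V → V → ℝ) :
    ∑ G : SimpleGraph V, ∑ u, ∑ v, ind (NA G u v) * F (G ⊔ edge u v) u v =
      ∑ G : SimpleGraph V, ∑ u, ∑ v, ind (G.Adj u v) * F G u v := by
  rw [Finset.sum_comm, Finset.sum_comm (s := (Finset.univ : Finset (SimpleGraph V)))]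
  refine Finset.sum_congr rfl fun u _ => ?_
  rw [Finset.sum_comm, Finset.sum_comm (s := (Finset.univ : Finset (SimpleGraph V)))]
  refine Finset.sum_congr rfl fun v _ => ?_
  simp only [← ite_ind, ← Finset.sum_filter]
  refine Finset.sum_nbij' (fun G => G ⊔ edge u v) (fun G => G \ edge u v) ?_ ?_ ?_ ?_
    (fun _ _ => rfl)
  · intro G hG
    simp only [Finset.mem_filter, Finset.mem_univ, true_and] at hG ⊢
    exact Or.inr (by simp [edge_adj, hG.1])
  · intro G hG
    simp only [Finset.mem_filter, Finset.mem_univ, true_and] at hG ⊢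
    exact ⟨hG.ne, fun h => h.2 (by simp [edge_adj, hG.ne])⟩
  · intro G hG
    simp only [Finset.mem_filter, Finset.mem_univ, true_and] at hG
    ext x y
    simp only [sdiff_adj, sup_adj, edge_adj]
    refine ⟨fun h => h.1.resolve_right h.2, fun h => ⟨Or.inl h, ?_⟩⟩
    rintro ⟨⟨rfl, rfl⟩ | ⟨rfl, rfl⟩, _⟩
    · exact hG.2 h
    · exact hG.2 h.symm
  · intro G hG
    simp only [Finset.mem_filter, Finset.mem_univ, true_and] at hG
    ext x y
    simp only [sdiff_adj, sup_adj, edge_adj]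
    constructor
    · rintro (h | ⟨⟨rfl, rfl⟩ | ⟨rfl, rfl⟩, _⟩)
      · exact h.1
      · exact hG
      · exact hG.symm
    · intro h
      by_cases h' : (x = u ∧ y = v ∨ x = v ∧ y = u) ∧ x ≠ y
      · exact Or.inr h'
      · exact Or.inl ⟨h, h'⟩

lemma card_zero_iff (G : SimpleGraph V) : G.edgeSet.ncard = 0 ↔ G = ⊥ := by
  rw [Set.ncard_eq_zero (Set.toFinite _), edgeSet_eq_empty]

lemma vecL_mono {G G' : SimpleGraph V} (h : G ≤ G') (t : ℝ) (j : ℕ) :
    ∑ i ∈ Finset.range j, vecL G t i ≤ ∑ i ∈ Finset.range j, vecL G' t i := by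
  refine sum_nth_mono (fun k => cs_nonneg G t k) (ConnectedComponent.map (Hom.ofLE h))
    (fun k' => ?_) j
  simp only [cs]
  rw [← Finset.sum_div]
  refine div_le_div_of_nonneg_right ?_ (sq_nonneg _)
  have := Finset.card_eq_sum_card_fiberwise (s := fib G' k') (f := G.connectedComponentMk)
    (t := Finset.univ.filter (fun k => ConnectedComponent.map (Hom.ofLE h) k = k'))
    (fun v hv => by simpa [fib] using hv)
  rw [← fib_card, this]
  push_cast
  refine Finset.sum_le_sum fun k hk => ?_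
  rw [← fib_card]
  refine Nat.cast_le.2 (Finset.card_le_card fun v hv => ?_)
  simp only [fib, Finset.mem_filter, Finset.mem_univ, true_and] at hk hv ⊢
  refine ⟨?_, hv⟩
  rw [← hk, ← hv]; rfl

lemma mono_chain {h : ℕ → ℝ} {N : ℕ} (hs : ∀ j, j < N → h j ≤ h (j + 1)) :
    ∀ i j, i ≤ j → j ≤ N → h i ≤ h j := by
  intro i j hij
  induction j, hij using Nat.le_induction with
  | base => exact fun _ => le_rfl
  | succ j _ ih => exact fun hj => (ih (by omega)).trans (hs j (by omega))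

lemma NA_pos {n j : ℕ} (hn : 3 ≤ n) (hj : j < n) :
    (0 : ℝ) < Fintype.card (Fin n) * (Fintype.card (Fin n) - 1) - 2 * j := by
  have h1 : (3 : ℝ) ≤ n := by exact_mod_cast hn
  have h2 : (j : ℝ) + 1 ≤ n := by exact_mod_cast hj
  rw [Fintype.card_fin]; linarith only [h2, h1, mul_nonneg_of_nonpos_of_nonpos (Mathlib.Tactic.Linarith.sub_nonpos_of_le (Mathlib.Tactic.Linarith.natCast_nonneg ℝ n)) (Mathlib.Tactic.Linarith.sub_nonpos_of_le h1)]

section ER

variable {n : ℕ}

/-- sum over graphs with `j` edges -/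
noncomputable def SE (n j : ℕ) (φ : SimpleGraph (Fin n) → ℝ) : ℝ :=
  ∑ G : SimpleGraph (Fin n), ind (G.edgeSet.ncard = j) * φ G

lemma SE_succ (j : ℕ) (φ : SimpleGraph (Fin n) → ℝ) : 2 * (j + 1) * SE n (j + 1) φ =
    ∑ G : SimpleGraph (Fin n), ∑ u, ∑ v, ind (NA G u v) *
      (ind (G.edgeSet.ncard = j) * φ (G ⊔ edge u v)) := by
  have := double_count (V := Fin n) (fun G _ _ => ind (G.edgeSet.ncard = j + 1) * φ G)
  simp only [← Finset.sum_mul, sum_ind_adj₂] at this
  rw [SE, Finset.mul_sum, show ∑ G : SimpleGraph (Fin n), 2 * ((j : ℝ) + 1) *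
    (ind (G.edgeSet.ncard = j + 1) * φ G) = ∑ G : SimpleGraph (Fin n), 2 * (G.edgeSet.ncard : ℝ) *
    (ind (G.edgeSet.ncard = j + 1) * φ G) from Finset.sum_congr rfl fun G _ => by
      rw [mul_left_comm, mul_left_comm _ (ind _)]
      exact ind_mul_congr fun h => by rw [h]; push_cast; ring, ← this]
  refine Finset.sum_congr rfl fun G _ => Finset.sum_congr rfl fun u _ =>
    Finset.sum_congr rfl fun v _ => ind_mul_congr fun h => ?_
  rw [card_sup h, ind_congr Nat.succ_inj]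

lemma SE_succ_ge (j : ℕ) {φ : SimpleGraph (Fin n) → ℝ} (hφ : Monotone φ) :
    (Fintype.card (Fin n) * (Fintype.card (Fin n) - 1) - 2 * j) * SE n j φ ≤
      2 * (j + 1) * SE n (j + 1) φ := by
  rw [SE_succ, SE, Finset.mul_sum]
  refine Finset.sum_le_sum fun G _ => le_trans (le_of_eq ?_) (Finset.sum_le_sum fun u _ =>
    Finset.sum_le_sum fun v _ => mul_le_mul_of_nonneg_left (mul_le_mul_of_nonneg_left
      (hφ le_sup_left) (ind_nonneg _)) (ind_nonneg _))
  simp only [← Finset.sum_mul, sum_ind_NA]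
  rw [mul_left_comm, mul_left_comm _ (ind _)]
  exact ind_mul_congr fun h => by rw [h]

lemma SE_succ_one (j : ℕ) :
    (Fintype.card (Fin n) * (Fintype.card (Fin n) - 1) - 2 * j) * SE n j (fun _ => 1) =
      2 * (j + 1) * SE n (j + 1) (fun _ => 1) := by
  refine le_antisymm (SE_succ_ge j monotone_const) ?_
  have := SE_succ_ge (n := n) j (φ := fun _ => -1) monotone_const
  simp only [SE, mul_neg, Finset.sum_neg_distrib] at this ⊢
  linarith

lemma SE_pos (hn : 3 ≤ n) : ∀ j ≤ n, 0 < SE n j (fun _ => 1) := by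
  intro j
  induction j with
  | zero => intro _; simp only [SE, card_zero_iff, sum_ind_eq, one_pos]
  | succ j ih =>
    intro hj
    have := mul_pos (NA_pos hn (j := j) (by omega)) (ih (by omega))
    rw [SE_succ_one] at this
    exact (mul_pos_iff_of_pos_left (by positivity)).1 this

lemma SE_mono (hn : 3 ≤ n) {φ : SimpleGraph (Fin n) → ℝ} (hφ : Monotone φ) {j : ℕ} (hj : j < n) :
    SE n j φ / SE n j (fun _ => 1) ≤ SE n (j + 1) φ / SE n (j + 1) (fun _ => 1) := by
  have p1 := SE_pos hn j hj.le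
  have p2 := SE_pos hn (j + 1) hj
  have p3 := NA_pos hn hj
  rw [← mul_div_mul_left _ _ p3.ne', SE_succ_one,
    ← mul_div_mul_left (SE n (j + 1) φ) _ (by positivity : (2 * ((j : ℝ) + 1)) ≠ 0)]
  exact div_le_div_of_nonneg_right (SE_succ_ge j hφ) (by positivity)

lemma erExp_eq (n m : ℕ) (f : (ℕ → ℝ) → ℝ) :
    erExp n m f = SE n m (fun G => f (scaled G)) / SE n m (fun _ => 1) := by
  rw [erExp, SE, SE]
  simp only [← ite_ind]
  congr 1
  rw [← Finset.sum_filter, Finset.sum_const, nsmul_eq_mul, mul_one, ← Set.ncard_coe_finset]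
  congr 2; ext; simp

end ER

section PA

variable {n : ℕ} {α : ℝ}

lemma wt_eq (α : ℝ) (G : SimpleGraph (Fin n)) (u v : Fin n) :
    wt α G u v = ind (NA G u v) * ((α + dg G u) * (α + dg G v)) := by
  rw [wt, ite_ind, add_comm α, add_comm α]; rfl

lemma wt_nonneg (hα : 0 < α) (G : SimpleGraph (Fin n)) (u v : Fin n) : 0 ≤ wt α G u v := by
  rw [wt_eq]; exact mul_nonneg (ind_nonneg _) (by positivity)

/-- total weight -/
noncomputable def Zt (α : ℝ) (G : SimpleGraph (Fin n)) : ℝ := ∑ u, ∑ v, wt α G u v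

lemma Zt_nonneg (hα : 0 < α) (G : SimpleGraph (Fin n)) : 0 ≤ Zt α G :=
  Finset.sum_nonneg fun u _ => Finset.sum_nonneg fun v _ => wt_nonneg hα G u v

lemma Zt_pos (hα : 0 < α) (hn : 3 ≤ n) {G : SimpleGraph (Fin n)} (hG : G.edgeSet.ncard < n) :
    0 < Zt α G := by
  have h1 := mul_pos (NA_pos hn hG) (mul_pos hα hα)
  rw [← sum_ind_NA] at h1
  refine h1.trans_le ?_
  simp only [Finset.sum_mul, Zt, wt_eq]
  refine Finset.sum_le_sum fun u _ => Finset.sum_le_sum fun v _ => ind_mul_le fun _ => ?_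
  have a : (0 : ℝ) ≤ dg G u := Nat.cast_nonneg _
  have b : (0 : ℝ) ≤ dg G v := Nat.cast_nonneg _
  exact mul_le_mul (by linarith only []) (by linarith) hα.le (by linarith)

lemma sum_step (α : ℝ) (G : SimpleGraph (Fin n)) (φ : SimpleGraph (Fin n) → ℝ) :
    ∑ G', step α G G' * φ G' = (∑ u, ∑ v, wt α G u v * φ (G ⊔ edge u v)) / Zt α G := by
  simp only [step, div_mul_eq_mul_div, ← Finset.sum_div, ite_ind, Finset.sum_mul]
  congr 1
  rw [Finset.sum_comm]
  refine Finset.sum_congr rfl fun u _ => ?_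
  rw [Finset.sum_comm]
  refine Finset.sum_congr rfl fun v _ => ?_
  simp only [mul_assoc, sum_ind_eq]

lemma step_nonneg (hα : 0 < α) (G G' : SimpleGraph (Fin n)) : 0 ≤ step α G G' := by
  refine div_nonneg (Finset.sum_nonneg fun u _ => Finset.sum_nonneg fun v _ => ?_) (Zt_nonneg hα G)
  rw [ite_ind]; exact mul_nonneg (ind_nonneg _) (wt_nonneg hα G u v)

lemma sum_step_le (α : ℝ) (G : SimpleGraph (Fin n)) : ∑ G', step α G G' ≤ 1 := by
  have := sum_step α G (fun _ => 1)
  simp only [mul_one] at this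
  rw [this]; exact div_self_le_one _

lemma paLaw_succ (α : ℝ) (n m : ℕ) (G' : SimpleGraph (Fin n)) :
    paLaw α n (m + 1) G' = ∑ G, paLaw α n m G * step α G G' := by
  rw [paLaw, Function.iterate_succ_apply']; rfl

lemma paLaw_zero (α : ℝ) (n : ℕ) (G : SimpleGraph (Fin n)) : paLaw α n 0 G = ind (G = ⊥) := by
  rw [paLaw, Function.iterate_zero_apply, ite_ind, mul_one]

lemma paLaw_nonneg (hα : 0 < α) (m : ℕ) (G : SimpleGraph (Fin n)) : 0 ≤ paLaw α n m G := by
  induction m generalizing G with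
  | zero => rw [paLaw_zero]; exact ind_nonneg _
  | succ m ih =>
    rw [paLaw_succ]; exact Finset.sum_nonneg fun G' _ => mul_nonneg (ih _) (step_nonneg hα _ _)

lemma sum_paLaw_succ (α : ℝ) (m : ℕ) (φ : SimpleGraph (Fin n) → ℝ) :
    ∑ G, paLaw α n (m + 1) G * φ G =
      ∑ G, paLaw α n m G * ((∑ u, ∑ v, wt α G u v * φ (G ⊔ edge u v)) / Zt α G) := by
  simp only [paLaw_succ, Finset.sum_mul, ← sum_step, Finset.mul_sum, mul_assoc]
  exact Finset.sum_comm

lemma paLaw_supp (α : ℝ) (m : ℕ) (G : SimpleGraph (Fin n)) (h : G.edgeSet.ncard ≠ m) :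
    paLaw α n m G = 0 := by
  induction m generalizing G with
  | zero => rw [paLaw_zero, ind_neg (mt (card_zero_iff G).2 h)]
  | succ m ih =>
    have := sum_paLaw_succ α m (fun G' => ind (G' = G))
    simp only [mul_comm _ (ind (_ = G)), sum_ind_eq] at this
    rw [this]
    refine Finset.sum_eq_zero fun G' _ => ?_
    by_cases h' : G'.edgeSet.ncard = m
    · rw [Finset.sum_eq_zero, zero_div, mul_zero]
      refine fun u _ => Finset.sum_eq_zero fun v _ => ?_
      by_cases hN : NA G' u v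
      · rw [ind_neg (fun e => h (by rw [← e, card_sup hN, h'])), zero_mul]
      · rw [wt_eq, ind_neg hN, zero_mul, mul_zero]
    · rw [ih _ h', zero_mul]

lemma paLaw_mono (hα : 0 < α) (hn : 3 ≤ n) {φ : SimpleGraph (Fin n) → ℝ} (hφ : Monotone φ) {j : ℕ}
    (hj : j < n) : ∑ G, paLaw α n j G * φ G ≤ ∑ G, paLaw α n (j + 1) G * φ G := by
  rw [sum_paLaw_succ]
  refine Finset.sum_le_sum fun G _ => ?_
  by_cases h : G.edgeSet.ncard = j
  · refine mul_le_mul_of_nonneg_left ?_ (paLaw_nonneg hα _ _)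
    rw [le_div_iff₀ (Zt_pos hα hn (h ▸ hj)), Zt, Finset.mul_sum]
    refine Finset.sum_le_sum fun u _ => ?_
    rw [Finset.mul_sum]
    refine Finset.sum_le_sum fun v _ => ?_
    rw [mul_comm]
    exact mul_le_mul_of_nonneg_left (hφ le_sup_left) (wt_nonneg hα _ _ _)
  · rw [paLaw_supp α j G h, zero_mul, zero_mul]

lemma paLaw_sum (hα : 0 < α) (hn : 3 ≤ n) : ∀ j ≤ n, ∑ G, paLaw α n j G = 1 := by
  intro j
  induction j with
  | zero => intro _; simpa [paLaw_zero] using sum_ind_eq (⊥ : SimpleGraph (Fin n)) (fun _ => 1)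
  | succ j ih =>
    intro hj
    have h1 := paLaw_mono hα hn (φ := fun _ => 1) monotone_const (j := j) (by omega)
    have h2 := paLaw_mono hα hn (φ := fun _ => -1) monotone_const (j := j) (by omega)
    simp only [mul_one, mul_neg, Finset.sum_neg_distrib] at h1 h2
    have := ih (by omega)
    linarith only [h1, this, h2]

end PA

end Pool.Agent.Work.MP_e39611_pr
end

-- merged part: Pool.Agent.Work.MP_e39611_pr.Polya
section
/-!
Exact moment formulas for weighted lists of ordered pairs (the multigraph process).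
-/

namespace Pool.Agent.Work.MP_e39611_pr

open Set Real
open scoped Classical

set_option linter.unusedSectionVars false

variable {V : Type} [Fintype V] [DecidableEq V] {α : ℝ}

/-- relative weight -/
noncomputable def om (α : ℝ) (k k' : V → ℕ) : ℝ := ∏ v, rf (α + k v) (k' v)

lemma Aw_add (α : ℝ) (k k' : V → ℕ) : Aw α (k + k') = Aw α k * om α k k' := by
  simp only [Aw, om, Pi.add_apply, rf_add, Finset.prod_mul_distrib]

lemma Aw_zero (α : ℝ) : Aw α (0 : V → ℕ) = 1 := by simp [Aw]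

lemma om_single (α : ℝ) (k : V → ℕ) (u : V) (j : ℕ) :
    om α k (Pi.single u j) = rf (α + k u) j := by
  rw [om, Finset.prod_eq_single u (fun b _ hb => by simp [hb]) (by simp), Pi.single_eq_same]

lemma rf_mul_le {x : ℝ} (hx : 0 < x) (a b : ℕ) : rf x a * rf x b ≤ rf x (a + b) := by
  rw [rf_add]
  exact mul_le_mul_of_nonneg_left (rf_mono hx.le (by simp) b) (rf_pos hx a).le

lemma om_mul_le (hα : 0 < α) (k k' k'' : V → ℕ) : om α k k' * om α k k'' ≤ om α k (k' + k'') := by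
  rw [om, om, ← Finset.prod_mul_distrib]
  exact Finset.prod_le_prod (fun v _ => (mul_pos (rf_pos (by positivity) _)
    (rf_pos (by positivity) _)).le) fun v _ => rf_mul_le (by positivity) _ _

/-- total size -/
def sz (k : V → ℕ) : ℕ := ∑ v, k v

@[simp] lemma sz_add (k k' : V → ℕ) : sz (k + k') = sz k + sz k' := Finset.sum_add_distrib
@[simp] lemma sz_zero : sz (0 : V → ℕ) = 0 := by simp [sz]
@[simp] lemma sz_single (u : V) (j : ℕ) : sz (Pi.single u j) = j := by simp [sz]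
@[simp] lemma sz_ee (p : V × V) : sz (ee p) = 2 := by simp [ee]
@[simp] lemma sz_smul (j : ℕ) (k : V → ℕ) : sz (j • k) = j * sz k := by
  simp [sz, Finset.mul_sum]

/-- total initial weight -/
noncomputable def yy (V : Type) [Fintype V] (α : ℝ) : ℝ := Fintype.card V * α

lemma sum_add_deg (α : ℝ) (k : V → ℕ) : ∑ u, (α + k u) = yy V α + sz k := by
  simp [Finset.sum_add_distrib, yy, sz]

lemma smul_ee (j : ℕ) (u v : V) : j • ee (u, v) = Pi.single u j + Pi.single v j := by
  ext z; simp [ee, Pi.single_apply, mul_add]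

/-- sum over one more pair with multiplicity -/
noncomputable def SS (α : ℝ) (j : ℕ) (k : V → ℕ) : ℝ := ∑ p : V × V, Aw α (k + j • ee p)

lemma SS_eq (α : ℝ) (j : ℕ) (k : V → ℕ) : SS α j k =
    ∑ u, Aw α k * rf (α + k u) j * ∑ v, rf (α + (k + Pi.single u j : V → ℕ) v) j := by
  rw [SS, Fintype.sum_prod_type]
  refine Finset.sum_congr rfl fun u _ => ?_
  rw [Finset.mul_sum]
  exact Finset.sum_congr rfl fun v _ => by
    rw [smul_ee, ← add_assoc, Aw_add, Aw_add, om_single, om_single]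

lemma sum_ee (α : ℝ) (k : V → ℕ) :
    ∑ p : V × V, Aw α (k + ee p) = Aw α k * rf (yy V α + sz k) 2 := by
  have := SS_eq α 1 k
  simp only [SS, one_smul, rf_succ, rf_zero, one_mul, Nat.cast_zero, add_zero, sum_add_deg, sz_add,
    sz_single, ← Finset.sum_mul, ← Finset.mul_sum] at this
  rw [this, rf_two]; push_cast; ring

/-- degrees of a list -/
def dL {t : ℕ} (L : Fin t → V × V) : V → ℕ := ∑ s, ee (L s)

lemma dL_pick {t : ℕ} (L : Fin (t + 1) → V × V) (s : Fin (t + 1)) :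
    dL L = ee (L s) + dL (s.removeNth L) := Fin.sum_univ_succAbove _ s

lemma sum_pick {P : Type} [Fintype P] {t : ℕ} (s : Fin (t + 1)) (H : P → (Fin t → P) → ℝ) :
    ∑ L : Fin (t + 1) → P, H (L s) (s.removeNth L) = ∑ p, ∑ L, H p L := by
  rw [← Fintype.sum_prod_type', ← (Fin.insertNthEquiv (fun _ => P) s).symm.sum_comp]; rfl

lemma B0 (α : ℝ) (t : ℕ) (k : V → ℕ) :
    ∑ L : Fin t → V × V, Aw α (k + dL L) = Aw α k * rf (yy V α + sz k) (2 * t) := by
  induction t generalizing k with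
  | zero => simp [dL]
  | succ t ih =>
    simp only [dL_pick _ 0, ← add_assoc]
    rw [sum_pick 0 (fun p L => Aw α (k + ee p + dL L))]
    simp only [ih, sz_add, sz_ee, ← Finset.sum_mul, sum_ee]
    rw [show 2 * (t + 1) = 2 + 2 * t by ring, rf_add]; push_cast; rw [mul_assoc, add_assoc]

lemma B1 (α : ℝ) (j t : ℕ) (k : V → ℕ) :
    (∑ L : Fin t → V × V, ∑ s, Aw α (k + dL L + j • ee (L s))) * rf (yy V α + sz k) (2 * (j + 1)) =
      t * SS α (j + 1) k * rf (yy V α + sz k) (2 * t + 2 * j) := by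
  rcases t with _ | t
  · simp
  rw [Finset.sum_comm]
  have : ∀ s : Fin (t + 1), ∑ L : Fin (t + 1) → V × V, Aw α (k + dL L + j • ee (L s)) =
      SS α (j + 1) k * rf (yy V α + sz k + (2 * (j + 1) : ℕ)) (2 * t) := fun s => by
    simp only [dL_pick _ s]
    rw [sum_pick s (fun p L => Aw α (k + (ee p + dL L) + j • ee p)), SS, Finset.sum_mul]
    refine Finset.sum_congr rfl fun p _ => ?_
    have := B0 α t (k + (j + 1) • ee p)
    rw [sz_add, sz_smul, sz_ee, Nat.cast_add, ← add_assoc, mul_comm (j + 1)] at this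
    rw [← this]
    exact Finset.sum_congr rfl fun L _ => by rw [succ_nsmul]; congr 1; abel
  rw [Finset.sum_congr rfl fun s _ => this s, Finset.sum_const, Finset.card_univ, Fintype.card_fin,
    nsmul_eq_mul, show 2 * (t + 1) + 2 * j = 2 * (j + 1) + 2 * t by ring, rf_add]; ring

lemma SS_nonneg (hα : 0 < α) (j : ℕ) (k : V → ℕ) : 0 ≤ SS α j k :=
  Finset.sum_nonneg fun _ _ => (Aw_pos hα _).le

lemma B2 (hα : 0 < α) (hy : 0 < yy V α) (t : ℕ) :
    ∑ L : Fin t → V × V, ∑ s, ∑ s', Aw α (dL L + (ee (L s) + ee (L s'))) ≤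
      (t * SS α 3 (0 : V → ℕ) / rf (yy V α) 6 +
        t ^ 2 * (∑ p : V × V, SS α 2 (2 • ee p)) / rf (yy V α) 8) * rf (yy V α) (2 * t + 4) := by
  rcases t with _ | t
  · simp
  have h1 := B1 α 2 (t + 1) (0 : V → ℕ)
  simp only [zero_add, sz_zero, Nat.cast_zero, add_zero] at h1
  rw [← eq_div_iff (rf_pos hy _).ne'] at h1
  have h2 : ∀ s : Fin (t + 1), ∑ L : Fin (t + 1) → V × V, ∑ i : Fin t,
      Aw α (dL L + (ee (L s) + ee (L (s.succAbove i)))) =
      t * (∑ p : V × V, SS α 2 (2 • ee p)) / rf (yy V α) 8 * rf (yy V α) (2 * (t + 1) + 4) := by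
    intro s
    simp only [dL_pick _ s]
    rw [show ∑ L : Fin (t + 1) → V × V, ∑ i : Fin t,
      Aw α (ee (L s) + dL (s.removeNth L) + (ee (L s) + ee (L (s.succAbove i)))) = _ from
      sum_pick s (fun p L => ∑ i, Aw α (ee p + dL L + (ee p + ee (L i)))), Finset.mul_sum,
      Finset.sum_div, Finset.sum_mul]
    refine Finset.sum_congr rfl fun p _ => ?_
    have := B1 α 1 t (2 • ee p)
    rw [← eq_div_iff (rf_pos (by positivity) _).ne'] at this
    rw [show ∑ L : Fin t → V × V, ∑ i, Aw α (ee p + dL L + (ee p + ee (L i))) =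
      ∑ L : Fin t → V × V, ∑ i, Aw α (2 • ee p + dL L + 1 • ee (L i)) from
      Finset.sum_congr rfl fun L _ => Finset.sum_congr rfl fun i _ => by
        rw [two_nsmul, one_nsmul]; congr 1; abel, this, sz_smul, sz_ee,
      show 2 * (t + 1) + 4 = 4 + (2 * t + 2 * 1) by ring, rf_add _ 4, show 8 = 4 + 4 by rfl,
      rf_add _ 4]
    have := rf_pos hy 4
    have := rf_pos (y := yy V α + (4 : ℕ)) (by positivity) 4
    field_simp
  have h3 : ∀ L : Fin (t + 1) → V × V, ∑ s, ∑ s', Aw α (dL L + (ee (L s) + ee (L s'))) =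
      ∑ s, Aw α (dL L + 2 • ee (L s)) +
        ∑ s, ∑ i : Fin t, Aw α (dL L + (ee (L s) + ee (L (s.succAbove i)))) := fun L => by
    rw [← Finset.sum_add_distrib]
    exact Finset.sum_congr rfl fun s _ => by rw [Fin.sum_univ_succAbove _ s, two_nsmul]
  simp only [h3, Finset.sum_add_distrib]
  rw [h1, Finset.sum_comm]
  rw [Finset.sum_congr rfl fun s _ => h2 s, Finset.sum_const, Finset.card_univ, Fintype.card_fin,
    nsmul_eq_mul]
  have a := Finset.sum_nonneg (s := Finset.univ) fun (p : V × V) _ => SS_nonneg hα 2 (2 • ee p)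
  have b := div_nonneg a (rf_pos hy 8).le
  have c := mul_nonneg b (rf_pos hy (2 * (t + 1) + 4)).le
  rw [add_mul, mul_div_assoc ((t : ℝ)), mul_div_assoc (_ ^ 2 : ℝ)]
  refine add_le_add (le_of_eq (by ring)) ?_
  push_cast
  have : (0 : ℝ) ≤ t := Nat.cast_nonneg t
  linarith only [c, mul_nonneg_of_nonpos_of_nonpos (Mathlib.Tactic.Linarith.sub_nonpos_of_le (Mathlib.Tactic.Linarith.natCast_nonneg ℝ t)) (Mathlib.Tactic.Linarith.sub_nonpos_of_le c)]

lemma abs_dev {κ : Type} [Fintype κ] {w : κ → ℝ} (z : κ → ℝ) (hw : ∀ k, 0 ≤ w k) {R c v δ : ℝ}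
    (hR : ∑ k, w k = R) (h1 : ∑ k, w k * z k = c * R) (h2 : ∑ k, w k * z k ^ 2 ≤ (c ^ 2 + v) * R)
    (hδ : 0 < δ) : ∑ k, w k * |z k - c| ≤ (v / (2 * δ) + δ / 2) * R := by
  have : ∑ k, w k * |z k - c| ≤
      ∑ k, (1 / (2 * δ) * (w k * z k ^ 2) - c / δ * (w k * z k) + (c ^ 2 / (2 * δ) + δ / 2) * w k) := by
    refine Finset.sum_le_sum fun k _ => ?_
    have h : |z k - c| ≤ (z k - c) ^ 2 / (2 * δ) + δ / 2 := by
      rw [← sq_abs, div_add_div _ _ (by positivity) two_ne_zero, le_div_iff₀ (by positivity)]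
      linarith only [sq_nonneg (|z k - c| - δ), sq_nonneg (|z k - c| - δ)]
    refine (mul_le_mul_of_nonneg_left h (hw k)).trans (le_of_eq ?_)
    field_simp; ring
  simp only [Finset.sum_add_distrib, Finset.sum_sub_distrib, ← Finset.mul_sum, hR, h1] at this
  refine this.trans ?_
  have := mul_le_mul_of_nonneg_left h2 (by positivity : 0 ≤ 1 / (2 * δ))
  refine le_trans (add_le_add (sub_le_sub_right this _) le_rfl) (le_of_eq ?_)
  field_simp; ring

lemma Q2_ge (hα : 0 < α) (k : V → ℕ) : yy V α * (α + 1) ≤ ∑ u, rf (α + k u) 2 := by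
  refine le_trans (le_of_eq ?_) (Finset.sum_le_sum fun u _ => rf_mono hα.le (by simp) 2)
  simp [rf_two, yy, mul_assoc]

lemma Q2_le (hα : 0 < α) (hy : 0 < yy V α) {k : V → ℕ} (hk : sz k ≤ 6) :
    ∑ u, rf (α + k u) 2 ≤ yy V α * (α + 1) * (1 + 42 / yy V α) := by
  have h1 : ∑ u, rf (α + k u) 2 ≤ ∑ u, (α * (α + 1) + (2 * α + 7) * k u) :=
    Finset.sum_le_sum fun u _ => by
      have : (k u : ℝ) ≤ 6 := by
        exact_mod_cast (Finset.single_le_sum (fun _ _ => Nat.zero_le _) (Finset.mem_univ u)).trans hk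
      have : (0 : ℝ) ≤ k u := Nat.cast_nonneg _
      rw [rf_two]; nlinarith
  have h2 : (∑ u, (k u : ℝ)) ≤ 6 := by exact_mod_cast hk
  rw [Finset.sum_add_distrib, Finset.sum_const, ← Finset.mul_sum, Finset.card_univ, nsmul_eq_mul,
    ← mul_assoc] at h1
  have h3 : yy V α * (α + 1) * (1 + 42 / yy V α) = yy V α * (α + 1) + 42 * (α + 1) := by
    field_simp
  rw [h3]
  change _ ≤ yy V α * _ + _ at h1
  linarith only [hα, h2, h1, mul_nonneg_of_nonpos_of_nonpos (le_of_lt (Mathlib.Tactic.Linarith.sub_neg_of_lt hα)) (Mathlib.Tactic.Linarith.sub_nonpos_of_le h2)]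

lemma S2_ge (hα : 0 < α) (hy : 0 < yy V α) : (yy V α * (α + 1)) ^ 2 ≤ SS α 2 (0 : V → ℕ) := by
  rw [SS_eq, pow_two]
  refine le_trans (mul_le_mul_of_nonneg_right (Q2_ge hα 0) (by positivity)) ?_
  rw [Finset.sum_mul]
  refine Finset.sum_le_sum fun u _ => ?_
  rw [Aw_zero, one_mul]
  exact mul_le_mul_of_nonneg_left (Q2_ge hα _) (rf_pos (by positivity) _).le

lemma S2_le (hα : 0 < α) (hy : 0 < yy V α) {k : V → ℕ} (hk : sz k ≤ 4) :
    SS α 2 k ≤ Aw α k * (yy V α * (α + 1) * (1 + 42 / yy V α)) ^ 2 := by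
  rw [SS_eq]
  refine le_trans (Finset.sum_le_sum fun u _ => mul_le_mul_of_nonneg_left
    (Q2_le hα hy (by simp; omega)) (mul_pos (Aw_pos hα _) (rf_pos (by positivity) _)).le) ?_
  rw [← Finset.sum_mul, ← Finset.mul_sum, pow_two, mul_assoc]
  exact mul_le_mul_of_nonneg_left (mul_le_mul_of_nonneg_right (Q2_le hα hy (by omega))
    (by positivity)) (Aw_pos hα _).le

lemma S3_le (hα : 0 < α) : SS α 3 (0 : V → ℕ) ≤ (Fintype.card V * (α + 6) ^ 3) ^ 2 := by
  have Q : ∀ k : V → ℕ, sz k ≤ 3 → ∑ u, rf (α + k u) 3 ≤ Fintype.card V * (α + 6) ^ 3 := by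
    intro k hk
    rw [← Finset.card_univ, ← nsmul_eq_mul, ← Finset.sum_const]
    refine Finset.sum_le_sum fun u _ => (rf_le (by positivity) le_rfl).trans ?_
    have : (k u : ℝ) ≤ 3 := by
      exact_mod_cast (Finset.single_le_sum (fun _ _ => Nat.zero_le _) (Finset.mem_univ u)).trans hk
    exact pow_le_pow_left₀ (by positivity) (by push_cast; linarith) 3
  rw [SS_eq]
  refine le_trans (Finset.sum_le_sum fun u _ => mul_le_mul_of_nonneg_left
    (Q _ (by simp)) (mul_pos (Aw_pos hα _) (rf_pos (by positivity) _)).le) ?_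
  rw [← Finset.sum_mul, ← Finset.mul_sum, pow_two, Aw_zero, one_mul]
  exact mul_le_mul_of_nonneg_right (Q _ (by simp)) (by positivity)

lemma rf_four {y D : ℝ} (hy : 0 < y) (h : y ≤ D) : rf D 4 ≤ (rf D 2 * (1 + 42 / y)) ^ 2 := by
  have D0 : 0 < D := hy.trans_le h
  have h1 : 42 ≤ D * (42 / y) := by
    rw [mul_div_assoc', le_div_iff₀ hy]; linarith
  have h2 : 0 ≤ 42 / y := by positivity
  have h3 : (D + 2) * (D + 2 + 1) ≤ (D * (1 + 42 / y)) * ((D + 1) * (1 + 42 / y)) :=
    mul_le_mul (by linarith only [h1]) (by linarith only [h1, h2]) (by positivity) (by positivity)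
  rw [show 4 = 2 + 2 by rfl, rf_add, rf_two, rf_two]
  refine (mul_le_mul_of_nonneg_left h3 (by positivity)).trans (le_of_eq (by ring))

/-- loop statistic -/
noncomputable def XL (α : ℝ) {t : ℕ} (L : Fin t → V × V) : ℝ := ∑ u, rf (α + dL L u) 2

/-- double edge statistic -/
noncomputable def YL (α : ℝ) {t : ℕ} (L : Fin t → V × V) : ℝ := 2 * ∑ s, om α (dL L) (ee (L s))

lemma mass_L (α : ℝ) (t : ℕ) : ∑ L : Fin t → V × V, Aw α (dL L) = rf (yy V α) (2 * t) := by
  simpa [Aw_zero] using B0 α t (0 : V → ℕ)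

lemma X_one (hy : 0 < yy V α) (t : ℕ) :
    ∑ L : Fin t → V × V, Aw α (dL L) * (XL α L / rf (yy V α + (2 * t : ℕ)) 2) =
      yy V α * (α + 1) / rf (yy V α) 2 * rf (yy V α) (2 * t) := by
  simp only [XL, ← mul_div_assoc, Finset.mul_sum, ← om_single, ← Aw_add, ← Finset.sum_div]
  rw [Finset.sum_comm]
  simp only [add_comm (dL _), B0, sz_single, ← Finset.sum_mul]
  have h1 : ∑ u : V, Aw α (Pi.single u 2) = yy V α * (α + 1) := by
    have : ∀ u : V, Aw α (Pi.single u 2) = α * (α + 1) := fun u => by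
      have := Aw_add α 0 (Pi.single u 2)
      rw [zero_add, Aw_zero, om_single, rf_two] at this
      simpa using this
    simp [this, yy, mul_assoc]
  have h2 := rf_add (yy V α) 2 (2 * t)
  rw [add_comm 2, rf_add] at h2
  have := rf_pos hy 2
  have := rf_pos (y := yy V α + (2 * t : ℕ)) (by positivity) 2
  rw [h1, div_mul_eq_mul_div, div_eq_div_iff (by positivity) (by positivity)]
  linear_combination (-(yy V α * (α + 1))) * h2

lemma X_two (hα : 0 < α) (hy : 0 < yy V α) (t : ℕ) :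
    ∑ L : Fin t → V × V, Aw α (dL L) * (XL α L / rf (yy V α + (2 * t : ℕ)) 2) ^ 2 ≤
      (yy V α * (α + 1) / rf (yy V α) 2) ^ 2 * (1 + 42 / yy V α) ^ 4 * rf (yy V α) (2 * t) := by
  have h1 : ∑ L : Fin t → V × V, Aw α (dL L) * XL α L ^ 2 ≤
      SS α 2 (0 : V → ℕ) * rf (yy V α + (4 : ℕ)) (2 * t) := by
    refine le_trans (Finset.sum_le_sum (g := fun L => ∑ p : V × V, Aw α (2 • ee p + dL L))
      fun L _ => ?_) (le_of_eq ?_)
    · rw [XL, pow_two, Finset.sum_mul_sum, Fintype.sum_prod_type, Finset.mul_sum]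
      refine Finset.sum_le_sum fun u _ => ?_
      rw [Finset.mul_sum]
      refine Finset.sum_le_sum fun v _ => ?_
      rw [add_comm _ (dL L), Aw_add, smul_ee, ← om_single, ← om_single]
      exact mul_le_mul_of_nonneg_left (om_mul_le hα _ _ _) (Aw_pos hα _).le
    · rw [Finset.sum_comm]
      simp only [B0, sz_smul, sz_ee, ← Finset.sum_mul, SS, zero_add]
  have h2 := rf_add (yy V α) 4 (2 * t)
  rw [add_comm 4, rf_add] at h2
  have h3 := rf_four hy (D := yy V α + (2 * t : ℕ)) (by simp)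
  have h4 := S2_le hα hy (k := (0 : V → ℕ)) (by simp)
  have h5 : _ ≤ rf (yy V α) 4 := rf_mul_le hy 2 2
  have p1 := rf_pos hy 2
  have p2 := rf_pos (y := yy V α + (2 * t : ℕ)) (by positivity) 2
  have p3 := rf_pos hy (2 * t)
  have p4 := rf_pos (y := yy V α + (4 : ℕ)) (by positivity) (2 * t)
  rw [Aw_zero, one_mul] at h4
  simp only [div_pow, ← mul_div_assoc, ← Finset.sum_div]
  have h6 : rf (yy V α + (4 : ℕ)) (2 * t) ≤ rf (yy V α) (2 * t) *
      (rf (yy V α + (2 * t : ℕ)) 2 * (1 + 42 / yy V α)) ^ 2 / rf (yy V α) 2 ^ 2 := by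
    rw [le_div_iff₀ (by positivity)]
    refine le_trans ?_ (mul_le_mul_of_nonneg_left h3 p3.le)
    rw [h2, pow_two, mul_comm (rf (yy V α) 4)]
    exact mul_le_mul_of_nonneg_left h5 p4.le
  refine (div_le_div_of_nonneg_right (h1.trans (mul_le_mul h4 h6 p4.le (by positivity)))
    (by positivity)).trans (le_of_eq ?_)
  field_simp

lemma Y_one (hy : 0 < yy V α) (t : ℕ) :
    ∑ L : Fin t → V × V, Aw α (dL L) * (YL α L / rf (yy V α + (2 * t : ℕ)) 2) =
      2 * t * SS α 2 (0 : V → ℕ) / rf (yy V α) 4 * rf (yy V α) (2 * t) := by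
  have h1 := B1 α 1 t (0 : V → ℕ)
  simp only [zero_add, sz_zero, Nat.cast_zero, add_zero, one_smul, Aw_add, ← Finset.mul_sum,
    rf_add _ (2 * t)] at h1
  simp only [YL, ← mul_div_assoc, ← Finset.sum_div, mul_left_comm _ (2 : ℝ), ← Finset.mul_sum]
  have := rf_pos hy 4
  have := rf_pos (y := yy V α + (2 * t : ℕ)) (by positivity) 2
  norm_num at h1
  field_simp
  push_cast
  linarith only [h1]

lemma Y_two (hα : 0 < α) (hy : 0 < yy V α) (t : ℕ) :
    ∑ L : Fin t → V × V, Aw α (dL L) * (YL α L / rf (yy V α + (2 * t : ℕ)) 2) ^ 2 ≤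
      ((2 * t * SS α 2 (0 : V → ℕ) / rf (yy V α) 4) ^ 2 * (1 + 42 / yy V α) ^ 4 +
        4 * t * SS α 3 (0 : V → ℕ) / yy V α ^ 6 * (1 + 42 / yy V α) ^ 2) *
        rf (yy V α) (2 * t) := by
  have h1 : ∑ L : Fin t → V × V, Aw α (dL L) * YL α L ^ 2 ≤
      4 * ∑ L : Fin t → V × V, ∑ s, ∑ s', Aw α (dL L + (ee (L s) + ee (L s'))) := by
    rw [Finset.mul_sum]
    refine Finset.sum_le_sum fun L _ => ?_
    rw [YL, mul_pow, mul_left_comm, show (2 : ℝ) ^ 2 = 4 by norm_num, pow_two, Finset.sum_mul_sum,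
      Finset.mul_sum]
    refine mul_le_mul_of_nonneg_left (Finset.sum_le_sum fun u _ => ?_) (by norm_num)
    rw [Finset.mul_sum]
    refine Finset.sum_le_sum fun v _ => ?_
    rw [Aw_add]
    exact mul_le_mul_of_nonneg_left (om_mul_le hα _ _ _) (Aw_pos hα _).le
  have h3 := rf_four hy (D := yy V α + (2 * t : ℕ)) (by simp)
  have s2 := SS_nonneg hα 2 (0 : V → ℕ)
  have s3 := SS_nonneg hα 3 (0 : V → ℕ)
  have h4 : ∑ p : V × V, SS α 2 (2 • ee p) ≤ SS α 2 (0 : V → ℕ) ^ 2 * (1 + 42 / yy V α) ^ 2 := by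
    refine (Finset.sum_le_sum fun p _ => S2_le hα hy (by rw [sz_smul, sz_ee])).trans ?_
    rw [← Finset.sum_mul, mul_pow, pow_two (SS α 2 0), mul_assoc]
    refine mul_le_mul (le_of_eq (by simp [SS])) (mul_le_mul_of_nonneg_right (S2_ge hα hy)
      (by positivity)) (by positivity) s2
  have h5 := rf_mul_le hy 4 4
  have h6 := le_rf hy.le 6
  have p1 := rf_pos hy 4
  have p2 := rf_pos (y := yy V α + (2 * t : ℕ)) (by positivity) 2
  have p3 := rf_pos hy (2 * t)
  have h7 : t * SS α 3 (0 : V → ℕ) / rf (yy V α) 6 +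
      t ^ 2 * (∑ p : V × V, SS α 2 (2 • ee p)) / rf (yy V α) 8 ≤
      t * SS α 3 (0 : V → ℕ) / yy V α ^ 6 +
      t ^ 2 * (SS α 2 (0 : V → ℕ) ^ 2 * (1 + 42 / yy V α) ^ 2) / (rf (yy V α) 4 * rf (yy V α) 4) := by
    gcongr
  have h8 := (B2 hα hy t).trans (mul_le_mul h7 (le_of_eq (rf_add _ _ _)|>.trans
    (mul_le_mul_of_nonneg_left h3 p3.le)) (rf_pos hy _).le (by positivity))
  simp only [div_pow, ← mul_div_assoc, ← Finset.sum_div]
  refine (div_le_div_of_nonneg_right (h1.trans (mul_le_mul_of_nonneg_left h8 (by norm_num)))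
    (by positivity)).trans (le_of_eq ?_)
  field_simp
  ring

theorem polya_conc (hα : 0 < α) {u : ℝ} (hu : α + 6 ≤ u * α) (hn : 7 * u ≤ Fintype.card V)
    {t : ℕ} (ht : t ≤ Fintype.card V) : ∃ c, 0 ≤ c ∧ c ≤ 16 * u ^ 2 / Fintype.card V ∧ ∀ δ, 0 < δ →
    ∑ L : Fin t → V × V, Aw α (dL L) * |(XL α L + YL α L) / rf (yy V α + (2 * t : ℕ)) 2 - c| ≤
      (7000 * u ^ 6 / Fintype.card V ^ 3 / δ + δ) * rf (yy V α) (2 * t) := by
  have u1 : 1 ≤ u := by (refine le_of_not_gt fun h_nl => ?_; linarith only [h_nl, hu, hα, mul_pos_of_neg_of_neg (Mathlib.Tactic.Linarith.sub_neg_of_lt hα) (Mathlib.Tactic.Linarith.sub_neg_of_lt h_nl)])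
  set N : ℝ := (Fintype.card V : ℝ) with hN
  have N0 : 0 < N := by linarith
  have hy : 0 < yy V α := mul_pos N0 hα
  have tN : (t : ℝ) ≤ N := Nat.cast_le.2 ht
  have e0 : 0 ≤ 42 / yy V α := by positivity
  have e1 : 42 / yy V α ≤ 7 * u / N := by
    rw [yy, ← hN, div_le_div_iff₀ (by positivity) N0]; linarith only [hα, hu, mul_nonneg_of_nonpos_of_nonpos (Mathlib.Tactic.Linarith.sub_nonpos_of_le (Mathlib.Tactic.Linarith.natCast_nonneg ℝ (Fintype.card V))) (le_of_lt (Mathlib.Tactic.Linarith.sub_neg_of_lt hα)), mul_nonneg_of_nonpos_of_nonpos (Mathlib.Tactic.Linarith.sub_nonpos_of_le (Mathlib.Tactic.Linarith.natCast_nonneg ℝ (Fintype.card V))) (Mathlib.Tactic.Linarith.sub_nonpos_of_le hu)]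
  have e2 : 42 / yy V α ≤ 1 := e1.trans ((div_le_one N0).2 hn)
  have s2 := SS_nonneg hα 2 (0 : V → ℕ)
  have s3 := SS_nonneg hα 3 (0 : V → ℕ)
  have p1 := rf_pos hy 2
  have p2 := rf_pos hy 4
  have p3 := rf_pos hy (2 * t)
  have b0 : yy V α * (α + 1) / yy V α ^ 2 ≤ u / N := by
    rw [yy, ← hN, div_le_div_iff₀ (by positivity) N0]
    have : N * α * N * (α + 1) ≤ N * α * N * (u * α) :=
      mul_le_mul_of_nonneg_left (by linarith only [hu]) (by positivity)
    linarith only [this]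
  have b1 : yy V α * (α + 1) / rf (yy V α) 2 ≤ 8 * u ^ 2 / N := by
    refine (div_le_div_of_nonneg_left (by positivity) (by positivity) (le_rf hy.le 2)).trans
      (b0.trans (div_le_div_of_nonneg_right (by (refine le_of_not_gt fun h_nl => ?_; linarith only [h_nl, hα, hu, u1, mul_pos_of_neg_of_neg (Mathlib.Tactic.Linarith.sub_neg_of_lt hα) (Mathlib.Tactic.Linarith.sub_neg_of_lt h_nl), mul_nonneg_of_nonpos_of_nonpos (Mathlib.Tactic.Linarith.sub_nonpos_of_le hu) (Mathlib.Tactic.Linarith.sub_nonpos_of_le u1)])) N0.le))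
  have b2 : 2 * t * SS α 2 (0 : V → ℕ) / rf (yy V α) 4 ≤ 8 * u ^ 2 / N := by
    have h4 := S2_le hα hy (k := (0 : V → ℕ)) (by simp)
    have h5 := le_rf hy.le 4
    rw [Aw_zero, one_mul] at h4
    calc _ ≤ 2 * N * (yy V α * (α + 1) * (1 + 1)) ^ 2 / yy V α ^ 4 := by
          refine div_le_div₀ (by positivity) (mul_le_mul (by linarith only [tN]) (h4.trans (by gcongr)) s2
            (by positivity)) (by positivity) h5
      _ = 8 * N * (yy V α * (α + 1) / yy V α ^ 2) ^ 2 := by field_simp; ring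
      _ ≤ 8 * N * (u / N) ^ 2 := by gcongr
      _ = _ := by field_simp
  have b3 : 4 * t * SS α 3 (0 : V → ℕ) / yy V α ^ 6 * (1 + 42 / yy V α) ^ 2 ≤
      16 * u ^ 6 / N ^ 3 := by
    calc _ ≤ 4 * N * (N * (u * α) ^ 3) ^ 2 / yy V α ^ 6 * (1 + 1) ^ 2 := by
          have := (S3_le (V := V) hα).trans (show _ ≤ (N * (u * α) ^ 3) ^ 2 by gcongr)
          gcongr
      _ = _ := by rw [yy, ← hN]; field_simp; ring
  have b4 : ∀ c, 0 ≤ c → c ≤ 8 * u ^ 2 / N →
      c ^ 2 * (1 + 42 / yy V α) ^ 4 ≤ c ^ 2 + 6720 * u ^ 6 / N ^ 3 := fun c c0 c1 => by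
    have a1 : (1 + 42 / yy V α) ^ 4 ≤ 1 + 15 * (42 / yy V α) := by
      generalize 42 / yy V α = η at e0 e2
      have := pow_le_one₀ (n := 2) e0 e2
      have := pow_le_one₀ (n := 3) e0 e2
      nlinarith
    have a2 : c ^ 2 * (15 * (42 / yy V α)) ≤ (8 * u ^ 2 / N) ^ 2 * (15 * (7 * u ^ 2 / N)) := by
      have : 7 * u / N ≤ 7 * u ^ 2 / N := div_le_div_of_nonneg_right (by (refine le_of_not_gt fun h_nl => ?_; linarith only [h_nl, hu, u1, hα, mul_pos_of_neg_of_neg (Mathlib.Tactic.Linarith.sub_neg_of_lt hα) (Mathlib.Tactic.Linarith.sub_neg_of_lt h_nl), mul_nonneg_of_nonpos_of_nonpos (Mathlib.Tactic.Linarith.sub_nonpos_of_le hu) (Mathlib.Tactic.Linarith.sub_nonpos_of_le u1)])) N0.le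
      exact mul_le_mul (pow_le_pow_left₀ c0 c1 2) (by linarith only [e1, this]) (by positivity) (by positivity)
    have a3 : (8 * u ^ 2 / N) ^ 2 * (15 * (7 * u ^ 2 / N)) = 6720 * u ^ 6 / N ^ 3 := by
      field_simp; ring
    linarith only [a2, a3, a1, mul_le_mul_of_nonneg_left a1 (sq_nonneg c), sq_nonneg c]
  have v0 : 0 ≤ u ^ 6 / N ^ 3 := by positivity
  refine ⟨yy V α * (α + 1) / rf (yy V α) 2 + 2 * t * SS α 2 (0 : V → ℕ) / rf (yy V α) 4,
    by positivity, by rw [show 16 * u ^ 2 / N = 8 * u ^ 2 / N + 8 * u ^ 2 / N by ring]; linarith only [b1, b2],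
    fun δ hδ => ?_⟩
  have dX := abs_dev _ (fun L => (Aw_pos hα _).le) (mass_L α t) (X_one hy t)
    (v := 7000 * u ^ 6 / N ^ 3) ((X_two hα hy t).trans (mul_le_mul_of_nonneg_right
      ((b4 _ (by positivity) b1).trans (by rw [mul_div_assoc 6720, mul_div_assoc 7000]; linarith only [v0]))
      p3.le)) hδ
  have dY := abs_dev _ (fun L => (Aw_pos hα _).le) (mass_L α t) (Y_one hy t)
    (v := 7000 * u ^ 6 / N ^ 3) ((Y_two hα hy t).trans (mul_le_mul_of_nonneg_right
      ((add_le_add (b4 _ (by positivity) b2) b3).trans (by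
        rw [mul_div_assoc 6720, mul_div_assoc 7000, mul_div_assoc 16]; linarith only [v0])) p3.le)) hδ
  refine le_trans ?_ ((add_le_add dX dY).trans (le_of_eq (by field_simp; ring)))
  rw [← Finset.sum_add_distrib]
  refine Finset.sum_le_sum fun L _ => ?_
  rw [← mul_add, add_div, add_sub_add_comm]
  exact mul_le_mul_of_nonneg_left (abs_add_le _ _) (Aw_pos hα _).le

end Pool.Agent.Work.MP_e39611_pr
end

-- merged part: Pool.Agent.Work.MP_e39611_pr.Anneal
section
/-!
Averaging the tilted graph weights over independent vertex weights.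
-/

namespace Pool.Agent.Work.MP_e39611_pr

open MeasureTheory ProbabilityTheory Set Real Filter Topology
open scoped Classical

set_option linter.unusedSectionVars false

/-- twelfth root -/
noncomputable def sq (n : ℕ) : ℝ := (n : ℝ) ^ (1 / 12 : ℝ)

/-- cube root -/
noncomputable def tt (n : ℕ) : ℝ := (n : ℝ) ^ (1 / 3 : ℝ)

lemma sq_pow (n k : ℕ) : sq n ^ k = (n : ℝ) ^ ((k : ℝ) / 12) := by
  rw [sq, ← rpow_natCast, ← rpow_mul (Nat.cast_nonneg n)]; congr 1; ring

lemma tt_eq (n : ℕ) : tt n = sq n ^ 4 := by rw [sq_pow, tt]; norm_num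

lemma sq_twelve (n : ℕ) : sq n ^ 12 = n := by rw [sq_pow]; norm_num

lemma tt_three (n : ℕ) : tt n ^ 3 = n := by rw [tt_eq, ← pow_mul, sq_twelve]

lemma tt_two (n : ℕ) : tt n ^ 2 = (n : ℝ) ^ (2 / 3 : ℝ) := by
  rw [tt_eq, ← pow_mul, sq_pow]; norm_num

lemma sq_pos' {n : ℕ} (h : 1 ≤ n) : 0 < sq n := rpow_pos_of_pos (by exact_mod_cast h) _

lemma tt_pos {n : ℕ} (h : 1 ≤ n) : 0 < tt n := rpow_pos_of_pos (by exact_mod_cast h) _

lemma sq_inf : Tendsto sq atTop atTop :=
  (tendsto_rpow_atTop (by norm_num)).comp tendsto_natCast_atTop_atTop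

lemma tt_inf : Tendsto tt atTop atTop :=
  (tendsto_rpow_atTop (by norm_num)).comp tendsto_natCast_atTop_atTop

lemma sq_inv : Tendsto (fun n => (sq n)⁻¹) atTop (𝓝 0) := sq_inf.inv_tendsto_atTop

/-- moment of a measure -/
noncomputable def Em (ν : Measure ℝ) (k : ℕ) : ℝ := ∫ x, x ^ k ∂ν

/-- a weight distribution with bounded moments -/
structure Wt (ν : Measure ℝ) (C : ℝ) : Prop where
  prob : IsProbabilityMeasure ν
  pos : ∀ᵐ x ∂ν, 0 ≤ x
  int : ∀ k : ℕ, Integrable (fun x => x ^ k) ν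
  bdd : ∀ k ≤ 8, Em ν k ≤ C

/-- a critical sequence of weight distributions -/
structure Law (ν : ℕ → Measure ℝ) (m1 lam m3 : ℝ) : Prop where
  wt : ∃ C, ∀ᶠ n in atTop, Wt (ν n) C
  h1 : Tendsto (fun n => Em (ν n) 1) atTop (𝓝 m1)
  h2 : Tendsto (fun n => tt n * (Em (ν n) 2 - 1)) atTop (𝓝 lam)
  h3 : Tendsto (fun n => Em (ν n) 3) atTop (𝓝 m3)

/-- product measure -/
noncomputable def piM (ν : Measure ℝ) (n : ℕ) : Measure (Fin n → ℝ) := Measure.pi fun _ => ν

lemma Wt.piProb {ν : Measure ℝ} {C : ℝ} (h : Wt ν C) (n : ℕ) : IsProbabilityMeasure (piM ν n) := by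
  have := h.prob
  unfold piM; infer_instance

lemma Wt.piPos {ν : Measure ℝ} {C : ℝ} (h : Wt ν C) (n : ℕ) : ∀ᵐ w ∂(piM ν n), ∀ v, 0 ≤ w v := by
  have := h.prob
  exact ae_all_iff.2 fun v =>
    (measurePreserving_eval (fun _ : Fin n => ν) v).quasiMeasurePreserving.ae h.pos

lemma Wt.cheb {ν : Measure ℝ} {C : ℝ} (h : Wt ν C) {n : ℕ} (hn : 1 ≤ n) {k : ℕ} (hk : k ≤ 4)
    {δ : ℝ} (hδ : 0 < δ) :
    Pr (piM ν n) (fun w => δ ≤ |mom w (tt n) k - Em ν k|) ≤ C / (n * δ ^ 2) := by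
  have := h.prob
  have := h.piProb n
  have n0 : (0 : ℝ) < n := by exact_mod_cast hn
  have m2 : MemLp (fun x : ℝ => x ^ k) 2 ν := by
    rw [memLp_two_iff_integrable_sq (by fun_prop)]
    simpa [← pow_mul] using h.int (k * 2)
  have m3 : ∀ i : Fin n, MemLp (fun w : Fin n → ℝ => w i ^ k) 2 (piM ν n) := fun i =>
    m2.comp_measurePreserving (measurePreserving_eval (fun _ : Fin n => ν) i)
  have hv : Var[∑ i : Fin n, fun w : Fin n → ℝ => w i ^ k; piM ν n] ≤ n * C := by
    have := variance_sum_pi (μ := fun _ : Fin n => ν) (X := fun _ x => x ^ k) (fun _ => m2)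
    rw [piM, this, Finset.sum_const, Finset.card_univ, Fintype.card_fin, nsmul_eq_mul]
    refine mul_le_mul_of_nonneg_left ((variance_le_expectation_sq (by fun_prop)).trans ?_) n0.le
    have := h.bdd (k * 2) (by omega)
    simpa [Em, pow_mul] using this
  have he : ∫ w, (∑ i : Fin n, fun w : Fin n → ℝ => w i ^ k) w ∂(piM ν n) = n * Em ν k := by
    simp only [Finset.sum_apply]
    rw [integral_finsetSum _ fun i _ => (m3 i).integrable one_le_two]
    have : ∀ i : Fin n, ∫ w, w i ^ k ∂(piM ν n) = Em ν k := fun i => by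
      have e := integral_map (μ := piM ν n) (φ := Function.eval i) (f := fun x : ℝ => x ^ k)
        (measurable_pi_apply i).aemeasurable (by fun_prop)
      rw [piM, (measurePreserving_eval (fun _ : Fin n => ν) i).map_eq] at e
      exact e.symm
    simp [this]
  have := meas_ge_le_variance_div_sq (memLp_finsetSum' Finset.univ fun i _ => m3 i) (c := n * δ)
    (by positivity)
  rw [he] at this
  have C0 : 0 ≤ n * C := (variance_nonneg _ _).trans hv
  refine le_trans (le_of_eq ?_) ((ENNReal.toReal_le_of_le_ofReal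
    (div_nonneg (variance_nonneg _ _) (sq_nonneg _)) this).trans ?_)
  · rw [Pr, Measure.real]
    congr 2
    ext w
    simp only [mem_setOf_eq, Finset.sum_apply, mom, tt_three]
    rw [show ∑ i, w i ^ k - n * Em ν k = n * ((∑ i, w i ^ k) / n - Em ν k) by field_simp,
      abs_mul, abs_of_pos n0, mul_le_mul_iff_right₀ n0]
  · rw [show C / (n * δ ^ 2) = n * C / (n * δ) ^ 2 by field_simp]
    gcongr

/-- typical weight vectors -/
def Good (ν : Measure ℝ) (n : ℕ) (w : Fin n → ℝ) : Prop :=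
  (∀ v, 0 ≤ w v) ∧ ∀ k ∈ Finset.Icc 1 4, |mom w (tt n) k - Em ν k| ≤ (sq n)⁻¹ ^ 5

lemma measurableSet_Good (ν : Measure ℝ) (n : ℕ) : MeasurableSet {w | Good ν n w} := by
  refine IsClosed.measurableSet ?_
  simp only [Good, ofPred_and, ofPred_forall]
  refine (isClosed_iInter fun v => isClosed_le continuous_const (continuous_apply v)).inter
    (isClosed_iInter fun k => isClosed_iInter fun _ => isClosed_le ?_ continuous_const)
  unfold mom; fun_prop

lemma Wt.bad {ν : Measure ℝ} {C : ℝ} (h : Wt ν C) {n : ℕ} (hn : 1 ≤ n) :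
    Pr (piM ν n) (fun w => ¬ Good ν n w) ≤ 4 * C * (sq n)⁻¹ ^ 2 := by
  have := h.piProb n
  have s0 := sq_pos' hn
  have h0 : Pr (piM ν n) (fun w => ¬ ∀ v, 0 ≤ w v) = 0 := by
    have := h.piPos n
    rw [ae_iff] at this
    rw [Pr, Measure.real, this]; rfl
  have h1 := Pr_exists_le (piM ν n) (Finset.Icc 1 4)
    (fun k w => (sq n)⁻¹ ^ 5 ≤ |mom w (tt n) k - Em ν k|)
  have h2 : ∑ k ∈ Finset.Icc 1 4, Pr (piM ν n)
      (fun w => (sq n)⁻¹ ^ 5 ≤ |mom w (tt n) k - Em ν k|) ≤
      ∑ k ∈ Finset.Icc 1 4, C * (sq n)⁻¹ ^ 2 := Finset.sum_le_sum fun k hk => by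
    refine (h.cheb hn (Finset.mem_Icc.1 hk).2 (by positivity)).trans (le_of_eq ?_)
    rw [← sq_twelve]; field_simp
  refine le_trans (Pr_mono _ fun w hw => ?_) ((Pr_or_le _ _ _).trans
    (add_le_add h0.le (h1.trans h2)) |>.trans (le_of_eq (by simp; ring)))
  rw [Good, not_and_or] at hw
  refine hw.imp id fun hw => ?_
  push Not at hw
  obtain ⟨k, hk, hw⟩ := hw
  exact ⟨k, hk, hw.le⟩

variable {ν : ℕ → Measure ℝ} {m1 lam m3 : ℝ}

lemma Law.bad (L : Law ν m1 lam m3) :
    Tendsto (fun n => Pr (piM (ν n) n) (fun w => ¬ Good (ν n) n w)) atTop (𝓝 0) := by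
  obtain ⟨C, hC⟩ := L.wt
  refine squeeze_zero' (Eventually.of_forall fun n => Pr_nonneg _ _)
    (g := fun n => 4 * C * (sq n)⁻¹ ^ 2) ?_ (by simpa using (sq_inv.pow 2).const_mul (4 * C))
  filter_upwards [hC, eventually_ge_atTop 1] with n h hn using h.bad hn

lemma Law.adm (L : Law ν m1 lam m3) {φ : ℕ → ℕ} (hφ : Tendsto φ atTop atTop)
    (h1 : ∀ k, 1 ≤ φ k) {w : ∀ k, Fin (φ k) → ℝ} (hw : ∀ k, Good (ν (φ k)) (φ k) (w k)) :
    Adm (fun k => ⟨φ k, w k, tt (φ k)⟩) m1 lam m3 := by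
  obtain ⟨C, hC⟩ := L.wt
  have s5 : Tendsto (fun k => (sq (φ k))⁻¹ ^ 5) atTop (𝓝 0) := by
    simpa using (sq_inv.comp hφ).pow 5
  refine ⟨fun k => (hw k).1, fun k => tt_pos (h1 k), fun k => by simp [tt_three], tt_inf.comp hφ,
    tendsto_of_abs_le (L.h1.comp hφ) s5 fun k => (hw k).2 1 (by simp),
    tendsto_of_abs_le (L.h2.comp hφ) (sq_inv.comp hφ) fun k => ?_,
    tendsto_of_abs_le (L.h3.comp hφ) s5 fun k => (hw k).2 3 (by simp), ?_⟩
  · have s0 := sq_pos' (h1 k)
    simp only [Function.comp]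
    rw [← mul_sub, abs_mul, abs_of_pos (tt_pos (h1 k)), sub_sub_sub_cancel_right]
    refine (mul_le_mul_of_nonneg_left ((hw k).2 2 (by simp)) (tt_pos (h1 k)).le).trans
      (le_of_eq ?_)
    rw [tt_eq]; field_simp
  · refine squeeze_zero' (Eventually.of_forall fun k =>
      div_nonneg (mom_nonneg (hw k).1 (tt_pos (h1 k)) 4) (tt_pos (h1 k)).le)
      (g := fun k => (C + (sq (φ k))⁻¹ ^ 5) * (tt (φ k))⁻¹) ?_
      (by simpa using (s5.const_add C).mul (tt_inf.comp hφ).inv_tendsto_atTop)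
    filter_upwards [hφ.eventually hC] with k hk
    have := (abs_le.1 ((hw k).2 4 (by simp))).2
    have := hk.bdd 4 (by norm_num)
    rw [div_eq_mul_inv]
    exact mul_le_mul_of_nonneg_right (by linarith) (inv_pos.2 (tt_pos (h1 k))).le

lemma Law.exists_adm (L : Law ν m1 lam m3) : ∃ M, Adm M m1 lam m3 := by
  obtain ⟨C, hC⟩ := L.wt
  have : ∀ᶠ n in atTop, 1 ≤ n ∧ ∃ w, Good (ν n) n w := by
    filter_upwards [hC, eventually_ge_atTop 1, ev_le_of_tendsto L.bad (z := 1 / 2) (by norm_num)]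
      with n h hn hb
    refine ⟨hn, by_contra fun hc => ?_⟩
    have := h.piProb n
    have := Pr_mono (piM (ν n) n) (p := fun _ => True) (q := fun w => ¬ Good (ν n) n w)
      fun w _ hw => hc ⟨w, hw⟩
    rw [Pr_true] at this
    linarith only [hb, this]
  obtain ⟨φ, hφ, h⟩ := extraction_of_eventually_atTop this
  choose w hw using fun k => (h k).2
  exact ⟨_, L.adm hφ.tendsto_atTop (fun k => (h k).1) hw⟩

lemma Law.anneal (L : Law ν m1 lam m3) (F : ∀ n, (Fin n → ℝ) → ℝ) (hF : ∀ n, Measurable (F n))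
    {B y : ℝ} (hB : ∀ n, 1 ≤ n → ∀ w, (∀ v, 0 ≤ w v) → |F n w| ≤ B)
    (h : ∀ (φ : ℕ → ℕ) (w : ∀ k, Fin (φ k) → ℝ), Tendsto φ atTop atTop → (∀ k, 1 ≤ φ k) →
      (∀ k, Good (ν (φ k)) (φ k) (w k)) → Tendsto (fun k => F (φ k) (w k)) atTop (𝓝 y)) :
    Tendsto (fun n => ∫ w, F n w ∂(piM (ν n) n)) atTop (𝓝 y) := by
  obtain ⟨C, hC⟩ := L.wt
  rw [Metric.tendsto_nhds]
  intro ε hε
  have u : ∀ᶠ n in atTop, ∀ w, Good (ν n) n w → |F n w - y| ≤ ε / 3 := by
    by_contra hc
    rw [not_eventually] at hc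
    obtain ⟨φ, hφ, h'⟩ := extraction_of_frequently_atTop
      (hc.and_eventually (eventually_ge_atTop 1))
    have h2 := fun k => (h' k).1
    push Not at h2
    choose w hw1 hw2 using h2
    obtain ⟨k, hk⟩ := (ev_abs_le (h φ w hφ.tendsto_atTop (fun k => (h' k).2) hw1)
      (η := ε / 3) (by positivity)).exists
    exact absurd hk (not_le.2 (hw2 k))
  have b := L.bad.const_mul (B + |y|)
  rw [mul_zero] at b
  filter_upwards [u, hC, eventually_ge_atTop 1, ev_le_of_tendsto b (z := ε / 3) (by positivity)]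
    with n hu hW hn hb
  have := hW.piProb n
  have i1 : Integrable (F n) (piM (ν n) n) := Integrable.of_bound (hF n).aestronglyMeasurable B
    ((hW.piPos n).mono fun w hw => hB n hn w hw)
  have ms : MeasurableSet {w | ¬ Good (ν n) n w} := (measurableSet_Good _ _).compl
  have i2 : Integrable (fun w => ε / 3 + indicator {w | ¬ Good (ν n) n w} (fun _ => B + |y|) w)
      (piM (ν n) n) := (integrable_const _).add ((integrable_const _).indicator ms)
  have e1 : ∫ w, F n w ∂(piM (ν n) n) - y = ∫ w, (F n w - y) ∂(piM (ν n) n) := by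
    rw [integral_sub i1 (integrable_const _)]; simp
  have e2 := norm_integral_le_of_norm_le (f := fun w => F n w - y) i2
    ((hW.piPos n).mono fun w hw => by
      by_cases hg : Good (ν n) n w
      · rw [indicator_of_notMem (by simpa using hg), add_zero]; exact hu w hg
      · rw [indicator_of_mem (by simpa using hg)]
        have := abs_sub (F n w) y
        have := hB n hn w hw
        rw [Real.norm_eq_abs]; linarith)
  rw [integral_add (integrable_const _) ((integrable_const _).indicator ms),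
    integral_indicator_const _ ms] at e2
  simp only [integral_const, probReal_univ, smul_eq_mul, one_mul, Real.norm_eq_abs] at e2
  rw [Real.dist_eq, e1]
  rw [Pr] at hb
  linarith only [hε, hb, e2]

/-- averaged tilted weight -/
noncomputable def Lam (ν : Measure ℝ) (n : ℕ) (G : SimpleGraph (Fin n)) : ℝ :=
  ∫ w, lamw w (tt n) G ∂(piM ν n)

lemma continuous_lamw {V : Type} [Fintype V] [DecidableEq V] (t : ℝ) (G : SimpleGraph V) :
    Continuous (fun w : V → ℝ => lamw w t G) := by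
  refine Continuous.mul (by fun_prop) (continuous_finsetProd _ fun e _ => ?_)
  induction e using Sym2.ind with
  | h a b => simp only [xe_mk]; fun_prop

lemma Wt.int_lamw {ν : Measure ℝ} {C : ℝ} (h : Wt ν C) {n : ℕ} (hn : 1 ≤ n)
    (G : SimpleGraph (Fin n)) : Integrable (fun w => lamw w (tt n) G) (piM ν n) := by
  have := h.piProb n
  refine Integrable.of_bound (continuous_lamw _ G).aestronglyMeasurable 1
    ((h.piPos n).mono fun w hw => ?_)
  rw [Real.norm_eq_abs, abs_of_nonneg (lamw_nonneg hw (tt_pos hn) G)]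
  exact (Finset.single_le_sum (fun G _ => lamw_nonneg hw (tt_pos hn) G) (Finset.mem_univ G)).trans
    (sum_lamw_le_one hw (tt_pos hn))

lemma Wt.Lam_nonneg {ν : Measure ℝ} {C : ℝ} (h : Wt ν C) {n : ℕ} (hn : 1 ≤ n)
    (G : SimpleGraph (Fin n)) : 0 ≤ Lam ν n G :=
  integral_nonneg_of_ae ((h.piPos n).mono fun _ hw => lamw_nonneg hw (tt_pos hn) G)

lemma Law.anneal' (L : Law ν m1 lam m3) (ψ : ∀ n, SimpleGraph (Fin n) → ℝ) {B y : ℝ}
    (hB : ∀ n G, |ψ n G| ≤ B)
    (h : ∀ (φ : ℕ → ℕ) (w : ∀ k, Fin (φ k) → ℝ), Tendsto φ atTop atTop → (∀ k, 1 ≤ φ k) →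
      (∀ k, Good (ν (φ k)) (φ k) (w k)) →
      Tendsto (fun k => ∑ G, lamw (w k) (tt (φ k)) G * ψ (φ k) G) atTop (𝓝 y)) :
    Tendsto (fun n => ∑ G, Lam (ν n) n G * ψ n G) atTop (𝓝 y) := by
  obtain ⟨C, hC⟩ := L.wt
  have B0 : 0 ≤ B := (abs_nonneg _).trans (hB 0 ⊥)
  refine (L.anneal (fun n w => ∑ G, lamw w (tt n) G * ψ n G) (fun n => (continuous_finsetSum _
    fun G _ => (continuous_lamw _ G).mul continuous_const).measurable) (B := B)
    (fun n hn w hw => ?_) h).congr' ?_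
  · refine (Finset.abs_sum_le_sum_abs _ _).trans (le_trans (Finset.sum_le_sum
      (g := fun G => lamw w (tt n) G * B) fun G _ => ?_) ?_)
    · rw [abs_mul, abs_of_nonneg (lamw_nonneg hw (tt_pos hn) G)]
      exact mul_le_mul_of_nonneg_left (hB n G) (lamw_nonneg hw (tt_pos hn) G)
    · rw [← Finset.sum_mul]
      exact mul_le_of_le_one_left B0 (sum_lamw_le_one hw (tt_pos hn))
  · filter_upwards [hC, eventually_ge_atTop 1] with n hW hn
    rw [integral_finsetSum _ fun G _ => (hW.int_lamw hn G).mul_const _]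
    exact Finset.sum_congr rfl fun G _ => integral_mul_const _ _

theorem Law.limit (L : Law ν m1 lam m3) {f : (ℕ → ℝ) → ℝ} {B y : ℝ} (hB : ∀ x, |f x| ≤ B)
    (hy : ∀ M, Adm M m1 lam m3 → Tendsto (fun k => Fw (M k) f) atTop (𝓝 y)) :
    Tendsto (fun n => ∑ G, Lam (ν n) n G * f (vecL G (tt n))) atTop (𝓝 (exp (-(3 / 4)) * y)) := by
  refine L.anneal' (fun n G => f (vecL G (tt n))) (fun n G => hB _) fun φ w hφ h1 hw => ?_
  have A := L.adm hφ h1 hw
  have := (A.tilt (fun k G => f (vecL G (tt (φ k)))) (fun k G => hB _)).add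
    ((hy _ A).const_mul (exp (-(3 / 4))))
  rw [zero_add] at this
  refine this.congr fun k => ?_
  simp only [Fw, sub_add_cancel]

theorem Law.mass (L : Law ν m1 lam m3) :
    Tendsto (fun n => ∑ G, Lam (ν n) n G) atTop (𝓝 (exp (-(3 / 4)))) := by
  have := L.limit (f := fun _ => 1) (B := 1) (y := 1) (fun _ => by simp) fun M _ => by
    simp [Fw]
  simpa using this

theorem Law.window (L : Law ν m1 lam m3) :
    Tendsto (fun n => ∑ G, Lam (ν n) n G * ind ((|m1| + 3) * sq n ^ 7 ≤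
      |(G.edgeSet.ncard : ℝ) - n * Em (ν n) 1 ^ 2 / 2|)) atTop (𝓝 0) := by
  refine L.anneal' (fun n G => ind ((|m1| + 3) * sq n ^ 7 ≤
      |(G.edgeSet.ncard : ℝ) - n * Em (ν n) 1 ^ 2 / 2|)) (B := 1)
    (fun n G => by rw [abs_of_nonneg (ind_nonneg _)]; exact ind_le_one _) fun φ w hφ h1 hw => ?_
  have A := L.adm hφ h1 hw
  refine squeeze_zero' (Eventually.of_forall fun k => Finset.sum_nonneg fun G _ =>
    mul_nonneg (lamw_nonneg (hw k).1 (tt_pos (h1 k)) G) (ind_nonneg _))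
    (g := fun k => mom (w k) (tt (φ k)) 1 ^ 2 * (sq (φ k))⁻¹ ^ 2) ?_
    (by simpa using (A.h1.pow 2).mul ((sq_inv.comp hφ).pow 2))
  have a1 := (A.h1.add (L.h1.comp hφ)).abs
  have a2 := A.h2'.add (A.h2'.pow 2)
  have a3 : Tendsto (fun k => sq (φ k) ^ 7) atTop atTop :=
    (tendsto_pow_atTop (by norm_num)).comp (sq_inf.comp hφ)
  filter_upwards [ev_le_of_tendsto a1 (z := 2 * |m1| + 2) (by rw [← two_mul, abs_mul]; simp),
    ev_le_of_tendsto a2 (z := 3) (by norm_num), a3.eventually_ge_atTop 3] with k e1 e2 e3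
  have s0 := sq_pos' (h1 k)
  have := edges_conc (hw k).1 (tt_pos (h1 k)) (κ := sq (φ k) ^ 7) (by positivity)
  refine le_trans (Finset.sum_le_sum fun G _ => mul_le_mul_of_nonneg_left ?_
    (lamw_nonneg (hw k).1 (tt_pos (h1 k)) G)) (this.trans (le_of_eq ?_))
  · by_cases hG : (|m1| + 3) * sq (φ k) ^ 7 ≤
        |(G.edgeSet.ncard : ℝ) - (φ k) * Em (ν (φ k)) 1 ^ 2 / 2|
    · rw [ind_pos hG, ind_pos]
      have b1 := (hw k).2 1 (by simp)
      have b2 : |tt (φ k) ^ 3 * mom (w k) (tt (φ k)) 1 ^ 2 / 2 - (φ k) * Em (ν (φ k)) 1 ^ 2 / 2| ≤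
          (|m1| + 1) * sq (φ k) ^ 7 := by
        rw [tt_three, ← sub_div, ← mul_sub, sq_sub_sq, abs_div, abs_mul, abs_mul, abs_two,
          ← sq_twelve, abs_of_pos (by positivity)]
        have := mul_le_mul e1 b1 (abs_nonneg _) (by positivity)
        refine (div_le_div_of_nonneg_right (mul_le_mul_of_nonneg_left this (by positivity))
          zero_le_two).trans (le_of_eq ?_)
        field_simp
      have b3 := abs_sub_le (G.edgeSet.ncard : ℝ) (tt (φ k) ^ 3 * mom (w k) (tt (φ k)) 1 ^ 2 / 2)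
        ((φ k) * Em (ν (φ k)) 1 ^ 2 / 2)
      linarith only [e2, e3, hG, b2, b3]
    · rw [ind_neg hG]; exact ind_nonneg _
  · rw [tt_three, ← sq_twelve]; field_simp

end Pool.Agent.Work.MP_e39611_pr
end

-- merged part: Pool.Agent.Work.MP_e39611_pr.Sand
section
/-!
From the averaged weights to a fixed number of edges, by monotonicity.
-/

namespace Pool.Agent.Work.MP_e39611_pr

open MeasureTheory Set Real Filter Topology
open scoped Classical

set_option linter.unusedSectionVars false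

lemma fiber_bound {Γ : Type} [Fintype Γ] (e : Γ → ℕ) (a g : Γ → ℝ) {c : ℕ → ℝ} (hc : ∀ j, 0 ≤ c j)
    (p : ℕ → Prop) (h : ∀ j, p j → 0 ≤ ∑ G, ind (e G = j) * a G * g G) :
    0 ≤ ∑ G, c (e G) * a G * (ind (p (e G)) * g G) := by
  rw [← Finset.sum_fiberwise_of_maps_to (t := Finset.univ.image e) (g := e)
    (fun G _ => Finset.mem_image_of_mem e (Finset.mem_univ G))]
  refine Finset.sum_nonneg fun j _ => ?_
  have : ∑ G ∈ Finset.univ.filter (fun G => e G = j), c (e G) * a G * (ind (p (e G)) * g G) =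
      c j * ind (p j) * ∑ G, ind (e G = j) * a G * g G := by
    rw [Finset.sum_filter, Finset.mul_sum]
    refine Finset.sum_congr rfl fun G _ => ?_
    split_ifs with hG
    · rw [ind_pos hG, hG]; ring
    · rw [ind_neg hG]; ring
  rw [this]
  by_cases hp : p j
  · exact mul_nonneg (mul_nonneg (hc j) (ind_nonneg _)) (h j hp)
  · rw [ind_neg hp]; simp

lemma ind_not (p : Prop) : ind (¬ p) = 1 - ind p := by
  by_cases h : p
  · rw [ind_pos h, ind_neg (not_not.2 h)]; ring
  · rw [ind_neg h, ind_pos h]; ring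

/-- window half width -/
noncomputable def kap (m1 : ℝ) (n : ℕ) : ℝ := (|m1| + 3) * sq n ^ 7

variable {m1 lam m3 : ℝ}

/-- the weight factorises through the number of edges -/
def Exch (ν : Measure ℝ) (n : ℕ) (a : SimpleGraph (Fin n) → ℝ) : Prop :=
  ∃ c : ℕ → ℝ, (∀ j, 0 ≤ c j) ∧ ∀ G, Lam ν n G = c G.edgeSet.ncard * a G

/-- approximation of the conditional means -/
def Appr (n : ℕ) (a φ : SimpleGraph (Fin n) → ℝ) (h : ℕ → ℝ) (ε : ℝ) : Prop :=
  ∀ j ≤ n, |∑ G : SimpleGraph (Fin n), ind (G.edgeSet.ncard = j) * a G * φ G -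
    h j * ∑ G : SimpleGraph (Fin n), ind (G.edgeSet.ncard = j) * a G| ≤
      ε * ∑ G : SimpleGraph (Fin n), ind (G.edgeSet.ncard = j) * a G

theorem sandwich_main {ν ν' : ℕ → Measure ℝ} (L : Law ν m1 lam m3) (L' : Law ν' m1 lam m3)
    {f : (ℕ → ℝ) → ℝ} {B y : ℝ} (h0 : ∀ x, 0 ≤ f x) (hB : ∀ x, f x ≤ B)
    (hy : ∀ M, Adm M m1 lam m3 → Tendsto (fun k => Fw (M k) f) atTop (𝓝 y))
    {a : ∀ n, SimpleGraph (Fin n) → ℝ} {h : ℕ → ℕ → ℝ} {m : ℕ → ℕ} {ε : ℕ → ℝ}
    (hε : Tendsto ε atTop (𝓝 0)) (ha : ∀ n G, 0 ≤ a n G)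
    (hex : ∀ᶠ n in atTop, Exch (ν n) n (a n)) (hex' : ∀ᶠ n in atTop, Exch (ν' n) n (a n))
    (happ : ∀ᶠ n in atTop, Appr n (a n) (fun G => f (vecL G (tt n))) (h n) (ε n))
    (hmono : ∀ᶠ n in atTop, ∀ i j, i ≤ j → j ≤ n → h n i ≤ h n j)
    (hw : ∀ᶠ n in atTop, n * Em (ν n) 1 ^ 2 / 2 = m n + kap m1 n)
    (hw' : ∀ᶠ n in atTop, n * Em (ν' n) 1 ^ 2 / 2 = m n - kap m1 n)
    (hm : ∀ᶠ n in atTop, m n + 2 * kap m1 n ≤ n) :
    Tendsto (fun n => h n (m n)) atTop (𝓝 y) := by
  have hB' : ∀ x, |f x| ≤ B := fun x => by rw [abs_of_nonneg (h0 x)]; exact hB x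
  have c0 := exp_pos (-(3 / 4))
  have pos : ∀ n j, 0 ≤ ∑ G : SimpleGraph (Fin n), ind (G.edgeSet.ncard = j) * a n G :=
    fun n j => Finset.sum_nonneg fun G _ => mul_nonneg (ind_nonneg _) (ha n G)
  have t1 := L.mass.sub L.window
  have t1' := L'.mass.sub L'.window
  rw [sub_zero] at t1 t1'
  have u := ((L.limit hB' hy).div t1 c0.ne').add hε
  have l := (((L'.limit hB' hy).sub (L'.window.const_mul B)).div t1' c0.ne').sub hε
  rw [add_zero, mul_div_cancel_left₀ _ c0.ne'] at u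
  rw [sub_zero, mul_zero, sub_zero, mul_div_cancel_left₀ _ c0.ne'] at l
  obtain ⟨C, hC⟩ := L.wt
  obtain ⟨C', hC'⟩ := L'.wt
  refine tendsto_of_tendsto_of_tendsto_of_le_of_le' l u ?_ ?_
  · filter_upwards [hex', happ, hmono, hw', hm, t1'.eventually (lt_mem_nhds c0), hC',
      eventually_ge_atTop 1] with n ⟨c, hc, hex⟩ happ hmono hw hm hp hW hn
    have k0 : 0 ≤ kap m1 n := mul_nonneg (by positivity) (pow_nonneg (sq_pos' hn).le _)
    have mn : m n ≤ n := by exact_mod_cast (show (m n : ℝ) ≤ n by linarith only [hm, k0])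
    have := fiber_bound (fun G : SimpleGraph (Fin n) => G.edgeSet.ncard) (a n)
      (fun G => h n (m n) + ε n - f (vecL G (tt n))) hc
      (fun j => ¬ kap m1 n ≤ |(j : ℝ) - n * Em (ν' n) 1 ^ 2 / 2|) fun j hj => by
        have j1 := (abs_lt.1 (not_le.1 hj)).2
        have jm : j ≤ m n := by exact_mod_cast (show (j : ℝ) ≤ m n by linarith only [hw, j1])
        have b1 := (abs_le.1 (happ j (jm.trans mn))).2
        have b2 := mul_le_mul_of_nonneg_right (hmono j (m n) jm mn) (pos n j)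
        simp only [mul_sub, Finset.sum_sub_distrib, ← Finset.sum_mul]
        linarith only [b1, b2]
    simp only [← hex, ind_not] at this
    rw [sub_le_iff_le_add, Pi.div_apply, div_le_iff₀ hp]
    have b4 : ∑ G, Lam (ν' n) n G * f (vecL G (tt n)) - B * ∑ G, Lam (ν' n) n G *
        ind (kap m1 n ≤ |(G.edgeSet.ncard : ℝ) - n * Em (ν' n) 1 ^ 2 / 2|) ≤
        ∑ G, Lam (ν' n) n G * ((1 - ind (kap m1 n ≤ |(G.edgeSet.ncard : ℝ) -
          n * Em (ν' n) 1 ^ 2 / 2|)) * f (vecL G (tt n))) := by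
      rw [Finset.mul_sum, ← Finset.sum_sub_distrib]
      refine Finset.sum_le_sum fun G _ => ?_
      have := mul_nonneg (mul_nonneg (hW.Lam_nonneg hn G) (ind_nonneg (kap m1 n ≤
        |(G.edgeSet.ncard : ℝ) - n * Em (ν' n) 1 ^ 2 / 2|))) (sub_nonneg.2 (hB (vecL G (tt n))))
      linarith only [this]
    refine b4.trans ?_
    rw [← Finset.sum_sub_distrib, Finset.mul_sum, ← sub_nonneg, ← Finset.sum_sub_distrib]
    refine this.trans (le_of_eq (Finset.sum_congr rfl fun G _ => ?_))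
    rw [kap]; ring
  · filter_upwards [hex, happ, hmono, hw, hm, t1.eventually (lt_mem_nhds c0), hC,
      eventually_ge_atTop 1] with n ⟨c, hc, hex⟩ happ hmono hw hm hp hW hn
    have := fiber_bound (fun G : SimpleGraph (Fin n) => G.edgeSet.ncard) (a n)
      (fun G => f (vecL G (tt n)) - (h n (m n) - ε n)) hc
      (fun j => ¬ kap m1 n ≤ |(j : ℝ) - n * Em (ν n) 1 ^ 2 / 2|) fun j hj => by
        have j1 := abs_lt.1 (not_le.1 hj)
        have jm : m n ≤ j := by exact_mod_cast (show (m n : ℝ) ≤ j by linarith only [hw, j1])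
        have jn : j ≤ n := by exact_mod_cast (show (j : ℝ) ≤ n by linarith only [hw, hm, j1])
        have b1 := (abs_le.1 (happ j jn)).1
        have b2 := mul_le_mul_of_nonneg_right (hmono (m n) j jm jn) (pos n j)
        simp only [mul_sub _ (f _), Finset.sum_sub_distrib, ← Finset.sum_mul]
        linarith only [b1, b2]
    simp only [← hex, ind_not] at this
    rw [← sub_le_iff_le_add, Pi.div_apply, le_div_iff₀ hp]
    have b4 : ∑ G, Lam (ν n) n G * ((1 - ind (kap m1 n ≤ |(G.edgeSet.ncard : ℝ) -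
          n * Em (ν n) 1 ^ 2 / 2|)) * f (vecL G (tt n))) ≤
        ∑ G, Lam (ν n) n G * f (vecL G (tt n)) := by
      refine Finset.sum_le_sum fun G _ => ?_
      have := mul_nonneg (mul_nonneg (hW.Lam_nonneg hn G) (ind_nonneg (kap m1 n ≤
        |(G.edgeSet.ncard : ℝ) - n * Em (ν n) 1 ^ 2 / 2|))) (h0 (vecL G (tt n)))
      linarith only [this]
    refine le_trans ?_ b4
    rw [← Finset.sum_sub_distrib, Finset.mul_sum, ← sub_nonneg, ← Finset.sum_sub_distrib]
    refine this.trans (le_of_eq (Finset.sum_congr rfl fun G _ => ?_))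
    rw [kap]; ring

end Pool.Agent.Work.MP_e39611_pr
end

-- merged part: Pool.Agent.Work.MP_e39611_pr.Simple
section
/-!
The simple graph process is close in total variation to the weight `a(G)` on graphs with `m` edges.
-/

namespace Pool.Agent.Work.MP_e39611_pr

open Set Real SimpleGraph Filter Topology
open scoped Classical

set_option linter.unusedSectionVars false

section Lists

variable {V : Type} [Fintype V] [DecidableEq V] {α : ℝ}

/-- graph of a list -/
def gL : {t : ℕ} → (Fin t → V × V) → SimpleGraph V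
  | 0, _ => ⊥
  | _ + 1, L => gL (Fin.removeNth 0 L) ⊔ edge (L 0).1 (L 0).2

/-- lists without loops and repeated edges -/
def sim : {t : ℕ} → (Fin t → V × V) → Prop
  | 0, _ => True
  | _ + 1, L => sim (Fin.removeNth 0 L) ∧ NA (gL (Fin.removeNth 0 L)) (L 0).1 (L 0).2

lemma sim_dg : ∀ {t : ℕ} {L : Fin t → V × V}, sim L → dg (gL L) = dL L
  | 0, _, _ => by ext v; simp [gL, dg, dL]
  | _ + 1, L, h => by rw [gL, dg_sup h.2, sim_dg h.1, dL_pick L 0, add_comm]

lemma sim_adj (φ : V → V → ℝ) : ∀ {t : ℕ} {L : Fin t → V × V}, sim L →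
    ∑ x, ∑ y, ind ((gL L).Adj x y) * φ x y = ∑ s, (φ (L s).1 (L s).2 + φ (L s).2 (L s).1)
  | 0, _, _ => by simp [gL, ind]
  | _ + 1, L, h => by
    rw [gL, sum_adj_sup h.2, sim_adj φ h.1, Fin.sum_univ_succAbove _ 0, add_assoc, add_comm]; rfl

lemma sim_ne : ∀ {t : ℕ} {L : Fin t → V × V}, sim L → ∀ s, (L s).1 ≠ (L s).2
  | 0, _, _, s => s.elim0
  | _ + 1, _, h, s => by
    refine Fin.cases h.2.1 (fun i => ?_) s
    exact sim_ne h.1 i

lemma om_ee (α : ℝ) (k : V → ℕ) {u v : V} (h : u ≠ v) :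
    om α k (ee (u, v)) = (α + k u) * (α + k v) := by
  rw [om, Finset.prod_eq_mul u v h (fun c _ hc => by simp [ee, hc.1, hc.2]) (by simp) (by simp)]
  simp [ee, h, h.symm, rf]

lemma sz_dL {t : ℕ} (L : Fin t → V × V) : sz (dL L) = 2 * t := by
  induction t with
  | zero => simp [dL]
  | succ t ih => rw [dL_pick L 0, sz_add, sz_ee, ih]; ring

end Lists

variable {n : ℕ} {α : ℝ}

lemma Zt_sim (α : ℝ) {t : ℕ} {L : Fin t → Fin n × Fin n} (h : sim L) :
    Zt α (gL L) = rf (yy (Fin n) α + (2 * t : ℕ)) 2 - (XL α L + YL α L) := by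
  have h1 := sum_add_deg α (dL L)
  rw [sz_dL] at h1
  have h2 : YL α L = ∑ s, ((α + dL L (L s).1) * (α + dL L (L s).2) +
      (α + dL L (L s).2) * (α + dL L (L s).1)) := by
    rw [YL, Finset.mul_sum]
    exact Finset.sum_congr rfl fun s _ => by rw [om_ee α _ (sim_ne h s)]; ring
  have h3 : XL α L = ∑ u, (α + dL L u) * (α + dL L u) + (yy (Fin n) α + (2 * t : ℕ)) := by
    rw [← h1, ← Finset.sum_add_distrib]
    exact Finset.sum_congr rfl fun u _ => by rw [rf_two]; ring
  simp only [Zt, wt_eq, ind_NA, sub_mul, Finset.sum_sub_distrib, one_mul, sum_ind_eq, sim_dg h]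
  rw [sim_adj (fun x y => (α + dL L x) * (α + dL L y)) h, ← Finset.sum_mul_sum, h1, h2, h3, rf_two]
  ring

/-- law of the multigraph process restricted to simple outcomes -/
noncomputable def KK (α : ℝ) (n t : ℕ) (G : SimpleGraph (Fin n)) : ℝ :=
  ∑ L : Fin t → Fin n × Fin n, ind (sim L) * (Aw α (dL L) / rf (yy (Fin n) α) (2 * t)) *
    ind (G = gL L)

lemma sum_KK (α : ℝ) (t : ℕ) (ψ : SimpleGraph (Fin n) → ℝ) : ∑ G, KK α n t G * ψ G =
    ∑ L : Fin t → Fin n × Fin n, ind (sim L) * (Aw α (dL L) / rf (yy (Fin n) α) (2 * t)) *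
      ψ (gL L) := by
  simp only [KK, Finset.sum_mul]
  rw [Finset.sum_comm]
  simp only [mul_assoc, ← Finset.mul_sum, sum_ind_eq]

lemma KK_succ (α : ℝ) (t : ℕ) (φ : SimpleGraph (Fin n) → ℝ) : ∑ G, KK α n (t + 1) G * φ G =
    ∑ G, KK α n t G * ((∑ u, ∑ v, wt α G u v * φ (G ⊔ edge u v)) /
      rf (yy (Fin n) α + (2 * t : ℕ)) 2) := by
  rw [sum_KK, sum_KK]
  simp only [dL_pick _ 0]
  rw [show ∑ L : Fin (t + 1) → Fin n × Fin n, ind (sim L) * (Aw α (ee (L 0) +
    dL (Fin.removeNth 0 L)) / rf (yy (Fin n) α) (2 * (t + 1))) * φ (gL L) = _ from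
    sum_pick 0 (fun p L => ind (sim L ∧ NA (gL L) p.1 p.2) * (Aw α (ee p + dL L) /
      rf (yy (Fin n) α) (2 * (t + 1))) * φ (gL L ⊔ edge p.1 p.2)), Finset.sum_comm]
  refine Finset.sum_congr rfl fun L _ => ?_
  simp only [ind_and, mul_assoc]
  rw [← Finset.mul_sum]
  refine ind_mul_congr fun h => ?_
  rw [Fintype.sum_prod_type, Finset.sum_div, Finset.mul_sum]
  refine Finset.sum_congr rfl fun u _ => ?_
  rw [Finset.sum_div, Finset.mul_sum]
  refine Finset.sum_congr rfl fun v _ => ?_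
  rw [wt_eq, mul_assoc (ind _), mul_div_assoc, mul_left_comm _ (ind _)]
  refine ind_mul_congr fun h' => ?_
  rw [add_comm (ee _), Aw_add, om_ee α _ h'.1, sim_dg h, mul_add 2 t, rf_add]
  ring

lemma KK_succ' (α : ℝ) (t : ℕ) (G' : SimpleGraph (Fin n)) : KK α n (t + 1) G' =
    ∑ G, KK α n t G * ((∑ u, ∑ v, wt α G u v * ind (G ⊔ edge u v = G')) /
      rf (yy (Fin n) α + (2 * t : ℕ)) 2) := by
  rw [← KK_succ α t (fun G => ind (G = G'))]
  simp only [mul_comm (KK _ _ _ _), sum_ind_eq]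

lemma KK_zero (α : ℝ) (G : SimpleGraph (Fin n)) : KK α n 0 G = ind (G = ⊥) := by
  simp [KK, sim, gL, dL, Aw_zero, ind]

lemma KK_shape (hy : 0 < yy (Fin n) α) (t : ℕ) : ∃ κ, 0 < κ ∧ ∀ G : SimpleGraph (Fin n),
    KK α n t G = κ * (ind (G.edgeSet.ncard = t) * Aw α (dg G)) := by
  induction t with
  | zero =>
    refine ⟨1, one_pos, fun G => ?_⟩
    rw [KK_zero, one_mul, ind_congr (card_zero_iff G), ← mul_one (ind _), mul_assoc, one_mul]
    refine ind_mul_congr fun h => ?_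
    rw [h, show dg (⊥ : SimpleGraph (Fin n)) = 0 by ext v; simp [dg], Aw_zero]
  | succ t ih =>
    obtain ⟨κ, κ0, hκ⟩ := ih
    have p := rf_pos (y := yy (Fin n) α + (2 * t : ℕ)) (by positivity) 2
    refine ⟨κ / rf (yy (Fin n) α + (2 * t : ℕ)) 2 * (2 * (t + 1)), by positivity, fun G' => ?_⟩
    have := SE_succ t (fun G => ind (G = G') * Aw α (dg G))
    simp only [SE, mul_left_comm _ (ind (_ = G')), sum_ind_eq] at this
    rw [KK_succ', mul_assoc, this, Finset.mul_sum]
    refine Finset.sum_congr rfl fun G _ => ?_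
    rw [hκ, Finset.sum_div, Finset.mul_sum, Finset.mul_sum]
    refine Finset.sum_congr rfl fun u _ => ?_
    rw [Finset.sum_div, Finset.mul_sum, Finset.mul_sum]
    refine Finset.sum_congr rfl fun v _ => ?_
    by_cases h : NA G u v
    · rw [wt_eq, dg_sup h, Aw_add, om_ee α _ h.1]; ring
    · rw [wt_eq, ind_neg h]; ring

lemma tele (hα : 0 < α) {u : ℝ} (hu : α + 6 ≤ u * α) (hn : 64 * u ^ 2 ≤ n) {δ : ℝ} (hδ : 0 < δ) :
    ∀ t ≤ n, ∃ C, exp (-(32 * u ^ 2 / n * t)) ≤ C ∧
      ∑ G, |KK α n t G - C * paLaw α n t G| ≤ t * (7000 * u ^ 6 / n ^ 3 / δ + δ) := by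
  have u1 : 1 ≤ u := by (refine le_of_not_gt fun h_nl => ?_; linarith only [h_nl, hu, hα, mul_pos_of_neg_of_neg (Mathlib.Tactic.Linarith.sub_neg_of_lt hα) (Mathlib.Tactic.Linarith.sub_neg_of_lt h_nl)])
  have n3 : 3 ≤ n := by exact_mod_cast (show (3 : ℝ) ≤ n by (refine le_of_not_gt fun h_nl => ?_; linarith only [h_nl, hα, hu, u1, hn, mul_nonneg_of_nonpos_of_nonpos (le_of_lt (Mathlib.Tactic.Linarith.sub_neg_of_lt hα)) (Mathlib.Tactic.Linarith.sub_nonpos_of_le hn), mul_pos_of_neg_of_neg (Mathlib.Tactic.Linarith.sub_neg_of_lt hα) (Mathlib.Tactic.Linarith.sub_neg_of_lt h_nl), mul_nonneg_of_nonpos_of_nonpos (Mathlib.Tactic.Linarith.sub_nonpos_of_le hu) (Mathlib.Tactic.Linarith.sub_nonpos_of_le u1)]))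
  have n0 : (0 : ℝ) < n := by (refine lt_of_not_ge fun h_nl => ?_; linarith only [h_nl, hα, hu, u1, hn, mul_nonneg_of_nonpos_of_nonpos (le_of_lt (Mathlib.Tactic.Linarith.sub_neg_of_lt hα)) (Mathlib.Tactic.Linarith.sub_nonpos_of_le hn), mul_nonneg_of_nonpos_of_nonpos (le_of_lt (Mathlib.Tactic.Linarith.sub_neg_of_lt hα)) (Mathlib.Tactic.Linarith.sub_nonpos_of_le h_nl), mul_nonneg_of_nonpos_of_nonpos (Mathlib.Tactic.Linarith.sub_nonpos_of_le hu) (Mathlib.Tactic.Linarith.sub_nonpos_of_le u1)])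
  have hy : 0 < yy (Fin n) α := by rw [yy, Fintype.card_fin]; positivity
  intro t
  induction t with
  | zero => exact fun _ => ⟨1, by simp, by simp [KK_zero, paLaw_zero]⟩
  | succ t ih =>
    intro ht
    obtain ⟨C, hC, h⟩ := ih (by omega)
    obtain ⟨κ, κ0, hκ⟩ := KK_shape hy t
    obtain ⟨c, c0, c1, hc⟩ := polya_conc (V := Fin n) hα hu (by rw [Fintype.card_fin]; (refine le_of_not_gt fun h_nl => ?_; linarith only [h_nl, hα, hu, u1, hn, mul_nonneg_of_nonpos_of_nonpos (le_of_lt (Mathlib.Tactic.Linarith.sub_neg_of_lt hα)) (Mathlib.Tactic.Linarith.sub_nonpos_of_le hn), mul_pos_of_neg_of_neg (Mathlib.Tactic.Linarith.sub_neg_of_lt hα) (Mathlib.Tactic.Linarith.sub_neg_of_lt h_nl), mul_nonneg_of_nonpos_of_nonpos (Mathlib.Tactic.Linarith.sub_nonpos_of_le hu) (Mathlib.Tactic.Linarith.sub_nonpos_of_le u1)]))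
      (t := t) (by rw [Fintype.card_fin]; omega)
    rw [Fintype.card_fin] at c1 hc
    have c2 : c ≤ 1 / 4 := c1.trans (by rw [div_le_div_iff₀ n0 (by norm_num)]; linarith only [hn])
    set D := rf (yy (Fin n) α + (2 * t : ℕ)) 2 with hD
    have p : 0 < D := rf_pos (by positivity) 2
    have R := rf_pos hy (2 * t)
    have K0 : ∀ G, 0 ≤ KK α n t G := fun G => by
      rw [hκ]; exact mul_nonneg κ0.le (mul_nonneg (ind_nonneg _) (Aw_pos hα _).le)
    refine ⟨(1 - c) * C, ?_, ?_⟩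
    · rw [Nat.cast_succ, mul_add, neg_add, exp_add, mul_comm]
      refine mul_le_mul ?_ hC (exp_pos _).le (by linarith only [c2])
      have a1 := one_sub_exp_ge (x := 2 * c) (by positivity)
      have a2 : exp (-(32 * u ^ 2 / n * 1)) ≤ exp (-(2 * c)) := exp_le_exp.2 (by
        rw [show 32 * u ^ 2 / n * 1 = 2 * (16 * u ^ 2 / n) by ring]; linarith only [c1])
      linarith only [a1, a2, c0, c2, mul_nonneg_of_nonpos_of_nonpos (Mathlib.Tactic.Linarith.sub_nonpos_of_le c0) (Mathlib.Tactic.Linarith.sub_nonpos_of_le c2)]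
    have e1 : ∀ G', KK α n (t + 1) G' - (1 - c) * C * paLaw α n (t + 1) G' =
        ∑ G, (KK α n t G * (Zt α G / D - (1 - c)) + (1 - c) * (KK α n t G - C * paLaw α n t G)) *
          step α G G' := fun G' => by
      rw [KK_succ', paLaw_succ, Finset.mul_sum, ← Finset.sum_sub_distrib]
      refine Finset.sum_congr rfl fun G _ => ?_
      have := sum_step α G (fun G => ind (G = G'))
      simp only [mul_comm (step _ _ _), sum_ind_eq] at this
      by_cases hG : G.edgeSet.ncard = t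
      · have := Zt_pos hα n3 (G := G) (by omega)
        rw [‹step α G G' = _›, ← hD]; field_simp; ring
      · rw [hκ, ind_neg hG]; ring
    have e2 : ∑ G, KK α n t G * |Zt α G / D - (1 - c)| ≤ 7000 * u ^ 6 / n ^ 3 / δ + δ := by
      rw [sum_KK, ← mul_le_mul_iff_left₀ R, Finset.sum_mul]
      refine le_trans (Finset.sum_le_sum fun L _ => ?_) (hc δ hδ)
      by_cases hL : sim L
      · rw [ind_pos hL, Zt_sim α hL, ← hD, abs_sub_comm,
          show 1 - c - (D - (XL α L + YL α L)) / D = (XL α L + YL α L) / D - c by field_simp; ring]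
        exact le_of_eq (by field_simp)
      · rw [ind_neg hL, zero_mul, zero_mul, zero_mul]
        exact mul_nonneg (Aw_pos hα _).le (abs_nonneg _)
    simp only [e1]
    refine (Finset.sum_le_sum fun G' _ => Finset.abs_sum_le_sum_abs _ _).trans ?_
    rw [Finset.sum_comm, Nat.cast_succ, add_mul, one_mul, add_comm]
    refine le_trans ?_ (add_le_add e2 h)
    rw [← Finset.sum_add_distrib]
    refine Finset.sum_le_sum fun G _ => ?_
    simp only [abs_mul _ (step _ _ _), abs_of_nonneg (step_nonneg hα _ _), ← Finset.mul_sum]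
    refine (mul_le_of_le_one_right (abs_nonneg _) (sum_step_le α G)).trans
      ((abs_add_le _ _).trans (add_le_add (le_of_eq ?_) ?_))
    · rw [abs_mul, abs_of_nonneg (K0 G)]
    · rw [abs_mul, abs_of_nonneg (by linarith only [c2])]
      exact mul_le_of_le_one_left (abs_nonneg _) (by linarith only [c0])

lemma pa_appr (hα : 0 < α) {u : ℝ} (hu : α + 6 ≤ u * α) (hn : 64 * u ^ 2 ≤ n) {δ : ℝ} (hδ : 0 < δ)
    {η : ℝ} (hη : n * (7000 * u ^ 6 / n ^ 3 / δ + δ) ≤ η) (hη' : η ≤ exp (-(32 * u ^ 2)) / 2)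
    {φ : SimpleGraph (Fin n) → ℝ} {B : ℝ} (hB : ∀ G, |φ G| ≤ B) :
    Appr n (fun G => Aw α (dg G)) φ (fun j => ∑ G, paLaw α n j G * φ G)
      (4 * B * η / exp (-(32 * u ^ 2))) := by
  have u1 : 1 ≤ u := by (refine le_of_not_gt fun h_nl => ?_; linarith only [h_nl, hu, hα, mul_pos_of_neg_of_neg (Mathlib.Tactic.Linarith.sub_neg_of_lt hα) (Mathlib.Tactic.Linarith.sub_neg_of_lt h_nl)])
  have n3 : 3 ≤ n := by exact_mod_cast (show (3 : ℝ) ≤ n by (refine le_of_not_gt fun h_nl => ?_; linarith only [h_nl, hα, hu, u1, hn, mul_nonneg_of_nonpos_of_nonpos (le_of_lt (Mathlib.Tactic.Linarith.sub_neg_of_lt hα)) (Mathlib.Tactic.Linarith.sub_nonpos_of_le hn), mul_pos_of_neg_of_neg (Mathlib.Tactic.Linarith.sub_neg_of_lt hα) (Mathlib.Tactic.Linarith.sub_neg_of_lt h_nl), mul_nonneg_of_nonpos_of_nonpos (Mathlib.Tactic.Linarith.sub_nonpos_of_le hu) (Mathlib.Tactic.Linarith.sub_nonpos_of_le u1)]))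
  have n0 : (0 : ℝ) < n := by (refine lt_of_not_ge fun h_nl => ?_; linarith only [h_nl, hα, hu, u1, hn, mul_nonneg_of_nonpos_of_nonpos (le_of_lt (Mathlib.Tactic.Linarith.sub_neg_of_lt hα)) (Mathlib.Tactic.Linarith.sub_nonpos_of_le hn), mul_nonneg_of_nonpos_of_nonpos (le_of_lt (Mathlib.Tactic.Linarith.sub_neg_of_lt hα)) (Mathlib.Tactic.Linarith.sub_nonpos_of_le h_nl), mul_nonneg_of_nonpos_of_nonpos (Mathlib.Tactic.Linarith.sub_nonpos_of_le hu) (Mathlib.Tactic.Linarith.sub_nonpos_of_le u1)])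
  have hy : 0 < yy (Fin n) α := by rw [yy, Fintype.card_fin]; positivity
  have B0 : 0 ≤ B := (abs_nonneg _).trans (hB ⊥)
  intro j hj
  have jn : (j : ℝ) ≤ n := Nat.cast_le.2 hj
  obtain ⟨C, hC, h⟩ := tele hα hu hn hδ j hj
  obtain ⟨κ, κ0, hκ⟩ := KK_shape hy j
  replace h := h.trans ((mul_le_mul_of_nonneg_right jn (by positivity)).trans hη)
  have η0 : 0 ≤ η := (Finset.sum_nonneg fun _ _ => abs_nonneg _).trans h
  replace hC : exp (-(32 * u ^ 2)) ≤ C := le_trans (exp_le_exp.2 (neg_le_neg (by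
    rw [div_mul_eq_mul_div, div_le_iff₀ n0]; gcongr))) hC
  have P1 := paLaw_sum hα n3 j hj
  have a1 : ∀ ψ : SimpleGraph (Fin n) → ℝ, ∀ b, (∀ G, |ψ G| ≤ b) →
      |∑ G, KK α n j G * ψ G - C * ∑ G, paLaw α n j G * ψ G| ≤ η * b := fun ψ b hb => by
    rw [Finset.mul_sum, ← Finset.sum_sub_distrib]
    refine (Finset.abs_sum_le_sum_abs _ _).trans (le_trans ?_ (mul_le_mul_of_nonneg_right h
      ((abs_nonneg _).trans (hb ⊥))))
    rw [Finset.sum_mul]
    refine Finset.sum_le_sum fun G _ => ?_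
    rw [← mul_assoc, ← sub_mul, abs_mul]
    exact mul_le_mul_of_nonneg_left (hb G) (abs_nonneg _)
  have a2 := a1 φ B hB
  have a3 := a1 (fun _ => 1) 1 (by simp)
  simp only [mul_one, P1] at a3
  have a4 : |∑ G, paLaw α n j G * φ G| ≤ B := by
    refine (Finset.abs_sum_le_sum_abs _ _).trans (le_trans (Finset.sum_le_sum
      (g := fun G => paLaw α n j G * B) fun G _ => ?_) (by rw [← Finset.sum_mul, P1, one_mul]))
    rw [abs_mul, abs_of_nonneg (paLaw_nonneg hα _ _)]
    exact mul_le_mul_of_nonneg_left (hB G) (paLaw_nonneg hα _ _)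
  simp only [hκ, mul_assoc κ, ← Finset.mul_sum] at a2 a3
  dsimp only
  generalize ∑ G : SimpleGraph (Fin n), ind (G.edgeSet.ncard = j) * Aw α (dg G) * φ G = X at *
  generalize ∑ G : SimpleGraph (Fin n), ind (G.edgeSet.ncard = j) * Aw α (dg G) = Y at *
  generalize ∑ G, paLaw α n j G * φ G = H at *
  have c0 := exp_pos (-(32 * u ^ 2))
  have a5 : exp (-(32 * u ^ 2)) / 2 ≤ κ * Y := by linarith only [hη', hC, a3, (abs_le.1 a3).1]
  have a6 : |κ * X - H * (κ * Y)| ≤ 2 * B * η := by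
    rw [show κ * X - H * (κ * Y) = (κ * X - C * H) - H * (κ * Y - C) by ring]
    refine (abs_sub _ _).trans ?_
    rw [abs_mul]
    have := mul_le_mul a4 a3 (abs_nonneg _) B0
    linarith only [a2, this]
  rw [show κ * X - H * (κ * Y) = κ * (X - H * Y) by ring, abs_mul, abs_of_pos κ0] at a6
  refine le_of_mul_le_mul_left (a6.trans ?_) κ0
  rw [mul_left_comm]
  refine le_trans (le_of_eq ?_) (mul_le_mul_of_nonneg_left a5 (by positivity))
  field_simp; ring

theorem pa_appr_ev {α : ℕ → ℝ} {r : ℝ} (hα : ∀ n, 0 < α n)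
    (hr : Tendsto (fun n => (α n)⁻¹) atTop (𝓝 r)) (φ : ∀ n, SimpleGraph (Fin n) → ℝ) {B : ℝ}
    (hB : ∀ n G, |φ n G| ≤ B) : ∃ ε : ℕ → ℝ, Tendsto ε atTop (𝓝 0) ∧ ∀ᶠ n in atTop,
    Appr n (fun G => Aw (α n) (dg G)) (φ n) (fun j => ∑ G, paLaw (α n) n j G * φ n G) (ε n) := by
  set u := 1 + 6 * (r + 1)
  have i := tt_inf.inv_tendsto_atTop
  have h : Tendsto (fun n => 7000 * u ^ 6 * (tt n)⁻¹ ^ 2 + (tt n)⁻¹) atTop (𝓝 0) := by
    simpa using ((i.pow 2).const_mul (7000 * u ^ 6)).add i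
  refine ⟨fun n => 4 * B * (7000 * u ^ 6 * (tt n)⁻¹ ^ 2 + (tt n)⁻¹) / exp (-(32 * u ^ 2)),
    by simpa using (h.const_mul (4 * B)).div_const (exp (-(32 * u ^ 2))), ?_⟩
  filter_upwards [ev_le_of_tendsto hr (lt_add_one r), eventually_ge_atTop 1,
    (tendsto_natCast_atTop_atTop (R := ℝ)).eventually_ge_atTop (64 * u ^ 2),
    ev_le_of_tendsto h (half_pos (exp_pos (-(32 * u ^ 2))))] with n h1 h2 h3 h4
  have t0 := tt_pos h2
  have a0 := hα n
  refine pa_appr a0 ?_ h3 (δ := (tt n)⁻¹ ^ 4) (by positivity) (le_of_eq ?_) h4 (hB n)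
  · have := mul_le_mul_of_nonneg_right h1 a0.le
    rw [inv_mul_cancel₀ a0.ne'] at this
    simp only [u]; linarith only [this]
  · rw [← tt_three]; field_simp

end Pool.Agent.Work.MP_e39611_pr
end

-- merged part: Pool.Agent.Work.MP_e39611_pr.Gamma
section
/-!
Gamma distributed and constant vertex weights.
-/

namespace Pool.Agent.Work.MP_e39611_pr

open MeasureTheory ProbabilityTheory Set Real Filter Topology
open scoped Classical

set_option linter.unusedSectionVars false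

lemma Gamma_add_nat {a : ℝ} (ha : 0 < a) (d : ℕ) : Gamma (a + d) = rf a d * Gamma a := by
  induction d with
  | zero => simp
  | succ d ih =>
    rw [Nat.cast_succ, ← add_assoc, Gamma_add_one (by positivity), ih, rf_succ]; ring

lemma gamma_int {a b s : ℝ} (ha : 0 < a) (hb : 0 < b) (hs : 0 ≤ s) (d : ℕ) :
    ∫ x, x ^ d * exp (-(s * x)) ∂(gammaMeasure a b) =
      rf a d * (b ^ a * (1 / (b + s)) ^ a) * (1 / (b + s)) ^ d := by
  have h1 := integral_rpow_mul_exp_neg_mul_Ioi (a := a + d) (r := b + s) (by positivity)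
    (by positivity)
  have hG := Gamma_pos_of_pos ha
  rw [gammaMeasure, integral_withDensity_eq_integral_toReal_smul (f := gammaPDF a b)
    (measurable_gammaPDFReal a b).ennreal_ofReal (ae_of_all _ fun _ => ENNReal.ofReal_lt_top)]
  have : (fun x => (gammaPDF a b x).toReal • (x ^ d * exp (-(s * x)))) =
      indicator (Ici 0) (fun x => b ^ a / Gamma a * x ^ (a - 1) * exp (-(b * x)) *
        (x ^ d * exp (-(s * x)))) := by
    ext x
    rw [gammaPDF, ENNReal.toReal_ofReal (gammaPDFReal_nonneg ha hb x), gammaPDFReal, indicator,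
      smul_eq_mul]
    simp only [mem_Ici]
    split_ifs <;> simp
  rw [this, integral_indicator measurableSet_Ici, integral_Ici_eq_integral_Ioi,
    setIntegral_congr_fun (g := fun x => b ^ a / Gamma a *
      (x ^ (a + d - 1) * exp (-((b + s) * x)))) measurableSet_Ioi (fun x (hx : 0 < x) => by
      simp only
      rw [show a + d - 1 = a - 1 + d by ring, rpow_add hx, rpow_natCast,
        show -((b + s) * x) = -(b * x) + -(s * x) by ring, exp_add]; ring),
    integral_const_mul, h1, Gamma_add_nat ha, rpow_add (by positivity), rpow_natCast]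
  field_simp

lemma gamma_Em {a b : ℝ} (ha : 0 < a) (hb : 0 < b) (d : ℕ) :
    Em (gammaMeasure a b) d = rf a d / b ^ d := by
  have := gamma_int ha hb le_rfl d
  simp only [zero_mul, neg_zero, exp_zero, mul_one, add_zero] at this
  rw [Em, this, ← mul_rpow hb.le (by positivity), mul_one_div_cancel hb.ne', one_rpow,
    one_div_pow]
  ring

lemma gamma_integrable {a b : ℝ} (ha : 0 < a) (hb : 0 < b) (d : ℕ) :
    Integrable (fun x : ℝ => x ^ d) (gammaMeasure a b) :=
  Integrable.of_integral_ne_zero (by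
    have := gamma_Em ha hb d
    rw [Em] at this
    rw [this]; exact (div_pos (rf_pos ha d) (pow_pos hb d)).ne')

lemma gamma_pos (a b : ℝ) : ∀ᵐ x ∂(gammaMeasure a b), 0 ≤ x := by
  rw [gammaMeasure, ae_withDensity_iff (f := gammaPDF a b) (measurable_gammaPDFReal a b).ennreal_ofReal]
  exact ae_of_all _ fun x hx => by_contra fun h => hx (gammaPDF_of_neg (not_le.1 h))

lemma laplace_unique {Ω : Type} [MeasurableSpace Ω] (μ : Measure Ω) {H W : Ω → ℝ}
    (hH : Integrable H μ) (hW : Measurable W) (h0 : ∀ᵐ x ∂μ, 0 ≤ W x)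
    (h : ∀ k : ℕ, ∫ x, exp (-W x) ^ k * H x ∂μ = 0) {c : ℝ} (hc : 0 < c) :
    ∫ x, exp (-(W x ^ 2 / c)) * H x ∂μ = 0 := by
  have hG : Continuous (Function.update (fun u => exp (-(log u ^ 2 / c))) 0 0) := by
    refine continuous_iff_continuousAt.2 fun u => ?_
    rcases eq_or_ne u 0 with rfl | hu
    · refine continuousAt_update_same.2 (tendsto_exp_neg_atTop_nhds_zero.comp
        (Tendsto.atTop_div_const hc ?_))
      simp only [pow_two]
      exact tendsto_log_nhdsNE_zero.atBot_mul_atBot₀ tendsto_log_nhdsNE_zero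
    · refine (continuousAt_update_of_ne hu).2 ?_
      have := continuousAt_log hu
      fun_prop
  have hu : ∀ᵐ x ∂μ, exp (-W x) ∈ Icc (0 : ℝ) 1 := h0.mono fun x hx =>
    ⟨(exp_pos _).le, exp_le_one_iff.2 (neg_nonpos.2 hx)⟩
  have ik : ∀ k : ℕ, Integrable (fun x => exp (-W x) ^ k * H x) μ := fun k =>
    hH.bdd_mul (c := 1) (by fun_prop : Measurable _).aestronglyMeasurable (hu.mono fun x hx => by
      rw [Real.norm_eq_abs, abs_of_nonneg (pow_nonneg hx.1 _)]; exact pow_le_one₀ hx.1 hx.2)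
  have i0 : Integrable (fun x => exp (-(W x ^ 2 / c)) * H x) μ :=
    hH.bdd_mul (c := 1) (by fun_prop : Measurable _).aestronglyMeasurable (ae_of_all _ fun x => by
      rw [Real.norm_eq_abs, abs_of_pos (exp_pos _), exp_le_one_iff, neg_nonpos]; positivity)
  rw [← abs_nonpos_iff]
  refine le_of_forall_pos_le_add fun ε hε => ?_
  have N0 : 0 ≤ ∫ x, ‖H x‖ ∂μ := integral_nonneg fun _ => norm_nonneg _
  obtain ⟨p, hp⟩ := exists_polynomial_near_of_continuousOn 0 1 _ hG.continuousOn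
    (ε / (∫ x, ‖H x‖ ∂μ + 1)) (by positivity)
  have e1 : ∀ x, p.eval (exp (-W x)) * H x = ∑ i ∈ Finset.range (p.natDegree + 1),
      p.coeff i * (exp (-W x) ^ i * H x) := fun x => by
    rw [Polynomial.eval_eq_sum_range, Finset.sum_mul]
    exact Finset.sum_congr rfl fun i _ => mul_assoc _ _ _
  have ip : Integrable (fun x => p.eval (exp (-W x)) * H x) μ := by
    simp only [e1]
    exact integrable_finsetSum _ fun i _ => (ik i).const_mul _
  have e2 : ∫ x, p.eval (exp (-W x)) * H x ∂μ = 0 := by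
    simp only [e1]
    rw [integral_finsetSum _ fun i _ => (ik i).const_mul _]
    exact Finset.sum_eq_zero fun i _ => by rw [integral_const_mul, h, mul_zero]
  have e3 := norm_integral_le_of_norm_le
    (f := fun x => p.eval (exp (-W x)) * H x - exp (-(W x ^ 2 / c)) * H x)
    (hH.norm.const_mul (ε / (∫ x, ‖H x‖ ∂μ + 1))) (hu.mono fun x hx => by
      have := (hp _ hx).le
      rw [Function.update_of_ne (exp_pos _).ne', log_exp, neg_sq] at this
      rw [← sub_mul, norm_mul]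
      exact mul_le_mul_of_nonneg_right this (norm_nonneg _))
  rw [integral_sub ip i0, e2, zero_sub, norm_neg, integral_const_mul, Real.norm_eq_abs] at e3
  refine e3.trans ?_
  rw [zero_add, div_mul_eq_mul_div, div_le_iff₀ (by positivity)]
  linarith only [hε]

lemma gamma_exch {a b : ℝ} (ha : 0 < a) (hb : 0 < b) {n : ℕ} {d d' : Fin n → ℕ}
    (hd : ∑ v, d v = ∑ v, d' v) {c : ℝ} (hc : 0 < c) :
    Aw a d' * ∫ w, exp (-((∑ v, w v) ^ 2 / c)) * ∏ v, w v ^ d v ∂(piM (gammaMeasure a b) n) =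
    Aw a d * ∫ w, exp (-((∑ v, w v) ^ 2 / c)) * ∏ v, w v ^ d' v ∂(piM (gammaMeasure a b) n) := by
  have := isProbabilityMeasure_gammaMeasure ha hb
  have i1 : ∀ d : Fin n → ℕ, Integrable (fun w : Fin n → ℝ => ∏ v, w v ^ d v)
      (piM (gammaMeasure a b) n) := fun d =>
    Integrable.fintype_prod (f := fun v x => x ^ d v) fun v => gamma_integrable ha hb _
  have h0 : ∀ᵐ w ∂(piM (gammaMeasure a b) n), ∀ v, 0 ≤ w v := ae_all_iff.2 fun v =>
    (measurePreserving_eval (fun _ : Fin n => gammaMeasure a b) v).quasiMeasurePreserving.ae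
      (gamma_pos a b)
  have i2 : ∀ (g : ℝ → ℝ), Measurable g → (∀ x, 0 ≤ x → |g x| ≤ 1) → ∀ d : Fin n → ℕ,
      Integrable (fun w : Fin n → ℝ => g (∑ v, w v) * ∏ v, w v ^ d v)
      (piM (gammaMeasure a b) n) := fun g hg hb d =>
    (i1 d).bdd_mul (c := 1) (by fun_prop : Measurable _).aestronglyMeasurable
      (h0.mono fun w hw => hb _ (Finset.sum_nonneg fun v _ => hw v))
  have key : ∀ (g : ℝ → ℝ), Measurable g → (∀ x, 0 ≤ x → |g x| ≤ 1) →
      ∫ w, g (∑ v, w v) * (Aw a d' * ∏ v, w v ^ d v - Aw a d * ∏ v, w v ^ d' v)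
        ∂(piM (gammaMeasure a b) n) =
      Aw a d' * ∫ w, g (∑ v, w v) * ∏ v, w v ^ d v ∂(piM (gammaMeasure a b) n) -
      Aw a d * ∫ w, g (∑ v, w v) * ∏ v, w v ^ d' v ∂(piM (gammaMeasure a b) n) := fun g hg hb => by
    rw [← integral_const_mul, ← integral_const_mul,
      ← integral_sub ((i2 g hg hb d).const_mul _) ((i2 g hg hb d').const_mul _)]
    congr 1; ext w; ring
  have e : ∀ (k : ℕ) (d : Fin n → ℕ), ∫ w, exp (-∑ v, w v) ^ k * ∏ v, w v ^ d v
      ∂(piM (gammaMeasure a b) n) =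
      Aw a d * ((b ^ a * (1 / (b + k)) ^ a) ^ n * (1 / (b + k)) ^ ∑ v, d v) := fun k d => by
    have := integral_fintype_prod_eq_prod (μ := fun _ : Fin n => gammaMeasure a b)
      (fun v (x : ℝ) => x ^ d v * exp (-(k * x)))
    simp only [gamma_int ha hb (Nat.cast_nonneg k), Finset.prod_mul_distrib, Finset.prod_const,
      Finset.card_univ, Fintype.card_fin, Finset.prod_pow_eq_pow_sum] at this
    rw [Aw, ← mul_assoc, mul_pow, ← this, piM]
    congr 1; ext w
    rw [← exp_sum, ← exp_nat_mul, mul_comm, Finset.sum_neg_distrib, ← Finset.mul_sum, mul_neg]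
  rw [← sub_eq_zero, ← key (fun x => exp (-(x ^ 2 / c))) (by fun_prop) fun x _ => by
    rw [abs_of_pos (exp_pos _), exp_le_one_iff, neg_nonpos]; positivity]
  have i3 : Integrable (fun w : Fin n → ℝ => Aw a d' * ∏ v, w v ^ d v - Aw a d * ∏ v, w v ^ d' v)
      (piM (gammaMeasure a b) n) := ((i1 d).const_mul _).sub ((i1 d').const_mul _)
  have m1 : Measurable (fun w : Fin n → ℝ => ∑ v, w v) := by fun_prop
  have p1 : ∀ᵐ w ∂(piM (gammaMeasure a b) n), 0 ≤ ∑ v, w v :=
    h0.mono fun w hw => Finset.sum_nonneg fun v _ => hw v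
  refine laplace_unique _ i3 m1 p1 (fun k => ?_) hc
  rw [key (fun x => exp (-x) ^ k) (by fun_prop) fun x hx => by
    rw [abs_of_pos (by positivity)]
    exact pow_le_one₀ (exp_pos _).le (exp_le_one_iff.2 (neg_nonpos.2 hx)), e, e, hd]
  ring

lemma exch_gamma {a b C : ℝ} (ha : 0 < a) (hb : 0 < b) (hW : Wt (gammaMeasure a b) C) {n : ℕ}
    (hn : 1 ≤ n) : Exch (gammaMeasure a b) n (fun G => Aw a (dg G)) := by
  have e : ∀ G : SimpleGraph (Fin n), Lam (gammaMeasure a b) n G =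
      (∫ w, exp (-((∑ v, w v) ^ 2 / (2 * tt n ^ 3))) * ∏ v, w v ^ dg G v
        ∂(piM (gammaMeasure a b) n)) / (tt n ^ 3) ^ G.edgeSet.ncard := fun G => by
    rw [Lam, ← integral_div]
    congr 1; ext w
    rw [lamw, prod_xe, mul_div_assoc]
  refine ⟨fun j => if h : ∃ G : SimpleGraph (Fin n), G.edgeSet.ncard = j then
    Lam (gammaMeasure a b) n h.choose / Aw a (dg h.choose) else 0, fun j => ?_, fun G => ?_⟩
  · dsimp only
    split_ifs
    · exact div_nonneg (hW.Lam_nonneg hn _) (Aw_pos ha _).le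
    · exact le_rfl
  · have h : ∃ G' : SimpleGraph (Fin n), G'.edgeSet.ncard = G.edgeSet.ncard := ⟨G, rfl⟩
    have := gamma_exch ha hb (d := dg G) (d' := dg h.choose)
      (by rw [sum_dg, sum_dg, h.choose_spec]) (c := 2 * tt n ^ 3)
      (by have := tt_pos hn; positivity)
    simp only [dif_pos h]
    rw [e, e, h.choose_spec, div_mul_eq_mul_div, eq_div_iff (Aw_pos ha _).ne', div_mul_eq_mul_div,
      div_mul_eq_mul_div, mul_comm, this, mul_comm]

/-- first limiting moment -/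
noncomputable def mo1 (r : ℝ) : ℝ := √(1 / (1 + r))

/-- third limiting moment -/
noncomputable def mo3 (r : ℝ) : ℝ := mo1 r * (1 + 2 * r)

lemma mo1_pos {r : ℝ} (hr : 0 ≤ r) : 0 < mo1 r := sqrt_pos.2 (by positivity)

lemma mo3_pos {r : ℝ} (hr : 0 ≤ r) : 0 < mo3 r := mul_pos (mo1_pos hr) (by positivity)

lemma tendsto_one_of {σ : ℕ → ℝ} {lam : ℝ}
    (h : Tendsto (fun n => tt n * (σ n - 1)) atTop (𝓝 lam)) : Tendsto σ atTop (𝓝 1) := by
  have := (h.mul tt_inf.inv_tendsto_atTop).add_const 1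
  rw [mul_zero, zero_add] at this
  refine this.congr' ?_
  filter_upwards [eventually_ge_atTop 1] with n hn
  have := tt_pos hn
  simp only [Pi.inv_apply]
  field_simp; ring

/-- the gamma law with second moment `σ` -/
noncomputable def gam2 (α σ : ℝ) : Measure ℝ := gammaMeasure α √(α * (α + 1) / σ)

lemma gam2_one {α σ : ℝ} (hα : 0 < α) (hσ : 0 < σ) :
    Em (gam2 α σ) 1 = √(σ / (1 + α⁻¹)) := by
  have b0 : 0 < √(α * (α + 1) / σ) := sqrt_pos.2 (by positivity)
  rw [gam2, gamma_Em hα b0, rf_succ, rf_zero, pow_one, div_eq_iff b0.ne', ← sqrt_mul (by positivity),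
    show σ / (1 + α⁻¹) * (α * (α + 1) / σ) = α ^ 2 by field_simp, sqrt_sq hα.le]
  simp

lemma gam2_two {α σ : ℝ} (hα : 0 < α) (hσ : 0 < σ) : Em (gam2 α σ) 2 = σ := by
  have b0 : 0 < √(α * (α + 1) / σ) := sqrt_pos.2 (by positivity)
  rw [gam2, gamma_Em hα b0, rf_two, sq_sqrt (by positivity)]
  field_simp

lemma gam2_succ {α σ : ℝ} (hα : 0 < α) (hσ : 0 < σ) (k : ℕ) :
    Em (gam2 α σ) (k + 1) = Em (gam2 α σ) k * (Em (gam2 α σ) 1 * (1 + k * α⁻¹)) := by
  have b0 : 0 < √(α * (α + 1) / σ) := sqrt_pos.2 (by positivity)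
  simp only [gam2, gamma_Em hα b0, rf_succ, rf_zero]
  field_simp; ring

theorem law_gamma {α σ : ℕ → ℝ} {r lam : ℝ} (hα : ∀ n, 0 < α n)
    (hr : Tendsto (fun n => (α n)⁻¹) atTop (𝓝 r))
    (h : Tendsto (fun n => tt n * (σ n - 1)) atTop (𝓝 lam)) :
    Law (fun n => gam2 (α n) (σ n)) (mo1 r) lam (mo3 r) := by
  have r0 : 0 ≤ r := ge_of_tendsto' hr fun n => (inv_pos.2 (hα n)).le
  have s1 := tendsto_one_of h
  have s0 : ∀ᶠ n in atTop, 0 < σ n := s1.eventually (lt_mem_nhds one_pos)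
  have t1 : Tendsto (fun n => Em (gam2 (α n) (σ n)) 1) atTop (𝓝 (mo1 r)) :=
    ((s1.div (hr.const_add 1) (by positivity)).sqrt).congr' (s0.mono fun n hn =>
      (gam2_one (hα n) hn).symm)
  refine ⟨⟨(mo1 r * (1 + 8 * r) + 1) ^ 8, ?_⟩, t1, h.congr' (s0.mono fun n hn => by
    simp only [gam2_two (hα n) hn]), ?_⟩
  · filter_upwards [s0, ev_le_of_tendsto (t1.mul ((hr.const_mul 8).const_add 1))
      (lt_add_one _)] with n hn hb
    have b0 : 0 < √(α n * (α n + 1) / σ n) := sqrt_pos.2 (by have := hα n; positivity)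
    have K1 : 1 ≤ mo1 r * (1 + 8 * r) + 1 := by have := mo1_pos r0; linarith only [this, r0, mul_nonneg this.le r0]
    have E0 : ∀ k, 0 ≤ Em (gam2 (α n) (σ n)) k := fun k => by
      rw [gam2, gamma_Em (hα n) b0]; exact (div_pos (rf_pos (hα n) k) (pow_pos b0 k)).le
    refine ⟨isProbabilityMeasure_gammaMeasure (hα n) b0, gamma_pos _ _,
      gamma_integrable (hα n) b0, fun k hk => le_trans ?_ (pow_le_pow_right₀ K1 hk)⟩
    induction k with
    | zero => rw [gam2, gamma_Em (hα n) b0]; simp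
    | succ k ih =>
      rw [gam2_succ (hα n) hn, pow_succ]
      refine mul_le_mul (ih (by omega)) (le_trans (mul_le_mul_of_nonneg_left ?_ (E0 1)) hb)
        (mul_nonneg (E0 1) (by have := hα n; positivity)) (by positivity)
      have : (k : ℝ) ≤ 8 := by exact_mod_cast (by omega : k ≤ 8)
      have := mul_le_mul_of_nonneg_right this (inv_pos.2 (hα n)).le
      linarith only [this]
  · have := s1.mul (t1.mul ((hr.const_mul 2).const_add 1))
    rw [one_mul] at this
    refine this.congr' (s0.mono fun n hn => ?_)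
    simp only [gam2_succ (hα n) hn 2, gam2_two (hα n) hn]
    norm_num

lemma dirac_Em (c : ℝ) (k : ℕ) : Em (Measure.dirac c) k = c ^ k := by simp [Em]

theorem law_dirac {σ : ℕ → ℝ} {lam : ℝ}
    (h : Tendsto (fun n => tt n * (σ n - 1)) atTop (𝓝 lam)) :
    Law (fun n => Measure.dirac √(σ n)) (mo1 0) lam (mo3 0) := by
  have s1 := tendsto_one_of h
  have s0 : ∀ᶠ n in atTop, 0 < σ n := s1.eventually (lt_mem_nhds one_pos)
  have t1 : Tendsto (fun n => √(σ n)) atTop (𝓝 1) := by simpa using s1.sqrt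
  refine ⟨⟨2 ^ 8, ?_⟩, by simpa [dirac_Em, mo1] using t1, h.congr' (s0.mono fun n hn => by
    simp only [dirac_Em, sq_sqrt hn.le]), by simpa [dirac_Em, mo3, mo1] using t1.pow 3⟩
  filter_upwards [ev_le_of_tendsto t1 one_lt_two] with n hn
  refine ⟨inferInstance, by simp, fun k => integrable_dirac (by simp), fun k hk => ?_⟩
  rw [dirac_Em]
  exact (pow_le_pow_left₀ (sqrt_nonneg _) hn k).trans (pow_le_pow_right₀ one_le_two hk)

lemma exch_dirac {c : ℝ} (hc : 0 ≤ c) {n : ℕ} (hn : 1 ≤ n) :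
    Exch (Measure.dirac c) n (fun _ => 1) := by
  have h0 : ∀ᵐ w ∂(piM (Measure.dirac c) n), ∀ v, w v = c := ae_all_iff.2 fun v =>
    (measurePreserving_eval (fun _ : Fin n => Measure.dirac c) v).quasiMeasurePreserving.ae
      (p := fun x => x = c) (by simp)
  have : IsProbabilityMeasure (piM (Measure.dirac c) n) := by unfold piM; infer_instance
  have := tt_pos hn
  refine ⟨fun j => exp (-((∑ _v : Fin n, c) ^ 2 / (2 * tt n ^ 3))) * (c ^ (2 * j) / (tt n ^ 3) ^ j),
    fun j => by positivity, fun G => ?_⟩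
  rw [Lam, integral_congr_ae (g := fun _ => lamw (fun _ => c) (tt n) G) (h0.mono fun w hw => by
    rw [show w = fun _ => c from funext hw])]
  simp only [integral_const, probReal_univ, smul_eq_mul, one_mul, mul_one]
  rw [lamw, prod_xe, Finset.prod_pow_eq_pow_sum, sum_dg]

end Pool.Agent.Work.MP_e39611_pr
end

-- merged part: Pool.Agent.Work.MP_e39611_pr.Final
section
/-!
Convergence of expectations of monotone test functions, and passage to weak convergence.
-/

namespace Pool.Agent.Work.MP_e39611_pr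

open MeasureTheory Set Real Filter Topology BoundedContinuousFunction
open scoped Classical

set_option linter.unusedSectionVars false

/-- monotone test functions -/
structure Cls (f : (ℕ → ℝ) → ℝ) : Prop where
  cont : Continuous f
  uc : UC f
  pos : ∀ x, 0 ≤ f x
  bdd : ∃ B, ∀ x, f x ≤ B
  mono : ∀ x y, (∀ j, ∑ i ∈ Finset.range j, x i ≤ ∑ i ∈ Finset.range j, y i) → f x ≤ f y

lemma Cls.one : Cls (fun _ => 1) :=
  ⟨continuous_const, fun ε hε => ⟨1, one_pos, fun _ _ _ => by simpa using hε.le⟩,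
    fun _ => zero_le_one, ⟨1, fun _ => le_rfl⟩, fun _ _ _ => le_rfl⟩

lemma Cls.mul {f g : (ℕ → ℝ) → ℝ} (hf : Cls f) (hg : Cls g) : Cls (fun x => f x * g x) := by
  obtain ⟨B, hB⟩ := hf.bdd
  obtain ⟨C, hC⟩ := hg.bdd
  have B0 : 0 ≤ B := (hf.pos 0).trans (hB 0)
  have C0 : 0 ≤ C := (hg.pos 0).trans (hC 0)
  refine ⟨hf.cont.mul hg.cont, fun ε hε => ?_, fun x => mul_nonneg (hf.pos x) (hg.pos x),
    ⟨B * C, fun x => mul_le_mul (hB x) (hC x) (hg.pos x) B0⟩,
    fun x y h => mul_le_mul (hf.mono x y h) (hg.mono x y h) (hg.pos x) (hf.pos y)⟩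
  obtain ⟨D, D0, hD⟩ := hf.uc (ε / (B + C + 1)) (by positivity)
  obtain ⟨D', D0', hD'⟩ := hg.uc (ε / (B + C + 1)) (by positivity)
  refine ⟨min D D', lt_min D0 D0', fun x y h => ?_⟩
  have a := hD x y fun j => (h j).trans (min_le_left _ _)
  have b := hD' x y fun j => (h j).trans (min_le_right _ _)
  rw [show f x * g x - f y * g y = f x * (g x - g y) + g y * (f x - f y) by ring]
  refine (abs_add_le _ _).trans ?_
  rw [abs_mul, abs_mul, abs_of_nonneg (hf.pos x), abs_of_nonneg (hg.pos y)]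
  have c := mul_le_mul (hB x) b (abs_nonneg _) B0
  have d := mul_le_mul (hC y) a (abs_nonneg _) C0
  have e : ε = (B + C + 1) * (ε / (B + C + 1)) := by field_simp
  have : 0 ≤ ε / (B + C + 1) := by positivity
  linarith only [c, d, e, this]

lemma chi_mono (lo : ℝ) {x y : ℝ} (h : x ≤ y) : chi lo 1 x ≤ chi lo 1 y :=
  max_le_max le_rfl (min_le_min le_rfl (by linarith only [h]))

lemma chi_lip (lo x y : ℝ) : |chi lo 1 x - chi lo 1 y| ≤ |x - y| := by
  refine (abs_max_sub_max_le_max _ _ _ _).trans (max_le (by simp) ?_)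
  refine (abs_min_sub_min_le_max _ _ _ _).trans (max_le (by simp) (le_of_eq ?_))
  congr 1; ring

lemma Cls.gen (lo : ℝ) (j : ℕ) : Cls (fun x => chi lo 1 (∑ i ∈ Finset.range j, x i)) := by
  refine ⟨by unfold chi; fun_prop, fun ε hε => ⟨ε / (j + 1), by positivity, fun x y h => ?_⟩,
    fun _ => chi_nonneg _ _ _, ⟨1, fun _ => chi_le_one _ _ _⟩, fun x y h => chi_mono _ (h j)⟩
  refine (chi_lip _ _ _).trans ?_
  rw [← Finset.sum_sub_distrib]
  refine (Finset.abs_sum_le_sum_abs _ _).trans ((Finset.sum_le_sum fun i _ => h i).trans ?_)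
  rw [Finset.sum_const, Finset.card_range, nsmul_eq_mul, mul_div_assoc', div_le_iff₀ (by positivity)]
  linarith

lemma Cls.gmono {f : (ℕ → ℝ) → ℝ} (hf : Cls f) (n : ℕ) (t : ℝ) :
    Monotone (fun G : SimpleGraph (Fin n) => f (vecL G t)) :=
  fun _ _ h => hf.mono _ _ (vecL_mono h t)

lemma scaled_eq {n : ℕ} (hn : 1 ≤ n) (G : SimpleGraph (Fin n)) : scaled G = vecL G (tt n) := by
  ext j
  rw [scaled, vecL, nth_div (pow_pos (tt_pos hn) 2), tt_two]

lemma kap_small (m1 : ℝ) : Tendsto (fun n => tt n * (1 + kap m1 n) / n) atTop (𝓝 0) := by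
  have := (sq_inv.pow 8).add (sq_inv.const_mul (|m1| + 3))
  simp only [zero_pow (by norm_num : 8 ≠ 0), mul_zero, add_zero] at this
  refine this.congr' ?_
  filter_upwards [eventually_ge_atTop 1] with n hn
  have := sq_pos' hn
  rw [kap, tt_eq, ← sq_twelve]; field_simp

lemma kap_nonneg (m1 : ℝ) (n : ℕ) : 0 ≤ kap m1 n :=
  mul_nonneg (by positivity) (pow_nonneg (rpow_nonneg (Nat.cast_nonneg n) _) _)

lemma eps_zero {ε : ℕ → ℝ} {lam : ℝ} (h : Tendsto (fun n => ε n * tt n) atTop (𝓝 lam)) :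
    Tendsto ε atTop (𝓝 0) := by
  have := tendsto_one_of (σ := fun n => ε n + 1) (lam := lam) (by simpa [mul_comm] using h)
  simpa using this.sub_const 1

lemma window_lim {β ε : ℕ → ℝ} {b lam : ℝ} (m1 : ℝ) (hβ : Tendsto β atTop (𝓝 b))
    (β0 : ∀ n, 0 < β n) (h : Tendsto (fun n => ε n * tt n) atTop (𝓝 lam)) {s : ℝ} (hs : |s| ≤ 1) :
    Tendsto (fun n => tt n * ((⌊n / β n * (1 + ε n)⌋₊ + s * kap m1 n) * β n / n - 1)) atTop
      (𝓝 lam) := by
  have h1 : Tendsto (fun n => tt n * ((⌊n / β n * (1 + ε n)⌋₊ + s * kap m1 n) * β n / n - 1) -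
      ε n * tt n) atTop (𝓝 0) := by
    refine squeeze_zero_norm' ?_ (by simpa using (kap_small m1).mul hβ)
    filter_upwards [eventually_ge_atTop 1, ev_abs_le (eps_zero h) one_pos] with n hn he
    have n0 : (0 : ℝ) < n := by exact_mod_cast hn
    have t0 := tt_pos hn
    have := β0 n
    have x0 : 0 ≤ n / β n * (1 + ε n) := mul_nonneg (by positivity) (by
      have := (abs_le.1 he).1; linarith only [this])
    have f1 := Nat.floor_le x0
    have f2 := Nat.lt_floor_add_one (n / β n * (1 + ε n))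
    have k0 := kap_nonneg m1 n
    have k1 : |s * kap m1 n| ≤ kap m1 n := by
      rw [abs_mul, abs_of_nonneg k0]; exact mul_le_of_le_one_left k0 hs
    have k2 := abs_le.1 k1
    rw [Real.norm_eq_abs, show tt n * ((⌊n / β n * (1 + ε n)⌋₊ + s * kap m1 n) * β n / n - 1) -
      ε n * tt n = (⌊n / β n * (1 + ε n)⌋₊ - n / β n * (1 + ε n) + s * kap m1 n) *
        (tt n / n * β n) by field_simp; ring, abs_mul, abs_of_pos (by positivity : 0 < tt n / n * β n),
      show tt n * (1 + kap m1 n) / n * β n = (1 + kap m1 n) * (tt n / n * β n) by ring]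
    refine mul_le_mul_of_nonneg_right (abs_le.2 ⟨by linarith only [f2, k2], by linarith only [f1, k2]⟩) (by positivity)
  simpa using h1.add h

lemma window_le {β ε : ℕ → ℝ} {lam : ℝ} (m1 : ℝ) (β0 : ∀ n, 2 ≤ β n)
    (h : Tendsto (fun n => ε n * tt n) atTop (𝓝 lam)) :
    ∀ᶠ n in atTop, (⌊n / β n * (1 + ε n)⌋₊ : ℝ) + 2 * kap m1 n ≤ n := by
  filter_upwards [eventually_ge_atTop 1, ev_abs_le (eps_zero h) (η := 1 / 2) (by norm_num),
    ev_le_of_tendsto (kap_small m1) (z := 1 / 8) (by norm_num), tt_inf.eventually_ge_atTop 1]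
    with n hn he hk ht
  have n0 : (0 : ℝ) < n := by exact_mod_cast hn
  have := β0 n
  have e := abs_le.1 he
  have f1 := Nat.floor_le (show 0 ≤ n / β n * (1 + ε n) from
    mul_nonneg (by positivity) (by linarith only [e]))
  have f2 : n / β n * (1 + ε n) ≤ n / 2 * (3 / 2) :=
    mul_le_mul (div_le_div_of_nonneg_left n0.le two_pos this) (by linarith only [e]) (by linarith only [e])
      (by positivity)
  rw [div_le_iff₀ n0] at hk
  have k0 := kap_nonneg m1 n
  linarith only [hk, ht, f1, f2, k0, mul_nonneg_of_nonpos_of_nonpos (Mathlib.Tactic.Linarith.sub_nonpos_of_le ht) (Mathlib.Tactic.Linarith.sub_nonpos_of_le k0)]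

/-- eventually a probability vector -/
def Seq (p : ∀ n, SimpleGraph (Fin n) → ℝ) : Prop :=
  ∀ᶠ n in atTop, (∀ G, 0 ≤ p n G) ∧ ∑ G, p n G = 1

/-- convergence of monotone test functions to the limit of the rank one model -/
def Lim (m1 lam m3 : ℝ) (p : ∀ n, SimpleGraph (Fin n) → ℝ) : Prop :=
  ∀ f y, Cls f → (∀ M, Adm M m1 lam m3 → Tendsto (fun k => Fw (M k) f) atTop (𝓝 y)) →
    Tendsto (fun n => ∑ G, p n G * f (scaled G)) atTop (𝓝 y)

theorem pa_lim {α ε : ℕ → ℝ} {r lam : ℝ} (hα : ∀ n, 0 < α n)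
    (hr : Tendsto (fun n => (α n)⁻¹) atTop (𝓝 r))
    (h : Tendsto (fun n => ε n * tt n) atTop (𝓝 lam)) :
    Seq (fun n => paLaw (α n) n ⌊n * α n / (2 * (α n + 1)) * (1 + ε n)⌋₊) ∧
    Lim (mo1 r) lam (mo3 r)
      (fun n => paLaw (α n) n ⌊n * α n / (2 * (α n + 1)) * (1 + ε n)⌋₊) := by
  have eβ : ∀ n : ℕ, n * α n / (2 * (α n + 1)) = n / (2 * (1 + (α n)⁻¹)) := fun n => by
    have := hα n; field_simp
  simp only [eβ]
  have β2 : ∀ n, 2 ≤ 2 * (1 + (α n)⁻¹) := fun n => by have := inv_pos.2 (hα n); linarith only [this]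
  have β0 : ∀ n, 0 < 2 * (1 + (α n)⁻¹) := fun n => two_pos.trans_le (β2 n)
  have hβ := (hr.const_add 1).const_mul 2
  have hm := window_le (mo1 r) β2 h
  refine ⟨?_, fun f y hf hy => ?_⟩
  · filter_upwards [hm, eventually_ge_atTop 3] with n hn n3
    refine ⟨paLaw_nonneg (hα n) _, paLaw_sum (hα n) n3 _ ?_⟩
    have := kap_nonneg (mo1 r) n
    exact_mod_cast (show (⌊n / (2 * (1 + (α n)⁻¹)) * (1 + ε n)⌋₊ : ℝ) ≤ n by linarith only [hn, this])
  obtain ⟨B, hB⟩ := hf.bdd
  have w : ∀ s : ℝ, |s| ≤ 1 → ∃ ν : ℕ → Measure ℝ, Law ν (mo1 r) lam (mo3 r) ∧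
      (∀ᶠ n in atTop, Exch (ν n) n (fun G => Aw (α n) (dg G))) ∧
      ∀ᶠ n in atTop, n * Em (ν n) 1 ^ 2 / 2 =
        ⌊n / (2 * (1 + (α n)⁻¹)) * (1 + ε n)⌋₊ + s * kap (mo1 r) n := fun s hs => by
    have l := window_lim (mo1 r) hβ β0 h hs
    have L := law_gamma hα hr l
    have s0 := (tendsto_one_of l).eventually (lt_mem_nhds one_pos)
    obtain ⟨C, hC⟩ := L.wt
    refine ⟨_, L, ?_, ?_⟩
    · filter_upwards [hC, s0, eventually_ge_atTop 1] with n h1 h2 h3
      exact exch_gamma (hα n) (sqrt_pos.2 (by have := hα n; positivity)) h1 h3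
    · filter_upwards [s0, eventually_ge_atTop 1] with n h2 h3
      have n0 : (0 : ℝ) < n := by exact_mod_cast h3
      have := inv_pos.2 (hα n)
      rw [gam2_one (hα n) h2, sq_sqrt (by positivity)]
      generalize (⌊n / (2 * (1 + (α n)⁻¹)) * (1 + ε n)⌋₊ + s * kap (mo1 r) n : ℝ) = z
      generalize (α n)⁻¹ = a at this
      field_simp
  obtain ⟨ν, L, x, hw⟩ := w 1 (by simp)
  obtain ⟨ν', L', x', hw'⟩ := w (-1) (by simp)
  obtain ⟨η, hη, ha⟩ := pa_appr_ev hα hr (fun n G => f (vecL G (tt n))) (B := B)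
    (fun n G => by rw [abs_of_nonneg (hf.pos _)]; exact hB _)
  refine (sandwich_main L L' hf.pos hB hy hη (fun n G => (Aw_pos (hα n) _).le) x x' ha ?_
    (by simpa using hw) (by simpa [sub_eq_add_neg] using hw') hm).congr' ?_
  · filter_upwards [eventually_ge_atTop 3] with n n3
    exact mono_chain fun j hj => paLaw_mono (hα n) n3 (hf.gmono n _) hj
  · filter_upwards [eventually_ge_atTop 1] with n hn
    simp only [scaled_eq hn]

theorem er_lim (lam : ℝ) :
    Seq (fun n G => ind (G.edgeSet.ncard = ⌊(n : ℝ) / 2 * (1 + lam * (n : ℝ) ^ (-(1 / 3) : ℝ))⌋₊) /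
      SE n ⌊(n : ℝ) / 2 * (1 + lam * (n : ℝ) ^ (-(1 / 3) : ℝ))⌋₊ (fun _ => 1)) ∧
    Lim (mo1 0) lam (mo3 0)
      (fun n G => ind (G.edgeSet.ncard = ⌊(n : ℝ) / 2 * (1 + lam * (n : ℝ) ^ (-(1 / 3) : ℝ))⌋₊) /
      SE n ⌊(n : ℝ) / 2 * (1 + lam * (n : ℝ) ^ (-(1 / 3) : ℝ))⌋₊ (fun _ => 1)) := by
  have h : Tendsto (fun n : ℕ => lam * (n : ℝ) ^ (-(1 / 3) : ℝ) * tt n) atTop (𝓝 lam) := by
    refine tendsto_const_nhds.congr' ?_
    filter_upwards [eventually_ge_atTop 1] with n hn
    rw [rpow_neg (Nat.cast_nonneg n), ← tt, inv_mul_cancel_right₀ (tt_pos hn).ne']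
  have hm := window_le (β := fun _ => 2) (mo1 0) (fun _ => le_rfl) h
  refine ⟨?_, fun f y hf hy => ?_⟩
  · filter_upwards [hm, eventually_ge_atTop 3] with n hn n3
    have := kap_nonneg (mo1 0) n
    have p := SE_pos n3 ⌊(n : ℝ) / 2 * (1 + lam * (n : ℝ) ^ (-(1 / 3) : ℝ))⌋₊ (by
      exact_mod_cast (show (⌊(n : ℝ) / 2 * (1 + lam * (n : ℝ) ^ (-(1 / 3) : ℝ))⌋₊ : ℝ) ≤ n by
        linarith only [hn, this]))
    refine ⟨fun G => div_nonneg (ind_nonneg _) p.le, ?_⟩
    rw [← Finset.sum_div, div_eq_one_iff_eq p.ne']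
    simp [SE]
  obtain ⟨B, hB⟩ := hf.bdd
  have w : ∀ s : ℝ, |s| ≤ 1 → ∃ ν : ℕ → Measure ℝ, Law ν (mo1 0) lam (mo3 0) ∧
      (∀ᶠ n in atTop, Exch (ν n) n (fun _ => 1)) ∧
      ∀ᶠ n in atTop, n * Em (ν n) 1 ^ 2 / 2 =
        ⌊(n : ℝ) / 2 * (1 + lam * (n : ℝ) ^ (-(1 / 3) : ℝ))⌋₊ + s * kap (mo1 0) n := fun s hs => by
    have l := window_lim (β := fun _ => 2) (mo1 0) tendsto_const_nhds (fun _ => two_pos) h hs
    have s0 := (tendsto_one_of l).eventually (lt_mem_nhds one_pos)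
    refine ⟨_, law_dirac l, ?_, ?_⟩
    · filter_upwards [eventually_ge_atTop 1] with n h3
      exact exch_dirac (sqrt_nonneg _) h3
    · filter_upwards [s0, eventually_ge_atTop 1] with n h2 h3
      have n0 : (0 : ℝ) < n := by exact_mod_cast h3
      rw [dirac_Em, pow_one, sq_sqrt h2.le]
      field_simp
  obtain ⟨ν, L, x, hw⟩ := w 1 (by simp)
  obtain ⟨ν', L', x', hw'⟩ := w (-1) (by simp)
  refine (sandwich_main L L' hf.pos hB hy (ε := fun _ => 0) tendsto_const_nhds
    (h := fun n j => SE n j (fun G => f (vecL G (tt n))) / SE n j (fun _ => 1))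
    (fun n G => zero_le_one) x x' ?_ ?_
    (by simpa using hw) (by simpa [sub_eq_add_neg] using hw') hm).congr' ?_
  · filter_upwards [eventually_ge_atTop 3] with n n3 j hj
    have p := SE_pos n3 j hj
    rw [zero_mul, abs_nonpos_iff, sub_eq_zero]
    simp only [SE, mul_one] at p ⊢
    field_simp
  · filter_upwards [eventually_ge_atTop 3] with n n3
    exact mono_chain fun j hj => SE_mono n3 (hf.gmono n _) hj
  · filter_upwards [eventually_ge_atTop 1] with n hn
    simp only [scaled_eq hn, div_mul_eq_mul_div, ← Finset.sum_div, SE]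

end Pool.Agent.Work.MP_e39611_pr
end

-- merged part: Pool.Agent.Work.MP_e39611_pr.Weak
section
/-!
Passage to weak convergence, and the main theorems.
-/

namespace Pool.Agent.Work.MP_e39611_pr

open MeasureTheory Set Real Filter Topology BoundedContinuousFunction
open scoped Classical

set_option linter.unusedSectionVars false

/-- law of the rescaled component sizes -/
noncomputable def muP {n : ℕ} (p : SimpleGraph (Fin n) → ℝ) : Measure (ℕ → ℝ) :=
  ∑ G, ENNReal.ofReal (p G) • Measure.dirac (scaled G)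

lemma integral_muP {n : ℕ} {p : SimpleGraph (Fin n) → ℝ} (hp : ∀ G, 0 ≤ p G) (f : (ℕ → ℝ) → ℝ) :
    ∫ x, f x ∂(muP p) = ∑ G, p G * f (scaled G) := by
  rw [muP, integral_finsetSum_measure fun G _ =>
    (integrable_dirac (by simp)).smul_measure ENNReal.ofReal_ne_top]
  exact Finset.sum_congr rfl fun G _ => by
    rw [integral_smul_measure, integral_dirac, ENNReal.toReal_ofReal (hp G), smul_eq_mul]

lemma prob_muP {n : ℕ} {p : SimpleGraph (Fin n) → ℝ} (hp : ∀ G, 0 ≤ p G) (h1 : ∑ G, p G = 1) :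
    IsProbabilityMeasure (muP p) := by
  constructor
  simp only [muP, Measure.finsetSum_apply, Measure.smul_apply, measure_univ, smul_eq_mul, mul_one]
  rw [← ENNReal.ofReal_sum_of_nonneg fun G _ => hp G, h1, ENNReal.ofReal_one]

lemma scaled_nonneg {n : ℕ} (G : SimpleGraph (Fin n)) (j : ℕ) : 0 ≤ scaled G j :=
  div_nonneg (nth_nonneg (fun _ => Nat.cast_nonneg _) j) (by positivity)

lemma scaled_le_zero {n : ℕ} (G : SimpleGraph (Fin n)) (j : ℕ) : scaled G j ≤ scaled G 0 :=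
  div_le_div_of_nonneg_right (nth_le_nth_zero (fun _ => Nat.cast_nonneg _) j) (by positivity)

lemma scaled_le {n : ℕ} (G : SimpleGraph (Fin n)) (j : ℕ) : scaled G j ≤ n := by
  rcases Nat.eq_zero_or_pos n with rfl | hn
  · simp [scaled]
  refine (div_le_self (nth_nonneg (fun _ => Nat.cast_nonneg _) j)
    (one_le_rpow (by exact_mod_cast hn) (by norm_num))).trans
    (nth_le_of_forall (Nat.cast_nonneg _) (fun C => ?_) j)
  have := Set.ncard_le_card C.supp
  rw [Nat.card_eq_fintype_card, Fintype.card_fin] at this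
  exact_mod_cast this

variable {m1 lam m3 : ℝ}

lemma tight_muP (h1 : 0 < m1) (h3 : 0 < m3) (hM : ∃ M, Adm M m1 lam m3)
    {p : ∀ n, SimpleGraph (Fin n) → ℝ} (hp : ∀ n G, 0 ≤ p n G) (hs : ∀ n, ∑ G, p n G = 1)
    (hL : Lim m1 lam m3 p) : IsTightMeasureSet {μ | ∃ n, muP (p n) = μ} := by
  obtain ⟨M, A⟩ := hM
  rw [isTightMeasureSet_iff_exists_isCompact_measure_compl_le]
  intro ε hε
  obtain ⟨δ, δ0, hδ⟩ : ∃ δ : ℝ, 0 < δ ∧ ENNReal.ofReal δ ≤ ε := by
    obtain ⟨δ, h, h'⟩ := ENNReal.lt_iff_exists_nnreal_btwn.1 hε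
    exact ⟨δ, by exact_mod_cast h, by simpa using h'.le⟩
  obtain ⟨K, hK⟩ := A.tight h3 (half_pos δ0)
  have c := Cls.gen K 1
  simp only [Finset.sum_range_one] at c
  obtain ⟨y, hy⟩ := exists_limit (lam := lam) h1 h3 c.cont c.uc (B := 1) fun x => by
    rw [abs_of_nonneg (chi_nonneg _ _ _)]; exact chi_le_one _ _ _
  have y1 : y ≤ δ / 2 := le_of_tendsto (hy M A) (hK.mono fun k hk => le_trans (by
    have s := sm_gr (M k).w (M k).t
    rw [Fw, ← integral_ind _ (s.comp (fun G => K < vecL G (M k).t 0))]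
    refine integral_mono ((s.comp (fun G => chi K 1 (vecL G (M k).t 0))).integrable _)
      ((s.comp (fun G => ind (K < vecL G (M k).t 0))).integrable _) fun U => ?_
    by_cases hU : K < vecL (gr (M k).w (M k).t U) (M k).t 0
    · simp only [ind_pos hU]; exact chi_le_one _ _ _
    · simp only [ind_neg hU]
      exact max_le le_rfl (min_le_of_right_le (by linarith only [hU, not_lt.1 hU]))) hk)
  obtain ⟨N, hN⟩ := eventually_atTop.1 (ev_le_of_tendsto (hL _ y c hy) (z := δ) (by linarith))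
  refine ⟨Set.pi univ fun _ => Icc 0 (max (K + 1) N), isCompact_univ_pi fun _ => isCompact_Icc, ?_⟩
  rintro _ ⟨n, rfl⟩
  have := prob_muP (hp n) (hs n)
  have ms : MeasurableSet (Set.pi univ fun _ : ℕ => Icc (0 : ℝ) (max (K + 1) N))ᶜ :=
    (isCompact_univ_pi fun _ => isCompact_Icc).isClosed.measurableSet.compl
  refine le_trans ?_ hδ
  rw [← ofReal_measureReal, ← integral_indicator_one ms, integral_muP (hp n)]
  refine ENNReal.ofReal_le_ofReal ?_
  rcases le_total N n with hn | hn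
  · refine le_trans (Finset.sum_le_sum fun G _ => mul_le_mul_of_nonneg_left ?_ (hp n G)) (hN n hn)
    by_cases hG : scaled G 0 ≤ K + 1
    · rw [indicator_of_notMem (not_not.2 fun j _ => ⟨scaled_nonneg G j,
        ((scaled_le_zero G j).trans hG).trans (le_max_left _ _)⟩)]
      exact chi_nonneg _ _ _
    · refine (indicator_le_self' (fun _ _ => zero_le_one) _).trans ?_
      exact le_max_of_le_right (le_min le_rfl (by linarith only [hG, not_le.1 hG]))
  · refine le_trans (le_of_eq (Finset.sum_eq_zero fun G _ => ?_)) δ0.le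
    rw [indicator_of_notMem (not_not.2 fun j _ => ⟨scaled_nonneg G j,
      ((scaled_le G j).trans (Nat.cast_le.2 hn)).trans (le_max_right _ _)⟩), mul_zero]

/-- the algebra spanned by monotone test functions -/
noncomputable def algC : StarSubalgebra ℝ ((ℕ → ℝ) →ᵇ ℝ) where
  toSubalgebra := (Submodule.span ℝ {g : (ℕ → ℝ) →ᵇ ℝ | Cls g}).toSubalgebra
    (Submodule.subset_span Cls.one) fun x y hx hy => by
      have := Submodule.mul_mem_mul hx hy
      rw [Submodule.span_mul_span] at this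
      refine Submodule.span_mono ?_ this
      rintro _ ⟨f, hf, g, hg, rfl⟩
      exact Cls.mul hf hg
  star_mem' := fun {g} hg => by
    rw [show star g = g by ext; simp]; exact hg

lemma algC_sep : (algC.map (toContinuousMapStarₐ ℝ)).SeparatesPoints := by
  have key : ∀ x y : ℕ → ℝ, ∀ j, ∑ i ∈ Finset.range j, x i < ∑ i ∈ Finset.range j, y i →
      ∃ g : (ℕ → ℝ) →ᵇ ℝ, Cls g ∧ g x ≠ g y := fun x y j h => by
    have c := Cls.gen (∑ i ∈ Finset.range j, x i) j
    refine ⟨ofNormedAddCommGroup _ c.cont 1 fun z => by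
      rw [Real.norm_eq_abs, abs_of_nonneg (chi_nonneg _ _ _)]; exact chi_le_one _ _ _, c,
      ne_of_lt ?_⟩
    simp [chi, h]
  intro x y hxy
  have : ∃ g : (ℕ → ℝ) →ᵇ ℝ, Cls g ∧ g x ≠ g y := by
    by_contra hc
    refine hxy (funext fun j => ?_)
    have e : ∀ j, ∑ i ∈ Finset.range j, x i = ∑ i ∈ Finset.range j, y i := fun j => by
      refine le_antisymm (not_lt.1 fun h => hc ?_) (not_lt.1 fun h => hc (key x y j h))
      obtain ⟨g, h1, h2⟩ := key y x j h
      exact ⟨g, h1, h2.symm⟩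
    have := e (j + 1)
    rw [Finset.sum_range_succ, Finset.sum_range_succ, e j] at this
    exact add_left_cancel this
  obtain ⟨g, h1, h2⟩ := this
  exact ⟨g, ⟨g.toContinuousMap, ⟨g, Submodule.subset_span h1, rfl⟩, rfl⟩, h2⟩

lemma Seq.fix {p : ∀ n, SimpleGraph (Fin n) → ℝ} (h : Seq p) :
    ∃ q : ∀ n, SimpleGraph (Fin n) → ℝ, (∀ n G, 0 ≤ q n G) ∧ (∀ n, ∑ G, q n G = 1) ∧
      ∀ᶠ n in atTop, q n = p n := by
  refine ⟨fun n => if (∀ G, 0 ≤ p n G) ∧ ∑ G, p n G = 1 then p n else fun G => ind (G = ⊥),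
    fun n G => ?_, fun n => ?_, h.mono fun n hn => if_pos hn⟩
  · dsimp only
    split_ifs with h
    · exact h.1 G
    · exact ind_nonneg _
  · dsimp only
    split_ifs with h
    · exact h.2
    · simpa using sum_ind_eq (⊥ : SimpleGraph (Fin n)) (fun _ => 1)

lemma Lim.congr {p q : ∀ n, SimpleGraph (Fin n) → ℝ} (h : Lim m1 lam m3 p)
    (e : ∀ᶠ n in atTop, q n = p n) : Lim m1 lam m3 q :=
  fun f y hf hy => (h f y hf hy).congr' (e.mono fun n hn => by simp only [hn])

theorem exists_measure (h1 : 0 < m1) (h3 : 0 < m3) (hM : ∃ M, Adm M m1 lam m3)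
    {p0 : ∀ n, SimpleGraph (Fin n) → ℝ} (s0 : Seq p0) (l0 : Lim m1 lam m3 p0) :
    ∃ μ : Measure (ℕ → ℝ), IsProbabilityMeasure μ ∧ ∀ p, Seq p → Lim m1 lam m3 p →
      ∀ f : (ℕ → ℝ) →ᵇ ℝ,
        Tendsto (fun n => ∑ G, p n G * f (scaled G)) atTop (𝓝 (∫ x, f x ∂μ)) := by
  obtain ⟨q0, a0, b0, c0⟩ := s0.fix
  set μ0 : ℕ → ProbabilityMeasure (ℕ → ℝ) := fun n => ⟨muP (q0 n), prob_muP (a0 n) (b0 n)⟩
  have hc : IsCompact (closure {μ0 n | n}) := isCompact_closure_of_isTightMeasureSet (by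
    simpa [μ0] using tight_muP h1 h3 hM a0 b0 (l0.congr c0))
  have hU : (Ultrafilter.of (atTop : Filter ℕ) : Filter ℕ) ≤ atTop := Ultrafilter.of_le _
  obtain ⟨μ, -, hμ : Tendsto _ _ _⟩ := hc.ultrafilter_le_nhds ((Ultrafilter.of atTop).map μ0)
    (.trans (by simp) (monotone_principal subset_closure))
  refine ⟨μ, inferInstance, fun p s l => ?_⟩
  obtain ⟨q, a, b, c⟩ := s.fix
  set ν : ℕ → ProbabilityMeasure (ℕ → ℝ) := fun n => ⟨muP (q n), prob_muP (a n) (b n)⟩
  have hν : Tendsto ν atTop (𝓝 μ) := by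
    have ht : IsTightMeasureSet {((ν n : ProbabilityMeasure (ℕ → ℝ)) : Measure (ℕ → ℝ)) | n} := by
      simpa [ν] using tight_muP h1 h3 hM a b (l.congr c)
    refine ProbabilityMeasure.tendsto_of_tight_of_separatesPoints ℝ ht algC_sep fun g hg => ?_
    have hg' : g ∈ Submodule.span ℝ {g : (ℕ → ℝ) →ᵇ ℝ | Cls g} := hg
    clear hg
    induction hg' using Submodule.span_induction with
    | mem g hg =>
      replace hg : Cls g := hg
      obtain ⟨y, hy⟩ := exists_limit (lam := lam) h1 h3 hg.cont hg.uc (B := ‖g‖)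
        fun x => g.norm_coe_le_norm x
      have e1 := (ProbabilityMeasure.tendsto_iff_forall_integral_tendsto.1 hμ) g
      have e2 : Tendsto (fun n => ∫ x, g x ∂(μ0 n)) atTop (𝓝 y) :=
        (l0.congr c0 g y hg hy).congr fun n => (integral_muP (a0 n) g).symm
      rw [tendsto_nhds_unique e1 (e2.mono_left hU)]
      exact (l.congr c g y hg hy).congr fun n => (integral_muP (a n) g).symm
    | zero => simp
    | add f g _ _ hf hg =>
      simp only [coe_add, Pi.add_apply, integral_add (f.integrable _) (g.integrable _)]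
      exact hf.add hg
    | smul r f _ hf =>
      simp only [coe_smul, smul_eq_mul, integral_const_mul]
      exact hf.const_mul r
  intro f
  refine ((ProbabilityMeasure.tendsto_iff_forall_integral_tendsto.1 hν) f).congr'
    (c.mono fun n hn => ?_)
  simp only [← hn]
  exact integral_muP (a n) f

theorem main_Q1 (α : ℝ) (hα : 0 < α) (lam : ℝ) :
    ∃ μ : Measure (ℕ → ℝ), IsProbabilityMeasure μ ∧
      ∀ ε : ℕ → ℝ, Tendsto (fun n : ℕ => ε n * (n : ℝ) ^ (1 / 3 : ℝ)) atTop (𝓝 lam) →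
        ∀ f : (ℕ → ℝ) →ᵇ ℝ,
          Tendsto (fun n : ℕ => paExp α n ⌊(n : ℝ) * α / (2 * (α + 1)) * (1 + ε n)⌋₊ f)
            atTop (𝓝 (∫ x, f x ∂μ)) := by
  have r0 : 0 ≤ α⁻¹ := (inv_pos.2 hα).le
  have h : Tendsto (fun n : ℕ => lam / tt n * tt n) atTop (𝓝 lam) := by
    refine tendsto_const_nhds.congr' ?_
    filter_upwards [eventually_ge_atTop 1] with n hn
    rw [div_mul_cancel₀ _ (tt_pos hn).ne']
  have P := fun ε h => pa_lim (α := fun _ => α) (ε := ε) (lam := lam) (fun _ => hα)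
    tendsto_const_nhds h
  obtain ⟨μ, hμ, H⟩ := exists_measure (mo1_pos r0) (mo3_pos r0)
    (law_gamma (α := fun _ => α) (σ := fun n => 1 + lam / tt n) (lam := lam) (fun _ => hα)
      tendsto_const_nhds (by simpa [mul_comm] using h)).exists_adm (P _ h).1 (P _ h).2
  exact ⟨μ, hμ, fun ε hε f => H _ (P ε hε).1 (P ε hε).2 f⟩

theorem main_Q2 (lam : ℝ) :
    ∃ μ : Measure (ℕ → ℝ), IsProbabilityMeasure μ ∧
      (∀ f : (ℕ → ℝ) →ᵇ ℝ,
        Tendsto (fun n : ℕ => erExp n ⌊(n : ℝ) / 2 * (1 + lam * (n : ℝ) ^ (-(1 / 3) : ℝ))⌋₊ f)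
          atTop (𝓝 (∫ x, f x ∂μ))) ∧
      ∀ α : ℕ → ℝ, (∀ n, 0 < α n) → Tendsto α atTop atTop →
        ∀ ε : ℕ → ℝ, Tendsto (fun n : ℕ => ε n * (n : ℝ) ^ (1 / 3 : ℝ)) atTop (𝓝 lam) →
          ∀ f : (ℕ → ℝ) →ᵇ ℝ,
            Tendsto (fun n : ℕ => paExp (α n) n ⌊(n : ℝ) * α n / (2 * (α n + 1)) * (1 + ε n)⌋₊ f)
              atTop (𝓝 (∫ x, f x ∂μ)) := by
  have h : Tendsto (fun n : ℕ => lam / tt n * tt n) atTop (𝓝 lam) := by
    refine tendsto_const_nhds.congr' ?_
    filter_upwards [eventually_ge_atTop 1] with n hn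
    rw [div_mul_cancel₀ _ (tt_pos hn).ne']
  obtain ⟨μ, hμ, H⟩ := exists_measure (mo1_pos le_rfl) (mo3_pos le_rfl)
    (law_dirac (σ := fun n => 1 + lam / tt n) (lam := lam)
      (by simpa [mul_comm] using h)).exists_adm (er_lim lam).1 (er_lim lam).2
  refine ⟨μ, hμ, fun f => (H _ (er_lim lam).1 (er_lim lam).2 f).congr fun n => ?_,
    fun α hα hi ε hε f => ?_⟩
  · simp only [erExp_eq, div_mul_eq_mul_div, ← Finset.sum_div, SE]
  · have P := pa_lim hα hi.inv_tendsto_atTop hε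
    exact H _ P.1 P.2 f

end Pool.Agent.Work.MP_e39611_pr
end
end
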